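import Pool.Agent.Lib.MP_a1b8b7_co.B.MainS

/-!
# Assembly of the certificate
-/

set_option autoImplicit false

open Finset

namespace HR

namespace Fl

variable {V S D : Type}

theorem dat_perm (l : V → V → S → D) (hl : ∀ u v s, l u v s = l v u s) (π : Equiv.Perm (Fin 5))
    (a : Fin 5 → V) (F : Fin 10 → S) : dat l a F ∘ pe π = dat l (a ∘ π) (F ∘ pe π) := by
  funext e
  change l (a (src (pe π e))) (a (tgt (pe π e))) (F (pe π e)) = _
  rcases ends_pe π e with ⟨h1, h2⟩ | ⟨h1, h2⟩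
  · rw [h1, h2]
    rfl
  · rw [h1, h2, hl]
    rfl

/-- the sum over all vertex permutations of the pieces for `d` and for `d` with colours
exchanged -/
noncomputable def SA (D : ℕ) (GD PD TD : Tr) (d : Fin 10 → Bool × ℝ) : ℝ :=
  ∑ π : Equiv.Perm (Fin 5), (Apc D GD PD TD (d ∘ pe π) + Apc D GD PD TD (swd (d ∘ pe π)))

/-- the statement for the colourings with a given code -/
def LocOK (D : ℕ) (GD PD TD : Tr) (c : ℕ) : Prop :=
  ∀ d : Fin 10 → Bool × ℝ, AdmD d → codeB (fun e => (d e).1) = c → SA D GD PD TD d ≤ 0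

/-- colours of a code: digit number `e` -/
def OwnOK (D : ℕ) (t : Tr) (c : ℕ) : Prop :=
  ∀ d : Fin 10 → Bool × ℝ, AdmD d → codeB (fun e => (d e).1) = c →
    0 ≤ pol D 10 t (fun e => (d e).2)

theorem cn_lt (b : Bool) : cn b < 2 := by cases b <;> decide

theorem cn_not (b : Bool) : cn (!b) = 1 - cn b := by cases b <;> rfl

theorem dig2 {a b A B : ℕ} (ha : a < 2) (hb : b < 2) (h : a + 2 * A = b + 2 * B) :
    a = b ∧ A = B := by omega

theorem codeX_inj {X Y : Fin 10 → ℕ} (hX : ∀ e, X e < 2) (hY : ∀ e, Y e < 2)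
    (h : codeX X = codeX Y) : X = Y := by
  unfold codeX at h
  obtain ⟨e0, h⟩ := dig2 (hX 0) (hY 0) h
  obtain ⟨e1, h⟩ := dig2 (hX 1) (hY 1) h
  obtain ⟨e2, h⟩ := dig2 (hX 2) (hY 2) h
  obtain ⟨e3, h⟩ := dig2 (hX 3) (hY 3) h
  obtain ⟨e4, h⟩ := dig2 (hX 4) (hY 4) h
  obtain ⟨e5, h⟩ := dig2 (hX 5) (hY 5) h
  obtain ⟨e6, h⟩ := dig2 (hX 6) (hY 6) h
  obtain ⟨e7, h⟩ := dig2 (hX 7) (hY 7) h
  obtain ⟨e8, e9⟩ := dig2 (hX 8) (hY 8) h
  funext e
  fin_cases e
  · exact e0
  · exact e1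
  · exact e2
  · exact e3
  · exact e4
  · exact e5
  · exact e6
  · exact e7
  · exact e8
  · exact e9

/-- **One colouring**: main check plus the own part. `Z e = 1 - X e`. -/
theorem locOK_of (D : ℕ) (GD PD TD t : Tr) (X : Fin 10 → ℕ) (hX : ∀ e, X e < 2)
    (h : mainS GD PD TD t D (X 0) (X 1) (X 2) (X 3) (X 4) (X 5) (X 6) (X 7) (X 8) (X 9)
      (1 - X 0) (1 - X 1) (1 - X 2) (1 - X 3) (1 - X 4) (1 - X 5) (1 - X 6) (1 - X 7) (1 - X 8)
      (1 - X 9) = true)
    (ho : OwnOK D t (codeX X)) : LocOK D GD PD TD (codeX X) := by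
  intro d hd hc
  have h1 : (fun e => cn (d e).1) = X := codeX_inj (fun e => cn_lt _) hX hc
  have h2 : ∀ e, cn (d e).1 = X e := fun e => congrFun h1 e
  have h3 : ∀ e, cn (!(d e).1) = 1 - X e := fun e => by rw [cn_not, h2]
  have h4 := main_ineqS GD PD TD t D d hd.w0 (by simp only [h2, h3]; exact h)
  have h5 := ho d hd hc
  unfold SA
  linarith

/-- **One colouring** in the form that is used. -/
theorem locOK_own (D : ℕ) (GD PD TD t : Tr) (X : Fin 10 → ℕ) (c : ℕ) (hX : ∀ e, X e < 2)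
    (hc : codeX X = c)
    (h : mainS GD PD TD t D (X 0) (X 1) (X 2) (X 3) (X 4) (X 5) (X 6) (X 7) (X 8) (X 9)
      (1 - X 0) (1 - X 1) (1 - X 2) (1 - X 3) (1 - X 4) (1 - X 5) (1 - X 6) (1 - X 7) (1 - X 8)
      (1 - X 9) = true)
    (ho : OwnOK D t c) : LocOK D GD PD TD c := by
  subst hc
  exact locOK_of D GD PD TD t X hX h ho

/-- the own part in the form of a fixed colouring -/
theorem ownOK_col (D : ℕ) (t : Tr) (col : Fin 10 → Bool)
    (ho : ∀ w : Fin 10 → ℝ, AdmD (fun e => (col e, w e)) → 0 ≤ pol D 10 t w) :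
    OwnOK D t (codeB col) := by
  intro d hd hc
  have h1 : (fun e => cn (d e).1) = fun e => cn (col e) :=
    codeX_inj (fun e => cn_lt _) (fun e => cn_lt _) hc
  have h2 : ∀ e, (d e).1 = col e := by
    intro e
    have h3 := congrFun h1 e
    revert h3
    cases (d e).1 <;> cases col e <;> simp [cn]
  have h4 : d = fun e => (col e, (d e).2) := by
    funext e
    exact Prod.ext (h2 e) rfl
  have h5 : AdmD (fun e => (col e, (d e).2)) := by rwa [← h4]
  exact ho _ h5

/-- **One colouring** in the form that is used. -/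
theorem locOK_col (D : ℕ) (GD PD TD t : Tr) (col : Fin 10 → Bool) (c : ℕ) (hc : codeB col = c)
    (h : mainS GD PD TD t D (cn (col 0)) (cn (col 1)) (cn (col 2)) (cn (col 3)) (cn (col 4))
      (cn (col 5)) (cn (col 6)) (cn (col 7)) (cn (col 8)) (cn (col 9))
      (cn (!col 0)) (cn (!col 1)) (cn (!col 2)) (cn (!col 3)) (cn (!col 4))
      (cn (!col 5)) (cn (!col 6)) (cn (!col 7)) (cn (!col 8)) (cn (!col 9)) = true)
    (ho : ∀ w : Fin 10 → ℝ, AdmD (fun e => (col e, w e)) → 0 ≤ pol D 10 t w) :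
    LocOK D GD PD TD c := by
  subst hc
  refine locOK_of D GD PD TD t (fun e => cn (col e)) (fun e => cn_lt _) ?_ (ownOK_col D t col ho)
  simp only [cn_not] at h
  exact h

theorem SA_swd (D : ℕ) (GD PD TD : Tr) (d : Fin 10 → Bool × ℝ) :
    SA D GD PD TD (swd d) = SA D GD PD TD d := by
  unfold SA
  refine Finset.sum_congr rfl fun π _ => ?_
  have e1 : swd ((swd d) ∘ pe π) = d ∘ pe π := by
    funext e
    exact sw_sw _
  have e2 : (swd d) ∘ pe π = swd (d ∘ pe π) := rfl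
  rw [e1, e2, add_comm]

theorem SA_perm (D : ℕ) (GD PD TD : Tr) (d : Fin 10 → Bool × ℝ) (ρ : Equiv.Perm (Fin 5)) :
    SA D GD PD TD (d ∘ pe ρ) = SA D GD PD TD d := by
  unfold SA
  rw [← Equiv.sum_comp (Equiv.mulLeft ρ)
    (fun π => Apc D GD PD TD (d ∘ pe π) + Apc D GD PD TD (swd (d ∘ pe π)))]
  refine Finset.sum_congr rfl fun π _ => ?_
  have e1 : (d ∘ pe ρ) ∘ pe π = d ∘ pe (Equiv.mulLeft ρ π) := by
    funext e
    change d (pe ρ (pe π e)) = d (pe (ρ * π) e)
    rw [← pe_pe]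
  rw [e1]

theorem code_compl' (H : Fin 10 → Bool) : codeB (fun e => !H e) + codeB H = 1023 := by
  have h : ∀ e, cn (!H e) + cn (H e) = 1 := fun e => by cases H e <;> rfl
  unfold codeB codeX
  beta_reduce
  linarith [h 0, h 1, h 2, h 3, h 4, h 5, h 6, h 7, h 8, h 9]

theorem code_compl (H : Fin 10 → Bool) : codeB (fun e => !H e) = 1023 - codeB H := by
  have := code_compl' H
  generalize codeB (fun e => !H e) = a at *
  generalize codeB H = b at *
  omega

/-- **The certificate as a whole.** -/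
theorem model_of_parts (D : ℕ) (GD PD TD : Tr) (L : List ℕ)
    (hcan : (chk3 2 (leafC (L ++ L.map fun c => 1023 - c)) 0 0 0 &&
      chk3 2 (leafC (L ++ L.map fun c => 1023 - c)) 0 0 1 &&
      chk3 2 (leafC (L ++ L.map fun c => 1023 - c)) 0 1 1 &&
      chk3 2 (leafC (L ++ L.map fun c => 1023 - c)) 1 1 1) = true)
    (hL : ∀ c ∈ L, c ≤ 1023)
    (hloc : ∀ c ∈ L, LocOK D GD PD TD c)
    (hG : ∀ (n : ℕ) (x : Fin n → ℝ) (p wR wB : Fin n → Fin n → ℝ), Model x p wR wB →
      0 ≤ LL x (PC p) (lw wR wB) (Gpc D GD))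
    (hP : ∀ (n : ℕ) (x : Fin n → ℝ) (p wR wB : Fin n → Fin n → ℝ), Model x p wR wB →
      0 ≤ LL x (PC p) (lw wR wB) (Ppc D PD))
    (hT : ∀ (n : ℕ) (x : Fin n → ℝ) (p wR wB : Fin n → Fin n → ℝ), Model x p wR wB →
      rr x p wR < 1 / 10 → bb x p wB < 1 / 10 → 0 < LL x (PC p) (lw wR wB) (Tpc D TD) +
        LL x (PC fun u v => 1 - p u v) (lw wB wR) (Tpc D TD)) : S_Model := by
  intro n x p wR wB hM
  by_contra hlt
  rw [not_le, max_lt_iff] at hlt
  obtain ⟨hr, hb⟩ := hlt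
  have hpre := pre_of_model hM
  have hN := netC hpre
  have hl := lw_symm hpre
  have hM' := model_swap hM
  have h0 : ∀ g : (Fin 10 → Bool × ℝ) → ℝ, LL x (PC p) (lw wR wB) (fun d => g (swd d)) =
      LL x (PC fun u v => 1 - p u v) (lw wB wR) g := fun g => (LL_swap g).symm
  -- the functional of minus the sum is nonnegative
  have h1 : 0 ≤ LL x (PC p) (lw wR wB)
      (fun d => -(Apc D GD PD TD d + Apc D GD PD TD (swd d))) := by
    refine LL_nonneg_of_symm hN hl _ ?_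
    intro a F
    have e1 : (∑ π : Equiv.Perm (Fin 5), -(Apc D GD PD TD (dat (lw wR wB) a F ∘ pe π) +
        Apc D GD PD TD (swd (dat (lw wR wB) a F ∘ pe π)))) =
        -SA D GD PD TD (dat (lw wR wB) a F) := by
      unfold SA
      rw [Finset.sum_neg_distrib]
    rw [e1]
    refine neg_nonneg.2 ?_
    obtain ⟨ρ, hρ⟩ := canon_of _ hcan F
    rw [← SA_perm D GD PD TD _ ρ, dat_perm _ hl]
    set d := dat (lw wR wB) (a ∘ ρ) (F ∘ pe ρ) with hd
    have hA : AdmD d := admD_dat hM _ _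
    have hc : (fun e => (d e).1) = F ∘ pe ρ := rfl
    rcases List.mem_append.1 hρ with h2 | h2
    · exact hloc _ h2 d hA (by rw [hc])
    · obtain ⟨c, hc1, hc2⟩ := List.mem_map.1 h2
      have h3 := hloc c hc1 (swd d) (AdmD_sw hA) ?_
      · rwa [SA_swd] at h3
      · have e2 : (fun e => ((swd d) e).1) = fun e => !(F ∘ pe ρ) e := rfl
        rw [e2, code_compl, ← hc2]
        have := hL c hc1
        omega
  have h2 : LL x (PC p) (lw wR wB)
      (fun d => -(Apc D GD PD TD d + Apc D GD PD TD (swd d))) =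
      -(LL x (PC p) (lw wR wB) (Apc D GD PD TD) +
        LL x (PC fun u v => 1 - p u v) (lw wB wR) (Apc D GD PD TD)) := by
    have e1 := LL_smul x (PC p) (lw wR wB) (-1)
      (fun d => Apc D GD PD TD d + Apc D GD PD TD (swd d))
    rw [LL_add, h0] at e1
    simp only [neg_mul, one_mul] at e1
    exact e1
  have h3 : ∀ (x : Fin n → ℝ) (p wR wB : Fin n → Fin n → ℝ),
      LL x (PC p) (lw wR wB) (Apc D GD PD TD) = LL x (PC p) (lw wR wB) (Gpc D GD) +
        LL x (PC p) (lw wR wB) (Tpc D TD) + LL x (PC p) (lw wR wB) (Ppc D PD) := by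
    intro x p wR wB
    rw [← LL_add, ← LL_add]
    rfl
  rw [h2, h3, h3] at h1
  have g1 := hG n x p wR wB hM
  have g2 := hG n x _ _ _ hM'
  have p1 := hP n x p wR wB hM
  have p2 := hP n x _ _ _ hM'
  have t1 := hT n x p wR wB hM hr hb
  linarith

/-- empty tree for the P part -/
theorem pol_e (D n : ℕ) (w : Fin n → ℝ) : pol D n Tr.e w = 0 := by
  have h1 : ∀ i, Tr.get Tr.e i = Tr.e := by
    intro i
    induction i with
    | zero => rfl
    | succ i ih => exact ih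
  have h2 : ∀ (n : ℕ) (α : Fin n → ℕ), Tr.lookF n Tr.e α = Tr.e := by
    intro n
    induction n with
    | zero => intro α; rfl
    | succ n ih =>
      intro α
      change Tr.lookF n (Tr.get Tr.e (α 0)) _ = _
      rw [h1]
      exact ih _
  unfold pol
  refine Finset.sum_eq_zero fun α _ => ?_
  rw [h2, Tr.z_e]
  simp

theorem get_e (i : ℕ) : Tr.get Tr.e i = Tr.e := by
  induction i with
  | zero => rfl
  | succ i ih => exact ih

theorem hP_e (D : ℕ) (n : ℕ) (x : Fin n → ℝ) (p wR wB : Fin n → Fin n → ℝ)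
    (_ : Model x p wR wB) : 0 ≤ LL x (PC p) (lw wR wB) (Ppc D Tr.e) := by
  have h : (Ppc D Tr.e) = fun _ => 0 := by
    funext d
    unfold Ppc
    rw [get_e, get_e]
    exact pol_e _ _ _
  rw [h]
  unfold LL
  simp

end Fl

end HR
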