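import Pool.Agent.Lib.MP_a1b8b7_co.HR.All

/-!
# From weighted models to fractional covers of graphs

`Model x p wR wB`: vertex weights `x` in the simplex, `p u v` = probability that the pair `u v`
(loops included) is red, `wR`, `wB` symmetric weights of all pairs with all (also degenerate)
triple sums at least one.  `S_Model`: `max (r, b) ≥ 1/10` for every model.
-/

set_option autoImplicit false

open Finset

namespace HR

structure Model {n : ℕ} (x : Fin n → ℝ) (p wR wB : Fin n → Fin n → ℝ) : Prop where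
  x0 : ∀ u, 0 ≤ x u
  x1 : ∑ u, x u = 1
  p0 : ∀ u v, 0 ≤ p u v
  p1 : ∀ u v, p u v ≤ 1
  ps : ∀ u v, p u v = p v u
  R0 : ∀ u v, 0 ≤ wR u v
  R1 : ∀ u v, wR u v ≤ 1
  Rs : ∀ u v, wR u v = wR v u
  Rt : ∀ u v t, 1 ≤ wR u v + wR v t + wR u t
  Rl : ∀ u, wR u u = 1
  B0 : ∀ u v, 0 ≤ wB u v
  B1 : ∀ u v, wB u v ≤ 1
  Bs : ∀ u v, wB u v = wB v u
  Bt : ∀ u v t, 1 ≤ wB u v + wB v t + wB u t
  Bl : ∀ u, wB u u = 1

/-- red weight of a model -/
def rr {n : ℕ} (x : Fin n → ℝ) (p wR : Fin n → Fin n → ℝ) : ℝ :=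
  ∑ u, ∑ v, x u * x v * (p u v * wR u v)

/-- blue weight of a model -/
def bb {n : ℕ} (x : Fin n → ℝ) (p wB : Fin n → Fin n → ℝ) : ℝ :=
  ∑ u, ∑ v, x u * x v * ((1 - p u v) * wB u v)

/-- The bound for models. -/
def S_Model : Prop := ∀ (n : ℕ) (x : Fin n → ℝ) (p wR wB : Fin n → Fin n → ℝ),
  Model x p wR wB → 1 / 10 ≤ max (rr x p wR) (bb x p wB)

/-- the sum of a function on `Sym2` that vanishes on the diagonal -/
theorem sum_pairs {n : ℕ} (w : Sym2 (Fin n) → ℝ) (hw : ∀ u, w s(u, u) = 0) :
    ∑ u : Fin n, ∑ v : Fin n, w s(u, v) = 2 * ∑ e, w e := by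
  classical
  rw [← Finset.sum_product', Finset.mul_sum]
  have h1 : ∑ q ∈ (univ : Finset (Fin n)) ×ˢ (univ : Finset (Fin n)), w s(q.1, q.2) =
      ∑ e : Sym2 (Fin n), ∑ q ∈ ((univ : Finset (Fin n)) ×ˢ (univ : Finset (Fin n))).filter
        (fun q => s(q.1, q.2) = e), w s(q.1, q.2) :=
    (Finset.sum_fiberwise _ _ _).symm
  rw [h1]
  refine Finset.sum_congr rfl fun e _ => ?_
  induction e using Sym2.ind with
  | _ a b =>
    by_cases hab : a = b
    · subst hab
      rw [hw a, mul_zero]
      refine Finset.sum_eq_zero fun q hq => ?_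
      rw [(Finset.mem_filter.1 hq).2, hw a]
    · have h2 : ((univ : Finset (Fin n)) ×ˢ (univ : Finset (Fin n))).filter
          (fun q => s(q.1, q.2) = s(a, b)) = {(a, b), (b, a)} := by
        ext q
        simp only [Finset.mem_filter, Finset.mem_product, Finset.mem_univ, true_and, Sym2.eq_iff,
          Finset.mem_insert, Finset.mem_singleton, Prod.ext_iff]
      rw [h2, Finset.sum_insert, Finset.sum_singleton]
      · have : s(b, a) = s(a, b) := Sym2.eq_swap
        simp only [this]
        ring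
      · simp only [Finset.mem_singleton, Prod.ext_iff, not_and]
        intro h _
        exact hab h

theorem bridge (hM : S_Model) : S_Bound := by
  classical
  intro ε hε
  obtain ⟨N, hN⟩ := exists_nat_ge (1 / ε)
  refine ⟨max N 1, fun n hn G wR wB hR hB => ?_⟩
  have hn1 : 1 ≤ n := (le_max_right _ _).trans hn
  have hn0 : (0 : ℝ) < n := by exact_mod_cast hn1
  have hnN : 1 / ε ≤ n := hN.trans (by exact_mod_cast (le_max_left _ _).trans hn)
  -- the model
  set x : Fin n → ℝ := fun _ => 1 / n with hx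
  set p : Fin n → Fin n → ℝ := fun u v => if u = v then 1 / 2 else if G.Adj u v then 1 else 0
    with hp
  set vR : Fin n → Fin n → ℝ := fun u v => if G.Adj u v then wR s(u, v) else 1 with hvR
  set vB : Fin n → Fin n → ℝ := fun u v => if Gᶜ.Adj u v then wB s(u, v) else 1 with hvB
  have gen : ∀ (Γ : SimpleGraph (Fin n)) [DecidableRel Γ.Adj] (w : Sym2 (Fin n) → ℝ), Cover Γ w →
      ∀ u v t,
      1 ≤ (if Γ.Adj u v then w s(u, v) else 1) + (if Γ.Adj v t then w s(v, t) else 1) +
        (if Γ.Adj u t then w s(u, t) else 1) := by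
    intro Γ _ w hw u v t
    have h1 := hw.nn s(u, v)
    have h2 := hw.nn s(v, t)
    have h3 := hw.nn s(u, t)
    by_cases a : Γ.Adj u v <;> by_cases b : Γ.Adj v t <;> by_cases c : Γ.Adj u t <;>
      simp only [a, b, c, if_true, if_false] <;> try linarith
    exact hw.cov u v t a b c
  have hmod : Model x p vR vB := by
    refine ⟨?_, ?_, ?_, ?_, ?_, ?_, ?_, ?_, gen G wR hR, ?_, ?_, ?_, ?_, gen Gᶜ wB hB, ?_⟩
    · intro u; simp only [hx]; positivity
    · simp only [hx, Finset.sum_const, Finset.card_univ, Fintype.card_fin, nsmul_eq_mul]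
      field_simp
    · intro u v; simp only [hp]; split_ifs <;> norm_num
    · intro u v; simp only [hp]; split_ifs <;> norm_num
    · intro u v
      simp only [hp]
      by_cases h : u = v
      · rw [if_pos h, if_pos h.symm]
      · rw [if_neg h, if_neg (Ne.symm h)]
        simp only [G.adj_comm u v]
    · intro u v; simp only [hvR]; split_ifs
      · exact hR.nn _
      · norm_num
    · intro u v; simp only [hvR]; split_ifs
      · exact hR.le _
      · norm_num
    · intro u v; simp only [hvR, G.adj_comm u v, Sym2.eq_swap (a := u) (b := v)]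
    · intro u; simp [hvR]
    · intro u v; simp only [hvB]; split_ifs
      · exact hB.nn _
      · norm_num
    · intro u v; simp only [hvB]; split_ifs
      · exact hB.le _
      · norm_num
    · intro u v; simp only [hvB, Gᶜ.adj_comm u v, Sym2.eq_swap (a := u) (b := v)]
    · intro u; simp [hvB]
  have hdiag : ∀ (Γ : SimpleGraph (Fin n)) (w : Sym2 (Fin n) → ℝ), Cover Γ w → ∀ u,
      w s(u, u) = 0 := fun Γ w hw u => hw.off _ (by simp)
  have hr : rr x p vR = (2 * ∑ e, wR e) / (n : ℝ) ^ 2 + 1 / (2 * (n : ℝ)) := by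
    have h1 : ∀ u v : Fin n, x u * x v * (p u v * vR u v) =
        (1 / (n : ℝ) ^ 2) * wR s(u, v) + (if u = v then 1 / (2 * (n : ℝ) ^ 2) else 0) := by
      intro u v
      by_cases h : u = v
      · subst h
        simp only [hx, hp, hvR, if_true, SimpleGraph.irrefl, if_false, hdiag G wR hR u]
        field_simp
        ring
      · by_cases ha : G.Adj u v
        · simp only [hx, hp, hvR, h, ha, if_true, if_false]
          field_simp
          ring
        · have h0 : wR s(u, v) = 0 := hR.off _ (by simpa using ha)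
          simp only [hx, hp, hvR, h, ha, if_false, h0]
          ring
    unfold rr
    simp only [h1, Finset.sum_add_distrib, ← Finset.mul_sum, Finset.sum_ite_eq, Finset.mem_univ,
      if_true, Finset.sum_const, Finset.card_univ, Fintype.card_fin, nsmul_eq_mul]
    rw [sum_pairs wR (hdiag G wR hR)]
    field_simp
  have hb : bb x p vB = (2 * ∑ e, wB e) / (n : ℝ) ^ 2 + 1 / (2 * (n : ℝ)) := by
    have h1 : ∀ u v : Fin n, x u * x v * ((1 - p u v) * vB u v) =
        (1 / (n : ℝ) ^ 2) * wB s(u, v) + (if u = v then 1 / (2 * (n : ℝ) ^ 2) else 0) := by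
      intro u v
      by_cases h : u = v
      · subst h
        simp only [hx, hp, hvB, if_true, SimpleGraph.irrefl, if_false, hdiag Gᶜ wB hB u]
        field_simp
        ring
      · by_cases ha : G.Adj u v
        · have hc : ¬ Gᶜ.Adj u v := by simp [ha]
          have h0 : wB s(u, v) = 0 := hB.off _ (by simpa using fun _ => ha)
          simp only [hx, hp, hvB, h, ha, hc, if_true, if_false, h0]
          ring
        · have hc : Gᶜ.Adj u v := by simp [ha, h]
          simp only [hx, hp, hvB, h, ha, hc, if_true, if_false]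
          field_simp
          ring
    unfold bb
    simp only [h1, Finset.sum_add_distrib, ← Finset.mul_sum, Finset.sum_ite_eq, Finset.mem_univ,
      if_true, Finset.sum_const, Finset.card_univ, Fintype.card_fin, nsmul_eq_mul]
    rw [sum_pairs wB (hdiag Gᶜ wB hB)]
    field_simp
  have hmain := hM n x p vR vB hmod
  rw [hr, hb] at hmain
  have key : ∀ s : ℝ, 1 / 10 ≤ (2 * s) / (n : ℝ) ^ 2 + 1 / (2 * (n : ℝ)) → (1 / 20 - ε) * (n : ℝ) ^ 2 ≤ s := by
    intro s hs
    have h1 : (1 / 10 : ℝ) * n ^ 2 ≤ 2 * s + n / 2 := by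
      have h2 := mul_le_mul_of_nonneg_right hs (by positivity : (0 : ℝ) ≤ (n : ℝ) ^ 2)
      have h3 : ((2 * s) / (n : ℝ) ^ 2 + 1 / (2 * (n : ℝ))) * (n : ℝ) ^ 2 = 2 * s + n / 2 := by
        field_simp
      rw [h3] at h2
      exact h2
    have h4 : 1 ≤ ε * n := by
      rw [div_le_iff₀ hε] at hnN
      linarith
    nlinarith
  rcases le_max_iff.1 hmain with h | h
  · exact (key _ h).trans (le_max_left _ _)
  · exact (key _ h).trans (le_max_right _ _)

/-- Jacobson's problem follows from the bound for models. -/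
theorem jacobson_of_model (hM : S_Model) :
    ∀ ε : ℝ, 0 < ε → ∃ N : ℕ, ∀ n : ℕ, N ≤ n → ∀ G : SimpleGraph (Fin n),
      ∃ H : SimpleGraph (Fin n), (H = G ∨ H = Gᶜ) ∧
        ∃ P : Finset (Finset (Fin n)),
          (∀ t ∈ P, H.IsNClique 3 t) ∧
          (∀ t ∈ P, ∀ s ∈ P, t ≠ s → (t ∩ s).card ≤ 1) ∧
          ((1 : ℝ) / 20 - ε) * (n : ℝ) ^ 2 ≤ (P.card : ℝ) :=
  jacobson (bridge hM)

end HR
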