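import Pool.Agent.Lib.MP_a1b8b7_co.B.Asm

/-!
# The eighteen classes of two-colourings of five vertices modulo the exchange of the colours
-/

set_option autoImplicit false

namespace HR

namespace Fl

/-- representatives -/
def L18 : List ℕ := [0, 1, 3, 7, 11, 12, 13, 15, 30, 31, 63, 76, 77, 86, 87, 94, 116, 236]

/-- with complements -/
def L36 : List ℕ := [nat_lit 0, nat_lit 1, nat_lit 3, nat_lit 7, nat_lit 11, nat_lit 12, nat_lit 13, nat_lit 15, nat_lit 30, nat_lit 31, nat_lit 63, nat_lit 76, nat_lit 77, nat_lit 86, nat_lit 87, nat_lit 94, nat_lit 116, nat_lit 236, nat_lit 1023, nat_lit 1022, nat_lit 1020, nat_lit 1016, nat_lit 1012, nat_lit 1011, nat_lit 1010, nat_lit 1008, nat_lit 993, nat_lit 992, nat_lit 960, nat_lit 947, nat_lit 946, nat_lit 937, nat_lit 936, nat_lit 929, nat_lit 907, nat_lit 787]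

theorem L36_eq : (L18 ++ L18.map fun c => 1023 - c) = L36 := by decide

theorem L18_le : ∀ c ∈ L18, c ≤ 1023 := by decide

theorem can0 : chk3 2 (leafC L36) 0 0 0 = true := by decide +kernel
theorem can1 : chk3 2 (leafC L36) 0 0 1 = true := by decide +kernel
theorem can2 : chk3 2 (leafC L36) 0 1 1 = true := by decide +kernel
theorem can3 : chk3 2 (leafC L36) 1 1 1 = true := by decide +kernel

theorem can18 : (chk3 2 (leafC (L18 ++ L18.map fun c => 1023 - c)) 0 0 0 &&
      chk3 2 (leafC (L18 ++ L18.map fun c => 1023 - c)) 0 0 1 &&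
      chk3 2 (leafC (L18 ++ L18.map fun c => 1023 - c)) 0 1 1 &&
      chk3 2 (leafC (L18 ++ L18.map fun c => 1023 - c)) 1 1 1) = true := by
  rw [L36_eq, can0, can1, can2, can3]
  rfl

end Fl

end HR
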