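import Pool.Agent.Lib.MP_a1b8b7_co.B.MainC

/-!
# Representatives of the two-colourings of five vertices
-/

set_option autoImplicit false

open Finset

namespace HR

namespace Fl

/-- ten numbers as a function (fast for the kernel) -/
noncomputable def X10 (d0 d1 d2 d3 d4 d5 d6 d7 d8 d9 : ℕ) (e : Fin 10) : ℕ :=
  Nat.rec (motive := fun _ => ℕ) d0 (fun n _ => Nat.rec (motive := fun _ => ℕ) d1 (fun n _ =>
    Nat.rec (motive := fun _ => ℕ) d2 (fun n _ => Nat.rec (motive := fun _ => ℕ) d3 (fun n _ =>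
    Nat.rec (motive := fun _ => ℕ) d4 (fun n _ => Nat.rec (motive := fun _ => ℕ) d5 (fun n _ =>
    Nat.rec (motive := fun _ => ℕ) d6 (fun n _ => Nat.rec (motive := fun _ => ℕ) d7 (fun n _ =>
    Nat.rec (motive := fun _ => ℕ) d8 (fun _ _ => d9) n) n) n) n) n) n) n) n) e.1

theorem X10_eq (F : Fin 10 → ℕ) :
    X10 (F 0) (F 1) (F 2) (F 3) (F 4) (F 5) (F 6) (F 7) (F 8) (F 9) = F := by
  funext e
  fin_cases e <;> rfl

/-- code of ten digits: the digit of the pair number `e` has weight `2 ^ e` -/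
def codeX (X : Fin 10 → ℕ) : ℕ :=
  X 0 + 2 * (X 1 + 2 * (X 2 + 2 * (X 3 + 2 * (X 4 + 2 * (X 5 + 2 * (X 6 + 2 * (X 7 + 2 *
    (X 8 + 2 * X 9))))))))

/-- code of a colouring -/
def codeB (H : Fin 10 → Bool) : ℕ := codeX fun e => cn (H e)

/-- some vertex permutation leads to a code in the list -/
noncomputable def leafC (L : List ℕ) (d0 d1 d2 d3 d4 d5 d6 d7 d8 d9 : ℕ) : Bool :=
  (prods R10 H12).any fun φ =>
    L.any fun c => Nat.beq c (codeX (X10 d0 d1 d2 d3 d4 d5 d6 d7 d8 d9 ∘ pf φ))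

theorem canon_of (L : List ℕ)
    (h : (chk3 2 (leafC L) 0 0 0 && chk3 2 (leafC L) 0 0 1 && chk3 2 (leafC L) 0 1 1 &&
      chk3 2 (leafC L) 1 1 1) = true) (H : Fin 10 → Bool) :
    ∃ ρ : Equiv.Perm (Fin 5), codeB (H ∘ pe ρ) ∈ L := by
  rw [Bool.and_eq_true, Bool.and_eq_true, Bool.and_eq_true] at h
  obtain ⟨⟨⟨h0, h1⟩, h2⟩, h3⟩ := h
  have hall : ∀ d0 d1 d2 : ℕ, d0 ≤ d1 → d1 ≤ d2 → d2 < 2 →
      chk3 2 (leafC L) d0 d1 d2 = true := by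
    intro d0 d1 d2 a b c
    have e : (d0 = 0 ∧ d1 = 0 ∧ d2 = 0) ∨ (d0 = 0 ∧ d1 = 0 ∧ d2 = 1) ∨
        (d0 = 0 ∧ d1 = 1 ∧ d2 = 1) ∨ (d0 = 1 ∧ d1 = 1 ∧ d2 = 1) := by omega
    rcases e with ⟨e0, e1, e2⟩ | ⟨e0, e1, e2⟩ | ⟨e0, e1, e2⟩ | ⟨e0, e1, e2⟩
    · rw [e0, e1, e2]; exact h0
    · rw [e0, e1, e2]; exact h1
    · rw [e0, e1, e2]; exact h2
    · rw [e0, e1, e2]; exact h3
  have hc : ∀ b : Bool, cn b < 2 := by
    intro b; cases b <;> decide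
  let F : Fin 10 → Fin 2 := fun e => ⟨cn (H e), hc (H e)⟩
  obtain ⟨ρ, hρ⟩ := exists_leaf (leafC L) hall F
  unfold leafC at hρ
  rw [List.any_eq_true] at hρ
  obtain ⟨φ, hφ, hc'⟩ := hρ
  rw [List.any_eq_true] at hc'
  obtain ⟨c, hcL, hcc⟩ := hc'
  have hcc' := Nat.eq_of_beq_eq_true hcc
  have hinj := inj_prods _ _ injR10 injH12 φ hφ
  let σ : Equiv.Perm (Fin 5) := Equiv.ofBijective φ (Finite.injective_iff_bijective.1 hinj)
  refine ⟨ρ * σ, ?_⟩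
  have e1 : codeB (H ∘ pe (ρ * σ)) = c := by
    rw [hcc', X10_eq (fun e => ((F ∘ pe ρ) e : ℕ))]
    unfold codeB
    congr 1
    funext e
    change cn (H (pe (ρ * σ) e)) = cn (H (pe ρ (pf φ e)))
    rw [← pe_pe]
    rfl
  rw [e1]
  exact hcL

end Fl

end HR
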