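import Pool.Agent.Lib.MP_a1b8b7_co.B.PPart

/-!
# The T part of the certificate

The pieces depending on three vertices and the last pair have the form
`K (d 0, d 1, d 2) * (1 - 10 wtR (d 9))`, where
`K = (products of factors) + (psd form in d 0, d 1) + δ (1 - 10 wtB (d 0))`.
-/

set_option autoImplicit false

open Finset MvPolynomial

namespace HR

namespace Fl

namespace GP

open Tr

/-! ### Two functionals -/

section fun3

variable {V S D : Type} [Fintype V] [Fintype S]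

theorem LL3_two {x : V → ℝ} {P : V → V → S → ℝ} (hN : Net x P) (l : V → V → S → D)
    (k k' : D → ℝ) :
    LL3 x P l (fun A => k (A 0) * k' (A 1)) = ∑ u, x u * (ddeg x P l k u * ddeg x P l k' u) := by
  let e3 : (V × V) × V ≃ (Fin 3 → V) :=
    { toFun := fun z => ![z.1.1, z.1.2, z.2]
      invFun := fun g => ((g 0, g 1), g 2)
      left_inv := fun _ => rfl
      right_inv := fun g => by
        funext i
        fin_cases i <;> rfl }
  let s3 : (S × S) × S ≃ (Fin 3 → S) :=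
    { toFun := fun z => ![z.1.1, z.1.2, z.2]
      invFun := fun g => ((g 0, g 1), g 2)
      left_inv := fun _ => rfl
      right_inv := fun g => by
        funext i
        fin_cases i <;> rfl }
  unfold LL3
  rw [← Equiv.sum_comp e3, Fintype.sum_prod_type, Fintype.sum_prod_type]
  refine Finset.sum_congr rfl fun u _ => ?_
  have h1 : ∀ v t : V, ∑ A : Fin 3 → S, W3 x P (e3 ((u, v), t)) A *
      (k (da3 l (e3 ((u, v), t)) A 0) * k' (da3 l (e3 ((u, v), t)) A 1)) =
      x u * ((x v * ∑ s, P u v s * k (l u v s)) * (x t * ∑ s, P u t s * k' (l u t s))) := by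
    intro v t
    rw [← Equiv.sum_comp s3, Fintype.sum_prod_type, Fintype.sum_prod_type]
    have h2 : ∀ r s : S, ∑ q : S, W3 x P (e3 ((u, v), t)) (s3 ((r, s), q)) *
        (k (da3 l (e3 ((u, v), t)) (s3 ((r, s), q)) 0) *
          k' (da3 l (e3 ((u, v), t)) (s3 ((r, s), q)) 1)) =
        (x u * (x v * x t)) * ((P u v r * k (l u v r)) * (P u t s * k' (l u t s))) := by
      intro r s
      have h3 : ∀ q : S, W3 x P (e3 ((u, v), t)) (s3 ((r, s), q)) *
        (k (da3 l (e3 ((u, v), t)) (s3 ((r, s), q)) 0) *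
          k' (da3 l (e3 ((u, v), t)) (s3 ((r, s), q)) 1)) =
          ((x u * (x v * x t)) * ((P u v r * k (l u v r)) * (P u t s * k' (l u t s)))) *
            P v t q := by
        intro q
        change ((x u * x v * x t) * (P u v r * P u t s * P v t q)) *
          (k (l u v r) * k' (l u t s)) = _
        ring
      rw [Finset.sum_congr rfl fun q _ => h3 q, ← Finset.mul_sum, hN.P1, mul_one]
    rw [Finset.sum_congr rfl fun r _ => Finset.sum_congr rfl fun s _ => h2 r s]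
    rw [Finset.mul_sum, Finset.mul_sum, Finset.sum_mul_sum, Finset.mul_sum]
    refine Finset.sum_congr rfl fun r _ => ?_
    rw [Finset.mul_sum]
    refine Finset.sum_congr rfl fun s _ => ?_
    ring
  rw [Finset.sum_congr rfl fun v _ => Finset.sum_congr rfl fun t _ => h1 v t]
  unfold ddeg
  rw [Finset.sum_mul_sum, Finset.mul_sum]
  refine Finset.sum_congr rfl fun v _ => ?_
  exact (Finset.mul_sum _ _ _).symm

theorem LL3_one {x : V → ℝ} {P : V → V → S → ℝ} (hN : Net x P) (l : V → V → S → D)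
    (k : D → ℝ) : LL3 x P l (fun A => k (A 0)) = LL2 x P l k := by
  have h1 := LL3_two hN l k fun _ => 1
  have h2 : (fun A : Fin 3 → D => k (A 0) * (fun _ : D => (1 : ℝ)) (A 1)) = fun A => k (A 0) := by
    funext A
    rw [mul_one]
  rw [h2] at h1
  rw [h1]
  have h3 : ∀ u, ddeg x P l (fun _ => 1) u = 1 := by
    intro u
    unfold ddeg
    simp only [mul_one, hN.P1, hN.x1]
  simp only [h3, mul_one]
  unfold LL2 ddeg
  refine Finset.sum_congr rfl fun u _ => ?_
  rw [Finset.mul_sum]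
  refine Finset.sum_congr rfl fun v _ => ?_
  ring

theorem LL3_add' (x : V → ℝ) (P : V → V → S → ℝ) (l : V → V → S → D) (H K : (Fin 3 → D) → ℝ) :
    LL3 x P l (fun A => H A + K A) = LL3 x P l H + LL3 x P l K := by
  unfold LL3
  simp only [mul_add, Finset.sum_add_distrib]

theorem LL3_sum {ι : Type} (s : Finset ι) (x : V → ℝ) (P : V → V → S → ℝ) (l : V → V → S → D)
    (H : ι → (Fin 3 → D) → ℝ) :
    LL3 x P l (fun A => ∑ i ∈ s, H i A) = ∑ i ∈ s, LL3 x P l (H i) := by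
  unfold LL3
  simp only [Finset.mul_sum]
  calc _ = ∑ a : Fin 3 → V, ∑ i ∈ s, ∑ A : Fin 3 → S, W3 x P a A * H i (da3 l a A) :=
        Finset.sum_congr rfl fun a _ => Finset.sum_comm
    _ = _ := Finset.sum_comm

theorem LL3_smul (x : V → ℝ) (P : V → V → S → ℝ) (l : V → V → S → D) (c : ℝ)
    (H : (Fin 3 → D) → ℝ) : LL3 x P l (fun A => c * H A) = c * LL3 x P l H := by
  unfold LL3
  simp only [Finset.mul_sum]
  exact Finset.sum_congr rfl fun a _ => Finset.sum_congr rfl fun F _ => by ring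

/-- psd forms in the first two pairs -/
theorem LL3_psd {N : ℕ} {x : V → ℝ} {P : V → V → S → ℝ} (hN : Net x P) (l : V → V → S → D)
    (Q : ℕ → ℕ → ℝ) (φ : ℕ → D → ℝ)
    (hQ : ∀ y : Fin N → ℝ, 0 ≤ ∑ i : Fin N, ∑ j : Fin N, Q i j * (y i * y j)) :
    0 ≤ LL3 x P l (fun A => ∑ i : Fin N, ∑ j : Fin N, Q i j * (φ i (A 0) * φ j (A 1))) := by
  have h1 : LL3 x P l (fun A => ∑ i : Fin N, ∑ j : Fin N, Q i j * (φ i (A 0) * φ j (A 1))) =
      ∑ u, x u * ∑ i : Fin N, ∑ j : Fin N,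
        Q i j * (ddeg x P l (φ i) u * ddeg x P l (φ j) u) := by
    rw [LL3_sum]
    have h2 : ∀ i : Fin N, LL3 x P l (fun A => ∑ j : Fin N, Q i j * (φ i (A 0) * φ j (A 1))) =
        ∑ j : Fin N, Q i j * ∑ u, x u * (ddeg x P l (φ i) u * ddeg x P l (φ j) u) := by
      intro i
      rw [LL3_sum]
      refine Finset.sum_congr rfl fun j _ => ?_
      rw [LL3_smul, LL3_two hN l (φ i) (φ j)]
    rw [Finset.sum_congr rfl fun i _ => h2 i]
    simp only [Finset.mul_sum]
    calc ∑ i : Fin N, ∑ j : Fin N, ∑ u, Q i j * (x u * (ddeg x P l (φ i) u * ddeg x P l (φ j) u))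
        = ∑ i : Fin N, ∑ u, ∑ j : Fin N,
          Q i j * (x u * (ddeg x P l (φ i) u * ddeg x P l (φ j) u)) :=
          Finset.sum_congr rfl fun i _ => Finset.sum_comm
      _ = ∑ u, ∑ i : Fin N, ∑ j : Fin N,
          Q i j * (x u * (ddeg x P l (φ i) u * ddeg x P l (φ j) u)) := Finset.sum_comm
      _ = _ := by
          refine Finset.sum_congr rfl fun u _ => Finset.sum_congr rfl fun i _ =>
            Finset.sum_congr rfl fun j _ => ?_
          ring
  rw [h1]
  exact Finset.sum_nonneg fun u _ => mul_nonneg (hN.x0 u) (hQ fun i => ddeg x P l (φ i) u)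

end fun3

/-! ### The polynomial of a tree with four levels -/

/-- four variables -/
def v4 {R : Type} (U : Fin 3 → R) (v : R) : Fin 4 → R := ![U 0, U 1, U 2, v]

theorem pol4 (D : ℕ) (hD : D < 5) (T : Tr) (U : Fin 3 → ℝ) (v : ℝ) :
    pol D 4 T (v4 U v) = ((Bl D).map fun g => mv U g * ∑ k ∈ range (D - dg g + 1),
      ((get (look3 T g) k).z : ℝ) * v ^ k).sum := by
  let e4 : (Fin 3 → Fin (D + 1)) × Fin (D + 1) ≃ (Fin 4 → Fin (D + 1)) :=
    { toFun := fun z => v4 z.1 z.2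
      invFun := fun g => (![g 0, g 1, g 2], g 3)
      left_inv := fun z => by
        refine Prod.ext ?_ ?_
        · funext i
          fin_cases i <;> rfl
        · rfl
      right_inv := fun g => by
        funext i
        fin_cases i <;> rfl }
  unfold pol
  rw [← Equiv.sum_comp e4, Fintype.sum_prod_type]
  have h2 : ∀ β : Fin 3 → Fin (D + 1), ∑ γ : Fin (D + 1),
      (if ∑ i, ((e4 (β, γ) i : Fin (D + 1)) : ℕ) ≤ D then
        ((lookF 4 T fun i => ((e4 (β, γ) i : Fin (D + 1)) : ℕ)).z : ℝ) *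
          ∏ i, v4 U v i ^ ((e4 (β, γ) i : Fin (D + 1)) : ℕ) else 0) =
      if (β 0 : ℕ) + β 1 + β 2 ≤ D then
        (U 0 ^ (β 0 : ℕ) * U 1 ^ (β 1 : ℕ) * U 2 ^ (β 2 : ℕ)) *
          ∑ k ∈ range (D - ((β 0 : ℕ) + β 1 + β 2) + 1),
          ((get (get (get (get T (β 0)) (β 1)) (β 2)) k).z : ℝ) * v ^ k else 0 := by
    intro β
    have h1 : ∀ γ : Fin (D + 1), (if ∑ i, ((e4 (β, γ) i : Fin (D + 1)) : ℕ) ≤ D then
        ((lookF 4 T fun i => ((e4 (β, γ) i : Fin (D + 1)) : ℕ)).z : ℝ) *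
          ∏ i, v4 U v i ^ ((e4 (β, γ) i : Fin (D + 1)) : ℕ) else 0) =
        if (γ : ℕ) + ((β 0 : ℕ) + β 1 + β 2) ≤ D then
        (U 0 ^ (β 0 : ℕ) * U 1 ^ (β 1 : ℕ) * U 2 ^ (β 2 : ℕ)) *
          (((get (get (get (get T (β 0)) (β 1)) (β 2)) γ).z : ℝ) * v ^ (γ : ℕ)) else 0 := by
      intro γ
      have s1 : ∑ i, ((e4 (β, γ) i : Fin (D + 1)) : ℕ) = (γ : ℕ) + ((β 0 : ℕ) + β 1 + β 2) := by
        rw [Fin.sum_univ_four, add_comm (γ : ℕ)]
        rfl
      have s2 : ∏ i, v4 U v i ^ ((e4 (β, γ) i : Fin (D + 1)) : ℕ) =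
          U 0 ^ (β 0 : ℕ) * U 1 ^ (β 1 : ℕ) * U 2 ^ (β 2 : ℕ) * v ^ (γ : ℕ) := by
        rw [Fin.prod_univ_four]
        rfl
      have s3 : (lookF 4 T fun i => ((e4 (β, γ) i : Fin (D + 1)) : ℕ)) =
          get (get (get (get T (β 0)) (β 1)) (β 2)) γ := rfl
      rw [s1, s2, s3]
      split_ifs
      · ring
      · rfl
    rw [Finset.sum_congr rfl fun γ _ => h1 γ]
    rw [← Finset.sum_range (fun k => if k + ((β 0 : ℕ) + β 1 + β 2) ≤ D then
        (U 0 ^ (β 0 : ℕ) * U 1 ^ (β 1 : ℕ) * U 2 ^ (β 2 : ℕ)) *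
          (((get (get (get (get T (β 0)) (β 1)) (β 2)) k).z : ℝ) * v ^ k) else 0)]
    split_ifs with hb
    · rw [Finset.mul_sum]
      symm
      refine Finset.sum_subset_zero_on_sdiff (Finset.range_subset_range.2 (by omega)) ?_ ?_
      · intro k hk
        rw [Finset.mem_sdiff, Finset.mem_range, Finset.mem_range] at hk
        exact if_neg (by omega)
      · intro k hk
        rw [Finset.mem_range] at hk
        rw [if_pos (by omega)]
    · refine Finset.sum_eq_zero fun k _ => if_neg (by omega)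
  rw [Finset.sum_congr rfl fun β _ => h2 β]
  have h3 := sum_three' D D le_rfl hD
    (fun b0 b1 b2 => (U 0 ^ b0 * U 1 ^ b1 * U 2 ^ b2) * ∑ k ∈ range (D - (b0 + b1 + b2) + 1),
          ((get (get (get (get T b0) b1) b2) k).z : ℝ) * v ^ k)
  exact h3

/-! ### Data and polynomials -/

/-- data of the T part: for every colour code of the triple the rows (multiplier, factors); the psd
form in `d 0`, `d 1` (basis: `1`, `w` red, `1`, `w` blue); the multiplier `δ` -/
structure TB where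
  rows : List (List (ℕ × List ℕ))
  P : Chk.Data
  de : ℕ

/-- rows of a colour code -/
def TB.rw (B : TB) (b : ℕ) : List (ℕ × List ℕ) := B.rows.getD b []

section sem

variable {R : Type} [CommSemiring R]

/-- the polynomial of the tree without `w (d 9)` -/
noncomputable def TK (x : Fin 3 → R) (val : Tr → ℕ) (T : Tr) (l : List ℕ) : R :=
  (l.map fun g => (val (get (look3 T g) 0) : R) * mv x g).sum

/-- digit of the 4 by 4 matrix -/
def dg4 (P : Chk.Data) (i j : ℕ) : ℕ := Chk.dig P.w (P.Q.getD i 0) j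

/-- left side -/
noncomputable def TL (x : Fin 3 → R) (T : Tr) (B : TB) (b : ℕ) (l : List ℕ) : R :=
  TK x zp T l + ((B.rw b).map fun r => (r.1 : R) * (lc x r.2).2).sum +
    (B.P.oq : R) * ((1 + x 0) * (1 + x 1)) +
    ((if b / 4 = 1 then 10 * B.de else 0 : ℕ) : R) * x 0

/-- right side -/
noncomputable def TRt (x : Fin 3 → R) (T : Tr) (B : TB) (b : ℕ) (l : List ℕ) : R :=
  TK x zn T l + ((B.rw b).map fun r => (r.1 : R) * (lc x r.2).1).sum +
    ((dg4 B.P (2 * (b / 4)) (2 * (b / 2 % 2)) : R) +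
      (dg4 B.P (2 * (b / 4) + 1) (2 * (b / 2 % 2)) : R) * x 0 +
      (dg4 B.P (2 * (b / 4)) (2 * (b / 2 % 2) + 1) : R) * x 1 +
      (dg4 B.P (2 * (b / 4) + 1) (2 * (b / 2 % 2) + 1) : R) * (x 0 * x 1)) +
    (B.de : R)

end sem

section hom

variable {R S : Type} [CommSemiring R] [CommSemiring S] (φ : R →+* S)

theorem map_TK (x : Fin 3 → R) (val : Tr → ℕ) (T : Tr) (l : List ℕ) :
    φ (TK x val T l) = TK (fun i => φ (x i)) val T l := by
  unfold TK
  rw [map_listSum]
  congr 1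
  refine List.map_congr_left fun a _ => ?_
  rw [map_mul, map_natCast, map_mv]

theorem map_TL (x : Fin 3 → R) (T : Tr) (B : TB) (b : ℕ) (l : List ℕ) :
    φ (TL x T B b l) = TL (fun i => φ (x i)) T B b l := by
  unfold TL
  rw [map_add, map_add, map_add, map_TK, map_listSum, map_mul, map_mul, map_mul, map_natCast,
    map_natCast, map_add, map_add, map_one]
  congr 3
  congr 1
  refine List.map_congr_left fun a _ => ?_
  rw [map_mul, map_natCast, (map_lc φ x a.2).2]

theorem map_TRt (x : Fin 3 → R) (T : Tr) (B : TB) (b : ℕ) (l : List ℕ) :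
    φ (TRt x T B b l) = TRt (fun i => φ (x i)) T B b l := by
  unfold TRt
  simp only [map_add, map_mul, map_natCast, map_TK, map_listSum, (map_lc φ x _).1]

end hom

section deg

theorem deg_nat (n : ℕ) : ((n : ℕ) : MvPolynomial (Fin 3) ℕ).totalDegree = 0 := by
  have h : (n : MvPolynomial (Fin 3) ℕ) = C n := (map_natCast C n).symm
  rw [h, totalDegree_C]

theorem deg_X (i : Fin 3) : (X i : MvPolynomial (Fin 3) ℕ).totalDegree = 1 := totalDegree_X i

theorem deg_one_add_X (i : Fin 3) : (1 + X i : MvPolynomial (Fin 3) ℕ).totalDegree ≤ 1 := by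
  refine (totalDegree_add _ _).trans (max_le ?_ ?_)
  · rw [totalDegree_one]; exact Nat.zero_le _
  · rw [totalDegree_X]

theorem deg_TK (val : Tr → ℕ) (T : Tr) (l : List ℕ) (h : ∀ a ∈ l, dg a ≤ 4) :
    (TK (X : Fin 3 → MvPolynomial (Fin 3) ℕ) val T l).totalDegree ≤ 4 := by
  unfold TK
  refine deg_listSum _ _ _ fun a ha => ?_
  exact (deg_nat_mul _ _).trans ((deg_mv a).trans (h a ha))

theorem deg_TL (T : Tr) (B : TB) (b : ℕ) (l : List ℕ) (h : ∀ a ∈ l, dg a ≤ 4)
    (hr : ∀ r ∈ B.rw b, r.2.length ≤ 4) :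
    (TL (X : Fin 3 → MvPolynomial (Fin 3) ℕ) T B b l).totalDegree ≤ 4 := by
  unfold TL
  refine (totalDegree_add _ _).trans (max_le ((totalDegree_add _ _).trans (max_le
    ((totalDegree_add _ _).trans (max_le (deg_TK _ _ _ h) ?_)) ?_)) ?_)
  · exact deg_listSum _ _ _ fun r hr' =>
      (deg_nat_mul _ _).trans ((deg_lc r.2).2.trans (hr r hr'))
  · refine (deg_nat_mul _ _).trans ((totalDegree_mul _ _).trans ?_)
    have h0 := deg_one_add_X 0
    have h1 := deg_one_add_X 1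
    omega
  · refine (deg_nat_mul _ _).trans ?_
    rw [totalDegree_X]
    omega

theorem deg_TRt (T : Tr) (B : TB) (b : ℕ) (l : List ℕ) (h : ∀ a ∈ l, dg a ≤ 4)
    (hr : ∀ r ∈ B.rw b, r.2.length ≤ 4) :
    (TRt (X : Fin 3 → MvPolynomial (Fin 3) ℕ) T B b l).totalDegree ≤ 4 := by
  unfold TRt
  refine (totalDegree_add _ _).trans (max_le ((totalDegree_add _ _).trans (max_le
    ((totalDegree_add _ _).trans (max_le (deg_TK _ _ _ h) ?_)) ?_)) ?_)
  · exact deg_listSum _ _ _ fun r hr' =>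
      (deg_nat_mul _ _).trans ((deg_lc r.2).1.trans (hr r hr'))
  · have hX : ∀ i : Fin 3, (X i : MvPolynomial (Fin 3) ℕ).totalDegree ≤ 4 := by
      intro i
      rw [totalDegree_X]
      omega
    refine (totalDegree_add _ _).trans (max_le ((totalDegree_add _ _).trans (max_le
      ((totalDegree_add _ _).trans (max_le ?_ ?_)) ?_)) ?_)
    · rw [deg_nat]
      omega
    · exact (deg_nat_mul _ _).trans (hX 0)
    · exact (deg_nat_mul _ _).trans (hX 1)
    · refine (deg_nat_mul _ _).trans ((totalDegree_mul _ _).trans ?_)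
      rw [totalDegree_X, totalDegree_X]
      omega
  · rw [deg_nat]
    omega

end deg

/-- from one evaluation to the identity -/
theorem TL_eq_TRt {R : Type} [CommSemiring R] (K : ℕ) (T : Tr) (B : TB) (b : ℕ)
    (l : List ℕ) (hl : ∀ a ∈ l, dg a ≤ 4) (hr : ∀ r ∈ B.rw b, r.2.length ≤ 4)
    (h1 : TL (kp 0) T B b l < 2 ^ K) (h2 : TRt (kp 0) T B b l < 2 ^ K)
    (h : TL (kp K) T B b l = TRt (kp K) T B b l) (w : Fin 3 → R) :
    TL w T B b l = TRt w T B b l := by
  have e0 : (kp 0) = fun _ => 1 := by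
    funext i
    simp [kp]
  rw [e0] at h1 h2
  have a1 : ∀ (y : Fin 3 → ℕ), eval y (TL (X : Fin 3 → MvPolynomial (Fin 3) ℕ) T B b l) =
      TL y T B b l := by
    intro y
    rw [map_TL]
    simp
  have a2 : ∀ (y : Fin 3 → ℕ), eval y (TRt (X : Fin 3 → MvPolynomial (Fin 3) ℕ) T B b l) =
      TRt y T B b l := by
    intro y
    rw [map_TRt]
    simp
  have a3 : aeval w (TL (X : Fin 3 → MvPolynomial (Fin 3) ℕ) T B b l) = TL w T B b l := by
    have := map_TL (aeval w : MvPolynomial (Fin 3) ℕ →ₐ[ℕ] R).toRingHom X T B b l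
    simpa using this
  have a4 : aeval w (TRt (X : Fin 3 → MvPolynomial (Fin 3) ℕ) T B b l) = TRt w T B b l := by
    have := map_TRt (aeval w : MvPolynomial (Fin 3) ℕ →ₐ[ℕ] R).toRingHom X T B b l
    simpa using this
  rw [← a3, ← a4]
  refine Kron.kron3 (2 ^ K) _ _ (deg_TL T B b l hl hr) (deg_TRt T B b l hl hr) ?_ ?_ ?_ w
  · rw [a1]; exact h1
  · rw [a2]; exact h2
  · rw [a1, a2]; exact h

/-! ### Kernel versions -/

/-- tree part -/
noncomputable def TKk (K : ℕ) (val : Tr → ℕ) (T : Tr) (l : List ℕ) : ℕ :=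
  sumL (fun g => Nat.shiftLeft (val (get (look3 T g) (nat_lit 0))) (Nat.mul K g)) l

/-- digit -/
noncomputable def dgk (P : Chk.Data) (i j : ℕ) : ℕ :=
  Nat.mod (Nat.shiftRight (hdL (dropL i P.Q)) (Nat.mul P.w j)) (Nat.pow (nat_lit 2) P.w)

/-- left side -/
noncomputable def TLk (K : ℕ) (T : Tr) (B : TB) (b : ℕ) (l : List ℕ) : ℕ :=
  Nat.add (Nat.add (Nat.add (TKk K zp T l) (sumL (fun r => Nat.mul r.1 (lck K r.2).2) (B.rw b)))
    (Nat.mul B.P.oq (Nat.mul (Nat.add (nat_lit 1) (pw K (nat_lit 1)))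
      (Nat.add (nat_lit 1) (pw K (nat_lit 5))))))
    (bif Nat.beq (Nat.div b (nat_lit 4)) (nat_lit 1) then
      Nat.mul (Nat.mul (nat_lit 10) B.de) (pw K (nat_lit 1)) else nat_lit 0)

/-- right side -/
noncomputable def TRk (K : ℕ) (T : Tr) (B : TB) (b : ℕ) (l : List ℕ) : ℕ :=
  Nat.add (Nat.add (Nat.add (TKk K zn T l) (sumL (fun r => Nat.mul r.1 (lck K r.2).1) (B.rw b)))
    (Nat.add (Nat.add (Nat.add
      (dgk B.P (Nat.mul (nat_lit 2) (Nat.div b (nat_lit 4)))
        (Nat.mul (nat_lit 2) (Nat.mod (Nat.div b (nat_lit 2)) (nat_lit 2))))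
      (Nat.mul (dgk B.P (Nat.succ (Nat.mul (nat_lit 2) (Nat.div b (nat_lit 4))))
        (Nat.mul (nat_lit 2) (Nat.mod (Nat.div b (nat_lit 2)) (nat_lit 2)))) (pw K (nat_lit 1))))
      (Nat.mul (dgk B.P (Nat.mul (nat_lit 2) (Nat.div b (nat_lit 4)))
        (Nat.succ (Nat.mul (nat_lit 2) (Nat.mod (Nat.div b (nat_lit 2)) (nat_lit 2)))))
        (pw K (nat_lit 5))))
      (Nat.mul (dgk B.P (Nat.succ (Nat.mul (nat_lit 2) (Nat.div b (nat_lit 4))))
        (Nat.succ (Nat.mul (nat_lit 2) (Nat.mod (Nat.div b (nat_lit 2)) (nat_lit 2)))))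
        (Nat.mul (pw K (nat_lit 1)) (pw K (nat_lit 5))))))
    B.de

theorem nbeq_false {a b : ℕ} (h : a ≠ b) : Nat.beq a b = false := by
  cases hh : Nat.beq a b
  · rfl
  · exact absurd (Nat.eq_of_beq_eq_true hh) h

theorem TKk_eq (K : ℕ) (val : Tr → ℕ) (T : Tr) (l : List ℕ) :
    TKk K val T l = TK (kp K) val T l := by
  rw [TKk, sumL_eq, TK]
  congr 1
  refine List.map_congr_left fun a _ => ?_
  rw [shl, mv_kp]
  rfl

theorem kp0 (K : ℕ) : kp K 0 = pw K 1 := (pw_eq K 1).symm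

theorem kp1 (K : ℕ) : kp K 1 = pw K 5 := (pw_eq K 5).symm

theorem dgk_eq (P : Chk.Data) (i j : ℕ) : dgk P i j = dg4 P i j := by
  have h2 : hdL (dropL i P.Q) = P.Q.getD i 0 := by
    have := hdL_dropL 0 i P.Q
    rw [zero_add] at this
    exact this
  rw [dgk, h2]
  rfl

theorem TLk_eq (K : ℕ) (T : Tr) (B : TB) (b : ℕ) (l : List ℕ)
    (hf : ∀ r ∈ B.rw b, ∀ f ∈ r.2, f < 7) : TLk K T B b l = TL (kp K) T B b l := by
  have h1 : sumL (fun r => Nat.mul r.1 (lck K r.2).2) (B.rw b) =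
      ((B.rw b).map fun r => ((r.1 : ℕ) : ℕ) * (lc (kp K) r.2).2).sum := by
    rw [sumL_eq]
    congr 1
    refine List.map_congr_left fun r hr => ?_
    rw [lck_eq K r.2 (hf r hr)]
    rfl
  have h2 : (bif Nat.beq (Nat.div b (nat_lit 4)) (nat_lit 1) then
      Nat.mul (Nat.mul (nat_lit 10) B.de) (pw K (nat_lit 1)) else nat_lit 0) =
      (if b / 4 = 1 then 10 * B.de else 0) * kp K 0 := by
    rw [kp0]
    by_cases h : b / 4 = 1
    · rw [if_pos h]
      have : Nat.beq (Nat.div b (nat_lit 4)) (nat_lit 1) = true := by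
        change Nat.beq (b / 4) 1 = true
        rw [h]
        rfl
      rw [this]
      rfl
    · rw [if_neg h]
      have : Nat.beq (Nat.div b (nat_lit 4)) (nat_lit 1) = false := by
        exact nbeq_false h
      rw [this]
      simp
  unfold TLk TL
  rw [h1, h2, TKk_eq, kp0, kp1]
  simp only [Nat.cast_id]
  rfl

theorem TRk_eq (K : ℕ) (T : Tr) (B : TB) (b : ℕ) (l : List ℕ)
    (hf : ∀ r ∈ B.rw b, ∀ f ∈ r.2, f < 7) : TRk K T B b l = TRt (kp K) T B b l := by
  have h1 : sumL (fun r => Nat.mul r.1 (lck K r.2).1) (B.rw b) =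
      ((B.rw b).map fun r => ((r.1 : ℕ) : ℕ) * (lc (kp K) r.2).1).sum := by
    rw [sumL_eq]
    congr 1
    refine List.map_congr_left fun r hr => ?_
    rw [lck_eq K r.2 (hf r hr)]
    rfl
  unfold TRk TRt
  rw [h1, TKk_eq, kp0, kp1, dgk_eq, dgk_eq, dgk_eq, dgk_eq]
  simp only [Nat.cast_id]
  rfl

/-! ### The check -/

/-- equality of two leaves -/
noncomputable def zeq (a b : Tr) : Bool := Nat.beq (Nat.add (zp a) (zn b)) (Nat.add (zn a) (zp b))

/-- leaf zero -/
noncomputable def zz (a : Tr) : Bool := Nat.beq (zp a) (zn a)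

/-- `z b = -10 z a` -/
noncomputable def zm (a b : Tr) : Bool :=
  Nat.beq (Nat.add (zp b) (Nat.mul (nat_lit 10) (zp a)))
    (Nat.add (zn b) (Nat.mul (nat_lit 10) (zn a)))

theorem zeq_spec {a b : Tr} (h : zeq a b = true) : z a = z b := by
  have h1 : zp a + zn b = zn a + zp b := Nat.eq_of_beq_eq_true h
  rw [z_eq, z_eq]
  omega

theorem zz_spec {a : Tr} (h : zz a = true) : z a = 0 := by
  have h1 : zp a = zn a := Nat.eq_of_beq_eq_true h
  rw [z_eq]
  omega

theorem zm_spec {a b : Tr} (h : zm a b = true) : z b = -10 * z a := by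
  have h1 : zp b + 10 * zp a = zn b + 10 * zn a := Nat.eq_of_beq_eq_true h
  rw [z_eq, z_eq]
  omega

/-- all leaves `k, k + 1, ..., k + m - 1` vanish -/
noncomputable def zzs (t : Tr) (k m : ℕ) : Bool :=
  @Nat.rec (fun _ => Bool) true (fun i ih => cond (zz (get t (Nat.add k i))) ih false) m

theorem zzs_spec {t : Tr} {k m : ℕ} (h : zzs t k m = true) : ∀ i < m, z (get t (k + i)) = 0 := by
  induction m with
  | zero => intro i hi; omega
  | succ m ih =>
    have h1 : cond (zz (get t (k + m))) (zzs t k m) false = true := h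
    obtain ⟨h2, h3⟩ := cond_true_false h1
    intro i hi
    rcases Nat.lt_succ_iff_lt_or_eq.1 hi with h4 | h4
    · exact ih h3 i h4
    · rw [h4]
      exact zz_spec h2

/-- check for one exponent: `TR` tree for red last pair, `TBl` for blue last pair -/
noncomputable def chkT1 (D : ℕ) (TR TBl : Tr) (g : ℕ) : Bool :=
  cond (zeq (get (look3 TR g) (nat_lit 0)) (get (look3 TBl g) (nat_lit 0)))
    (cond (zzs (look3 TBl g) (nat_lit 1) (Nat.sub D (dg g)))
      (cond (Nat.beq (dg g) D) (zz (get (look3 TR g) (nat_lit 0)))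
        (cond (zm (get (look3 TR g) (nat_lit 0)) (get (look3 TR g) (nat_lit 1)))
          (zzs (look3 TR g) (nat_lit 2) (Nat.pred (Nat.sub D (dg g)))) false)) false) false

theorem chkT1_spec {D : ℕ} {TR TBl : Tr} {g : ℕ} (hg : dg g ≤ D) (h : chkT1 D TR TBl g = true)
    (v : ℝ) :
    ∑ k ∈ range (D - dg g + 1), ((get (look3 TBl g) k).z : ℝ) * v ^ k =
      ((get (look3 TR g) 0).z : ℝ) ∧
    ∑ k ∈ range (D - dg g + 1), ((get (look3 TR g) k).z : ℝ) * v ^ k =
      ((get (look3 TR g) 0).z : ℝ) * (1 - 10 * v) := by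
  obtain ⟨h1, h2⟩ := cond_true_false h
  obtain ⟨h2, h3⟩ := cond_true_false h2
  have h1 := zeq_spec h1
  have h2 := zzs_spec h2
  constructor
  · rw [Finset.sum_range_succ', Finset.sum_eq_zero, zero_add, pow_zero, mul_one]
    · exact_mod_cast h1.symm
    · intro k hk
      have h4 := h2 k (Finset.mem_range.1 hk)
      rw [add_comm k 1, h4]
      simp
  · by_cases hd : dg g = D
    · have h4 : Nat.beq (dg g) D = true := by
        rw [hd]
        exact Nat.beq_refl D
      rw [h4] at h3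
      have h5 := zz_spec h3
      rw [hd, Nat.sub_self, zero_add, Finset.sum_range_one]
      change z (get (look3 TR g) 0) = 0 at h5
      rw [h5]
      simp
    · have h4 : Nat.beq (dg g) D = false := by
        exact nbeq_false hd
      rw [h4] at h3
      obtain ⟨h5, h6⟩ := cond_true_false h3
      have h5 := zm_spec h5
      have h6 := zzs_spec h6
      change z (get (look3 TR g) 1) = -10 * z (get (look3 TR g) 0) at h5
      obtain ⟨m, hm⟩ : ∃ m, D - dg g = m + 1 := ⟨D - dg g - 1, by omega⟩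
      rw [hm, Finset.sum_range_succ', Finset.sum_range_succ', Finset.sum_eq_zero, h5]
      · push_cast
        ring
      · intro k hk
        have hk := Finset.mem_range.1 hk
        have h7 := h6 k (by
          change k < Nat.pred (D - dg g)
          rw [hm]
          exact hk)
        change z (get (look3 TR g) (2 + k)) = 0 at h7
        rw [show k + 1 + 1 = 2 + k by ring, h7]
        simp

/-- **kernel check for a colour code of the triple.** -/
noncomputable def chkT (D K : ℕ) (TD : Tr) (B : TB) (b : ℕ) : Bool :=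
  cond (allL (fun g => chkT1 D (get (get TD b) (nat_lit 0)) (get (get TD b) (nat_lit 1)) g) (Bl D))
    (cond (Nat.beq (TLk K (get (get TD b) (nat_lit 0)) B b (Bl D))
        (TRk K (get (get TD b) (nat_lit 0)) B b (Bl D)))
      (cond (Nat.ble (Nat.succ (TLk (nat_lit 0) (get (get TD b) (nat_lit 0)) B b (Bl D)))
          (Nat.pow (nat_lit 2) K))
        (Nat.ble (Nat.succ (TRk (nat_lit 0) (get (get TD b) (nat_lit 0)) B b (Bl D)))
          (Nat.pow (nat_lit 2) K)) false) false) false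

/-- conditions on the data -/
structure TB.OK (B : TB) : Prop where
  n : B.P.n = 4
  psd : B.P.check = true
  f7 : ∀ b < 8, ∀ r ∈ B.rw b, ∀ f ∈ r.2, f < 7
  ll : ∀ b < 8, ∀ r ∈ B.rw b, r.2.length ≤ 4
  ty : ∀ b < 8, b = 0 ∨ b = 7 ∨ ∀ r ∈ B.rw b, 6 ∉ r.2
  de : 0 < B.de

/-- the polynomial of a colour code -/
noncomputable def TB.KP (B : TB) (b : ℕ) (U : Fin 3 → ℝ) : ℝ :=
  ((B.rw b).map fun r => (r.1 : ℝ) * lv U r.2).sum +
    ((B.P.Qt (2 * (b / 4)) (2 * (b / 2 % 2)) : ℝ) +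
      (B.P.Qt (2 * (b / 4) + 1) (2 * (b / 2 % 2)) : ℝ) * U 0 +
      (B.P.Qt (2 * (b / 4)) (2 * (b / 2 % 2) + 1) : ℝ) * U 1 +
      (B.P.Qt (2 * (b / 4) + 1) (2 * (b / 2 % 2) + 1) : ℝ) * (U 0 * U 1)) +
    (B.de : ℝ) * (1 - 10 * if b / 4 = 1 then U 0 else 0)

theorem KP_eq {D K : ℕ} (hD : D < 5) {TD : Tr} {B : TB} (hok : B.OK) {b : ℕ} (hb : b < 8)
    (h : chkT D K TD B b = true) (U : Fin 3 → ℝ) :
    ((Bl D).map fun g => mv U g * ((get (look3 (get (get TD b) 0) g) 0).z : ℝ)).sum =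
      B.KP b U := by
  obtain ⟨-, h2⟩ := cond_true_false h
  obtain ⟨h1, h2⟩ := cond_true_false h2
  obtain ⟨h2, h3⟩ := cond_true_false h2
  have h1 := Nat.eq_of_beq_eq_true h1
  have h2 := Nat.le_of_ble_eq_true h2
  have h3 := Nat.le_of_ble_eq_true h3
  rw [TLk_eq _ _ _ _ _ (hok.f7 b hb), TRk_eq _ _ _ _ _ (hok.f7 b hb)] at h1
  rw [TLk_eq _ _ _ _ _ (hok.f7 b hb)] at h2
  rw [TRk_eq _ _ _ _ _ (hok.f7 b hb)] at h3
  have h4 := TL_eq_TRt (R := ℝ) K _ B b (Bl D) (fun a ha => (dg_Bl D hD a ha).trans (by omega))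
    (hok.ll b hb) h2 h3 h1 U
  unfold TL TRt at h4
  have h5 : ((Bl D).map fun g => mv U g * ((get (look3 (get (get TD b) 0) g) 0).z : ℝ)).sum =
      TK U zp (get (get TD b) 0) (Bl D) - TK U zn (get (get TD b) 0) (Bl D) := by
    unfold TK
    rw [ls_sub]
    refine ls_congr fun a _ => ?_
    rw [z_eq]
    push_cast
    ring
  have h6 : ((B.rw b).map fun r => (r.1 : ℝ) * lv U r.2).sum =
      ((B.rw b).map fun r => (r.1 : ℝ) * (lc U r.2).1).sum -
      ((B.rw b).map fun r => (r.1 : ℝ) * (lc U r.2).2).sum := by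
    rw [ls_sub]
    refine ls_congr fun r _ => ?_
    rw [← lc_sub]
    ring
  have h7 : (((if b / 4 = 1 then 10 * B.de else 0 : ℕ) : ℝ)) * U 0 =
      (B.de : ℝ) * (10 * if b / 4 = 1 then U 0 else 0) := by
    split_ifs
    · push_cast
      ring
    · push_cast
      ring
  rw [h7] at h4
  have h8 : ∀ i j, (B.P.Qt i j : ℝ) = (dg4 B.P i j : ℝ) - B.P.oq := by
    intro i j
    simp only [Chk.Data.Qt, dg4]
    push_cast
    rfl
  rw [h5, TB.KP, h6, h8, h8, h8, h8]
  change TK U zp (get (get TD b) 0) (Bl D) + _ + _ + _ =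
    TK U zn (get (get TD b) 0) (Bl D) + _ + _ + _ at h4
  linarith

/-- the basis functions of the psd form -/
noncomputable def ph4 (i : ℕ) (d : Bool × ℝ) : ℝ := if cn d.1 = i / 2 then d.2 ^ (i % 2) else 0

/-- the multiplier as a function of the data -/
noncomputable def TB.HK (B : TB) (A : Fin 3 → Bool × ℝ) : ℝ :=
  ((B.rw (cd3 A)).map fun r => (r.1 : ℝ) * lv (w3 A) r.2).sum +
    (∑ i : Fin 4, ∑ j : Fin 4, (B.P.Qt i j : ℝ) * (ph4 i (A 0) * ph4 j (A 1))) +
    (B.de : ℝ) * (1 - 10 * wtB (A 0))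

theorem HK_eq (B : TB) (A : Fin 3 → Bool × ℝ) : B.HK A = B.KP (cd3 A) (w3 A) := by
  have h4 : cd3 A / 4 = cn (A 0).1 := by
    have := cn_le (A 0).1
    have := cn_le (A 1).1
    have := cn_le (A 2).1
    unfold cd3 cn3
    omega
  have h2 : cd3 A / 2 % 2 = cn (A 1).1 := by
    have := cn_le (A 0).1
    have := cn_le (A 1).1
    have := cn_le (A 2).1
    unfold cd3 cn3
    omega
  unfold TB.HK TB.KP
  rw [h4, h2]
  congr 1
  · congr 1
    have e0 : w3 A 0 = (A 0).2 := rfl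
    have e1 : w3 A 1 = (A 1).2 := rfl
    rw [e0, e1]
    have p : ∀ (i : ℕ) (d : Bool × ℝ), ph4 i d = if cn d.1 = i / 2 then d.2 ^ (i % 2) else 0 :=
      fun _ _ => rfl
    simp only [Fin.sum_univ_four, p]
    rcases hA0 : (A 0).1 with _ | _ <;> rcases hA1 : (A 1).1 with _ | _ <;>
      simp [cn] <;> ring
  · congr 2
    unfold wtB
    have e0 : w3 A 0 = (A 0).2 := rfl
    rw [e0]
    rcases hA0 : (A 0).1 with _ | _ <;> simp [cn]

/-- the value of the T pieces -/
theorem Tpc_eq {D K : ℕ} (hD : D < 5) {TD : Tr} {B : TB} (hok : B.OK)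
    (h : ∀ b < 8, chkT D K TD B b = true) (d : Fin 10 → Bool × ℝ) :
    Tpc D TD d = B.HK ![d 0, d 1, d 2] * (1 - 10 * wtR (d 9)) := by
  set b := cd3 ![d 0, d 1, d 2] with hb
  have hb8 : b < 8 := cd3_lt _
  have hc := h b hb8
  obtain ⟨h1, -⟩ := cond_true_false hc
  have h1 := allL_spec h1
  have h2 := KP_eq hD hok hb8 hc (w3 ![d 0, d 1, d 2])
  rw [HK_eq, ← hb, ← h2]
  have e : Tpc D TD d = pol D 4 (get (get TD b) (cn (d 9).1))
      (v4 (w3 ![d 0, d 1, d 2]) (d 9).2) := rfl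
  rw [e, pol4 D hD, mul_comm, ls_mul]
  refine ls_congr fun g hg => ?_
  have h3 := chkT1_spec (dg_Bl D hD g hg) (h1 g hg) (d 9).2
  rcases hc9 : (d 9).1 with _ | _
  · have e9 : wtR (d 9) = (d 9).2 := by simp [wtR, hc9]
    rw [e9]
    change mv _ g * ∑ k ∈ range (D - dg g + 1),
      ((get (look3 (get (get TD b) 0) g) k).z : ℝ) * (d 9).2 ^ k = _
    rw [h3.2]
    ring
  · have e9 : wtR (d 9) = 0 := by simp [wtR, hc9]
    rw [e9]
    change mv _ g * ∑ k ∈ range (D - dg g + 1),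
      ((get (look3 (get (get TD b) 1) g) k).z : ℝ) * (d 9).2 ^ k = _
    rw [h3.1]
    ring

/-- **The T part is positive for a counterexample.** -/
theorem T_pos {D K : ℕ} (hD : D < 5) {TD : Tr} {B : TB} (hok : B.OK)
    (h : ∀ b < 8, chkT D K TD B b = true)
    {n : ℕ} {x : Fin n → ℝ} {p wR wB : Fin n → Fin n → ℝ} (hM : Model x p wR wB)
    (hr : rr x p wR < 1 / 10) (hb : bb x p wB < 1 / 10) :
    0 < LL x (PC p) (lw wR wB) (Tpc D TD) := by
  have hN := netC (pre_of_model hM)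
  have hP := pre_of_model hM
  have h1 : Tpc D TD = fun d => B.HK ![d 0, d 1, d 2] * (fun e => 1 - 10 * wtR e) (d 9) :=
    funext fun d => Tpc_eq hD hok h d
  rw [h1, LL_prod hN (lw wR wB) B.HK (fun e => 1 - 10 * wtR e)]
  have h2 : ∀ k : Bool × ℝ → ℝ, LL2 x (PC p) (lw wR wB) (fun e => 1 - 10 * k e) =
      1 - 10 * LL2 x (PC p) (lw wR wB) k := by
    intro k
    have e1 := LL2_const hP k (1 / 10)
    have e2 : LL2 x (PC p) (lw wR wB) (fun e => 1 - 10 * k e) =
        -10 * LL2 x (PC p) (lw wR wB) (fun d => k d - 1 / 10) := by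
      unfold LL2
      simp only [Finset.mul_sum]
      refine Finset.sum_congr rfl fun u _ => Finset.sum_congr rfl fun v _ =>
        Finset.sum_congr rfl fun s _ => ?_
      ring
    rw [e2, e1]
    ring
  rw [h2, LL2_wtR]
  refine mul_pos ?_ (by linarith)
  unfold TB.HK
  rw [LL3_add', LL3_add', LL3_smul]
  have h3 : 0 ≤ LL3 x (PC p) (lw wR wB)
      (fun A => ((B.rw (cd3 A)).map fun r => (r.1 : ℝ) * lv (w3 A) r.2).sum) := by
    refine LL3_nonneg hM fun A hA => List.sum_nonneg fun y hy => ?_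
    obtain ⟨r, hr, rfl⟩ := List.mem_map.1 hy
    refine mul_nonneg (Nat.cast_nonneg _) ?_
    refine lv_nonneg hA.w0 hA.w1 _ ?_ (hok.f7 _ (cd3_lt A) r hr)
    have c0 := cn_le (A 0).1
    have c1 := cn_le (A 1).1
    have c2 := cn_le (A 2).1
    have e : ∀ a b : Bool, cn a = cn b → a = b := by decide
    rcases hok.ty _ (cd3_lt A) with h4 | h4 | h4
    · left
      unfold cd3 cn3 at h4
      exact hA.tri (e _ _ (by omega)) (e _ _ (by omega))
    · left
      unfold cd3 cn3 at h4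
      exact hA.tri (e _ _ (by omega)) (e _ _ (by omega))
    · right
      exact h4 r hr
  have h5 : 0 ≤ LL3 x (PC p) (lw wR wB)
      (fun A => ∑ i : Fin 4, ∑ j : Fin 4, (B.P.Qt i j : ℝ) * (ph4 i (A 0) * ph4 j (A 1))) := by
    refine LL3_psd hN (lw wR wB) (fun i j => (B.P.Qt i j : ℝ)) ph4 ?_
    intro y
    have h6 : ∀ N, N = 4 → (∀ y : Fin N → ℝ, 0 ≤ ∑ i : Fin N, ∑ j : Fin N,
        (B.P.Qt i j : ℝ) * y i * y j) → ∀ y : Fin 4 → ℝ, 0 ≤ ∑ i : Fin 4, ∑ j : Fin 4,
        (B.P.Qt i j : ℝ) * y i * y j := by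
      rintro N rfl h
      exact h
    refine le_of_le_of_eq (h6 _ hok.n (Chk.Data.sound_fin hok.psd) y) ?_
    refine Finset.sum_congr rfl fun i _ => Finset.sum_congr rfl fun j _ => ?_
    ring
  have h7 : LL3 x (PC p) (lw wR wB) (fun A => 1 - 10 * wtB (A 0)) = 1 - 10 * bb x p wB := by
    rw [LL3_one hN (lw wR wB) (fun e => 1 - 10 * wtB e), h2, LL2_wtB]
  rw [h7]
  have h8 : (0 : ℝ) < B.de := Nat.cast_pos.2 hok.de
  have h9 : 0 < (B.de : ℝ) * (1 - 10 * bb x p wB) := mul_pos h8 (by linarith)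
  linarith

end GP

end Fl

end HR
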