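import Pool.Agent.Lib.MP_a1b8b7_co.B.Asm
import Pool.Agent.Lib.MP_a1b8b7_co.B.TPart

/-!
# The certificate: everything from Boolean checks
-/

set_option autoImplicit false

open Finset

namespace HR

namespace Fl

open Tr GP

/-- the T part for the model and for the model with the colours exchanged -/
theorem hT_of {D K : ℕ} (hD : D < 5) {TD : Tr} {B : TB} (hok : B.OK)
    (h : ∀ b < 8, chkT D K TD B b = true)
    (n : ℕ) (x : Fin n → ℝ) (p wR wB : Fin n → Fin n → ℝ) (hM : Model x p wR wB)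
    (hr : rr x p wR < 1 / 10) (hb : bb x p wB < 1 / 10) :
    0 < LL x (PC p) (lw wR wB) (Tpc D TD) +
        LL x (PC fun u v => 1 - p u v) (lw wB wR) (Tpc D TD) := by
  have h1 := T_pos hD hok h hM hr hb
  have h2 := T_pos hD hok h (model_swap hM) (by rw [rr_swap]; exact hb) (by rw [bb_swap]; exact hr)
  exact add_pos h1 h2

/-- **The certificate without P part.** -/
theorem model_of_checks (D K : ℕ) (hD : D < 5) (GD TD : Tr) (L : List ℕ)
    (hcan : (chk3 2 (leafC (L ++ L.map fun c => 1023 - c)) 0 0 0 &&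
      chk3 2 (leafC (L ++ L.map fun c => 1023 - c)) 0 0 1 &&
      chk3 2 (leafC (L ++ L.map fun c => 1023 - c)) 0 1 1 &&
      chk3 2 (leafC (L ++ L.map fun c => 1023 - c)) 1 1 1) = true)
    (hL : ∀ c ∈ L, c ≤ 1023)
    (hloc : ∀ c ∈ L, LocOK D GD Tr.e TD c)
    (bl : ℕ → List GB)
    (hok : ∀ t < 4, ∀ B ∈ bl t, B.OK D t) (hp : ∀ t < 4, ∀ B ∈ bl t, B.P.check = true)
    (hc : ∀ t < 4, ∀ b < 8, ∀ c < 8, b ≤ c →
      chkBC D K (get (get (get GD t) b) (c - b)) (bl t) b c = true)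
    (B : TB) (hB : B.OK) (hT : ∀ b < 8, chkT D K TD B b = true) : S_Model :=
  model_of_parts D GD Tr.e TD L hcan hL hloc
    (fun _ _ _ _ _ hM => G_nonneg hD hok hp hc hM) (hP_e D) (hT_of hD hB hT)

/-- **The certificate with P part.** -/
theorem model_of_checksP (D K : ℕ) (hD : D < 5) (GD PD TD : Tr) (L : List ℕ)
    (hcan : (chk3 2 (leafC (L ++ L.map fun c => 1023 - c)) 0 0 0 &&
      chk3 2 (leafC (L ++ L.map fun c => 1023 - c)) 0 0 1 &&
      chk3 2 (leafC (L ++ L.map fun c => 1023 - c)) 0 1 1 &&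
      chk3 2 (leafC (L ++ L.map fun c => 1023 - c)) 1 1 1) = true)
    (hL : ∀ c ∈ L, c ≤ 1023)
    (hloc : ∀ c ∈ L, LocOK D GD PD TD c)
    (bl : ℕ → List GB)
    (hok : ∀ t < 4, ∀ B ∈ bl t, B.OK D t) (hp : ∀ t < 4, ∀ B ∈ bl t, B.P.check = true)
    (hc : ∀ t < 4, ∀ b < 8, ∀ c < 8, b ≤ c →
      chkBC D K (get (get (get GD t) b) (c - b)) (bl t) b c = true)
    (BP : PB) (hBP : BP.OK D)
    (hcP : ∀ b < 8, ∀ c < 8, chkP D (get (get PD b) c) BP b c = true)
    (B : TB) (hB : B.OK) (hT : ∀ b < 8, chkT D K TD B b = true) : S_Model :=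
  model_of_parts D GD PD TD L hcan hL hloc
    (fun _ _ _ _ _ hM => G_nonneg hD hok hp hc hM)
    (fun _ _ _ _ _ hM => P_nonneg hD hBP hcP hM) (hT_of hD hB hT)

end Fl

end HR
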