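import Pool.Agent.Lib.MP_a1b8b7_co.B.Flag

/-!
# The sum over the permutations of five vertices as an explicit sum
-/

set_option autoImplicit false

open Finset

namespace HR

namespace Fl

/-- action of a vertex map on the pairs -/
def pf (φ : Fin 5 → Fin 5) (e : Fin 10) : Fin 10 := ei (φ (src e)) (φ (tgt e))

theorem pe_eq (π : Equiv.Perm (Fin 5)) : pe π = pf π := rfl

theorem pf_comp (r h : Fin 5 → Fin 5) (hh : Function.Injective h) :
    pf (r ∘ h) = pf r ∘ pf h := by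
  funext e
  have h1 : h (src e) ≠ h (tgt e) := fun H => src_ne_tgt e (hh H)
  simp only [pf, Function.comp]
  rcases ends_ei _ _ h1 with ⟨a, b⟩ | ⟨a, b⟩
  · rw [a, b]
  · rw [a, b, ei_comm]

theorem sum_perm_list {M : Type} [AddCommMonoid M] (L : List (Fin 5 → Fin 5))
    (hi : ∀ r ∈ L, Function.Injective r) (hn : L.Nodup) (hl : L.length = 120)
    (f : (Fin 5 → Fin 5) → M) :
    ∑ π : Equiv.Perm (Fin 5), f π = (L.map f).sum := by
  classical
  have h1 : (Finset.univ : Finset (Equiv.Perm (Fin 5))).image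
      (fun π : Equiv.Perm (Fin 5) => (⇑π : Fin 5 → Fin 5)) = L.toFinset := by
    symm
    apply Finset.eq_of_subset_of_card_le
    · intro r hr
      rw [List.mem_toFinset] at hr
      rw [Finset.mem_image]
      exact ⟨Equiv.ofBijective r (Finite.injective_iff_bijective.1 (hi r hr)),
        Finset.mem_univ _, rfl⟩
    · have h2 : ((Finset.univ : Finset (Equiv.Perm (Fin 5))).image
          (fun π : Equiv.Perm (Fin 5) => (⇑π : Fin 5 → Fin 5))).card = 120 := by
        rw [Finset.card_image_of_injective _ DFunLike.coe_injective, Finset.card_univ,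
          Fintype.card_perm, Fintype.card_fin]
        rfl
      rw [List.toFinset_card_of_nodup hn, hl, h2]
  calc ∑ π : Equiv.Perm (Fin 5), f π
      = ∑ r ∈ (Finset.univ : Finset (Equiv.Perm (Fin 5))).image
          (fun π : Equiv.Perm (Fin 5) => (⇑π : Fin 5 → Fin 5)), f r :=
        (Finset.sum_image (fun a _ b _ h => DFunLike.coe_injective h)).symm
    _ = ∑ r ∈ L.toFinset, f r := by
        have := congrArg (fun s => ∑ r ∈ s, f r) h1
        exact this
    _ = (L.map f).sum := List.sum_toFinset f hn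

/-- all products -/
def prods (R H : List (Fin 5 → Fin 5)) : List (Fin 5 → Fin 5) :=
  R.flatMap fun r => H.map fun h => r ∘ h

theorem sum_coset {M : Type} [AddCommMonoid M] (R H : List (Fin 5 → Fin 5))
    (hi : ∀ r ∈ prods R H, Function.Injective r) (hn : (prods R H).Nodup)
    (hl : (prods R H).length = 120) (f : (Fin 5 → Fin 5) → M) :
    ∑ π : Equiv.Perm (Fin 5), f π = (R.map fun r => (H.map fun h => f (r ∘ h)).sum).sum := by
  rw [sum_perm_list (prods R H) hi hn hl f]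
  clear hi hn hl
  unfold prods
  induction R with
  | nil => simp
  | cons r R ih =>
    rw [List.flatMap_cons, List.map_append, List.sum_append, ih, List.map_cons, List.sum_cons]
    congr 2
    rw [List.map_map]
    rfl

/-- a vertex map given by its values (fast for the kernel) -/
def v5 (a b c d e : Fin 5) (i : Fin 5) : Fin 5 :=
  match i with
  | ⟨0, _⟩ => a
  | ⟨1, _⟩ => b
  | ⟨2, _⟩ => c
  | ⟨3, _⟩ => d
  | ⟨_ + 4, _⟩ => e

/-- the ten triples -/
def R10 : List (Fin 5 → Fin 5) :=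
  [v5 0 1 2 3 4, v5 0 1 3 2 4, v5 0 2 3 1 4, v5 1 2 3 0 4, v5 0 1 4 2 3,
    v5 0 2 4 1 3, v5 1 2 4 0 3, v5 0 3 4 1 2, v5 1 3 4 0 2, v5 2 3 4 0 1]

/-- permutations of the triple and of the pair -/
def H12 : List (Fin 5 → Fin 5) :=
  [v5 0 1 2 3 4, v5 0 1 2 4 3, v5 1 0 2 3 4, v5 1 0 2 4 3, v5 0 2 1 3 4,
    v5 0 2 1 4 3, v5 2 1 0 3 4, v5 2 1 0 4 3, v5 1 2 0 3 4, v5 1 2 0 4 3,
    v5 2 0 1 3 4, v5 2 0 1 4 3]

/-- a vertex and a pairing of the other four -/
def R15 : List (Fin 5 → Fin 5) :=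
  [v5 0 1 2 3 4, v5 0 1 3 2 4, v5 0 1 4 2 3,
    v5 1 0 2 3 4, v5 1 0 3 2 4, v5 1 0 4 2 3,
    v5 2 0 1 3 4, v5 2 0 3 1 4, v5 2 0 4 1 3,
    v5 3 0 1 2 4, v5 3 0 2 1 4, v5 3 0 4 1 2,
    v5 4 0 1 2 3, v5 4 0 2 1 3, v5 4 0 3 1 2]

/-- permutations preserving a vertex and a pairing of the other four -/
def H8 : List (Fin 5 → Fin 5) :=
  [v5 0 1 2 3 4, v5 0 2 1 3 4, v5 0 1 2 4 3, v5 0 2 1 4 3,
    v5 0 3 4 1 2, v5 0 4 3 1 2, v5 0 3 4 2 1, v5 0 4 3 2 1]

/-- code of a vertex map -/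
def cd (φ : Fin 5 → Fin 5) : ℕ :=
  ((((φ 0 : ℕ) * 5 + (φ 1 : ℕ)) * 5 + (φ 2 : ℕ)) * 5 + (φ 3 : ℕ)) * 5 + (φ 4 : ℕ)

theorem inj_prods (R H : List (Fin 5 → Fin 5)) (hR : ∀ r ∈ R, Function.Injective r)
    (hH : ∀ r ∈ H, Function.Injective r) : ∀ r ∈ prods R H, Function.Injective r := by
  intro r hr
  unfold prods at hr
  rw [List.mem_flatMap] at hr
  obtain ⟨a, ha, hr⟩ := hr
  rw [List.mem_map] at hr
  obtain ⟨b, hb, rfl⟩ := hr
  exact (hR a ha).comp (hH b hb)

/-- the five values are different -/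
def Dif (r : Fin 5 → Fin 5) : Prop :=
  (r 0 ≠ r 1 ∧ r 0 ≠ r 2 ∧ r 0 ≠ r 3 ∧ r 0 ≠ r 4) ∧ (r 1 ≠ r 2 ∧ r 1 ≠ r 3 ∧ r 1 ≠ r 4) ∧
    (r 2 ≠ r 3 ∧ r 2 ≠ r 4) ∧ r 3 ≠ r 4

instance (r : Fin 5 → Fin 5) : Decidable (Dif r) := by unfold Dif; infer_instance

theorem inj_of (R : List (Fin 5 → Fin 5)) (h : (R.all fun r => decide (Dif r)) = true) :
    ∀ r ∈ R, Function.Injective r := by
  intro r hr
  obtain ⟨⟨a1, a2, a3, a4⟩, ⟨b2, b3, b4⟩, ⟨c3, c4⟩, d4⟩ :=
    of_decide_eq_true (List.all_eq_true.1 h r hr)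
  have : ∀ i j : Fin 5, i ≠ j → r i ≠ r j := by
    intro i j hij
    fin_cases i <;> fin_cases j <;> first
      | exact absurd rfl hij
      | assumption
      | (apply Ne.symm; assumption)
  intro i j hij
  by_contra hne
  exact this i j hne hij

theorem injR10 : ∀ r ∈ R10, Function.Injective r := inj_of _ (by decide +kernel)
theorem injH12 : ∀ r ∈ H12, Function.Injective r := inj_of _ (by decide +kernel)
theorem injR15 : ∀ r ∈ R15, Function.Injective r := inj_of _ (by decide +kernel)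
theorem injH8 : ∀ r ∈ H8, Function.Injective r := inj_of _ (by decide +kernel)

/-- codes -/
def CD12 : List ℕ := [
  194, 198, 694, 698, 294, 298, 1394, 1398, 894, 898, 1294, 1298, 214, 222, 714, 722, 414, 422,
  2014, 2022, 1014, 1022, 1914, 1922, 334, 346, 1334, 1346, 434, 446, 2134, 2146, 1634, 1646,
  1934, 1946, 954, 970, 1454, 1470, 1054, 1070, 2154, 2170, 1654, 1670, 2054, 2070, 238, 242,
  738, 742, 538, 542, 2638, 2642, 1138, 1142, 2538, 2542, 358, 366, 1358, 1366, 558, 566, 2758,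
  2766, 1758, 1766, 2558, 2566, 978, 990, 1478, 1490, 1178, 1190, 2778, 2790, 1778, 1790, 2678,
  2690, 482, 486, 1982, 1986, 582, 586, 2882, 2886, 2382, 2386, 2582, 2586, 1102, 1110, 2102,
  2110, 1202, 1210, 2902, 2910, 2402, 2410, 2702, 2710, 1726, 1730, 2226, 2230, 1826, 1830,
  2926, 2930, 2426, 2430, 2826, 2830]

/-- codes -/
def CD8 : List ℕ := [
  194, 294, 198, 298, 482, 582, 486, 586, 214, 414, 222, 422, 358, 558, 366, 566, 238, 538,
  242, 542, 334, 434, 346, 446, 694, 894, 698, 898, 1102, 1202, 1110, 1210, 714, 1014, 722,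
  1022, 978, 1178, 990, 1190, 738, 1138, 742, 1142, 954, 1054, 970, 1070, 1294, 1394, 1298,
  1398, 1726, 1826, 1730, 1830, 1334, 1634, 1346, 1646, 1478, 1778, 1490, 1790, 1358, 1758,
  1366, 1766, 1454, 1654, 1470, 1670, 1914, 2014, 1922, 2022, 2226, 2426, 2230, 2430, 1934,
  2134, 1946, 2146, 2102, 2402, 2110, 2410, 1982, 2382, 1986, 2386, 2054, 2154, 2070, 2170,
  2538, 2638, 2542, 2642, 2826, 2926, 2830, 2930, 2558, 2758, 2566, 2766, 2702, 2902, 2710,
  2910, 2582, 2882, 2586, 2886, 2678, 2778, 2690, 2790]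

theorem cd12 : (prods R10 H12).map cd = CD12 := by decide +kernel
theorem cd8 : (prods R15 H8).map cd = CD8 := by decide +kernel

theorem nodup12 : (prods R10 H12).Nodup :=
  List.Nodup.of_map cd (by rw [cd12]; decide +kernel)

theorem nodup8 : (prods R15 H8).Nodup :=
  List.Nodup.of_map cd (by rw [cd8]; decide +kernel)

/-- sum over the permutations by triples -/
theorem sum12 {M : Type} [AddCommMonoid M] (f : (Fin 5 → Fin 5) → M) :
    ∑ π : Equiv.Perm (Fin 5), f π =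
      (R10.map fun r => (H12.map fun h => f (r ∘ h)).sum).sum :=
  sum_coset R10 H12 (inj_prods _ _ injR10 injH12) nodup12 rfl f

/-- sum over the permutations by rooted pairings -/
theorem sum8 {M : Type} [AddCommMonoid M] (f : (Fin 5 → Fin 5) → M) :
    ∑ π : Equiv.Perm (Fin 5), f π =
      (R15.map fun r => (H8.map fun h => f (r ∘ h)).sum).sum :=
  sum_coset R15 H8 (inj_prods _ _ injR15 injH8) nodup8 rfl f

end Fl

end HR
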