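import Pool.Agent.Lib.MP_a1b8b7_co.B.Coset

/-!
# Enumeration of the states of ten pairs up to vertex permutations

All functions are written with recursors so that the kernel evaluates them fast.
`chk3 k leaf d0 d1 d2` runs through all `d3, ..., d9 < k` and skips a branch when it is visible
that a vertex permutation makes the sequence of the ten states lexicographically smaller.
-/

set_option autoImplicit false

open Finset

namespace HR

namespace Fl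

/-- if then else for the kernel -/
noncomputable def bt (b t f : Bool) : Bool := Bool.rec f t b

theorem bt_true (t f : Bool) : bt true t f = t := rfl
theorem bt_false (t f : Bool) : bt false t f = f := rfl

/-- all `i < n` -/
noncomputable def allk (n : ℕ) (p : ℕ → Bool) : Bool :=
  Nat.rec true (fun i ih => bt (p i) ih false) n

theorem allk_iff (n : ℕ) (p : ℕ → Bool) : allk n p = true ↔ ∀ i, i < n → p i = true := by
  induction n with
  | zero => exact ⟨fun _ i hi => absurd hi (Nat.not_lt_zero i), fun _ => rfl⟩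
  | succ n ih =>
    have h1 : allk (n + 1) p = bt (p n) (allk n p) false := rfl
    rw [h1]
    constructor
    · intro h i hi
      cases hp : p n with
      | false => rw [hp] at h; exact absurd h (by simp [bt])
      | true =>
        rw [hp, bt_true] at h
        rcases Nat.lt_succ_iff_lt_or_eq.1 hi with h2 | h2
        · exact ih.1 h i h2
        · rw [h2, hp]
    · intro h
      rw [h n (Nat.lt_succ_self n), bt_true]
      exact ih.2 fun i hi => h i (Nat.lt_succ_of_lt hi)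

/-- evaluate the number first -/
noncomputable def frc (n : ℕ) (f : ℕ → Bool) : Bool :=
  Nat.rec (f 0) (fun m _ => f (Nat.succ m)) n

theorem frc_eq (n : ℕ) (f : ℕ → Bool) : frc n f = f n := by
  cases n <;> rfl

/-- code of three digits -/
noncomputable def c3 (k x y z : ℕ) : ℕ := Nat.add (Nat.mul (Nat.add (Nat.mul x k) y) k) z

theorem c3_eq (k x y z : ℕ) : c3 k x y z = (x * k + y) * k + z := rfl

/-- if then else for numbers, for the kernel -/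
noncomputable def nt (b : Bool) (t f : ℕ) : ℕ := Bool.rec f t b

/-- code of three sorted digits -/
noncomputable def tc (k x y z : ℕ) : ℕ :=
  nt (Nat.ble x y)
    (nt (Nat.ble y z) (c3 k x y z) (nt (Nat.ble x z) (c3 k x z y) (c3 k z x y)))
    (nt (Nat.ble x z) (c3 k y x z) (nt (Nat.ble y z) (c3 k y z x) (c3 k z y x)))

theorem tc_cases (k x y z : ℕ) (p : ℕ → Prop) (h1 : p (c3 k x y z)) (h2 : p (c3 k x z y))
    (h3 : p (c3 k z x y)) (h4 : p (c3 k y x z)) (h5 : p (c3 k y z x)) (h6 : p (c3 k z y x)) :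
    p (tc k x y z) := by
  unfold tc
  cases Nat.ble x y <;> cases Nat.ble y z <;> cases Nat.ble x z <;> assumption

/-- skip when the sorted code of `x, y, z` is less than `c` -/
noncomputable def sk (k c x y z : ℕ) (r : Bool) : Bool := bt (Nat.ble c (tc k x y z)) r true

noncomputable def lv9 (k : ℕ) (leaf : ℕ → ℕ → ℕ → ℕ → ℕ → ℕ → ℕ → ℕ → ℕ → ℕ → Bool)
    (c d0 d1 d2 d3 d4 d5 d6 d7 d8 d9 : ℕ) : Bool :=
  sk k c d3 d6 d9 (sk k c d4 d7 d9 (sk k c d5 d8 d9 (leaf d0 d1 d2 d3 d4 d5 d6 d7 d8 d9)))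

noncomputable def lv8 (k : ℕ) (leaf : ℕ → ℕ → ℕ → ℕ → ℕ → ℕ → ℕ → ℕ → ℕ → ℕ → Bool)
    (c c' d0 d1 d2 d3 d4 d5 d6 d7 d8 : ℕ) : Bool :=
  bt (Nat.ble c' (c3 k d6 d7 d8))
    (sk k c d1 d6 d8 (sk k c d2 d7 d8 (allk k (lv9 k leaf c d0 d1 d2 d3 d4 d5 d6 d7 d8)))) true

noncomputable def lv7 (k : ℕ) (leaf : ℕ → ℕ → ℕ → ℕ → ℕ → ℕ → ℕ → ℕ → ℕ → ℕ → Bool)
    (c c' d0 d1 d2 d3 d4 d5 d6 d7 : ℕ) : Bool :=
  sk k c d0 d6 d7 (allk k (lv8 k leaf c c' d0 d1 d2 d3 d4 d5 d6 d7))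

noncomputable def lv6 (k : ℕ) (leaf : ℕ → ℕ → ℕ → ℕ → ℕ → ℕ → ℕ → ℕ → ℕ → ℕ → Bool)
    (c c' d0 d1 d2 d3 d4 d5 d6 : ℕ) : Bool :=
  allk k (lv7 k leaf c c' d0 d1 d2 d3 d4 d5 d6)

noncomputable def lv5 (k : ℕ) (leaf : ℕ → ℕ → ℕ → ℕ → ℕ → ℕ → ℕ → ℕ → ℕ → ℕ → Bool)
    (c d0 d1 d2 d3 d4 d5 : ℕ) : Bool :=
  bt (bt (Nat.beq d0 d1) (Nat.ble d4 d5) true)
    (sk k c d1 d3 d5 (sk k c d2 d4 d5 (frc (c3 k d3 d4 d5) (fun c' =>
      allk k (lv6 k leaf c c' d0 d1 d2 d3 d4 d5))))) true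

noncomputable def lv4 (k : ℕ) (leaf : ℕ → ℕ → ℕ → ℕ → ℕ → ℕ → ℕ → ℕ → ℕ → ℕ → Bool)
    (c d0 d1 d2 d3 d4 : ℕ) : Bool :=
  bt (bt (Nat.beq d1 d2) (Nat.ble d3 d4) true)
    (sk k c d0 d3 d4 (allk k (lv5 k leaf c d0 d1 d2 d3 d4))) true

noncomputable def lv3 (k : ℕ) (leaf : ℕ → ℕ → ℕ → ℕ → ℕ → ℕ → ℕ → ℕ → ℕ → ℕ → Bool)
    (c d0 d1 d2 d3 : ℕ) : Bool :=
  allk k (lv4 k leaf c d0 d1 d2 d3)

/-- the check for a given type -/
noncomputable def chk3 (k : ℕ) (leaf : ℕ → ℕ → ℕ → ℕ → ℕ → ℕ → ℕ → ℕ → ℕ → ℕ → Bool)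
    (d0 d1 d2 : ℕ) : Bool :=
  frc (c3 k d0 d1 d2) (fun c => allk k (lv3 k leaf c d0 d1 d2))

/-- the check for a given type and a given next digit -/
noncomputable def chk4 (k : ℕ) (leaf : ℕ → ℕ → ℕ → ℕ → ℕ → ℕ → ℕ → ℕ → ℕ → ℕ → Bool)
    (d0 d1 d2 d3 : ℕ) : Bool :=
  frc (c3 k d0 d1 d2) (fun c => lv3 k leaf c d0 d1 d2 d3)

theorem chk3_of_chk4 (k : ℕ) (leaf : ℕ → ℕ → ℕ → ℕ → ℕ → ℕ → ℕ → ℕ → ℕ → ℕ → Bool)
    (d0 d1 d2 : ℕ) (h : ∀ i, i < k → chk4 k leaf d0 d1 d2 i = true) :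
    chk3 k leaf d0 d1 d2 = true := by
  unfold chk3
  rw [frc_eq, allk_iff]
  intro i hi
  have := h i hi
  unfold chk4 at this
  rwa [frc_eq] at this

theorem sk_imp {k c x y z : ℕ} {r : Bool} (h : sk k c x y z r = true)
    (h1 : c ≤ c3 k x y z) (h2 : c ≤ c3 k x z y)
    (h3 : c ≤ c3 k z x y) (h4 : c ≤ c3 k y x z) (h5 : c ≤ c3 k y z x) (h6 : c ≤ c3 k z y x) :
    r = true := by
  have h7 : c ≤ tc k x y z := tc_cases k x y z (fun t => c ≤ t) h1 h2 h3 h4 h5 h6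
  unfold sk at h
  rw [Nat.ble_eq_true_of_le h7] at h
  exact h

theorem bt_imp {b r : Bool} (h : bt b r true = true) (hb : b = true) : r = true := by
  rw [hb] at h
  exact h

/-- Digits of a minimal sequence: every triangle has code at least the code of the first one. -/
structure Min (k : ℕ) (d0 d1 d2 d3 d4 d5 d6 d7 d8 d9 : ℕ) : Prop where
  h0 : d0 < k
  h1 : d1 < k
  h2 : d2 < k
  h3 : d3 < k
  h4 : d4 < k
  h5 : d5 < k
  h6 : d6 < k
  h7 : d7 < k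
  h8 : d8 < k
  h9 : d9 < k
  a1 : d0 ≤ d1
  a2 : d1 ≤ d2
  b1 : d1 = d2 → d3 ≤ d4
  b2 : d0 = d1 → d4 ≤ d5
  b3 : c3 k d3 d4 d5 ≤ c3 k d6 d7 d8
  t034 : ∀ r, sk k (c3 k d0 d1 d2) d0 d3 d4 r = true → r = true
  t135 : ∀ r, sk k (c3 k d0 d1 d2) d1 d3 d5 r = true → r = true
  t245 : ∀ r, sk k (c3 k d0 d1 d2) d2 d4 d5 r = true → r = true
  t067 : ∀ r, sk k (c3 k d0 d1 d2) d0 d6 d7 r = true → r = true
  t168 : ∀ r, sk k (c3 k d0 d1 d2) d1 d6 d8 r = true → r = true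
  t278 : ∀ r, sk k (c3 k d0 d1 d2) d2 d7 d8 r = true → r = true
  t369 : ∀ r, sk k (c3 k d0 d1 d2) d3 d6 d9 r = true → r = true
  t479 : ∀ r, sk k (c3 k d0 d1 d2) d4 d7 d9 r = true → r = true
  t589 : ∀ r, sk k (c3 k d0 d1 d2) d5 d8 d9 r = true → r = true

theorem leaf_of_min {k : ℕ} {leaf : ℕ → ℕ → ℕ → ℕ → ℕ → ℕ → ℕ → ℕ → ℕ → ℕ → Bool}
    {d0 d1 d2 d3 d4 d5 d6 d7 d8 d9 : ℕ} (hM : Min k d0 d1 d2 d3 d4 d5 d6 d7 d8 d9)
    (h : chk3 k leaf d0 d1 d2 = true) : leaf d0 d1 d2 d3 d4 d5 d6 d7 d8 d9 = true := by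
  unfold chk3 at h
  rw [frc_eq, allk_iff] at h
  have e3 := h d3 hM.h3
  unfold lv3 at e3
  rw [allk_iff] at e3
  have e4 := e3 d4 hM.h4
  unfold lv4 at e4
  have e4' := bt_imp e4 (by
    cases hb : Nat.beq d1 d2 with
    | false => rfl
    | true => exact Nat.ble_eq_true_of_le (hM.b1 (Nat.eq_of_beq_eq_true hb)))
  have e4'' := hM.t034 _ e4'
  rw [allk_iff] at e4''
  have e5 := e4'' d5 hM.h5
  unfold lv5 at e5
  have e5' := bt_imp e5 (by
    cases hb : Nat.beq d0 d1 with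
    | false => rfl
    | true => exact Nat.ble_eq_true_of_le (hM.b2 (Nat.eq_of_beq_eq_true hb)))
  have e5'' := hM.t245 _ (hM.t135 _ e5')
  rw [frc_eq, allk_iff] at e5''
  have e6 := e5'' d6 hM.h6
  unfold lv6 at e6
  rw [allk_iff] at e6
  have e7 := e6 d7 hM.h7
  unfold lv7 at e7
  have e7' := hM.t067 _ e7
  rw [allk_iff] at e7'
  have e8 := e7' d8 hM.h8
  unfold lv8 at e8
  have e8' := hM.t278 _ (hM.t168 _ (bt_imp e8 (Nat.ble_eq_true_of_le hM.b3)))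
  rw [allk_iff] at e8'
  have e9 := e8' d9 hM.h9
  unfold lv9 at e9
  exact hM.t589 _ (hM.t479 _ (hM.t369 _ e9))

end Fl

end HR
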