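import Pool.Agent.Lib.MP_a1b8b7_co.B.Psd

/-!
# Kronecker substitution

Two polynomials with natural coefficients, whose coefficients are smaller than `X`, agree if they
agree at one point `(X ^ s 0, X ^ s 1, ...)`, provided that the exponents `∑ s i m i` are different
for the different monomials.
-/

set_option autoImplicit false

open Finset MvPolynomial

namespace HR

namespace Kron

variable {n : ℕ}

/-- the exponent of the monomial `m` -/
def wt (s : Fin n → ℕ) (m : Fin n →₀ ℕ) : ℕ := ∑ i, s i * m i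

theorem eval_pow (s : Fin n → ℕ) (X : ℕ) (P : MvPolynomial (Fin n) ℕ)
    (T : Finset (Fin n →₀ ℕ)) (hT : P.support ⊆ T) :
    eval (fun i => X ^ s i) P = ∑ m ∈ T, P.coeff m * X ^ wt s m := by
  rw [eval_eq']
  rw [Finset.sum_subset hT (by
    intro m _ hm
    rw [notMem_support_iff.1 hm, zero_mul])]
  refine Finset.sum_congr rfl fun m _ => ?_
  congr 1
  rw [wt, ← Finset.prod_pow_eq_pow_sum]
  exact Finset.prod_congr rfl fun i _ => by rw [← pow_mul]

theorem coeff_le (P : MvPolynomial (Fin n) ℕ) (m : Fin n →₀ ℕ) :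
    P.coeff m ≤ eval (fun _ => 1) P := by
  rw [eval_eq']
  simp only [one_pow, Finset.prod_const_one, mul_one]
  by_cases hm : m ∈ P.support
  · exact Finset.single_le_sum (f := fun m => P.coeff m) (fun _ _ => Nat.zero_le _) hm
  · rw [notMem_support_iff.1 hm]
    exact Nat.zero_le _

/-- **Kronecker substitution.** -/
theorem kron (s : Fin n → ℕ) (X : ℕ) (P Q : MvPolynomial (Fin n) ℕ)
    (hs : ∀ m ∈ P.support ∪ Q.support, ∀ m' ∈ P.support ∪ Q.support, wt s m = wt s m' → m = m')
    (hP : eval (fun _ => 1) P < X) (hQ : eval (fun _ => 1) Q < X)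
    (h : eval (fun i => X ^ s i) P = eval (fun i => X ^ s i) Q) : P = Q := by
  classical
  set T := P.support ∪ Q.support with hT
  rw [eval_pow s X P T Finset.subset_union_left, eval_pow s X Q T Finset.subset_union_right] at h
  set N := (T.sup (wt s)) + 1 with hN
  have hlt : ∀ m ∈ T, wt s m < N := fun m hm => Nat.lt_succ_of_le (Finset.le_sup hm)
  -- coefficient differences collected by exponent
  let x : ℕ → ℤ := fun j => ∑ m ∈ T with wt s m = j, (((P.coeff m : ℕ) : ℤ) - ((Q.coeff m : ℕ) : ℤ))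
  have h1 : ∀ m ∈ T, x (wt s m) = ((P.coeff m : ℕ) : ℤ) - ((Q.coeff m : ℕ) : ℤ) := by
    intro m hm
    have : T.filter (fun m' => wt s m' = wt s m) = {m} := by
      ext m'
      simp only [Finset.mem_filter, Finset.mem_singleton]
      constructor
      · rintro ⟨h2, h3⟩
        exact hs m' h2 m hm h3
      · rintro rfl
        exact ⟨hm, rfl⟩
    change ∑ m' ∈ T with wt s m' = wt s m, (((P.coeff m' : ℕ) : ℤ) - ((Q.coeff m' : ℕ) : ℤ)) = _
    rw [this, Finset.sum_singleton]
  have hX : (0 : ℤ) < X := by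
    have : 0 < X := lt_of_le_of_lt (Nat.zero_le _) hP
    exact_mod_cast this
  have hb : ∀ j < N, |x j| < (X : ℤ) := by
    intro j _
    by_cases hj : ∃ m ∈ T, wt s m = j
    · obtain ⟨m, hm, rfl⟩ := hj
      rw [h1 m hm]
      have a1 : ((P.coeff m : ℕ) : ℤ) < X := by exact_mod_cast (coeff_le P m).trans_lt hP
      have a2 : ((Q.coeff m : ℕ) : ℤ) < X := by exact_mod_cast (coeff_le Q m).trans_lt hQ
      have a3 : (0 : ℤ) ≤ ((P.coeff m : ℕ) : ℤ) := Int.natCast_nonneg _
      have a4 : (0 : ℤ) ≤ ((Q.coeff m : ℕ) : ℤ) := Int.natCast_nonneg _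
      rw [abs_lt]
      constructor <;> linarith
    · have : T.filter (fun m' => wt s m' = j) = ∅ := by
        rw [Finset.filter_eq_empty_iff]
        intro m hm hmj
        exact hj ⟨m, hm, hmj⟩
      change |∑ m' ∈ T with wt s m' = j, (((P.coeff m' : ℕ) : ℤ) - ((Q.coeff m' : ℕ) : ℤ))| < _
      rw [this, Finset.sum_empty, abs_zero]
      exact hX
  have hsum : ∑ j ∈ range N, x j * (X : ℤ) ^ j = 0 := by
    have e1 : ∑ j ∈ range N, x j * (X : ℤ) ^ j =
        ∑ j ∈ range N, ∑ m ∈ T with wt s m = j, (((P.coeff m : ℕ) : ℤ) - ((Q.coeff m : ℕ) : ℤ)) * X ^ wt s m := by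
      refine Finset.sum_congr rfl fun j _ => ?_
      rw [Finset.sum_mul]
      refine Finset.sum_congr rfl fun m hm => ?_
      rw [(Finset.mem_filter.1 hm).2]
    rw [e1, Finset.sum_fiberwise_of_maps_to (fun m hm => Finset.mem_range.2 (hlt m hm))]
    simp only [sub_mul, Finset.sum_sub_distrib]
    have : ((∑ m ∈ T, P.coeff m * X ^ wt s m : ℕ) : ℤ) = (∑ m ∈ T, Q.coeff m * X ^ wt s m : ℕ) := by
      rw [h]
    push_cast at this
    rw [this, sub_self]
  have h0 := Chk.uniq (X : ℤ) hX N x hb hsum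
  ext m
  by_cases hm : m ∈ T
  · have h2 := h0 _ (hlt m hm)
    rw [h1 m hm] at h2
    have : ((P.coeff m : ℕ) : ℤ) = ((Q.coeff m : ℕ) : ℤ) := by linarith
    exact_mod_cast this
  · rw [hT, Finset.mem_union, not_or] at hm
    rw [notMem_support_iff.1 hm.1, notMem_support_iff.1 hm.2]

/-- the form that is used: equality at all points of all commutative semirings -/
theorem kron_aeval {R : Type} [CommSemiring R] (s : Fin n → ℕ) (X : ℕ)
    (P Q : MvPolynomial (Fin n) ℕ)
    (hs : ∀ m ∈ P.support ∪ Q.support, ∀ m' ∈ P.support ∪ Q.support, wt s m = wt s m' → m = m')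
    (hP : eval (fun _ => 1) P < X) (hQ : eval (fun _ => 1) Q < X)
    (h : eval (fun i => X ^ s i) P = eval (fun i => X ^ s i) Q) (w : Fin n → R) :
    aeval w P = aeval w Q := by
  rw [kron s X P Q hs hP hQ h]

/-! ### three variables, degree at most four -/

/-- base five -/
theorem wt3_inj (m m' : Fin 3 →₀ ℕ) (h : m 0 + m 1 + m 2 ≤ 4) (h' : m' 0 + m' 1 + m' 2 ≤ 4)
    (he : wt ![1, 5, 25] m = wt ![1, 5, 25] m') : m = m' := by
  have he' : m 0 + 5 * m 1 + 25 * m 2 = m' 0 + 5 * m' 1 + 25 * m' 2 := by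
    simp only [wt, Fin.sum_univ_three] at he
    change 1 * m 0 + 5 * m 1 + 25 * m 2 = 1 * m' 0 + 5 * m' 1 + 25 * m' 2 at he
    omega
  have e0 : m 0 = m' 0 := by
    have : m 0 % 5 = m' 0 % 5 := by omega
    omega
  have e1 : m 1 = m' 1 := by
    have : m 1 % 5 = m' 1 % 5 := by omega
    omega
  ext i
  fin_cases i
  · change m 0 = m' 0
    omega
  · change m 1 = m' 1
    omega
  · change m 2 = m' 2
    omega

theorem deg_le_of_mem {P : MvPolynomial (Fin n) ℕ} {d : ℕ} (h : P.totalDegree ≤ d)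
    {m : Fin n →₀ ℕ} (hm : m ∈ P.support) : ∑ i, m i ≤ d := by
  have h1 := le_totalDegree hm
  rw [Finsupp.sum_fintype _ _ (fun _ => rfl)] at h1
  exact h1.trans h

/-- **Three variables, total degree at most four.** -/
theorem kron3 {R : Type} [CommSemiring R] (X : ℕ) (P Q : MvPolynomial (Fin 3) ℕ)
    (dP : P.totalDegree ≤ 4) (dQ : Q.totalDegree ≤ 4)
    (hP : eval (fun _ => 1) P < X) (hQ : eval (fun _ => 1) Q < X)
    (h : eval (fun i => X ^ (![1, 5, 25] : Fin 3 → ℕ) i) P =
      eval (fun i => X ^ (![1, 5, 25] : Fin 3 → ℕ) i) Q) (w : Fin 3 → R) :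
    aeval w P = aeval w Q := by
  have hd : ∀ m ∈ P.support ∪ Q.support, m 0 + m 1 + m 2 ≤ 4 := by
    intro m hm
    rcases Finset.mem_union.1 hm with hm | hm
    · have := deg_le_of_mem dP hm
      rwa [Fin.sum_univ_three] at this
    · have := deg_le_of_mem dQ hm
      rwa [Fin.sum_univ_three] at this
  exact kron_aeval ![1, 5, 25] X P Q (fun m hm m' hm' he => wt3_inj m m' (hd m hm) (hd m' hm') he)
    hP hQ h w

end Kron

end HR
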