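import Pool.Agent.Lib.MP_a1b8b7_co.B.Poly
import Pool.Agent.Lib.MP_a1b8b7_co.B.Kron

/-!
# Nonnegative polynomial expressions and their evaluation at a Kronecker point

`Ex` is a language for polynomials in the weights `w 0, w 1, ...` which are nonnegative on a cover
polytope: nonnegative constants, sums, products with `w i`, `1 - w i`, `w i + w j + w k - 1`, and
positive semidefinite forms in monomials.  The value is a pair (positive part, negative part) in an
arbitrary commutative semiring.
-/

set_option autoImplicit false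

open Finset

namespace HR

namespace Own

/-- certificate expressions -/
inductive Ex : Type
  | k : ℕ → Ex
  | a : Ex → Ex → Ex
  | v : ℕ → Ex → Ex
  | u : ℕ → Ex → Ex
  | t : ℕ → ℕ → ℕ → Ex → Ex
  | q : List (List ℕ) → Chk.Data → Ex

/-! ### values in a semiring -/

section generic

variable {A : Type} [CommSemiring A] (x : ℕ → A)

/-- monomial -/
def mon : List ℕ → A
  | [] => 1
  | i :: l => x i * mon l

/-- one row of a form -/
def rowE (w : ℕ) : List (List ℕ) → ℕ → A
  | [], _ => 0
  | b :: bs, r => mon x b * ((r % 2 ^ w : ℕ) : A) + rowE w bs (r >>> w)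

/-- all rows of a form -/
def rowsE (w : ℕ) (B : List (List ℕ)) : List (List ℕ) → List ℕ → A
  | [], _ => 0
  | _ :: _, [] => 0
  | b :: bs, q :: qs => mon x b * rowE x w B q + rowsE w B bs qs

/-- sum of the monomials -/
def sumE : List (List ℕ) → A
  | [] => 0
  | b :: bs => mon x b + sumE bs

/-- value -/
noncomputable def ev : Ex → A × A
  | Ex.k m => ((m : A), 0)
  | Ex.a e f => ((ev e).1 + (ev f).1, (ev e).2 + (ev f).2)
  | Ex.v i e => (x i * (ev e).1, x i * (ev e).2)
  | Ex.u i e => ((ev e).1 + x i * (ev e).2, (ev e).2 + x i * (ev e).1)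
  | Ex.t i j l e => (x i * (ev e).1 + (x j * (ev e).1 + x l * (ev e).1) + (ev e).2,
      x i * (ev e).2 + (x j * (ev e).2 + x l * (ev e).2) + (ev e).1)
  | Ex.q B p => (rowsE x p.w B B p.Q, (p.oq : A) * (sumE x B * sumE x B))

end generic

/-! ### naturality -/

section natural

variable {A B : Type} [CommSemiring A] [CommSemiring B] (f : A →+* B) (x : ℕ → A)

theorem mon_map (l : List ℕ) : f (mon x l) = mon (fun i => f (x i)) l := by
  induction l with
  | nil => simp [mon]
  | cons i l ih => simp [mon, ih]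

theorem rowE_map (w : ℕ) (l : List (List ℕ)) : ∀ r : ℕ,
    f (rowE x w l r) = rowE (fun i => f (x i)) w l r := by
  induction l with
  | nil => intro r; simp [rowE]
  | cons b l ih => intro r; simp only [rowE, map_add, map_mul, map_natCast, mon_map, ih]

theorem rowsE_map (w : ℕ) (M : List (List ℕ)) (l : List (List ℕ)) : ∀ r : List ℕ,
    f (rowsE x w M l r) = rowsE (fun i => f (x i)) w M l r := by
  induction l with
  | nil => intro r; simp [rowsE]
  | cons b l ih =>
    intro r
    cases r with
    | nil => simp [rowsE]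
    | cons q qs => simp only [rowsE, map_add, map_mul, mon_map, rowE_map, ih]

theorem sumE_map (l : List (List ℕ)) : f (sumE x l) = sumE (fun i => f (x i)) l := by
  induction l with
  | nil => simp [sumE]
  | cons b l ih => simp only [sumE, map_add, mon_map, ih]

theorem ev_map (E : Ex) : f (ev x E).1 = (ev (fun i => f (x i)) E).1 ∧
    f (ev x E).2 = (ev (fun i => f (x i)) E).2 := by
  induction E with
  | k m => simp [ev]
  | a e g h1 h2 => simp only [ev, map_add, h1.1, h1.2, h2.1, h2.2, and_self]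
  | v i e h => simp only [ev, map_mul, h.1, h.2, and_self]
  | u i e h => simp only [ev, map_add, map_mul, h.1, h.2, and_self]
  | t i j l e h => simp only [ev, map_add, map_mul, h.1, h.2, and_self]
  | q M p => simp only [ev, map_mul, map_natCast, rowsE_map, sumE_map, and_self]

end natural

/-! ### the kernel version -/

section kernel

/-- shift of the variable `i`: digit `i` of the table, 32 bits -/
noncomputable def sh (kt i : ℕ) : ℕ :=
  Nat.mod (Nat.shiftRight kt (Nat.mul (nat_lit 32) i)) (nat_lit 4294967296)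

/-- shift of a monomial -/
noncomputable def monK (kt : ℕ) (l : List ℕ) : ℕ :=
  List.rec (motive := fun _ => ℕ) (nat_lit 0) (fun i _ ih => Nat.add (sh kt i) ih) l

noncomputable def rowK (kt M w : ℕ) (l : List (List ℕ)) (r : ℕ) : ℕ :=
  List.rec (motive := fun _ => ℕ → ℕ) (fun _ => nat_lit 0)
    (fun b _ ih r => Nat.add (Nat.shiftLeft (Nat.mod r M) (monK kt b)) (ih (Nat.shiftRight r w)))
    l r

noncomputable def rowsK (kt M w : ℕ) (B : List (List ℕ)) (l : List (List ℕ)) (r : List ℕ) : ℕ :=
  List.rec (motive := fun _ => List ℕ → ℕ) (fun _ => nat_lit 0)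
    (fun b _ ih r => List.rec (motive := fun _ => ℕ) (nat_lit 0)
      (fun q qs _ => Nat.add (Nat.shiftLeft (rowK kt M w B q) (monK kt b)) (ih qs)) r) l r

noncomputable def sumK (kt : ℕ) (l : List (List ℕ)) : ℕ :=
  List.rec (motive := fun _ => ℕ) (nat_lit 0)
    (fun b _ ih => Nat.add (Nat.shiftLeft (nat_lit 1) (monK kt b)) ih) l

noncomputable def evK (kt : ℕ) (E : Ex) : ℕ × ℕ :=
  Ex.rec (motive := fun _ => ℕ × ℕ)
    (fun m => (m, nat_lit 0))
    (fun _ _ r s => (Nat.add r.1 s.1, Nat.add r.2 s.2))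
    (fun i _ r => (Nat.shiftLeft r.1 (sh kt i), Nat.shiftLeft r.2 (sh kt i)))
    (fun i _ r => (Nat.add r.1 (Nat.shiftLeft r.2 (sh kt i)),
      Nat.add r.2 (Nat.shiftLeft r.1 (sh kt i))))
    (fun i j l _ r => (Nat.add (Nat.add (Nat.shiftLeft r.1 (sh kt i))
        (Nat.add (Nat.shiftLeft r.1 (sh kt j)) (Nat.shiftLeft r.1 (sh kt l)))) r.2,
      Nat.add (Nat.add (Nat.shiftLeft r.2 (sh kt i))
        (Nat.add (Nat.shiftLeft r.2 (sh kt j)) (Nat.shiftLeft r.2 (sh kt l)))) r.1))
    (fun B p => (rowsK kt (Nat.pow (nat_lit 2) p.w) p.w B B p.Q,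
      Nat.mul p.oq (Nat.mul (sumK kt B) (sumK kt B))))
    E

variable (kt : ℕ)

/-- the point -/
noncomputable def pt (i : ℕ) : ℕ := 2 ^ sh kt i

theorem shl (a b : ℕ) : Nat.shiftLeft a b = 2 ^ b * a := by
  rw [mul_comm]
  exact Nat.shiftLeft_eq a b

theorem monK_eq (l : List ℕ) : 2 ^ monK kt l = mon (pt kt) l := by
  induction l with
  | nil => rfl
  | cons i l ih =>
    change 2 ^ (sh kt i + monK kt l) = pt kt i * mon (pt kt) l
    rw [pow_add, ih]
    rfl

theorem rowK_eq (w : ℕ) (l : List (List ℕ)) : ∀ r : ℕ,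
    rowK kt (2 ^ w) w l r = rowE (pt kt) w l r := by
  induction l with
  | nil => intro r; rfl
  | cons b l ih =>
    intro r
    change Nat.shiftLeft (r % 2 ^ w) (monK kt b) + rowK kt (2 ^ w) w l (r >>> w) = _
    rw [shl, monK_eq, ih, rowE]
    rfl

theorem rowsK_eq (w : ℕ) (B : List (List ℕ)) (l : List (List ℕ)) : ∀ r : List ℕ,
    rowsK kt (2 ^ w) w B l r = rowsE (pt kt) w B l r := by
  induction l with
  | nil => intro r; rfl
  | cons b l ih =>
    intro r
    cases r with
    | nil => rfl
    | cons q qs =>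
      change Nat.shiftLeft (rowK kt (2 ^ w) w B q) (monK kt b) + rowsK kt (2 ^ w) w B l qs = _
      rw [shl, monK_eq, ih, rowK_eq, rowsE]

theorem sumK_eq (l : List (List ℕ)) : sumK kt l = sumE (pt kt) l := by
  induction l with
  | nil => rfl
  | cons b l ih =>
    change Nat.shiftLeft 1 (monK kt b) + sumK kt l = _
    rw [shl, monK_eq, ih, sumE, mul_one]

theorem evK_eq (E : Ex) : evK kt E = ev (pt kt) E := by
  induction E with
  | k m => rfl
  | a e g h1 h2 =>
    change ((evK kt e).1 + (evK kt g).1, (evK kt e).2 + (evK kt g).2) = _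
    rw [h1, h2]
    rfl
  | v i e h =>
    change (Nat.shiftLeft (evK kt e).1 (sh kt i), Nat.shiftLeft (evK kt e).2 (sh kt i)) = _
    rw [h, shl, shl]
    rfl
  | u i e h =>
    change ((evK kt e).1 + Nat.shiftLeft (evK kt e).2 (sh kt i),
      (evK kt e).2 + Nat.shiftLeft (evK kt e).1 (sh kt i)) = _
    rw [h, shl, shl]
    rfl
  | t i j l e h =>
    change (Nat.shiftLeft (evK kt e).1 (sh kt i) + (Nat.shiftLeft (evK kt e).1 (sh kt j) +
      Nat.shiftLeft (evK kt e).1 (sh kt l)) + (evK kt e).2,
      Nat.shiftLeft (evK kt e).2 (sh kt i) + (Nat.shiftLeft (evK kt e).2 (sh kt j) +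
      Nat.shiftLeft (evK kt e).2 (sh kt l)) + (evK kt e).1) = _
    rw [h, shl, shl, shl, shl, shl, shl]
    rfl
  | q B p =>
    change (rowsK kt (2 ^ p.w) p.w B B p.Q, p.oq * (sumK kt B * sumK kt B)) = _
    rw [rowsK_eq, sumK_eq]
    rfl

end kernel

end Own

end HR
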