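import Mathlib

/-!
# Five vertex flag functionals on weighted models

`V` is a finite set with a probability measure `x`; every pair `u v` (loops included) carries a
probability distribution `P u v` on a finite set `S` of states, symmetric in `u, v`.
`L x P g` is the expected value of `g (states of the ten pairs of five random vertices)`.
The ten pairs are ordered `01, 02, 12, 03, 13, 23, 04, 14, 24, 34`.
-/

set_option autoImplicit false

open Finset

namespace HR

namespace Fl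

variable {V S : Type} [Fintype V] [Fintype S]

/-- a vertex weighted set with random pair states -/
structure Net (x : V → ℝ) (P : V → V → S → ℝ) : Prop where
  x0 : ∀ u, 0 ≤ x u
  x1 : ∑ u, x u = 1
  P0 : ∀ u v s, 0 ≤ P u v s
  P1 : ∀ u v, ∑ s, P u v s = 1
  Ps : ∀ u v s, P u v s = P v u s

/-- first end of a pair -/
def src : Fin 10 → Fin 5 := ![0, 0, 1, 0, 1, 2, 0, 1, 2, 3]

/-- second end of a pair -/
def tgt : Fin 10 → Fin 5 := ![1, 2, 2, 3, 3, 3, 4, 4, 4, 4]

/-- index of a pair (junk on the diagonal) -/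
def ei (i j : Fin 5) : Fin 10 :=
  (![![0, 0, 1, 3, 6], ![0, 0, 2, 4, 7], ![1, 2, 0, 5, 8], ![3, 4, 5, 0, 9], ![6, 7, 8, 9, 0]] :
    Fin 5 → Fin 5 → Fin 10) i j

theorem ei_comm (i j : Fin 5) : ei i j = ei j i := by revert i j; decide

theorem ei_src_tgt (e : Fin 10) : ei (src e) (tgt e) = e := by revert e; decide

theorem src_ne_tgt (e : Fin 10) : src e ≠ tgt e := by revert e; decide

theorem ends_ei (i j : Fin 5) (h : i ≠ j) :
    (src (ei i j) = i ∧ tgt (ei i j) = j) ∨ (src (ei i j) = j ∧ tgt (ei i j) = i) := by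
  revert i j; decide

/-- action of a vertex permutation on the pairs -/
def pe (π : Equiv.Perm (Fin 5)) (e : Fin 10) : Fin 10 := ei (π (src e)) (π (tgt e))

theorem ends_pe (π : Equiv.Perm (Fin 5)) (e : Fin 10) :
    (src (pe π e) = π (src e) ∧ tgt (pe π e) = π (tgt e)) ∨
      (src (pe π e) = π (tgt e) ∧ tgt (pe π e) = π (src e)) :=
  ends_ei _ _ fun h => src_ne_tgt e (π.injective h)

theorem pe_pe (π ρ : Equiv.Perm (Fin 5)) (e : Fin 10) : pe π (pe ρ e) = pe (π * ρ) e := by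
  unfold pe
  rcases ends_pe ρ e with ⟨h1, h2⟩ | ⟨h1, h2⟩
  · unfold pe at h1 h2
    rw [h1, h2]
    rfl
  · unfold pe at h1 h2
    rw [h1, h2, ei_comm]
    rfl

theorem pe_one (e : Fin 10) : pe 1 e = e := ei_src_tgt e

/-- action of a vertex permutation on the pairs, as a permutation -/
def peE (π : Equiv.Perm (Fin 5)) : Equiv.Perm (Fin 10) where
  toFun := pe π
  invFun := pe π⁻¹
  left_inv e := by rw [pe_pe, inv_mul_cancel, pe_one]
  right_inv e := by rw [pe_pe, mul_inv_cancel, pe_one]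

/-- weight of five vertices with ten states -/
def W5 (x : V → ℝ) (P : V → V → S → ℝ) (a : Fin 5 → V) (F : Fin 10 → S) : ℝ :=
  (∏ i, x (a i)) * ∏ e, P (a (src e)) (a (tgt e)) (F e)

/-- weight of three vertices with three states -/
def W3 (x : V → ℝ) (P : V → V → S → ℝ) (a : Fin 3 → V) (A : Fin 3 → S) : ℝ :=
  (x (a 0) * x (a 1) * x (a 2)) *
    (P (a 0) (a 1) (A 0) * P (a 0) (a 2) (A 1) * P (a 1) (a 2) (A 2))

/-- weight of four vertices with six states -/
def W4 (x : V → ℝ) (P : V → V → S → ℝ) (a : Fin 4 → V) (A : Fin 6 → S) : ℝ :=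
  (x (a 0) * x (a 1) * x (a 2) * x (a 3)) *
    (P (a 0) (a 1) (A 0) * P (a 0) (a 2) (A 1) * P (a 1) (a 2) (A 2) *
      (P (a 0) (a 3) (A 3) * P (a 1) (a 3) (A 4) * P (a 2) (a 3) (A 5)))

/-- the flag functional -/
def L (x : V → ℝ) (P : V → V → S → ℝ) (g : (Fin 10 → S) → ℝ) : ℝ :=
  ∑ a : Fin 5 → V, ∑ F : Fin 10 → S, W5 x P a F * g F

theorem L_add (x : V → ℝ) (P : V → V → S → ℝ) (g h : (Fin 10 → S) → ℝ) :
    L x P (fun F => g F + h F) = L x P g + L x P h := by
  unfold L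
  simp only [mul_add, Finset.sum_add_distrib]

theorem L_sub (x : V → ℝ) (P : V → V → S → ℝ) (g h : (Fin 10 → S) → ℝ) :
    L x P (fun F => g F - h F) = L x P g - L x P h := by
  unfold L
  simp only [mul_sub, Finset.sum_sub_distrib]

theorem L_smul (x : V → ℝ) (P : V → V → S → ℝ) (c : ℝ) (g : (Fin 10 → S) → ℝ) :
    L x P (fun F => c * g F) = c * L x P g := by
  unfold L
  simp only [Finset.mul_sum]
  exact Finset.sum_congr rfl fun a _ => Finset.sum_congr rfl fun F _ => by ring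

theorem L_sum {ι : Type} (s : Finset ι) (x : V → ℝ) (P : V → V → S → ℝ)
    (g : ι → (Fin 10 → S) → ℝ) :
    L x P (fun F => ∑ i ∈ s, g i F) = ∑ i ∈ s, L x P (g i) := by
  unfold L
  simp only [Finset.mul_sum]
  calc _ = ∑ a : Fin 5 → V, ∑ i ∈ s, ∑ F : Fin 10 → S, W5 x P a F * g i F :=
        Finset.sum_congr rfl fun a _ => Finset.sum_comm
    _ = _ := Finset.sum_comm

section basic

variable {x : V → ℝ} {P : V → V → S → ℝ} (hN : Net x P)

include hN

theorem W5_nonneg (a : Fin 5 → V) (F : Fin 10 → S) : 0 ≤ W5 x P a F :=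
  mul_nonneg (Finset.prod_nonneg fun _ _ => hN.x0 _) (Finset.prod_nonneg fun _ _ => hN.P0 _ _ _)

theorem W3_nonneg (a : Fin 3 → V) (A : Fin 3 → S) : 0 ≤ W3 x P a A :=
  mul_nonneg (mul_nonneg (mul_nonneg (hN.x0 _) (hN.x0 _)) (hN.x0 _))
    (mul_nonneg (mul_nonneg (hN.P0 _ _ _) (hN.P0 _ _ _)) (hN.P0 _ _ _))

theorem L_nonneg {g : (Fin 10 → S) → ℝ} (hg : ∀ F, 0 ≤ g F) : 0 ≤ L x P g :=
  Finset.sum_nonneg fun a _ => Finset.sum_nonneg fun F _ => mul_nonneg (W5_nonneg hN a F) (hg F)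

theorem L_mono {g h : (Fin 10 → S) → ℝ} (hg : ∀ F, g F ≤ h F) : L x P g ≤ L x P h :=
  Finset.sum_le_sum fun a _ => Finset.sum_le_sum fun F _ =>
    mul_le_mul_of_nonneg_left (hg F) (W5_nonneg hN a F)

theorem L_perm (π : Equiv.Perm (Fin 5)) (g : (Fin 10 → S) → ℝ) :
    L x P (fun F => g (F ∘ pe π)) = L x P g := by
  unfold L
  have h1 : ∀ (a : Fin 5 → V) (F : Fin 10 → S), W5 x P a F = W5 x P (a ∘ π) (F ∘ pe π) := by
    intro a F
    unfold W5
    congr 1
    · exact (Equiv.prod_comp π (fun i => x (a i))).symm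
    · rw [← Equiv.prod_comp (peE π) (fun e => P (a (src e)) (a (tgt e)) (F e))]
      refine Finset.prod_congr rfl fun e _ => ?_
      change P (a (src (pe π e))) (a (tgt (pe π e))) (F (pe π e)) = _
      rcases ends_pe π e with ⟨h1, h2⟩ | ⟨h1, h2⟩
      · rw [h1, h2]
        rfl
      · rw [h1, h2, hN.Ps]
        rfl
  calc ∑ a : Fin 5 → V, ∑ F : Fin 10 → S, W5 x P a F * g (F ∘ pe π)
      = ∑ a : Fin 5 → V, ∑ F : Fin 10 → S, W5 x P (a ∘ π) (F ∘ pe π) * g (F ∘ pe π) :=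
        Finset.sum_congr rfl fun a _ => Finset.sum_congr rfl fun F _ => by rw [← h1 a F]
    _ = ∑ a : Fin 5 → V, ∑ F : Fin 10 → S, W5 x P (a ∘ π) F * g F := by
        refine Finset.sum_congr rfl fun a _ => ?_
        exact Equiv.sum_comp (Equiv.arrowCongr (peE π).symm (Equiv.refl S))
          (fun F => W5 x P (a ∘ π) F * g F)
    _ = ∑ a : Fin 5 → V, ∑ F : Fin 10 → S, W5 x P a F * g F :=
        Equiv.sum_comp (Equiv.arrowCongr π.symm (Equiv.refl V))
          (fun a => ∑ F : Fin 10 → S, W5 x P a F * g F)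

end basic

/-- joining the states of a type of size three, two flags and the last pair -/
def join (A B C : Fin 3 → S) (s : S) : Fin 10 → S :=
  ![A 0, A 1, A 2, B 0, B 1, B 2, C 0, C 1, C 2, s]

/-- the colourings as quadruples -/
def eS : (((Fin 3 → S) × (Fin 3 → S)) × (Fin 3 → S)) × S ≃ (Fin 10 → S) where
  toFun z := join z.1.1.1 z.1.1.2 z.1.2 z.2
  invFun F := (((![F 0, F 1, F 2], ![F 3, F 4, F 5]), ![F 6, F 7, F 8]), F 9)
  left_inv := by
    rintro ⟨⟨⟨A, B⟩, C⟩, s⟩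
    simp only [Prod.mk.injEq]
    refine ⟨⟨⟨?_, ?_⟩, ?_⟩, rfl⟩ <;> (ext i; fin_cases i <;> rfl)
  right_inv := by
    intro F
    ext i
    fin_cases i <;> rfl

/-- five vertices as three plus two -/
def eV : ((Fin 3 → V) × V) × V ≃ (Fin 5 → V) where
  toFun z := ![z.1.1 0, z.1.1 1, z.1.1 2, z.1.2, z.2]
  invFun a := ((![a 0, a 1, a 2], a 3), a 4)
  left_inv := by
    rintro ⟨⟨A, u⟩, v⟩
    simp only [Prod.mk.injEq]
    refine ⟨⟨?_, rfl⟩, rfl⟩
    ext i; fin_cases i <;> rfl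
  right_inv := by
    intro F
    ext i
    fin_cases i <;> rfl

/-- weight of an extension of three vertices by one -/
def ext3 (x : V → ℝ) (P : V → V → S → ℝ) (a : Fin 3 → V) (u : V) (B : Fin 3 → S) : ℝ :=
  x u * (P (a 0) u (B 0) * P (a 1) u (B 1) * P (a 2) u (B 2))

omit [Fintype V] [Fintype S] in
theorem W5_join (x : V → ℝ) (P : V → V → S → ℝ) (a : Fin 3 → V) (u v : V) (A B C : Fin 3 → S)
    (s : S) : W5 x P (eV ((a, u), v)) (join A B C s) =
      W3 x P a A * (ext3 x P a u B * ext3 x P a v C * P u v s) := by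
  simp only [W5, W3, ext3, eV, join, src, tgt, Equiv.coe_fn_mk, Fin.prod_univ_succ,
    Fin.prod_univ_zero, Matrix.cons_val_zero, Matrix.cons_val_one,
    Matrix.cons_val_succ, Matrix.cons_val]
  ring

/-- splitting of `L` along a type of size three -/
theorem L_split3 (x : V → ℝ) (P : V → V → S → ℝ) (g : (Fin 10 → S) → ℝ) :
    L x P g = ∑ a : Fin 3 → V, ∑ A : Fin 3 → S, W3 x P a A *
      ∑ B : Fin 3 → S, ∑ C : Fin 3 → S, ∑ u, ∑ v, ∑ s,
        ext3 x P a u B * ext3 x P a v C * P u v s * g (join A B C s) := by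
  have h1 : L x P g = ∑ z : ((Fin 3 → V) × V) × V,
      ∑ F : (((Fin 3 → S) × (Fin 3 → S)) × (Fin 3 → S)) × S,
        W5 x P (eV z) (eS F) * g (eS F) := by
    unfold L
    rw [← Equiv.sum_comp eV]
    refine Finset.sum_congr rfl fun z _ => ?_
    rw [← Equiv.sum_comp eS]
  rw [h1]
  simp only [Fintype.sum_prod_type]
  refine Finset.sum_congr rfl fun a _ => ?_
  simp only [Finset.mul_sum]
  calc ∑ u : V, ∑ v : V, ∑ A : Fin 3 → S, ∑ B : Fin 3 → S, ∑ C : Fin 3 → S, ∑ s : S,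
        W5 x P (eV ((a, u), v)) (eS (((A, B), C), s)) * g (eS (((A, B), C), s))
      = ∑ u : V, ∑ A : Fin 3 → S, ∑ B : Fin 3 → S, ∑ C : Fin 3 → S, ∑ v : V, ∑ s : S,
        W5 x P (eV ((a, u), v)) (eS (((A, B), C), s)) * g (eS (((A, B), C), s)) := by
        refine Finset.sum_congr rfl fun u _ => ?_
        rw [Finset.sum_comm]
        refine Finset.sum_congr rfl fun A _ => ?_
        rw [Finset.sum_comm]
        exact Finset.sum_congr rfl fun B _ => Finset.sum_comm
    _ = ∑ A : Fin 3 → S, ∑ B : Fin 3 → S, ∑ C : Fin 3 → S, ∑ u : V, ∑ v : V, ∑ s : S,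
        W5 x P (eV ((a, u), v)) (eS (((A, B), C), s)) * g (eS (((A, B), C), s)) := by
        rw [Finset.sum_comm]
        refine Finset.sum_congr rfl fun A _ => ?_
        rw [Finset.sum_comm]
        exact Finset.sum_congr rfl fun B _ => Finset.sum_comm
    _ = _ := by
        refine Finset.sum_congr rfl fun A _ => Finset.sum_congr rfl fun B _ =>
          Finset.sum_congr rfl fun C _ => Finset.sum_congr rfl fun u _ =>
          Finset.sum_congr rfl fun v _ => Finset.sum_congr rfl fun s _ => ?_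
        change W5 x P (eV ((a, u), v)) (join A B C s) * g (join A B C s) = _
        rw [W5_join]
        ring

/-- the flag vector of a triple -/
def y3 (x : V → ℝ) (P : V → V → S → ℝ) (a : Fin 3 → V) (B : Fin 3 → S) : ℝ :=
  ∑ u, ext3 x P a u B

/-- functions of the type and two flags -/
theorem L_type3 {x : V → ℝ} {P : V → V → S → ℝ} (hN : Net x P)
    (Q : (Fin 3 → S) → (Fin 3 → S) → (Fin 3 → S) → ℝ) :
    L x P (fun F => Q ![F 0, F 1, F 2] ![F 3, F 4, F 5] ![F 6, F 7, F 8]) =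
      ∑ a : Fin 3 → V, ∑ A : Fin 3 → S, W3 x P a A *
        ∑ B : Fin 3 → S, ∑ C : Fin 3 → S, Q A B C * (y3 x P a B * y3 x P a C) := by
  rw [L_split3]
  refine Finset.sum_congr rfl fun a _ => Finset.sum_congr rfl fun A _ => ?_
  congr 1
  refine Finset.sum_congr rfl fun B _ => Finset.sum_congr rfl fun C _ => ?_
  have eA : ∀ A : Fin 3 → S, ![A 0, A 1, A 2] = A := fun A => by
    ext i; fin_cases i <;> rfl
  have h1 : ∀ (u v : V) (s : S), ext3 x P a u B * ext3 x P a v C * P u v s *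
      (fun F : Fin 10 → S => Q ![F 0, F 1, F 2] ![F 3, F 4, F 5] ![F 6, F 7, F 8])
        (join A B C s) = (Q A B C * (ext3 x P a u B * ext3 x P a v C)) * P u v s := by
    intro u v s
    change _ * Q ![A 0, A 1, A 2] ![B 0, B 1, B 2] ![C 0, C 1, C 2] = _
    rw [eA, eA, eA]
    ring
  have h2 : y3 x P a B * y3 x P a C = ∑ u, ∑ v, ext3 x P a u B * ext3 x P a v C :=
    Finset.sum_mul_sum _ _ _ _
  rw [h2, Finset.mul_sum]
  refine Finset.sum_congr rfl fun u _ => ?_
  rw [Finset.mul_sum]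
  refine Finset.sum_congr rfl fun v _ => ?_
  simp only [h1]
  rw [← Finset.mul_sum, hN.P1, mul_one]

/-- **Type of size three, general form**: the forms need only be positive semidefinite after the
summation over the states of the type. -/
theorem L_gen3 {x : V → ℝ} {P : V → V → S → ℝ} (hN : Net x P)
    (Q : (Fin 3 → S) → (Fin 3 → S) → (Fin 3 → S) → ℝ)
    (hQ : ∀ (a : Fin 3 → V) (y : (Fin 3 → S) → ℝ),
      0 ≤ ∑ A, W3 x P a A * ∑ B, ∑ C, Q A B C * (y B * y C)) :
    0 ≤ L x P (fun F => Q ![F 0, F 1, F 2] ![F 3, F 4, F 5] ![F 6, F 7, F 8]) := by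
  rw [L_type3 hN]
  exact Finset.sum_nonneg fun a _ => hQ a _

/-- **Type of size three, positive semidefinite forms.** -/
theorem L_psd3 {x : V → ℝ} {P : V → V → S → ℝ} (hN : Net x P)
    (Q : (Fin 3 → S) → (Fin 3 → S) → (Fin 3 → S) → ℝ)
    (hQ : ∀ (A : Fin 3 → S) (y : (Fin 3 → S) → ℝ), 0 ≤ ∑ B, ∑ C, Q A B C * (y B * y C)) :
    0 ≤ L x P (fun F => Q ![F 0, F 1, F 2] ![F 3, F 4, F 5] ![F 6, F 7, F 8]) := by
  rw [L_type3 hN]
  exact Finset.sum_nonneg fun a _ => Finset.sum_nonneg fun A _ =>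
    mul_nonneg (W3_nonneg hN a A) (hQ A _)

/-- **Type of size three with a localising factor of the type.** -/
theorem L_loc3 {x : V → ℝ} {P : V → V → S → ℝ} (hN : Net x P)
    (t : (Fin 3 → S) → ℝ) (ht : ∀ a : Fin 3 → V, 0 ≤ ∑ A, W3 x P a A * t A)
    (Q : (Fin 3 → S) → (Fin 3 → S) → ℝ)
    (hQ : ∀ y : (Fin 3 → S) → ℝ, 0 ≤ ∑ B, ∑ C, Q B C * (y B * y C)) :
    0 ≤ L x P (fun F => t ![F 0, F 1, F 2] * Q ![F 3, F 4, F 5] ![F 6, F 7, F 8]) := by
  rw [L_type3 hN (fun A B C => t A * Q B C)]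
  refine Finset.sum_nonneg fun a _ => ?_
  have h1 : ∑ A : Fin 3 → S, W3 x P a A *
      ∑ B : Fin 3 → S, ∑ C : Fin 3 → S, t A * Q B C * (y3 x P a B * y3 x P a C) =
      (∑ A, W3 x P a A * t A) *
        ∑ B : Fin 3 → S, ∑ C : Fin 3 → S, Q B C * (y3 x P a B * y3 x P a C) := by
    rw [Finset.sum_mul]
    refine Finset.sum_congr rfl fun A _ => ?_
    rw [mul_assoc]
    congr 1
    rw [Finset.mul_sum]
    refine Finset.sum_congr rfl fun B _ => ?_
    rw [Finset.mul_sum]
    exact Finset.sum_congr rfl fun C _ => by ring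
  rw [h1]
  exact mul_nonneg (ht a) (hQ _)

/-- **Triangle rows**: a factor on the first three pairs, nonnegative in the model, times a
nonnegative function of the seven other pairs. -/
theorem L_tri {x : V → ℝ} {P : V → V → S → ℝ} (hN : Net x P)
    (t : (Fin 3 → S) → ℝ) (ht : ∀ a : Fin 3 → V, 0 ≤ ∑ A, W3 x P a A * t A)
    (m : (Fin 3 → S) → (Fin 3 → S) → S → ℝ) (hm : ∀ B C s, 0 ≤ m B C s) :
    0 ≤ L x P (fun F => t ![F 0, F 1, F 2] * m ![F 3, F 4, F 5] ![F 6, F 7, F 8] (F 9)) := by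
  rw [L_split3]
  refine Finset.sum_nonneg fun a _ => ?_
  have eA : ∀ A : Fin 3 → S, ![A 0, A 1, A 2] = A := fun A => by
    ext i; fin_cases i <;> rfl
  have h1 : ∀ A : Fin 3 → S, W3 x P a A *
      ∑ B : Fin 3 → S, ∑ C : Fin 3 → S, ∑ u, ∑ v, ∑ s,
        ext3 x P a u B * ext3 x P a v C * P u v s *
        (fun F : Fin 10 → S => t ![F 0, F 1, F 2] * m ![F 3, F 4, F 5] ![F 6, F 7, F 8] (F 9))
          (join A B C s) =
      (W3 x P a A * t A) *
      ∑ B : Fin 3 → S, ∑ C : Fin 3 → S, ∑ u, ∑ v, ∑ s,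
        ext3 x P a u B * ext3 x P a v C * P u v s * m B C s := by
    intro A
    rw [mul_assoc]
    congr 1
    simp only [Finset.mul_sum]
    refine Finset.sum_congr rfl fun B _ => Finset.sum_congr rfl fun C _ =>
      Finset.sum_congr rfl fun u _ => Finset.sum_congr rfl fun v _ =>
      Finset.sum_congr rfl fun s _ => ?_
    change _ * (t ![A 0, A 1, A 2] * m ![B 0, B 1, B 2] ![C 0, C 1, C 2] s) = _
    rw [eA, eA, eA]
    ring
  simp only [h1]
  rw [← Finset.sum_mul]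
  refine mul_nonneg (ht a) ?_
  refine Finset.sum_nonneg fun B _ => Finset.sum_nonneg fun C _ => Finset.sum_nonneg fun u _ =>
    Finset.sum_nonneg fun v _ => Finset.sum_nonneg fun s _ => ?_
  exact mul_nonneg (mul_nonneg (mul_nonneg
    (mul_nonneg (hN.x0 _) (mul_nonneg (mul_nonneg (hN.P0 _ _ _) (hN.P0 _ _ _)) (hN.P0 _ _ _)))
    (mul_nonneg (hN.x0 _) (mul_nonneg (mul_nonneg (hN.P0 _ _ _) (hN.P0 _ _ _)) (hN.P0 _ _ _))))
    (hN.P0 _ _ _)) (hm _ _ _)

/-! ### Symmetrisation -/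

/-- **Symmetrisation over the vertex permutations.** -/
theorem L_symm {x : V → ℝ} {P : V → V → S → ℝ} (hN : Net x P) (g : (Fin 10 → S) → ℝ) :
    L x P (fun F => ∑ π : Equiv.Perm (Fin 5), g (F ∘ pe π)) = 120 * L x P g := by
  rw [L_sum]
  simp only [L_perm hN]
  rw [Finset.sum_const, Finset.card_univ, Fintype.card_perm, Fintype.card_fin, nsmul_eq_mul]
  norm_num [Nat.factorial]

/-- **The certificate principle**: if the symmetrised function is nonnegative then so is the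
functional. -/
theorem L_nonneg_of_symm {x : V → ℝ} {P : V → V → S → ℝ} (hN : Net x P) (g : (Fin 10 → S) → ℝ)
    (hg : ∀ F : Fin 10 → S, 0 ≤ ∑ π : Equiv.Perm (Fin 5), g (F ∘ pe π)) : 0 ≤ L x P g := by
  have h1 := L_nonneg hN hg
  rw [L_symm hN] at h1
  linarith

/-! ### Products of a function of three vertices and a function of the last pair -/

/-- functional for three vertices -/
def L3 (x : V → ℝ) (P : V → V → S → ℝ) (H : (Fin 3 → S) → ℝ) : ℝ :=
  ∑ a : Fin 3 → V, ∑ A : Fin 3 → S, W3 x P a A * H A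

/-- functional for one pair -/
def L2 (x : V → ℝ) (P : V → V → S → ℝ) (h : S → ℝ) : ℝ :=
  ∑ u, ∑ v, x u * x v * ∑ s, P u v s * h s

theorem L_prod {x : V → ℝ} {P : V → V → S → ℝ} (hN : Net x P)
    (H : (Fin 3 → S) → ℝ) (h : S → ℝ) :
    L x P (fun F => H ![F 0, F 1, F 2] * h (F 9)) = L3 x P H * L2 x P h := by
  rw [L_split3]
  unfold L3
  rw [Finset.sum_mul]
  refine Finset.sum_congr rfl fun a _ => ?_
  rw [Finset.sum_mul]
  refine Finset.sum_congr rfl fun A _ => ?_
  rw [mul_assoc]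
  congr 1
  have eA : ![A 0, A 1, A 2] = A := by
    ext i; fin_cases i <;> rfl
  have hext : ∀ u : V, ∑ B : Fin 3 → S, ext3 x P a u B = x u := by
    intro u
    have e0 : ∑ B : Fin 3 → S, ∏ i, P (a i) u (B i) = 1 := by
      have := Finset.prod_univ_sum (fun _ : Fin 3 => (Finset.univ : Finset S))
        (fun i s => P (a i) u s)
      rw [Fintype.piFinset_univ] at this
      rw [← this]
      simp only [hN.P1, Finset.prod_const_one]
    have e1 : ∀ B : Fin 3 → S, ext3 x P a u B = x u * ∏ i, P (a i) u (B i) := by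
      intro B
      rw [Fin.prod_univ_three]
      rfl
    simp only [e1, ← Finset.mul_sum, e0, mul_one]
  calc ∑ B : Fin 3 → S, ∑ C : Fin 3 → S, ∑ u, ∑ v, ∑ s,
        ext3 x P a u B * ext3 x P a v C * P u v s *
        (fun F : Fin 10 → S => H ![F 0, F 1, F 2] * h (F 9)) (join A B C s)
      = ∑ B : Fin 3 → S, ∑ C : Fin 3 → S, ∑ u, ∑ v,
        H A * (ext3 x P a u B * (ext3 x P a v C * ∑ s, P u v s * h s)) := by
        refine Finset.sum_congr rfl fun B _ => Finset.sum_congr rfl fun C _ =>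
          Finset.sum_congr rfl fun u _ => Finset.sum_congr rfl fun v _ => ?_
        rw [Finset.mul_sum, Finset.mul_sum, Finset.mul_sum]
        refine Finset.sum_congr rfl fun s _ => ?_
        change _ * (H ![A 0, A 1, A 2] * h s) = _
        rw [eA]
        ring
    _ = ∑ u, ∑ v, ∑ B : Fin 3 → S, ∑ C : Fin 3 → S,
        H A * (ext3 x P a u B * (ext3 x P a v C * ∑ s, P u v s * h s)) := by
        calc _ = ∑ B : Fin 3 → S, ∑ u, ∑ C : Fin 3 → S, ∑ v,
              H A * (ext3 x P a u B * (ext3 x P a v C * ∑ s, P u v s * h s)) :=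
              Finset.sum_congr rfl fun B _ => Finset.sum_comm
          _ = ∑ B : Fin 3 → S, ∑ u, ∑ v, ∑ C : Fin 3 → S,
              H A * (ext3 x P a u B * (ext3 x P a v C * ∑ s, P u v s * h s)) :=
              Finset.sum_congr rfl fun B _ => Finset.sum_congr rfl fun u _ => Finset.sum_comm
          _ = ∑ u, ∑ B : Fin 3 → S, ∑ v, ∑ C : Fin 3 → S,
              H A * (ext3 x P a u B * (ext3 x P a v C * ∑ s, P u v s * h s)) := Finset.sum_comm
          _ = _ := Finset.sum_congr rfl fun u _ => Finset.sum_comm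
    _ = ∑ u, ∑ v, H A * (x u * (x v * ∑ s, P u v s * h s)) := by
        refine Finset.sum_congr rfl fun u _ => Finset.sum_congr rfl fun v _ => ?_
        simp only [← Finset.mul_sum, ← Finset.sum_mul, hext]
    _ = H A * L2 x P h := by
        unfold L2
        simp only [Finset.mul_sum, mul_assoc]

theorem L3_nonneg {x : V → ℝ} {P : V → V → S → ℝ} (hN : Net x P) {H : (Fin 3 → S) → ℝ}
    (hH : ∀ A, 0 ≤ H A) : 0 ≤ L3 x P H :=
  Finset.sum_nonneg fun a _ => Finset.sum_nonneg fun A _ => mul_nonneg (W3_nonneg hN a A) (hH A)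

theorem L3_mono {x : V → ℝ} {P : V → V → S → ℝ} (hN : Net x P) {H K : (Fin 3 → S) → ℝ}
    (hH : ∀ A, H A ≤ K A) : L3 x P H ≤ L3 x P K :=
  Finset.sum_le_sum fun a _ => Finset.sum_le_sum fun A _ =>
    mul_le_mul_of_nonneg_left (hH A) (W3_nonneg hN a A)

theorem L3_add (x : V → ℝ) (P : V → V → S → ℝ) (H K : (Fin 3 → S) → ℝ) :
    L3 x P (fun A => H A + K A) = L3 x P H + L3 x P K := by
  unfold L3
  simp only [mul_add, Finset.sum_add_distrib]

theorem L3_smul (x : V → ℝ) (P : V → V → S → ℝ) (c : ℝ) (H : (Fin 3 → S) → ℝ) :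
    L3 x P (fun A => c * H A) = c * L3 x P H := by
  unfold L3
  simp only [Finset.mul_sum]
  exact Finset.sum_congr rfl fun a _ => Finset.sum_congr rfl fun F _ => by ring

/-- the three vertices and three states of a triangle as two steps -/
def eV3 : (V × V) × V ≃ (Fin 3 → V) where
  toFun z := ![z.1.1, z.1.2, z.2]
  invFun a := ((a 0, a 1), a 2)
  left_inv := by
    rintro ⟨⟨u, v⟩, w⟩
    rfl
  right_inv := by
    intro F
    ext i
    fin_cases i <;> rfl

theorem L3_one {x : V → ℝ} {P : V → V → S → ℝ} (hN : Net x P) : L3 x P (fun _ => 1) = 1 := by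
  unfold L3
  have h1 : ∀ a : Fin 3 → V, ∑ A : Fin 3 → S, W3 x P a A * 1 = x (a 0) * x (a 1) * x (a 2) := by
    intro a
    rw [← Equiv.sum_comp (eV3 (V := S)), Fintype.sum_prod_type, Fintype.sum_prod_type]
    have : ∀ s t r : S, W3 x P a (eV3 ((s, t), r)) * 1 =
        (x (a 0) * x (a 1) * x (a 2)) * (P (a 0) (a 1) s * (P (a 0) (a 2) t * P (a 1) (a 2) r)) := by
      intro s t r
      change (x (a 0) * x (a 1) * x (a 2)) * (P (a 0) (a 1) s * P (a 0) (a 2) t *
        P (a 1) (a 2) r) * 1 = _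
      ring
    simp only [this, ← Finset.mul_sum, hN.P1, mul_one]
  simp only [h1]
  rw [← Equiv.sum_comp (eV3 (V := V)), Fintype.sum_prod_type, Fintype.sum_prod_type]
  have : ∀ u v w : V, x (eV3 ((u, v), w) 0) * x (eV3 ((u, v), w) 1) * x (eV3 ((u, v), w) 2) =
      x u * (x v * x w) := by
    intro u v w
    change x u * x v * x w = _
    ring
  simp only [this, ← Finset.mul_sum, hN.x1, mul_one]

/-- one vertex types inside three vertices -/
theorem L3_psd {x : V → ℝ} {P : V → V → S → ℝ} (hN : Net x P) (Q : S → S → ℝ)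
    (hQ : ∀ y : S → ℝ, 0 ≤ ∑ s, ∑ t, Q s t * (y s * y t)) :
    0 ≤ L3 x P (fun A => Q (A 0) (A 1)) := by
  have h1 : L3 x P (fun A => Q (A 0) (A 1)) =
      ∑ u, x u * ∑ s, ∑ t, Q s t * ((∑ v, x v * P u v s) * (∑ w, x w * P u w t)) := by
    unfold L3
    rw [← Equiv.sum_comp (eV3 (V := V)), Fintype.sum_prod_type, Fintype.sum_prod_type]
    refine Finset.sum_congr rfl fun u _ => ?_
    have h2 : ∀ v w : V, ∑ A : Fin 3 → S, W3 x P (eV3 ((u, v), w)) A * Q (A 0) (A 1) =
        ∑ s, ∑ t, x u * (Q s t * ((x v * P u v s) * (x w * P u w t))) := by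
      intro v w
      rw [← Equiv.sum_comp (eV3 (V := S)), Fintype.sum_prod_type, Fintype.sum_prod_type]
      refine Finset.sum_congr rfl fun s _ => Finset.sum_congr rfl fun t _ => ?_
      have : ∀ r : S, W3 x P (eV3 ((u, v), w)) (eV3 ((s, t), r)) *
          Q ((eV3 ((s, t), r) : Fin 3 → S) 0) ((eV3 ((s, t), r) : Fin 3 → S) 1) =
          x u * (Q s t * ((x v * P u v s) * (x w * P u w t))) * P v w r := by
        intro r
        change (x u * x v * x w) * (P u v s * P u w t * P v w r) * Q s t = _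
        ring
      simp only [this, ← Finset.mul_sum, hN.P1, mul_one]
    simp only [h2]
    calc ∑ v, ∑ w, ∑ s, ∑ t, x u * (Q s t * ((x v * P u v s) * (x w * P u w t)))
        = ∑ v, ∑ s, ∑ t, ∑ w, x u * (Q s t * ((x v * P u v s) * (x w * P u w t))) := by
          refine Finset.sum_congr rfl fun v _ => ?_
          rw [Finset.sum_comm]
          exact Finset.sum_congr rfl fun s _ => Finset.sum_comm
      _ = ∑ s, ∑ t, ∑ v, ∑ w, x u * (Q s t * ((x v * P u v s) * (x w * P u w t))) := by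
          rw [Finset.sum_comm]
          exact Finset.sum_congr rfl fun s _ => Finset.sum_comm
      _ = _ := by
          rw [Finset.mul_sum]
          refine Finset.sum_congr rfl fun s _ => ?_
          rw [Finset.mul_sum]
          refine Finset.sum_congr rfl fun t _ => ?_
          rw [Finset.sum_mul_sum, Finset.mul_sum, Finset.mul_sum]
          refine Finset.sum_congr rfl fun v _ => ?_
          rw [Finset.mul_sum, Finset.mul_sum]
  rw [h1]
  exact Finset.sum_nonneg fun u _ => mul_nonneg (hN.x0 u) (hQ _)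

/-! ### Rooted rows (degree conditions) -/

/-- degree functional -/
def deg (x : V → ℝ) (P : V → V → S → ℝ) (k : S → ℝ) (u : V) : ℝ :=
  ∑ v, x v * ∑ s, P u v s * k s

/-- five vertices as four plus one -/
def eV4 : (Fin 4 → V) × V ≃ (Fin 5 → V) where
  toFun z := ![z.1 0, z.1 1, z.1 2, z.1 3, z.2]
  invFun a := (![a 0, a 1, a 2, a 3], a 4)
  left_inv := by
    rintro ⟨A, u⟩
    simp only [Prod.mk.injEq]
    refine ⟨?_, rfl⟩
    ext i; fin_cases i <;> rfl
  right_inv := by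
    intro F
    ext i
    fin_cases i <;> rfl

/-- ten pairs as six, one and three -/
def eS4 : ((Fin 6 → S) × S) × (Fin 3 → S) ≃ (Fin 10 → S) where
  toFun z := ![z.1.1 0, z.1.1 1, z.1.1 2, z.1.1 3, z.1.1 4, z.1.1 5, z.1.2, z.2 0, z.2 1, z.2 2]
  invFun F := ((![F 0, F 1, F 2, F 3, F 4, F 5], F 6), ![F 7, F 8, F 9])
  left_inv := by
    rintro ⟨⟨A, s⟩, C⟩
    simp only [Prod.mk.injEq]
    refine ⟨⟨?_, rfl⟩, ?_⟩ <;> (ext i; fin_cases i <;> rfl)
  right_inv := by
    intro F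
    ext i
    fin_cases i <;> rfl

omit [Fintype V] [Fintype S] in
theorem W5_four (x : V → ℝ) (P : V → V → S → ℝ) (a : Fin 4 → V) (u : V) (A : Fin 6 → S)
    (s : S) (C : Fin 3 → S) : W5 x P (eV4 (a, u)) (eS4 ((A, s), C)) =
      W4 x P a A * (x u * P (a 0) u s * (P (a 1) u (C 0) * P (a 2) u (C 1) * P (a 3) u (C 2))) := by
  simp only [W5, W4, eV4, eS4, src, tgt, Equiv.coe_fn_mk, Fin.prod_univ_succ,
    Fin.prod_univ_zero, Matrix.cons_val_zero, Matrix.cons_val_one,
    Matrix.cons_val_succ, Matrix.cons_val]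
  ring

/-- **Rooted rows.** -/
theorem L_root {x : V → ℝ} {P : V → V → S → ℝ} (hN : Net x P)
    (H : (Fin 6 → S) → ℝ) (k : S → ℝ) :
    L x P (fun F => H ![F 0, F 1, F 2, F 3, F 4, F 5] * k (F 6)) =
      ∑ a : Fin 4 → V, ∑ A : Fin 6 → S, W4 x P a A * (H A * deg x P k (a 0)) := by
  have h1 : L x P (fun F => H ![F 0, F 1, F 2, F 3, F 4, F 5] * k (F 6)) =
      ∑ z : (Fin 4 → V) × V, ∑ F : ((Fin 6 → S) × S) × (Fin 3 → S),
        W5 x P (eV4 z) (eS4 F) * (fun F : Fin 10 → S =>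
          H ![F 0, F 1, F 2, F 3, F 4, F 5] * k (F 6)) (eS4 F) := by
    unfold L
    rw [← Equiv.sum_comp eV4]
    refine Finset.sum_congr rfl fun z _ => ?_
    rw [← Equiv.sum_comp eS4]
  rw [h1]
  simp only [Fintype.sum_prod_type]
  refine Finset.sum_congr rfl fun a _ => ?_
  have hC : ∀ u : V, ∑ C : Fin 3 → S, P (a 1) u (C 0) * P (a 2) u (C 1) * P (a 3) u (C 2) = 1 := by
    intro u
    have := Finset.prod_univ_sum (fun _ : Fin 3 => (Finset.univ : Finset S))
      (fun i s => P (a i.succ) u s)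
    rw [Fintype.piFinset_univ] at this
    simp only [hN.P1, Finset.prod_const_one, Fin.prod_univ_three] at this
    rw [this]
    rfl
  have h2 : ∀ (u : V) (A : Fin 6 → S) (s : S), ∑ C : Fin 3 → S,
      W5 x P (eV4 (a, u)) (eS4 ((A, s), C)) * (H ![(eS4 ((A, s), C) : Fin 10 → S) 0,
        (eS4 ((A, s), C) : Fin 10 → S) 1, (eS4 ((A, s), C) : Fin 10 → S) 2,
        (eS4 ((A, s), C) : Fin 10 → S) 3, (eS4 ((A, s), C) : Fin 10 → S) 4,
        (eS4 ((A, s), C) : Fin 10 → S) 5] * k ((eS4 ((A, s), C) : Fin 10 → S) 6)) =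
      W4 x P a A * (H A * (x u * (P (a 0) u s * k s))) := by
    intro u A s
    have eA : ![A 0, A 1, A 2, A 3, A 4, A 5] = A := by
      ext i; fin_cases i <;> rfl
    have h3 : ∀ C : Fin 3 → S, W5 x P (eV4 (a, u)) (eS4 ((A, s), C)) *
        (H ![(eS4 ((A, s), C) : Fin 10 → S) 0,
        (eS4 ((A, s), C) : Fin 10 → S) 1, (eS4 ((A, s), C) : Fin 10 → S) 2,
        (eS4 ((A, s), C) : Fin 10 → S) 3, (eS4 ((A, s), C) : Fin 10 → S) 4,
        (eS4 ((A, s), C) : Fin 10 → S) 5] * k ((eS4 ((A, s), C) : Fin 10 → S) 6)) =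
        W4 x P a A * (H A * (x u * (P (a 0) u s * k s))) *
          (P (a 1) u (C 0) * P (a 2) u (C 1) * P (a 3) u (C 2)) := by
      intro C
      rw [W5_four]
      change _ * (H ![A 0, A 1, A 2, A 3, A 4, A 5] * k s) = _
      rw [eA]
      ring
    simp only [h3]
    rw [← Finset.mul_sum, hC, mul_one]
  simp only [h2]
  rw [Finset.sum_comm]
  refine Finset.sum_congr rfl fun A _ => ?_
  unfold deg
  simp only [Finset.mul_sum]

/-- rooted rows vanish when the degree condition holds on the support -/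
theorem L_root_zero {x : V → ℝ} {P : V → V → S → ℝ} (hN : Net x P)
    (H : (Fin 6 → S) → ℝ) (k : S → ℝ) (hk : ∀ u, x u * deg x P k u = 0) :
    L x P (fun F => H ![F 0, F 1, F 2, F 3, F 4, F 5] * k (F 6)) = 0 := by
  rw [L_root hN]
  refine Finset.sum_eq_zero fun a _ => Finset.sum_eq_zero fun A _ => ?_
  have : W4 x P a A * (H A * deg x P k (a 0)) = (x (a 0) * deg x P k (a 0)) *
      ((x (a 1) * x (a 2) * x (a 3)) *
        (P (a 0) (a 1) (A 0) * P (a 0) (a 2) (A 1) * P (a 1) (a 2) (A 2) *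
          (P (a 0) (a 3) (A 3) * P (a 1) (a 3) (A 4) * P (a 2) (a 3) (A 5))) * H A) := by
    unfold W4
    ring
  rw [this, hk, zero_mul]

/-- rooted rows with a sign -/
theorem L_root_nonneg {x : V → ℝ} {P : V → V → S → ℝ} (hN : Net x P)
    (H : (Fin 6 → S) → ℝ) (hH : ∀ A, 0 ≤ H A) (k : S → ℝ) (hk : ∀ u, 0 ≤ x u * deg x P k u) :
    0 ≤ L x P (fun F => H ![F 0, F 1, F 2, F 3, F 4, F 5] * k (F 6)) := by
  rw [L_root hN]
  refine Finset.sum_nonneg fun a _ => Finset.sum_nonneg fun A _ => ?_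
  have : W4 x P a A * (H A * deg x P k (a 0)) = (x (a 0) * deg x P k (a 0)) *
      ((x (a 1) * x (a 2) * x (a 3)) *
        (P (a 0) (a 1) (A 0) * P (a 0) (a 2) (A 1) * P (a 1) (a 2) (A 2) *
          (P (a 0) (a 3) (A 3) * P (a 1) (a 3) (A 4) * P (a 2) (a 3) (A 5))) * H A) := by
    unfold W4
    ring
  rw [this]
  refine mul_nonneg (hk _) (mul_nonneg (mul_nonneg (mul_nonneg (mul_nonneg (hN.x0 _) (hN.x0 _))
    (hN.x0 _)) (mul_nonneg ?_ ?_)) (hH A))
  · exact mul_nonneg (mul_nonneg (hN.P0 _ _ _) (hN.P0 _ _ _)) (hN.P0 _ _ _)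
  · exact mul_nonneg (mul_nonneg (hN.P0 _ _ _) (hN.P0 _ _ _)) (hN.P0 _ _ _)

/-! ### Types of size one -/

/-- five vertices as one plus two plus two -/
def eV1 : V × ((V × V) × (V × V)) ≃ (Fin 5 → V) where
  toFun z := ![z.1, z.2.1.1, z.2.1.2, z.2.2.1, z.2.2.2]
  invFun a := (a 0, ((a 1, a 2), (a 3, a 4)))
  left_inv := by
    rintro ⟨u, ⟨v, w⟩, ⟨r, s⟩⟩
    rfl
  right_inv := by
    intro F
    ext i
    fin_cases i <;> rfl

/-- ten pairs as two flags `(01, 02, 12)`, `(03, 04, 34)` and the four pairs between them -/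
def eS1 : ((Fin 3 → S) × (Fin 3 → S)) × (Fin 4 → S) ≃ (Fin 10 → S) where
  toFun z := ![z.1.1 0, z.1.1 1, z.1.1 2, z.1.2 0, z.2 0, z.2 1, z.1.2 1, z.2 2, z.2 3, z.1.2 2]
  invFun F := ((![F 0, F 1, F 2], ![F 3, F 6, F 9]), ![F 4, F 5, F 7, F 8])
  left_inv := by
    rintro ⟨⟨A, B⟩, C⟩
    simp only [Prod.mk.injEq]
    refine ⟨⟨?_, ?_⟩, ?_⟩ <;> (ext i; fin_cases i <;> rfl)
  right_inv := by
    intro F
    ext i
    fin_cases i <;> rfl

/-- weight of a flag at a vertex -/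
def ext1 (x : V → ℝ) (P : V → V → S → ℝ) (a : V) (z : V × V) (B : Fin 3 → S) : ℝ :=
  (x z.1 * x z.2) * (P a z.1 (B 0) * P a z.2 (B 1) * P z.1 z.2 (B 2))

/-- the flag vector of a vertex -/
def y1 (x : V → ℝ) (P : V → V → S → ℝ) (a : V) (B : Fin 3 → S) : ℝ :=
  ∑ z, ext1 x P a z B

omit [Fintype V] [Fintype S] in
theorem W5_one (x : V → ℝ) (P : V → V → S → ℝ) (a : V) (z z' : V × V) (B C : Fin 3 → S)
    (D : Fin 4 → S) : W5 x P (eV1 (a, (z, z'))) (eS1 ((B, C), D)) =
      x a * (ext1 x P a z B * ext1 x P a z' C) *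
        (P z.1 z'.1 (D 0) * P z.2 z'.1 (D 1) * P z.1 z'.2 (D 2) * P z.2 z'.2 (D 3)) := by
  simp only [W5, ext1, eV1, eS1, src, tgt, Equiv.coe_fn_mk, Fin.prod_univ_succ,
    Fin.prod_univ_zero, Matrix.cons_val_zero, Matrix.cons_val_one,
    Matrix.cons_val_succ, Matrix.cons_val]
  ring

/-- functions of two flags on one vertex -/
theorem L_type1 {x : V → ℝ} {P : V → V → S → ℝ} (hN : Net x P)
    (Q : (Fin 3 → S) → (Fin 3 → S) → ℝ) :
    L x P (fun F => Q ![F 0, F 1, F 2] ![F 3, F 6, F 9]) =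
      ∑ a : V, x a * ∑ B, ∑ C, Q B C * (y1 x P a B * y1 x P a C) := by
  have h1 : L x P (fun F => Q ![F 0, F 1, F 2] ![F 3, F 6, F 9]) =
      ∑ z : V × ((V × V) × (V × V)), ∑ F : ((Fin 3 → S) × (Fin 3 → S)) × (Fin 4 → S),
        W5 x P (eV1 z) (eS1 F) * (fun F : Fin 10 → S =>
          Q ![F 0, F 1, F 2] ![F 3, F 6, F 9]) (eS1 F) := by
    unfold L
    rw [← Equiv.sum_comp eV1]
    refine Finset.sum_congr rfl fun z _ => ?_
    rw [← Equiv.sum_comp eS1]
  rw [h1, Fintype.sum_prod_type]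
  refine Finset.sum_congr rfl fun a _ => ?_
  rw [Fintype.sum_prod_type]
  have hD : ∀ z z' : V × V, ∑ D : Fin 4 → S,
      P z.1 z'.1 (D 0) * P z.2 z'.1 (D 1) * P z.1 z'.2 (D 2) * P z.2 z'.2 (D 3) = 1 := by
    intro z z'
    have := Finset.prod_univ_sum (fun _ : Fin 4 => (Finset.univ : Finset S))
      (fun i s => P ((![z.1, z.2, z.1, z.2] : Fin 4 → V) i)
        ((![z'.1, z'.1, z'.2, z'.2] : Fin 4 → V) i) s)
    rw [Fintype.piFinset_univ] at this
    simp only [hN.P1, Finset.prod_const_one, Fin.prod_univ_four] at this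
    rw [this]
    rfl
  have h2 : ∀ z z' : V × V, ∑ F : ((Fin 3 → S) × (Fin 3 → S)) × (Fin 4 → S),
      W5 x P (eV1 (a, (z, z'))) (eS1 F) * (fun F : Fin 10 → S =>
          Q ![F 0, F 1, F 2] ![F 3, F 6, F 9]) (eS1 F) =
      ∑ B, ∑ C, x a * (Q B C * (ext1 x P a z B * ext1 x P a z' C)) := by
    intro z z'
    rw [Fintype.sum_prod_type, Fintype.sum_prod_type]
    refine Finset.sum_congr rfl fun B _ => Finset.sum_congr rfl fun C _ => ?_
    have eA : ∀ A : Fin 3 → S, ![A 0, A 1, A 2] = A := fun A => by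
      ext i; fin_cases i <;> rfl
    have h3 : ∀ D : Fin 4 → S, W5 x P (eV1 (a, (z, z'))) (eS1 ((B, C), D)) *
        (fun F : Fin 10 → S => Q ![F 0, F 1, F 2] ![F 3, F 6, F 9]) (eS1 ((B, C), D)) =
        x a * (Q B C * (ext1 x P a z B * ext1 x P a z' C)) *
        (P z.1 z'.1 (D 0) * P z.2 z'.1 (D 1) * P z.1 z'.2 (D 2) * P z.2 z'.2 (D 3)) := by
      intro D
      rw [W5_one]
      change _ * Q ![B 0, B 1, B 2] ![C 0, C 1, C 2] = _
      rw [eA, eA]
      ring
    simp only [h3]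
    rw [← Finset.mul_sum, hD, mul_one]
  simp only [h2]
  calc ∑ z : V × V, ∑ z' : V × V, ∑ B, ∑ C,
        x a * (Q B C * (ext1 x P a z B * ext1 x P a z' C))
      = ∑ z : V × V, ∑ B, ∑ C, ∑ z' : V × V,
        x a * (Q B C * (ext1 x P a z B * ext1 x P a z' C)) := by
        refine Finset.sum_congr rfl fun z _ => ?_
        rw [Finset.sum_comm]
        exact Finset.sum_congr rfl fun B _ => Finset.sum_comm
    _ = ∑ B, ∑ C, ∑ z : V × V, ∑ z' : V × V,
        x a * (Q B C * (ext1 x P a z B * ext1 x P a z' C)) := by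
        rw [Finset.sum_comm]
        exact Finset.sum_congr rfl fun B _ => Finset.sum_comm
    _ = _ := by
        rw [Finset.mul_sum]
        refine Finset.sum_congr rfl fun B _ => ?_
        rw [Finset.mul_sum]
        refine Finset.sum_congr rfl fun C _ => ?_
        unfold y1
        rw [Finset.sum_mul_sum, Finset.mul_sum, Finset.mul_sum]
        refine Finset.sum_congr rfl fun v _ => ?_
        rw [Finset.mul_sum, Finset.mul_sum]

/-- **Types of size one, positive semidefinite forms.** -/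
theorem L_psd1 {x : V → ℝ} {P : V → V → S → ℝ} (hN : Net x P)
    (Q : (Fin 3 → S) → (Fin 3 → S) → ℝ)
    (hQ : ∀ y : (Fin 3 → S) → ℝ, 0 ≤ ∑ B, ∑ C, Q B C * (y B * y C)) :
    0 ≤ L x P (fun F => Q ![F 0, F 1, F 2] ![F 3, F 6, F 9]) := by
  rw [L_type1 hN]
  exact Finset.sum_nonneg fun a _ => mul_nonneg (hN.x0 a) (hQ _)

/-! ### The empty type -/

theorem L3_pair {x : V → ℝ} {P : V → V → S → ℝ} (hN : Net x P) (k : S → ℝ) :
    L3 x P (fun A => k (A 0)) = L2 x P k := by
  unfold L3 L2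
  rw [← Equiv.sum_comp (eV3 (V := V)), Fintype.sum_prod_type, Fintype.sum_prod_type]
  refine Finset.sum_congr rfl fun u _ => Finset.sum_congr rfl fun v _ => ?_
  have h2 : ∀ w : V, ∑ A : Fin 3 → S, W3 x P (eV3 ((u, v), w)) A * k (A 0) =
      (x u * x v * ∑ s, P u v s * k s) * x w := by
    intro w
    rw [← Equiv.sum_comp (eV3 (V := S)), Fintype.sum_prod_type, Fintype.sum_prod_type]
    have : ∀ s t r : S, W3 x P (eV3 ((u, v), w)) (eV3 ((s, t), r)) *
        k ((eV3 ((s, t), r) : Fin 3 → S) 0) =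
        (x u * x v * x w * (P u v s * k s)) * (P u w t * P v w r) := by
      intro s t r
      change (x u * x v * x w) * (P u v s * P u w t * P v w r) * k s = _
      ring
    simp only [this, ← Finset.mul_sum, hN.P1, mul_one]
    ring
  simp only [h2]
  rw [← Finset.mul_sum, hN.x1, mul_one]

theorem L2_sum (x : V → ℝ) (P : V → V → S → ℝ) (k : S → ℝ) :
    L2 x P k = ∑ s, k s * ∑ u, ∑ v, x u * x v * P u v s := by
  unfold L2
  simp only [Finset.mul_sum]
  calc _ = ∑ u, ∑ s, ∑ v, x u * x v * (P u v s * k s) :=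
        Finset.sum_congr rfl fun u _ => Finset.sum_comm
    _ = ∑ s, ∑ u, ∑ v, x u * x v * (P u v s * k s) := Finset.sum_comm
    _ = _ := Finset.sum_congr rfl fun s _ => Finset.sum_congr rfl fun u _ =>
        Finset.sum_congr rfl fun v _ => by ring

/-- functions of the two pairs `01` and `34` -/
theorem L_type0 {x : V → ℝ} {P : V → V → S → ℝ} (hN : Net x P) (Q : S → S → ℝ) :
    L x P (fun F => Q (F 0) (F 9)) =
      ∑ s, ∑ t, Q s t * ((∑ u, ∑ v, x u * x v * P u v s) * (∑ u, ∑ v, x u * x v * P u v t)) := by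
  classical
  have h1 : L x P (fun F => Q (F 0) (F 9)) = ∑ t, L x P (fun F =>
      (fun A : Fin 3 → S => Q (A 0) t) ![F 0, F 1, F 2] *
        (fun r : S => if r = t then (1 : ℝ) else 0) (F 9)) := by
    rw [← L_sum]
    congr 1
    funext F
    simp
  have h2 : ∀ t, L x P (fun F => (fun A : Fin 3 → S => Q (A 0) t) ![F 0, F 1, F 2] *
      (fun r : S => if r = t then (1 : ℝ) else 0) (F 9)) =
      L2 x P (fun s => Q s t) * L2 x P (fun r => if r = t then (1 : ℝ) else 0) := fun t => by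
    rw [L_prod hN (fun A : Fin 3 → S => Q (A 0) t) (fun r : S => if r = t then (1 : ℝ) else 0),
      L3_pair hN (fun s => Q s t)]
  rw [h1, Finset.sum_congr rfl fun t _ => h2 t, Finset.sum_comm]
  refine Finset.sum_congr rfl fun t _ => ?_
  rw [L2_sum, L2_sum, Finset.sum_mul]
  refine Finset.sum_congr rfl fun s _ => ?_
  simp only [ite_mul, one_mul, zero_mul, Finset.sum_ite_eq', Finset.mem_univ, if_true]
  ring

/-- **The empty type, positive semidefinite forms.** -/
theorem L_psd0 {x : V → ℝ} {P : V → V → S → ℝ} (hN : Net x P) (Q : S → S → ℝ)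
    (hQ : ∀ y : S → ℝ, 0 ≤ ∑ s, ∑ t, Q s t * (y s * y t)) :
    0 ≤ L x P (fun F => Q (F 0) (F 9)) := by
  rw [L_type0 hN]
  exact hQ _

end Fl

end HR
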