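import Pool.Agent.Lib.MP_a1b8b7_co.B.GPart

/-!
# The kernel check for the G part
-/

set_option autoImplicit false

open Finset

namespace HR

namespace Fl

namespace GP

open Tr

/-! ### Kernel-fast versions -/

/-- sum over a list -/
noncomputable def sumL {α : Type} (f : α → ℕ) (l : List α) : ℕ :=
  @List.rec α (fun _ => ℕ) (nat_lit 0) (fun a _ ih => Nat.add (f a) ih) l

theorem sumL_eq {α : Type} (f : α → ℕ) (l : List α) : sumL f l = (l.map f).sum := by
  induction l with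
  | nil => rfl
  | cons a l ih =>
    rw [List.map_cons, List.sum_cons, ← ih]
    rfl

/-- conjunction over a list -/
noncomputable def allL {α : Type} (f : α → Bool) (l : List α) : Bool :=
  @List.rec α (fun _ => Bool) true (fun a _ ih => cond (f a) ih false) l

theorem allL_spec {α : Type} {f : α → Bool} {l : List α} (h : allL f l = true) :
    ∀ a ∈ l, f a = true := by
  induction l with
  | nil => simp
  | cons a l ih =>
    have h1 : cond (f a) (allL f l) false = true := h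
    intro b hb
    cases hf : f a with
    | false => rw [hf] at h1; exact absurd h1 (by simp)
    | true =>
      rw [hf] at h1
      rcases List.mem_cons.1 hb with rfl | hb
      · exact hf
      · exact ih h1 b hb

/-- head of a list -/
noncomputable def hdL (l : List ℕ) : ℕ := @List.rec ℕ (fun _ => ℕ) (nat_lit 0) (fun a _ _ => a) l

/-- tail of a list -/
noncomputable def tlL (l : List ℕ) : List ℕ :=
  @List.rec ℕ (fun _ => List ℕ) [] (fun _ t _ => t) l

/-- drop -/
noncomputable def dropL (n : ℕ) (l : List ℕ) : List ℕ :=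
  @Nat.rec (fun _ => List ℕ → List ℕ) (fun l => l) (fun _ ih l => ih (tlL l)) n l

theorem dropL_eq (n : ℕ) (l : List ℕ) : dropL n l = l.drop n := by
  induction n generalizing l with
  | zero => rfl
  | succ n ih =>
    change dropL n (tlL l) = _
    rw [ih]
    cases l with
    | nil => simp [tlL]
    | cons a l => rfl

theorem hdL_dropL (r i : ℕ) (l : List ℕ) : hdL (dropL i (dropL r l)) = l.getD (r + i) 0 := by
  rw [dropL_eq, dropL_eq, List.drop_drop]
  rw [show l.getD (r + i) 0 = (l.drop (r + i)).getD 0 0 by simp [List.getD_eq_getElem?_getD]]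
  cases l.drop (r + i) <;> rfl

/-- tree part -/
noncomputable def TPk (K : ℕ) (val : Tr → ℕ) (T : Tr) (g g' : ℕ) (l : List ℕ) : ℕ :=
  sumL (fun a => Nat.shiftLeft (val (look3 (look3 (look3 T a) g) g')) (Nat.mul K a)) l

/-- one row -/
noncomputable def rowk (K w M N : ℕ) (J : List (ℕ × ℕ)) : ℕ :=
  sumL (fun q => Nat.shiftLeft (Nat.mod (Nat.shiftRight N (Nat.mul w q.1)) M) (Nat.mul K q.2)) J

/-- the part of a row which belongs to the colour `c` -/
noncomputable def rowp (w m N c : ℕ) : ℕ :=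
  Nat.mod (Nat.shiftRight N (Nat.mul w (Nat.mul m c))) (Nat.pow (nat_lit 2) (Nat.mul w m))

/-- sandwich of the digits -/
noncomputable def MDk (K : ℕ) (P : Chk.Data) (m b c : ℕ) (I J : List (ℕ × ℕ)) : ℕ :=
  sumL (fun q => Nat.shiftLeft (rowk K P.w (Nat.pow (nat_lit 2) P.w)
    (rowp P.w m (hdL (dropL q.1 (dropL (Nat.mul m b) P.Q))) c) J) (Nat.mul K q.2)) I

/-- sandwich of the all one matrix -/
noncomputable def MCk (K : ℕ) (I J : List (ℕ × ℕ)) : ℕ :=
  Nat.mul (sumL (fun q => Nat.shiftLeft (nat_lit 1) (Nat.mul K q.2)) I)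
    (sumL (fun q => Nat.shiftLeft (nat_lit 1) (Nat.mul K q.2)) J)

/-- `2 ^ (K k)` -/
def pw (K k : ℕ) : ℕ := Nat.shiftLeft (nat_lit 1) (Nat.mul K k)

/-- factors -/
def fPk (K f : ℕ) : ℕ :=
  bif Nat.beq f (nat_lit 0) then pw K (nat_lit 1) else
  bif Nat.beq f (nat_lit 1) then pw K (nat_lit 5) else
  bif Nat.beq f (nat_lit 2) then pw K (nat_lit 25) else
  bif Nat.ble (nat_lit 6) f then Nat.add (Nat.add (pw K (nat_lit 1)) (pw K (nat_lit 5))) (pw K (nat_lit 25))
  else nat_lit 1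

/-- factors -/
def fNk (K f : ℕ) : ℕ :=
  bif Nat.beq f (nat_lit 3) then pw K (nat_lit 1) else
  bif Nat.beq f (nat_lit 4) then pw K (nat_lit 5) else
  bif Nat.beq f (nat_lit 5) then pw K (nat_lit 25) else
  bif Nat.ble (nat_lit 6) f then nat_lit 1
  else nat_lit 0

/-- localisers -/
noncomputable def lck (K : ℕ) (l : List ℕ) : ℕ × ℕ :=
  @List.rec ℕ (fun _ => ℕ × ℕ) (nat_lit 1, nat_lit 0)
    (fun f _ ih => (Nat.add (Nat.mul (fPk K f) ih.1) (Nat.mul (fNk K f) ih.2),
      Nat.add (Nat.mul (fPk K f) ih.2) (Nat.mul (fNk K f) ih.1))) l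

/-- left side -/
noncomputable def LHk (K : ℕ) (T : Tr) (bl : List GB) (b c g g' : ℕ) (l : List ℕ) : ℕ :=
  Nat.add (TPk K zp T g g' l) (sumL (fun B => Nat.add
    (Nat.mul (lck K B.loc).2 (MDk K B.P B.bas.length b c (ixf g 0 B.bas) (ixf g' 0 B.bas)))
    (Nat.mul (lck K B.loc).1 (Nat.mul B.P.oq (MCk K (ixf g 0 B.bas) (ixf g' 0 B.bas))))) bl)

/-- right side -/
noncomputable def RHk (K : ℕ) (T : Tr) (bl : List GB) (b c g g' : ℕ) (l : List ℕ) : ℕ :=
  Nat.add (TPk K zn T g g' l) (sumL (fun B => Nat.add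
    (Nat.mul (lck K B.loc).1 (MDk K B.P B.bas.length b c (ixf g 0 B.bas) (ixf g' 0 B.bas)))
    (Nat.mul (lck K B.loc).2 (Nat.mul B.P.oq (MCk K (ixf g 0 B.bas) (ixf g' 0 B.bas))))) bl)

/-- check for given exponents of the flags -/
noncomputable def chk1 (K : ℕ) (T : Tr) (bl : List GB) (b c g g' : ℕ) (l : List ℕ) : Bool :=
  cond (Nat.beq (LHk K T bl b c g g' l) (RHk K T bl b c g g' l))
    (cond (Nat.ble (Nat.succ (LHk (nat_lit 0) T bl b c g g' l)) (Nat.pow (nat_lit 2) K))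
      (Nat.ble (Nat.succ (RHk (nat_lit 0) T bl b c g g' l)) (Nat.pow (nat_lit 2) K)) false) false

/-- **The kernel check for a type and two flag colourings.** -/
noncomputable def chkBC (D K : ℕ) (T : Tr) (bl : List GB) (b c : ℕ) : Bool :=
  allL (fun g => allL (fun g' => chk1 K T bl b c g g' (Bl (D - dg g - dg g'))) (Bl (D - dg g)))
    (Bl D)

/-! ### Correctness -/

theorem shl (a b : ℕ) : Nat.shiftLeft a b = a * 2 ^ b := Nat.shiftLeft_eq a b

theorem mv_kp (K s : ℕ) : mv (kp K) s = 2 ^ (K * s) := by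
  have h : s = s % 5 + 5 * (s / 5 % 5) + 25 * (s / 25) := by omega
  have h0 : kp K 0 = (2 ^ K) ^ 1 := rfl
  have h1 : kp K 1 = (2 ^ K) ^ 5 := rfl
  have h2 : kp K 2 = (2 ^ K) ^ 25 := rfl
  rw [mv, h0, h1, h2, ← pow_mul (2 ^ K), ← pow_mul (2 ^ K), ← pow_mul (2 ^ K), ← pow_add,
    ← pow_add, ← pow_mul]
  congr 2
  omega

theorem pw_eq (K k : ℕ) : pw K k = (2 ^ K) ^ k := by
  rw [pw, shl]
  change 1 * 2 ^ (K * k) = _
  rw [one_mul, pow_mul]

theorem fPk_eq (K f : ℕ) (hf : f < 7) : fPk K f = fP (kp K) f := by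
  have h0 : kp K 0 = (2 ^ K) ^ 1 := rfl
  have h1 : kp K 1 = (2 ^ K) ^ 5 := rfl
  have h2 : kp K 2 = (2 ^ K) ^ 25 := rfl
  interval_cases f
  · exact pw_eq K 1
  · exact pw_eq K 5
  · exact pw_eq K 25
  · rfl
  · rfl
  · rfl
  · change pw K 1 + pw K 5 + pw K 25 = kp K 0 + kp K 1 + kp K 2
    rw [pw_eq, pw_eq, pw_eq, h0, h1, h2]

theorem fNk_eq (K f : ℕ) (hf : f < 7) : fNk K f = fN (kp K) f := by
  interval_cases f
  · rfl
  · rfl
  · rfl
  · exact pw_eq K 1
  · exact pw_eq K 5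
  · exact pw_eq K 25
  · rfl

theorem lck_eq (K : ℕ) (l : List ℕ) (hl : ∀ f ∈ l, f < 7) : lck K l = lc (kp K) l := by
  induction l with
  | nil => rfl
  | cons f l ih =>
    have h1 := ih fun x hx => hl x (by simp [hx])
    have h2 := hl f (by simp)
    rw [lc, ← h1, ← fPk_eq K f h2, ← fNk_eq K f h2]
    rfl

theorem TPk_eq (K : ℕ) (val : Tr → ℕ) (T : Tr) (g g' : ℕ) (l : List ℕ) :
    TPk K val T g g' l = TP (kp K) val T g g' l := by
  rw [TPk, sumL_eq, TP]
  congr 1
  refine List.map_congr_left fun a _ => ?_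
  rw [shl, mv_kp]
  rfl

/-- a digit of a part of a row -/
theorem dig_rowp (w m N c j : ℕ) (hj : j < m) :
    Nat.mod (Nat.shiftRight (rowp w m N c) (Nat.mul w j)) (Nat.pow 2 w) =
      Chk.dig w N (m * c + j) := by
  change ((N >>> (w * (m * c))) % 2 ^ (w * m)) >>> (w * j) % 2 ^ w = (N >>> (w * (m * c + j))) % 2 ^ w
  refine Nat.eq_of_testBit_eq fun i => ?_
  simp only [Nat.testBit_mod_two_pow, Nat.testBit_shiftRight]
  by_cases hi : i < w
  · have h1 : w * j + i < w * m := by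
      have : w * (j + 1) ≤ w * m := Nat.mul_le_mul_left w hj
      rw [Nat.mul_succ] at this
      omega
    simp only [hi, h1, decide_true, Bool.true_and]
    congr 1
    ring
  · simp [hi]

theorem ixf_lt {g : ℕ} {l : List (ℕ × ℕ)} {i : ℕ} {q : ℕ × ℕ} (h : q ∈ ixf g i l) :
    i ≤ q.1 ∧ q.1 < i + l.length := by
  induction l generalizing i with
  | nil => simp [ixf] at h
  | cons a l ih =>
    obtain ⟨g', b⟩ := a
    rw [ixf] at h
    rw [List.length_cons]
    split_ifs at h with h1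
    · rcases List.mem_cons.1 h with h2 | h2
      · rw [h2]
        change i ≤ i ∧ i < _
        omega
      · have := ih h2
        omega
    · have := ih h
      omega

theorem MDk_eq (K : ℕ) (P : Chk.Data) (m b c : ℕ) (I J : List (ℕ × ℕ))
    (hJ : ∀ q ∈ J, q.1 < m) : MDk K P m b c I J = MD (kp K) P (m * b) (m * c) I J := by
  rw [MDk, sumL_eq, MD]
  congr 1
  refine List.map_congr_left fun q _ => ?_
  rw [shl, mul_comm, rowk, sumL_eq, mv_kp]
  congr 2
  refine List.map_congr_left fun q' hq' => ?_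
  rw [shl, mv_kp]
  change Nat.mod (Nat.shiftRight (rowp P.w m _ c) (Nat.mul P.w q'.1)) (Nat.pow 2 P.w) * _ = _
  rw [dig_rowp _ _ _ _ _ (hJ q' hq'), hdL_dropL]
  rfl

theorem MCk_eq (K : ℕ) (I J : List (ℕ × ℕ)) : MCk K I J = MC (kp K) I J := by
  have h : ∀ I : List (ℕ × ℕ), sumL (fun q => Nat.shiftLeft (nat_lit 1) (Nat.mul K q.2)) I =
      (I.map fun q => mv (kp K) q.2).sum := by
    intro I
    rw [sumL_eq]
    congr 1
    refine List.map_congr_left fun q _ => ?_
    rw [shl, mv_kp]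
    exact one_mul _
  rw [MCk, h, h]
  rfl

theorem LHk_eq (K : ℕ) (T : Tr) (bl : List GB) (b c g g' : ℕ) (l : List ℕ)
    (hf : ∀ B ∈ bl, ∀ f ∈ B.loc, f < 7) :
    LHk K T bl b c g g' l = LHS (kp K) T bl b c g g' l := by
  rw [LHk, LHS, sumL_eq, TPk_eq]
  refine congrArg (fun z => TP (kp K) zp T g g' l + z) ?_
  congr 1
  refine List.map_congr_left fun B hB => ?_
  rw [lck_eq K B.loc (hf B hB), MCk_eq, MDk_eq]
  · rfl
  · intro q hq
    have := ixf_lt hq
    omega

theorem RHk_eq (K : ℕ) (T : Tr) (bl : List GB) (b c g g' : ℕ) (l : List ℕ)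
    (hf : ∀ B ∈ bl, ∀ f ∈ B.loc, f < 7) :
    RHk K T bl b c g g' l = RHS (kp K) T bl b c g g' l := by
  rw [RHk, RHS, sumL_eq, TPk_eq]
  refine congrArg (fun z => TP (kp K) zn T g g' l + z) ?_
  congr 1
  refine List.map_congr_left fun B hB => ?_
  rw [lck_eq K B.loc (hf B hB), MCk_eq, MDk_eq]
  · rfl
  · intro q hq
    have := ixf_lt hq
    omega

theorem cond_true_false {a b : Bool} (h : cond a b false = true) : a = true ∧ b = true := by
  cases a
  · exact absurd h (by simp)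
  · exact ⟨rfl, h⟩

/-- the identity of the three variable polynomials -/
theorem chk1_spec {R : Type} [CommSemiring R] {K : ℕ} {T : Tr} {bl : List GB} {b c g g' : ℕ}
    {l : List ℕ} (h : chk1 K T bl b c g g' l = true) (hf : ∀ B ∈ bl, ∀ f ∈ B.loc, f < 7)
    (hl : ∀ a ∈ l, dg a ≤ 4) (hb : ∀ B ∈ bl, B.DegOK) (w : Fin 3 → R) :
    LHS w T bl b c g g' l = RHS w T bl b c g g' l := by
  obtain ⟨h1, h2⟩ := cond_true_false h
  obtain ⟨h2, h3⟩ := cond_true_false h2
  have h1 := Nat.eq_of_beq_eq_true h1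
  have h2 := Nat.le_of_ble_eq_true h2
  have h3 := Nat.le_of_ble_eq_true h3
  rw [LHk_eq _ _ _ _ _ _ _ _ hf, RHk_eq _ _ _ _ _ _ _ _ hf] at h1
  rw [LHk_eq _ _ _ _ _ _ _ _ hf] at h2
  rw [RHk_eq _ _ _ _ _ _ _ _ hf] at h3
  exact LHS_eq_RHS K T bl b c g g' l hl hb h2 h3 h1 w

end GP

end Fl

end HR
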