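import Pool.Agent.Lib.MP_a1b8b7_co.B.GKer

/-!
# The G part of the certificate: from the checks to the inequality
-/

set_option autoImplicit false

open Finset

namespace HR

namespace Chk

namespace Data

theorem symm_of_check {p : Data} (h : p.check = true) {i j : ℕ} (hi : i < p.n) (hj : j < p.n) :
    p.Qt i j = p.Qt j i := by
  have ok := ok_of_check h
  simp only [check, Bool.and_eq_true] at h
  obtain ⟨-, -, -, -, -, hr⟩ := h
  exact Qt_symm ok hr i j hi hj

end Data

end Chk

namespace Fl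

namespace GP

open Tr

/-! ### List sums -/

section ls

variable {α β : Type}

theorem ls_sub (l : List α) (f g : α → ℝ) :
    (l.map f).sum - (l.map g).sum = (l.map fun a => f a - g a).sum := by
  induction l with
  | nil => simp
  | cons a l ih =>
    simp only [List.map_cons, List.sum_cons, ← ih]
    ring

theorem ls_mul (l : List α) (f : α → ℝ) (c : ℝ) :
    c * (l.map f).sum = (l.map fun a => c * f a).sum := by
  induction l with
  | nil => simp
  | cons a l ih =>
    simp only [List.map_cons, List.sum_cons, ← ih]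
    ring

theorem ls_add (l : List α) (f g : α → ℝ) :
    (l.map fun a => f a + g a).sum = (l.map f).sum + (l.map g).sum := by
  induction l with
  | nil => simp
  | cons a l ih =>
    simp only [List.map_cons, List.sum_cons, ih]
    ring

theorem ls_zero (l : List α) (f : α → ℝ) (h : ∀ a ∈ l, f a = 0) : (l.map f).sum = 0 := by
  induction l with
  | nil => simp
  | cons a l ih =>
    simp only [List.map_cons, List.sum_cons, h a (by simp), ih fun b hb => h b (by simp [hb]),
      add_zero]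

theorem ls_comm (l : List α) (l' : List β) (f : α → β → ℝ) :
    (l.map fun a => (l'.map fun b => f a b).sum).sum =
      (l'.map fun b => (l.map fun a => f a b).sum).sum := by
  induction l with
  | nil => exact (ls_zero l' _ fun _ _ => rfl).symm
  | cons a l ih =>
    simp only [List.map_cons, List.sum_cons, ih]
    rw [← ls_add]

theorem ls_congr {l : List α} {f g : α → ℝ} (h : ∀ a ∈ l, f a = g a) :
    (l.map f).sum = (l.map g).sum := by
  rw [List.map_congr_left h]

theorem ls_ite [DecidableEq α] {l : List α} (hn : l.Nodup) {x : α} (hx : x ∈ l) (f : α → ℝ) :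
    (l.map fun g => if x = g then f g else 0).sum = f x := by
  induction l with
  | nil => simp at hx
  | cons a l ih =>
    rw [List.map_cons, List.sum_cons]
    rw [List.nodup_cons] at hn
    by_cases h : x = a
    · subst h
      rw [if_pos rfl, ls_zero, add_zero]
      intro b hb
      have hne : x ≠ b := by
        rintro rfl
        exact hn.1 hb
      exact if_neg hne
    · rw [if_neg h, zero_add]
      rcases List.mem_cons.1 hx with h1 | h1
      · exact absurd h1 h
      · exact ih hn.2 h1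

end ls

/-- sums over the basis, grouped by the exponents of the flag -/
theorem sum_ixf (F : ℕ → ℕ → ℕ → ℝ) (bas : List (ℕ × ℕ)) (hmem : ∀ q ∈ bas, q.1 ∈ Bl 4) (k : ℕ) :
    ((Bl 4).map fun g => ((ixf g k bas).map fun q => F g q.1 q.2).sum).sum =
      ∑ i ∈ range bas.length, F (bas.getD i (0, 0)).1 (k + i) (bas.getD i (0, 0)).2 := by
  induction bas generalizing k with
  | nil =>
    rw [List.length_nil, Finset.range_zero, Finset.sum_empty]
    exact ls_zero _ _ fun g _ => by simp [ixf]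
  | cons a l ih =>
    obtain ⟨g', b⟩ := a
    have h1 : ∀ g, ((ixf g k ((g', b) :: l)).map fun q => F g q.1 q.2).sum =
        (if g' = g then F g k b else 0) + ((ixf g (k + 1) l).map fun q => F g q.1 q.2).sum := by
      intro g
      rw [ixf]
      split_ifs with h
      · rw [List.map_cons, List.sum_cons]
      · rw [zero_add]
    rw [ls_congr fun g _ => h1 g, ls_add, ih (fun q hq => hmem q (by simp [hq])) (k + 1),
      ls_ite Bl_nodup (hmem (g', b) (by simp)), List.length_cons, Finset.sum_range_succ']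
    rw [add_comm]
    congr 1
    refine Finset.sum_congr rfl fun i _ => ?_
    rw [List.getD_cons_succ, add_assoc, add_comm 1 i]

/-! ### Localisers -/

/-- value of a factor -/
def fv (w : Fin 3 → ℝ) (f : ℕ) : ℝ := fP w f - fN w f

/-- value of a localiser -/
def lv (w : Fin 3 → ℝ) (l : List ℕ) : ℝ := (l.map (fv w)).prod

theorem lc_sub (w : Fin 3 → ℝ) (l : List ℕ) : (lc w l).1 - (lc w l).2 = lv w l := by
  induction l with
  | nil => simp [lc, lv]
  | cons f l ih =>
    have h : lv w (f :: l) = fv w f * lv w l := by simp [lv]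
    rw [h, ← ih, lc, fv]
    ring

theorem lv_nonneg {w : Fin 3 → ℝ} (h0 : ∀ i, 0 ≤ w i) (h1 : ∀ i, w i ≤ 1) (l : List ℕ)
    (h : 1 ≤ w 0 + w 1 + w 2 ∨ 6 ∉ l) (h7 : ∀ f ∈ l, f < 7) : 0 ≤ lv w l := by
  unfold lv
  refine List.prod_nonneg fun x hx => ?_
  obtain ⟨f, hf, rfl⟩ := List.mem_map.1 hx
  have h2 := h7 f hf
  have a0 := h0 0
  have a1 := h0 1
  have a2 := h0 2
  have b0 := h1 0
  have b1 := h1 1
  have b2 := h1 2
  unfold fv
  interval_cases f
  · simpa [fP, fN] using a0
  · simpa [fP, fN] using a1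
  · simpa [fP, fN] using a2
  · simpa [fP, fN] using b0
  · simpa [fP, fN] using b1
  · simpa [fP, fN] using b2
  · rcases h with h | h
    · simpa [fP, fN] using h
    · exact absurd hf h

/-! ### Blocks -/

/-- flag exponents and type exponents of basis element `i` -/
def GB.key (B : GB) (i : ℕ) : ℕ × ℕ := B.bas.getD i (0, 0)

/-- the sandwich of a block for two flag colours -/
noncomputable def GB.QF (B : GB) (b c : ℕ) (A U V : Fin 3 → ℝ) : ℝ :=
  ∑ i ∈ range B.bas.length, ∑ j ∈ range B.bas.length,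
    (B.P.Qt (B.bas.length * b + i) (B.bas.length * c + j) : ℝ) *
      ((mv U (B.key i).1 * mv A (B.key i).2) * (mv V (B.key j).1 * mv A (B.key j).2))

/-- conditions on a block -/
structure GB.OK (B : GB) (D t : ℕ) : Prop where
  n : B.P.n = 8 * B.bas.length
  f7 : ∀ f ∈ B.loc, f < 7
  ll : B.loc.length ≤ 4
  deg : ∀ q ∈ B.bas, 2 * dg q.2 + B.loc.length ≤ 4
  mem : ∀ q ∈ B.bas, q.1 ∈ Bl 4
  deg2 : ∀ q ∈ B.bas, 2 * dg q.1 ≤ D
  ty : t = 0 ∨ t = 3 ∨ 6 ∉ B.loc

theorem GB.OK.degOK {B : GB} {D t : ℕ} (h : B.OK D t) : B.DegOK := by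
  refine ⟨(4 - B.loc.length) / 2, ?_, ?_⟩
  · intro q hq
    have := h.deg q hq
    omega
  · have := h.ll
    omega

/-- difference of the two sandwich polynomials -/
theorem MD_sub_MC (w : Fin 3 → ℝ) (P : Chk.Data) (r c : ℕ) (I J : List (ℕ × ℕ)) :
    MD w P r c I J - (P.oq : ℝ) * MC w I J =
      (I.map fun q => (J.map fun q' => (P.Qt (r + q.1) (c + q'.1) : ℝ) *
        (mv w q.2 * mv w q'.2)).sum).sum := by
  unfold MD MC
  rw [mul_comm (I.map fun q => mv w q.2).sum, ← mul_assoc, ls_mul I, ls_sub]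
  refine ls_congr fun q _ => ?_
  rw [mul_comm _ (mv w q.2), ← mul_sub, ls_mul J _ (P.oq : ℝ), ls_sub, ls_mul]
  refine ls_congr fun q' _ => ?_
  simp only [Chk.Data.Qt]
  push_cast
  ring

/-- **The polynomial of the tree is the sum of the localised sandwiches.** -/
theorem piece {D t K : ℕ} (hD : D < 5) {T : Tr} {bl : List GB} {b c : ℕ}
    (hok : ∀ B ∈ bl, B.OK D t) (h : chkBC D K T bl b c = true) (A U V : Fin 3 → ℝ) :
    pol D 9 T (v9 A U V) = (bl.map fun B => lv A B.loc * B.QF b c A U V).sum := by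
  rw [pol9 D hD]
  -- the inner sums
  have h1 : ∀ g ∈ Bl D, ∀ g' ∈ Bl (D - dg g), ((Bl (D - dg g - dg g')).map fun a =>
        ((look3 (look3 (look3 T a) g) g').z : ℝ) * mv A a).sum =
      (bl.map fun B => lv A B.loc * ((ixf g 0 B.bas).map fun q => ((ixf g' 0 B.bas).map fun q' =>
        (B.P.Qt (B.bas.length * b + q.1) (B.bas.length * c + q'.1) : ℝ) *
        (mv A q.2 * mv A q'.2)).sum).sum).sum := by
    intro g hg g' hg'
    have h2 := allL_spec (allL_spec h g hg) g' hg'
    have h3 := chk1_spec h2 (fun B hB => (hok B hB).f7)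
      (fun a ha => (dg_Bl _ (by omega) a ha).trans (by omega)) (fun B hB => (hok B hB).degOK) A
    have h4 : ((Bl (D - dg g - dg g')).map fun a =>
        ((look3 (look3 (look3 T a) g) g').z : ℝ) * mv A a).sum =
        TP A zp T g g' (Bl (D - dg g - dg g')) - TP A zn T g g' (Bl (D - dg g - dg g')) := by
      unfold TP
      rw [ls_sub]
      refine ls_congr fun a _ => ?_
      rw [z_eq]
      push_cast
      ring
    rw [h4]
    unfold LHS RHS at h3
    have h5 : TP A zp T g g' (Bl (D - dg g - dg g')) - TP A zn T g g' (Bl (D - dg g - dg g')) =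
        (bl.map fun B =>
    (lc A B.loc).1 * MD A B.P (B.bas.length * b) (B.bas.length * c) (ixf g 0 B.bas)
      (ixf g' 0 B.bas) +
    (lc A B.loc).2 * ((B.P.oq : ℝ) * MC A (ixf g 0 B.bas) (ixf g' 0 B.bas))).sum -
      (bl.map fun B =>
    (lc A B.loc).2 * MD A B.P (B.bas.length * b) (B.bas.length * c) (ixf g 0 B.bas)
      (ixf g' 0 B.bas) +
    (lc A B.loc).1 * ((B.P.oq : ℝ) * MC A (ixf g 0 B.bas) (ixf g' 0 B.bas))).sum := by
      linarith
    rw [h5, ls_sub]
    refine ls_congr fun B _ => ?_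
    rw [← MD_sub_MC, ← lc_sub]
    ring
  rw [ls_congr fun g hg => ls_congr fun g' hg' => by rw [h1 g hg g' hg']]
  -- exchange the sums
  have h2 : ∀ g, ((Bl (D - dg g)).map fun g' => mv U g * mv V g' *
      (bl.map fun B => lv A B.loc * ((ixf g 0 B.bas).map fun q => ((ixf g' 0 B.bas).map fun q' =>
        (B.P.Qt (B.bas.length * b + q.1) (B.bas.length * c + q'.1) : ℝ) *
        (mv A q.2 * mv A q'.2)).sum).sum).sum).sum =
      (bl.map fun B => ((Bl (D - dg g)).map fun g' => mv U g * mv V g' *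
        (lv A B.loc * ((ixf g 0 B.bas).map fun q => ((ixf g' 0 B.bas).map fun q' =>
        (B.P.Qt (B.bas.length * b + q.1) (B.bas.length * c + q'.1) : ℝ) *
        (mv A q.2 * mv A q'.2)).sum).sum)).sum).sum := by
    intro g
    rw [ls_comm]
    refine ls_congr fun g' _ => ?_
    rw [ls_mul]
  rw [ls_congr fun g _ => h2 g, ls_comm]
  refine ls_congr fun B hB => ?_
  have hB' := hok B hB
  -- empty groups
  have h3 : ∀ g, D < 2 * dg g → ixf g 0 B.bas = [] := by
    intro g hg
    rw [List.eq_nil_iff_forall_not_mem]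
    intro q hq
    have := hB'.deg2 _ (mem_ixf hq)
    change 2 * dg g ≤ D at this
    omega
  have h4 : ∀ g, ((Bl (D - dg g)).map fun g' => mv U g * mv V g' *
        (lv A B.loc * ((ixf g 0 B.bas).map fun q => ((ixf g' 0 B.bas).map fun q' =>
        (B.P.Qt (B.bas.length * b + q.1) (B.bas.length * c + q'.1) : ℝ) *
        (mv A q.2 * mv A q'.2)).sum).sum)).sum =
      ((Bl 4).map fun g' => mv U g * mv V g' *
        (lv A B.loc * ((ixf g 0 B.bas).map fun q => ((ixf g' 0 B.bas).map fun q' =>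
        (B.P.Qt (B.bas.length * b + q.1) (B.bas.length * c + q'.1) : ℝ) *
        (mv A q.2 * mv A q'.2)).sum).sum)).sum := by
    intro g
    rw [sum_Bl (D - dg g) (by omega)]
    refine ls_congr fun g' _ => ?_
    split_ifs with h5
    · rfl
    · by_cases h6 : D < 2 * dg g
      · rw [h3 g h6]
        simp
      · rw [h3 g' (by omega)]
        rw [ls_zero _ _ (fun q _ => by simp)]
        simp
  have h5 : ((Bl D).map fun g => ((Bl 4).map fun g' => mv U g * mv V g' *
        (lv A B.loc * ((ixf g 0 B.bas).map fun q => ((ixf g' 0 B.bas).map fun q' =>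
        (B.P.Qt (B.bas.length * b + q.1) (B.bas.length * c + q'.1) : ℝ) *
        (mv A q.2 * mv A q'.2)).sum).sum)).sum).sum =
      ((Bl 4).map fun g => ((Bl 4).map fun g' => mv U g * mv V g' *
        (lv A B.loc * ((ixf g 0 B.bas).map fun q => ((ixf g' 0 B.bas).map fun q' =>
        (B.P.Qt (B.bas.length * b + q.1) (B.bas.length * c + q'.1) : ℝ) *
        (mv A q.2 * mv A q'.2)).sum).sum)).sum).sum := by
    rw [sum_Bl D (by omega)]
    refine ls_congr fun g _ => ?_
    split_ifs with h6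
    · rfl
    · rw [h3 g (by omega)]
      exact (ls_zero _ _ fun g' _ => by simp).symm
  rw [ls_congr fun g _ => h4 g, h5]
  -- sums over the basis
  have h6 : ∀ g, ((Bl 4).map fun g' => mv U g * mv V g' *
        (lv A B.loc * ((ixf g 0 B.bas).map fun q => ((ixf g' 0 B.bas).map fun q' =>
        (B.P.Qt (B.bas.length * b + q.1) (B.bas.length * c + q'.1) : ℝ) *
        (mv A q.2 * mv A q'.2)).sum).sum)).sum =
      ((ixf g 0 B.bas).map fun q => lv A B.loc * (∑ j ∈ range B.bas.length,
        (B.P.Qt (B.bas.length * b + q.1) (B.bas.length * c + j) : ℝ) *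
          ((mv U g * mv A q.2) * (mv V (B.key j).1 * mv A (B.key j).2)))).sum := by
    intro g
    have h7 : ∀ g', mv U g * mv V g' *
        (lv A B.loc * ((ixf g 0 B.bas).map fun q => ((ixf g' 0 B.bas).map fun q' =>
        (B.P.Qt (B.bas.length * b + q.1) (B.bas.length * c + q'.1) : ℝ) *
        (mv A q.2 * mv A q'.2)).sum).sum) =
        ((ixf g 0 B.bas).map fun q => ((ixf g' 0 B.bas).map fun q' => lv A B.loc *
          ((B.P.Qt (B.bas.length * b + q.1) (B.bas.length * c + q'.1) : ℝ) *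
          ((mv U g * mv A q.2) * (mv V g' * mv A q'.2)))).sum).sum := by
      intro g'
      rw [← mul_assoc, ls_mul]
      refine ls_congr fun q _ => ?_
      rw [ls_mul]
      refine ls_congr fun q' _ => ?_
      ring
    rw [ls_congr fun g' _ => h7 g', ls_comm]
    refine ls_congr fun q _ => ?_
    rw [sum_ixf (fun g' i β => lv A B.loc *
      ((B.P.Qt (B.bas.length * b + q.1) (B.bas.length * c + i) : ℝ) *
          ((mv U g * mv A q.2) * (mv V g' * mv A β)))) B.bas hB'.mem 0, Finset.mul_sum]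
    refine Finset.sum_congr rfl fun j _ => ?_
    rw [zero_add]
    rfl
  rw [ls_congr fun g _ => h6 g, sum_ixf (fun g i β => lv A B.loc * (∑ j ∈ range B.bas.length,
        (B.P.Qt (B.bas.length * b + i) (B.bas.length * c + j) : ℝ) *
          ((mv U g * mv A β) * (mv V (B.key j).1 * mv A (B.key j).2)))) B.bas hB'.mem 0,
    GB.QF, Finset.mul_sum]
  refine Finset.sum_congr rfl fun i _ => ?_
  rw [zero_add]
  rfl

/-! ### The functional -/

/-- weights of three data -/
def w3 (A : Fin 3 → Bool × ℝ) : Fin 3 → ℝ := fun i => (A i).2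

/-- colour code of three data -/
def cd3 (A : Fin 3 → Bool × ℝ) : ℕ := cn3 (A 0).1 (A 1).1 (A 2).1

/-- sorted type with `t` blue pairs -/
def tyc (t : ℕ) (A : Fin 3 → Bool × ℝ) : Prop :=
  (cn (A 0).1 ≤ cn (A 1).1 ∧ cn (A 1).1 ≤ cn (A 2).1) ∧ cn (A 0).1 + cn (A 1).1 + cn (A 2).1 = t

instance (t : ℕ) (A : Fin 3 → Bool × ℝ) : Decidable (tyc t A) := by
  unfold tyc
  infer_instance

theorem cn_le (b : Bool) : cn b ≤ 1 := by cases b <;> decide

theorem cn3_lt (a b c : Bool) : cn3 a b c < 8 := by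
  have := cn_le a
  have := cn_le b
  have := cn_le c
  unfold cn3
  omega

theorem cd3_lt (A : Fin 3 → Bool × ℝ) : cd3 A < 8 := cn3_lt _ _ _

theorem QF_symm {B : GB} {D t : ℕ} (h : B.OK D t) (hp : B.P.check = true) {b c : ℕ} (hb : b < 8)
    (hc : c < 8) (A U V : Fin 3 → ℝ) : B.QF c b A V U = B.QF b c A U V := by
  unfold GB.QF
  rw [Finset.sum_comm]
  refine Finset.sum_congr rfl fun i hi => Finset.sum_congr rfl fun j hj => ?_
  have hi := Finset.mem_range.1 hi
  have hj := Finset.mem_range.1 hj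
  have hm : ∀ {b i : ℕ}, b < 8 → i < B.bas.length → B.bas.length * b + i < B.P.n := by
    intro b i hb hi
    rw [h.n]
    have : B.bas.length * b ≤ B.bas.length * 7 := Nat.mul_le_mul_left _ (by omega)
    omega
  rw [Chk.Data.symm_of_check hp (hm hc hj) (hm hb hi)]
  ring

/-- restriction of a sum to one colour -/
theorem sum_colour (m b : ℕ) (hb : b < 8) (f : ℕ → ℝ) :
    ∑ i ∈ range (8 * m), (if b = i / m then f i else 0) = ∑ i ∈ range m, f (m * b + i) := by
  rw [← Finset.sum_filter]
  symm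
  refine Finset.sum_bij (fun i _ => m * b + i) ?_ ?_ ?_ ?_
  · intro i hi
    have hi := Finset.mem_range.1 hi
    have h1 : m * b ≤ m * 7 := Nat.mul_le_mul_left _ (by omega)
    rw [Finset.mem_filter, Finset.mem_range]
    refine ⟨by omega, ?_⟩
    rw [Nat.mul_add_div (by omega), Nat.div_eq_of_lt hi, add_zero]
  · intro i _ j _ h
    omega
  · intro i hi
    rw [Finset.mem_filter, Finset.mem_range] at hi
    obtain ⟨h1, h2⟩ := hi
    have hm : 0 < m := by
      rcases Nat.eq_zero_or_pos m with h | h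
      · subst h
        omega
      · exact h
    refine ⟨i % m, Finset.mem_range.2 (Nat.mod_lt _ hm), ?_⟩
    rw [h2]
    exact Nat.div_add_mod i m
  · intro i _
    rfl

/-- the flag functions -/
noncomputable def phiG (B : GB) (i : ℕ) (A F : Fin 3 → Bool × ℝ) : ℝ :=
  if cd3 F = i / B.bas.length then
    mv (w3 F) (B.key (i % B.bas.length)).1 * mv (w3 A) (B.key (i % B.bas.length)).2 else 0

theorem form_eq {B : GB} {D t : ℕ} (h : B.OK D t) (A F F' : Fin 3 → Bool × ℝ) :
    ∑ i : Fin B.P.n, ∑ j : Fin B.P.n, (if tyc t A then lv (w3 A) B.loc * (B.P.Qt i j : ℝ) else 0) *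
      (phiG B i A F * phiG B j A F') =
      if tyc t A then lv (w3 A) B.loc * B.QF (cd3 F) (cd3 F') (w3 A) (w3 F) (w3 F') else 0 := by
  split_ifs with hc
  · rw [← Finset.sum_range (fun i => ∑ j : Fin B.P.n, lv (w3 A) B.loc * (B.P.Qt i j : ℝ) *
      (phiG B i A F * phiG B j A F'))]
    have h1 : ∀ i ∈ range B.P.n, ∑ j : Fin B.P.n, lv (w3 A) B.loc * (B.P.Qt i j : ℝ) *
        (phiG B i A F * phiG B j A F') =
        if cd3 F = i / B.bas.length then (lv (w3 A) B.loc * ∑ j ∈ range B.bas.length,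
          (B.P.Qt i (B.bas.length * cd3 F' + j) : ℝ) *
          ((mv (w3 F) (B.key (i % B.bas.length)).1 * mv (w3 A) (B.key (i % B.bas.length)).2) *
            (mv (w3 F') (B.key j).1 * mv (w3 A) (B.key j).2))) else 0 := by
      intro i _
      rw [← Finset.sum_range (fun j => lv (w3 A) B.loc * (B.P.Qt i j : ℝ) *
        (phiG B i A F * phiG B j A F'))]
      split_ifs with h2
      · have h3 : ∀ j ∈ range B.P.n, lv (w3 A) B.loc * (B.P.Qt i j : ℝ) *
            (phiG B i A F * phiG B j A F') = if cd3 F' = j / B.bas.length then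
            (lv (w3 A) B.loc * ((B.P.Qt i j : ℝ) *
          ((mv (w3 F) (B.key (i % B.bas.length)).1 * mv (w3 A) (B.key (i % B.bas.length)).2) *
            (mv (w3 F') (B.key (j % B.bas.length)).1 *
              mv (w3 A) (B.key (j % B.bas.length)).2)))) else 0 := by
          intro j _
          rw [phiG, if_pos h2, phiG]
          split_ifs
          · ring
          · ring
        rw [Finset.sum_congr rfl h3, h.n, sum_colour _ _ (cd3_lt _), Finset.mul_sum]
        refine Finset.sum_congr rfl fun j hj => ?_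
        rw [Nat.mul_add_mod, Nat.mod_eq_of_lt (Finset.mem_range.1 hj)]
      · refine Finset.sum_eq_zero fun j _ => ?_
        rw [phiG, if_neg h2]
        ring
    rw [Finset.sum_congr rfl h1, h.n, sum_colour _ _ (cd3_lt _), GB.QF, Finset.mul_sum]
    refine Finset.sum_congr rfl fun i hi => ?_
    rw [Nat.mul_add_mod, Nat.mod_eq_of_lt (Finset.mem_range.1 hi)]
  · simp

section ll

variable {V S D : Type} [Fintype V] [Fintype S]

theorem LL_zero (x : V → ℝ) (P : V → V → S → ℝ) (l : V → V → S → D) :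
    LL x P l (fun _ => 0) = 0 := by
  unfold LL
  simp

theorem LL_listSum {α : Type} (x : V → ℝ) (P : V → V → S → ℝ) (l : V → V → S → D)
    (L : List α) (f : α → (Fin 10 → D) → ℝ) :
    LL x P l (fun d => (L.map fun B => f B d).sum) = (L.map fun B => LL x P l (f B)).sum := by
  induction L with
  | nil =>
    simp only [List.map_nil, List.sum_nil]
    exact LL_zero x P l
  | cons a L ih =>
    simp only [List.map_cons, List.sum_cons]
    rw [LL_add, ih]

end ll

/-- the value of the pieces -/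
theorem Gpc_eq {D K : ℕ} (hD : D < 5) {GD : Tr} {bl : ℕ → List GB}
    (hok : ∀ t < 4, ∀ B ∈ bl t, B.OK D t) (hp : ∀ t < 4, ∀ B ∈ bl t, B.P.check = true)
    (hc : ∀ t < 4, ∀ b < 8, ∀ c < 8, b ≤ c →
      chkBC D K (get (get (get GD t) b) (c - b)) (bl t) b c = true) (d : Fin 10 → Bool × ℝ) :
    Gpc D GD d = ∑ t ∈ range 4, ((bl t).map fun B => if tyc t ![d 0, d 1, d 2] then
      lv (w3 ![d 0, d 1, d 2]) B.loc * B.QF (cd3 ![d 3, d 4, d 5]) (cd3 ![d 6, d 7, d 8])
        (w3 ![d 0, d 1, d 2]) (w3 ![d 3, d 4, d 5]) (w3 ![d 6, d 7, d 8]) else 0).sum := by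
  unfold Gpc
  by_cases hs : cn (d 0).1 ≤ cn (d 1).1 ∧ cn (d 1).1 ≤ cn (d 2).1
  · rw [if_pos hs]
    set t0 := cn (d 0).1 + cn (d 1).1 + cn (d 2).1 with ht0
    have ht4 : t0 < 4 := by
      have := cn_le (d 0).1
      have := cn_le (d 1).1
      have := cn_le (d 2).1
      omega
    have hty : ∀ t, tyc t ![d 0, d 1, d 2] ↔ t0 = t := fun t => and_iff_right hs
    rw [Finset.sum_eq_single_of_mem t0 (Finset.mem_range.2 ht4) (by
      intro t _ ht
      refine ls_zero _ _ fun B _ => if_neg ?_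
      rw [hty]
      exact fun e => ht e.symm)]
    rw [ls_congr fun B _ => if_pos ((hty t0).2 rfl)]
    have hb : cd3 ![d 3, d 4, d 5] < 8 := cn3_lt _ _ _
    have hc' : cd3 ![d 6, d 7, d 8] < 8 := cn3_lt _ _ _
    split_ifs with hle
    · exact piece hD (hok t0 ht4) (hc t0 ht4 _ hb _ hc' hle) (w3 ![d 0, d 1, d 2])
        (w3 ![d 3, d 4, d 5]) (w3 ![d 6, d 7, d 8])
    · rw [not_le] at hle
      refine Eq.trans (piece hD (hok t0 ht4) (hc t0 ht4 _ hc' _ hb hle.le) (w3 ![d 0, d 1, d 2])
        (w3 ![d 6, d 7, d 8]) (w3 ![d 3, d 4, d 5])) ?_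
      refine ls_congr fun B hB => ?_
      rw [QF_symm (hok t0 ht4 B hB) (hp t0 ht4 B hB) hb hc']
  · rw [if_neg hs]
    symm
    refine Finset.sum_eq_zero fun t _ => ls_zero _ _ fun B _ => if_neg fun h => hs h.1

/-- positivity of a localiser on the data of a triple -/
theorem lv_da3 {B : GB} {D t : ℕ} (h : B.OK D t) {A : Fin 3 → Bool × ℝ} (hA : AdmT A)
    (hty : tyc t A) : 0 ≤ lv (w3 A) B.loc := by
  refine lv_nonneg hA.w0 hA.w1 _ ?_ h.f7
  have h4 := hty.2
  have c0 := cn_le (A 0).1
  have c1 := cn_le (A 1).1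
  have c2 := cn_le (A 2).1
  rcases h.ty with h | h | h
  · left
    rw [h] at h4
    have e : ∀ b : Bool, cn b = 0 → b = false := by decide
    have e0 := e (A 0).1 (by omega)
    have e1 := e (A 1).1 (by omega)
    have e2 := e (A 2).1 (by omega)
    exact hA.tri (e0.trans e1.symm) (e0.trans e2.symm)
  · left
    rw [h] at h4
    have e : ∀ b : Bool, cn b = 1 → b = true := by decide
    have e0 := e (A 0).1 (by omega)
    have e1 := e (A 1).1 (by omega)
    have e2 := e (A 2).1 (by omega)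
    exact hA.tri (e0.trans e1.symm) (e0.trans e2.symm)
  · right; exact h

/-- one block is nonnegative -/
theorem blk_nonneg {B : GB} {D t : ℕ} (h : B.OK D t) (hp : B.P.check = true)
    {n : ℕ} {x : Fin n → ℝ} {p wR wB : Fin n → Fin n → ℝ} (hM : Model x p wR wB) :
    0 ≤ LL x (PC p) (lw wR wB) (fun d => if tyc t ![d 0, d 1, d 2] then
      lv (w3 ![d 0, d 1, d 2]) B.loc * B.QF (cd3 ![d 3, d 4, d 5]) (cd3 ![d 6, d 7, d 8])
        (w3 ![d 0, d 1, d 2]) (w3 ![d 3, d 4, d 5]) (w3 ![d 6, d 7, d 8]) else 0) := by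
  refine le_of_le_of_eq (LL_psd3 (ι := Fin B.P.n) (netC (pre_of_model hM)) (lw wR wB)
    (fun A i j => if tyc t A then lv (w3 A) B.loc * (B.P.Qt i j : ℝ) else 0)
    (fun i A F => phiG B i A F) ?_)
    (congrArg (LL x (PC p) (lw wR wB)) (funext fun d => form_eq h _ _ _))
  intro a A y
  by_cases hty : tyc t (da3 (lw wR wB) a A)
  · have h3 := lv_da3 h (admT_da3 hM a A) hty
    have h5 := Chk.Data.sound_fin hp y
    refine le_of_le_of_eq (mul_nonneg h3 h5) ?_
    rw [Finset.mul_sum]
    refine Finset.sum_congr rfl fun i _ => ?_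
    rw [Finset.mul_sum]
    refine Finset.sum_congr rfl fun j _ => ?_
    rw [if_pos hty]
    ring
  · refine le_of_eq ?_
    symm
    refine Finset.sum_eq_zero fun i _ => Finset.sum_eq_zero fun j _ => ?_
    rw [if_neg hty, zero_mul]

/-- **The G part is nonnegative.** -/
theorem G_nonneg {D K : ℕ} (hD : D < 5) {GD : Tr} {bl : ℕ → List GB}
    (hok : ∀ t < 4, ∀ B ∈ bl t, B.OK D t) (hp : ∀ t < 4, ∀ B ∈ bl t, B.P.check = true)
    (hc : ∀ t < 4, ∀ b < 8, ∀ c < 8, b ≤ c →
      chkBC D K (get (get (get GD t) b) (c - b)) (bl t) b c = true)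
    {n : ℕ} {x : Fin n → ℝ} {p wR wB : Fin n → Fin n → ℝ} (hM : Model x p wR wB) :
    0 ≤ LL x (PC p) (lw wR wB) (Gpc D GD) := by
  have h1 : (Gpc D GD) = fun d => ∑ t ∈ range 4, ((bl t).map fun B =>
      if tyc t ![d 0, d 1, d 2] then
      lv (w3 ![d 0, d 1, d 2]) B.loc * B.QF (cd3 ![d 3, d 4, d 5]) (cd3 ![d 6, d 7, d 8])
        (w3 ![d 0, d 1, d 2]) (w3 ![d 3, d 4, d 5]) (w3 ![d 6, d 7, d 8]) else 0).sum :=
    funext fun d => Gpc_eq hD hok hp hc d
  rw [h1, LL_sum]
  refine Finset.sum_nonneg fun t ht => ?_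
  rw [LL_listSum x (PC p) (lw wR wB) (bl t) (fun B d => if tyc t ![d 0, d 1, d 2] then
      lv (w3 ![d 0, d 1, d 2]) B.loc * B.QF (cd3 ![d 3, d 4, d 5]) (cd3 ![d 6, d 7, d 8])
        (w3 ![d 0, d 1, d 2]) (w3 ![d 3, d 4, d 5]) (w3 ![d 6, d 7, d 8]) else 0)]
  refine List.sum_nonneg fun y hy => ?_
  obtain ⟨B, hB, rfl⟩ := List.mem_map.1 hy
  have ht := Finset.mem_range.1 ht
  exact blk_nonneg (hok t ht B hB) (hp t ht B hB) hM

end GP

end Fl

end HR
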