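import Pool.Agent.Lib.MP_a1b8b7_co.B.GMain
import Pool.Agent.Lib.MP_a1b8b7_co.B.Asm

/-!
# The G check without blocks and with the empty tree
-/

set_option autoImplicit false

open Finset

namespace HR

namespace Fl

namespace GP

open Tr

theorem allL_of {α : Type} {f : α → Bool} {l : List α} (h : ∀ a ∈ l, f a = true) :
    allL f l = true := by
  induction l with
  | nil => rfl
  | cons a l ih =>
    change cond (f a) (allL f l) false = true
    rw [h a (by simp), ih fun b hb => h b (by simp [hb])]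
    rfl

theorem look3_e (s : ℕ) : look3 Tr.e s = Tr.e := by
  rw [look3, get_e, get_e, get_e]

theorem TPk_e (K : ℕ) (val : Tr → ℕ) (hv : val Tr.e = 0) (g g' : ℕ) (l : List ℕ) :
    TPk K val Tr.e g g' l = 0 := by
  rw [TPk, sumL_eq]
  have h : ∀ a ∈ l, Nat.shiftLeft (val (look3 (look3 (look3 Tr.e a) g) g')) (Nat.mul K a) = 0 := by
    intro a _
    rw [look3_e, look3_e, look3_e, hv, shl, zero_mul]
  rw [List.map_congr_left h]
  simp

theorem chk1_nil (K b c g g' : ℕ) (l : List ℕ) : chk1 K Tr.e [] b c g g' l = true := by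
  have hL : ∀ K, LHk K Tr.e [] b c g g' l = 0 := by
    intro K
    change TPk K zp Tr.e g g' l + 0 = 0
    rw [TPk_e K zp rfl]
  have hR : ∀ K, RHk K Tr.e [] b c g g' l = 0 := by
    intro K
    change TPk K zn Tr.e g g' l + 0 = 0
    rw [TPk_e K zn rfl]
  have h2 : Nat.ble (Nat.succ 0) (Nat.pow 2 K) = true := by
    apply Nat.ble_eq_true_of_le
    exact Nat.one_le_two_pow
  unfold chk1
  rw [hL, hR, hL, hR]
  change cond (Nat.beq 0 0) (cond (Nat.ble (Nat.succ 0) (Nat.pow 2 K))
    (Nat.ble (Nat.succ 0) (Nat.pow 2 K)) false) false = true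
  rw [h2]
  rfl

theorem chkBC_nil (D K b c : ℕ) : chkBC D K Tr.e [] b c = true :=
  allL_of fun _ _ => allL_of fun _ _ => chk1_nil _ _ _ _ _ _

end GP

end Fl

end HR
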