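import Pool.Agent.Lib.MP_a1b8b7_co.B.GPoly

/-!
# The G part of the certificate

`G_nonneg`: the functional of the pieces (type of size three; two flags) is nonnegative, if the
kernel checks of the blocks succeed.
-/

set_option autoImplicit false

open Finset

namespace HR

namespace Fl

namespace GP

open Tr

/-! ### Exponent lists -/

/-- codes of the exponents of degree at most `e` -/
def Bl (e : ℕ) : List ℕ :=
  if e = 0 then [0]
  else if e = 1 then [0, 1, 5, 25]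
  else if e = 2 then [0, 1, 5, 25, 2, 6, 10, 26, 30, 50]
  else if e = 3 then [0, 1, 5, 25, 2, 6, 10, 26, 30, 50, 3, 7, 11, 15, 27, 31, 35, 51, 55, 75]
  else [0, 1, 5, 25, 2, 6, 10, 26, 30, 50, 3, 7, 11, 15, 27, 31, 35, 51, 55, 75,
    4, 8, 12, 16, 20, 28, 32, 36, 40, 52, 56, 60, 76, 80, 100]

theorem Bl_filter : ∀ e < 5, Bl e = (Bl 4).filter fun s => dg s ≤ e := by decide

theorem Bl_nodup : (Bl 4).Nodup := by decide

theorem dg_Bl : ∀ e < 5, ∀ s ∈ Bl e, dg s ≤ e := by decide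

section sums

variable {R : Type} [CommRing R]

/-- list sums over `Bl e` -/
theorem sum_Bl (e : ℕ) (he : e < 5) (f : ℕ → R) :
    ((Bl e).map f).sum = ((Bl 4).map fun s => if dg s ≤ e then f s else 0).sum := by
  rw [Bl_filter e he]
  generalize Bl 4 = l
  induction l with
  | nil => rfl
  | cons a l ih =>
    by_cases h : dg a ≤ e
    · rw [List.filter_cons_of_pos (by simpa using h), List.map_cons, List.sum_cons, ih,
        List.map_cons, List.sum_cons, if_pos h]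
    · rw [List.filter_cons_of_neg (by simpa using h), ih, List.map_cons, List.sum_cons, if_neg h,
        zero_add]

/-- sums over three exponents -/
theorem sum_three (e : ℕ) (he : e < 5) (f : ℕ → ℕ → ℕ → R) :
    ∑ i ∈ range 5, ∑ j ∈ range 5, ∑ k ∈ range 5, (if i + j + k ≤ e then f i j k else 0) =
      ((Bl e).map fun s => f (s % 5) (s / 5 % 5) (s / 25)).sum := by
  interval_cases e <;>
    simp [Bl, Finset.sum_range_succ] <;> ring

theorem sum_three' (D e : ℕ) (he : e ≤ D) (hD : D < 5) (f : ℕ → ℕ → ℕ → R) :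
    ∑ α : Fin 3 → Fin (D + 1),
      (if (α 0 : ℕ) + α 1 + α 2 ≤ e then f (α 0) (α 1) (α 2) else 0) =
      ((Bl e).map fun s => f (s % 5) (s / 5 % 5) (s / 25)).sum := by
  rw [← sum_three e (by omega)]
  let eq3 : (Fin (D + 1) × Fin (D + 1)) × Fin (D + 1) ≃ (Fin 3 → Fin (D + 1)) :=
    { toFun := fun z => ![z.1.1, z.1.2, z.2]
      invFun := fun g => ((g 0, g 1), g 2)
      left_inv := fun _ => rfl
      right_inv := fun g => by
        funext i
        fin_cases i <;> rfl }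
  rw [← Equiv.sum_comp eq3, Fintype.sum_prod_type, Fintype.sum_prod_type]
  have h0 : ∀ (G : ℕ → R), (∀ i, D < i → G i = 0) → ∑ i : Fin (D + 1), G i =
      ∑ i ∈ range 5, G i := by
    intro G hG
    rw [← Finset.sum_range (fun i => G i)]
    refine Finset.sum_subset (Finset.range_subset_range.2 (by omega)) ?_
    intro i _ h2
    refine hG i ?_
    rw [Finset.mem_range] at h2
    omega
  change ∑ i : Fin (D + 1), ∑ j : Fin (D + 1), ∑ k : Fin (D + 1),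
    (if (i : ℕ) + j + k ≤ e then f i j k else 0) = _
  rw [h0 (fun i => ∑ j : Fin (D + 1), ∑ k : Fin (D + 1), (if i + j + k ≤ e then f i j k else 0))
    (by
      intro i hi
      refine Finset.sum_eq_zero fun j _ => Finset.sum_eq_zero fun k _ => if_neg ?_
      omega)]
  refine Finset.sum_congr rfl fun i _ => ?_
  rw [h0 (fun j => ∑ k : Fin (D + 1), (if i + j + k ≤ e then f i j k else 0))
    (by
      intro j hj
      refine Finset.sum_eq_zero fun k _ => if_neg ?_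
      omega)]
  refine Finset.sum_congr rfl fun j _ => ?_
  exact h0 (fun k => if i + j + k ≤ e then f i j k else 0) (fun k hk => if_neg (by omega))

end sums

/-! ### The polynomial of a tree with nine levels -/

/-- nine variables from three triples -/
def v9 {R : Type} (A B C : Fin 3 → R) : Fin 9 → R :=
  ![A 0, A 1, A 2, B 0, B 1, B 2, C 0, C 1, C 2]

/-- nine levels -/
noncomputable def g9 (T : Tr) (a0 a1 a2 b0 b1 b2 c0 c1 c2 : ℕ) : Tr :=
  get (get (get (get (get (get (get (get (get T a0) a1) a2) b0) b1) b2) c0) c1) c2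

theorem pol9 (D : ℕ) (hD : D < 5) (T : Tr) (A B C : Fin 3 → ℝ) :
    pol D 9 T (v9 A B C) = ((Bl D).map fun g => ((Bl (D - dg g)).map fun g' =>
      mv B g * mv C g' * ((Bl (D - dg g - dg g')).map fun a =>
        ((look3 (look3 (look3 T a) g) g').z : ℝ) * mv A a).sum).sum).sum := by
  let e9 : ((Fin 3 → Fin (D + 1)) × (Fin 3 → Fin (D + 1))) × (Fin 3 → Fin (D + 1)) ≃
      (Fin 9 → Fin (D + 1)) :=
    { toFun := fun z => v9 z.2 z.1.1 z.1.2
      invFun := fun g => ((![g 3, g 4, g 5], ![g 6, g 7, g 8]), ![g 0, g 1, g 2])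
      left_inv := fun z => by
        refine Prod.ext (Prod.ext ?_ ?_) ?_ <;>
        · funext i
          fin_cases i <;> rfl
      right_inv := fun g => by
        funext i
        fin_cases i <;> rfl }
  unfold pol
  rw [← Equiv.sum_comp e9, Fintype.sum_prod_type, Fintype.sum_prod_type]
  have h1 : ∀ β γ α : Fin 3 → Fin (D + 1),
      (if ∑ i, ((e9 ((β, γ), α) i : Fin (D + 1)) : ℕ) ≤ D then
        ((lookF 9 T fun i => ((e9 ((β, γ), α) i : Fin (D + 1)) : ℕ)).z : ℝ) *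
          ∏ i, v9 A B C i ^ ((e9 ((β, γ), α) i : Fin (D + 1)) : ℕ) else 0) =
      if (β 0 : ℕ) + β 1 + β 2 ≤ D then
        (if (γ 0 : ℕ) + γ 1 + γ 2 ≤ D - ((β 0 : ℕ) + β 1 + β 2) then
          (if (α 0 : ℕ) + α 1 + α 2 ≤ D - ((β 0 : ℕ) + β 1 + β 2) - ((γ 0 : ℕ) + γ 1 + γ 2) then
            (B 0 ^ (β 0 : ℕ) * B 1 ^ (β 1 : ℕ) * B 2 ^ (β 2 : ℕ)) *
            (C 0 ^ (γ 0 : ℕ) * C 1 ^ (γ 1 : ℕ) * C 2 ^ (γ 2 : ℕ)) *
            (((g9 T (α 0) (α 1) (α 2) (β 0) (β 1) (β 2) (γ 0) (γ 1) (γ 2)).z : ℝ) *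
            (A 0 ^ (α 0 : ℕ) * A 1 ^ (α 1 : ℕ) * A 2 ^ (α 2 : ℕ))) else 0) else 0) else 0 := by
    intro β γ α
    have s1 : ∑ i, ((e9 ((β, γ), α) i : Fin (D + 1)) : ℕ) = (α 0 : ℕ) + α 1 + α 2 + β 0 + β 1 +
        β 2 + γ 0 + γ 1 + γ 2 := by
      rw [Fin.sum_univ_castSucc, Fin.sum_univ_eight]
      rfl
    have s2 : ∏ i, v9 A B C i ^ ((e9 ((β, γ), α) i : Fin (D + 1)) : ℕ) =
        A 0 ^ (α 0 : ℕ) * A 1 ^ (α 1 : ℕ) * A 2 ^ (α 2 : ℕ) * B 0 ^ (β 0 : ℕ) *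
        B 1 ^ (β 1 : ℕ) * B 2 ^ (β 2 : ℕ) * C 0 ^ (γ 0 : ℕ) * C 1 ^ (γ 1 : ℕ) *
        C 2 ^ (γ 2 : ℕ) := by
      rw [Fin.prod_univ_castSucc, Fin.prod_univ_eight]
      rfl
    have s3 : (lookF 9 T fun i => ((e9 ((β, γ), α) i : Fin (D + 1)) : ℕ)) =
        g9 T (α 0) (α 1) (α 2) (β 0) (β 1) (β 2) (γ 0) (γ 1) (γ 2) := rfl
    rw [s1, s2, s3]
    by_cases hc : (α 0 : ℕ) + α 1 + α 2 + β 0 + β 1 + β 2 + γ 0 + γ 1 + γ 2 ≤ D
    · rw [if_pos hc, if_pos (by omega), if_pos (by omega), if_pos (by omega)]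
      ring
    · rw [if_neg hc]
      split_ifs with h2 h3 h4
      · exact absurd h4 (by omega)
      · rfl
      · rfl
      · rfl
  rw [Finset.sum_congr rfl fun β _ => Finset.sum_congr rfl fun γ _ =>
    Finset.sum_congr rfl fun α _ => h1 β γ α]
  have h2 : ∀ β : Fin 3 → Fin (D + 1), ∑ γ : Fin 3 → Fin (D + 1), ∑ α : Fin 3 → Fin (D + 1),
      (if (β 0 : ℕ) + β 1 + β 2 ≤ D then
        (if (γ 0 : ℕ) + γ 1 + γ 2 ≤ D - ((β 0 : ℕ) + β 1 + β 2) then
          (if (α 0 : ℕ) + α 1 + α 2 ≤ D - ((β 0 : ℕ) + β 1 + β 2) - ((γ 0 : ℕ) + γ 1 + γ 2) then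
            (B 0 ^ (β 0 : ℕ) * B 1 ^ (β 1 : ℕ) * B 2 ^ (β 2 : ℕ)) *
            (C 0 ^ (γ 0 : ℕ) * C 1 ^ (γ 1 : ℕ) * C 2 ^ (γ 2 : ℕ)) *
            (((g9 T (α 0) (α 1) (α 2) (β 0) (β 1) (β 2) (γ 0) (γ 1) (γ 2)).z : ℝ) *
            (A 0 ^ (α 0 : ℕ) * A 1 ^ (α 1 : ℕ) * A 2 ^ (α 2 : ℕ))) else 0) else 0) else 0) =
      if (β 0 : ℕ) + β 1 + β 2 ≤ D then
        ((Bl (D - ((β 0 : ℕ) + β 1 + β 2))).map fun g' =>
          (B 0 ^ (β 0 : ℕ) * B 1 ^ (β 1 : ℕ) * B 2 ^ (β 2 : ℕ)) * mv C g' *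
          ((Bl (D - ((β 0 : ℕ) + β 1 + β 2) - dg g')).map fun a =>
            ((g9 T (a % 5) (a / 5 % 5) (a / 25) (β 0) (β 1) (β 2) (g' % 5) (g' / 5 % 5)
              (g' / 25)).z : ℝ) * mv A a).sum).sum
      else 0 := by
    intro β
    by_cases hb : (β 0 : ℕ) + β 1 + β 2 ≤ D
    · simp only [if_pos hb]
      refine Eq.trans ?_ (sum_three' D (D - ((β 0 : ℕ) + β 1 + β 2)) (by omega) hD
        (fun c0 c1 c2 => (B 0 ^ (β 0 : ℕ) * B 1 ^ (β 1 : ℕ) * B 2 ^ (β 2 : ℕ)) *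
          (C 0 ^ c0 * C 1 ^ c1 * C 2 ^ c2) *
          ((Bl (D - ((β 0 : ℕ) + β 1 + β 2) - (c0 + c1 + c2))).map fun a =>
            ((g9 T (a % 5) (a / 5 % 5) (a / 25) (β 0) (β 1) (β 2) c0 c1 c2).z : ℝ) * mv A a).sum))
      refine Finset.sum_congr rfl fun γ _ => ?_
      by_cases hg : (γ 0 : ℕ) + γ 1 + γ 2 ≤ D - ((β 0 : ℕ) + β 1 + β 2)
      · simp only [if_pos hg]
        have h3 := sum_three' D (D - ((β 0 : ℕ) + β 1 + β 2) - ((γ 0 : ℕ) + γ 1 + γ 2)) (by omega) hD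
          (fun a0 a1 a2 => ((g9 T a0 a1 a2 (β 0) (β 1) (β 2) (γ 0) (γ 1) (γ 2)).z : ℝ) *
            (A 0 ^ a0 * A 1 ^ a1 * A 2 ^ a2))
        refine Eq.trans ?_ (congrArg _ h3)
        rw [Finset.mul_sum]
        refine Finset.sum_congr rfl fun α _ => ?_
        rw [mul_ite, mul_zero]
      · simp only [if_neg hg, Finset.sum_const_zero]
    · simp only [if_neg hb, Finset.sum_const_zero]
  rw [Finset.sum_congr rfl fun β _ => h2 β]
  exact sum_three' D D le_rfl hD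
    (fun b0 b1 b2 => ((Bl (D - (b0 + b1 + b2))).map fun g' =>
      (B 0 ^ b0 * B 1 ^ b1 * B 2 ^ b2) * mv C g' *
        ((Bl (D - (b0 + b1 + b2) - dg g')).map fun a =>
          ((g9 T (a % 5) (a / 5 % 5) (a / 25) b0 b1 b2 (g' % 5) (g' / 5 % 5)
            (g' / 25)).z : ℝ) * mv A a).sum).sum)

end GP

end Fl

end HR
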