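import Pool.Agent.Lib.MP_a1b8b7_co.B.Poly
import Pool.Agent.Lib.MP_a1b8b7_co.B.Kron

/-!
# Polynomial identities for localised sandwiches

For the type blocks of the certificate: the polynomial in the three type weights which belongs to
fixed exponents of the two flags is compared with the data tree, by evaluation at one Kronecker
point.
-/

set_option autoImplicit false

open Finset MvPolynomial

namespace HR

namespace Fl

namespace GP

open Tr

/-! ### Monomials -/

section sem

variable {R : Type} [CommSemiring R]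

/-- the monomial with code `s = a + 5 b + 25 c` in three variables -/
def mv (x : Fin 3 → R) (s : ℕ) : R := x 0 ^ (s % 5) * x 1 ^ (s / 5 % 5) * x 2 ^ (s / 25)

/-- its degree -/
def dg (s : ℕ) : ℕ := s % 5 + s / 5 % 5 + s / 25

/-- factor of a localiser, positive part -/
def fP (x : Fin 3 → R) (f : ℕ) : R :=
  if f = 0 then x 0 else if f = 1 then x 1 else if f = 2 then x 2 else if f < 6 then 1
  else x 0 + x 1 + x 2

/-- factor of a localiser, negative part -/
def fN (x : Fin 3 → R) (f : ℕ) : R :=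
  if f < 3 then 0 else if f = 3 then x 0 else if f = 4 then x 1 else if f = 5 then x 2 else 1

/-- localiser, positive and negative part -/
def lc (x : Fin 3 → R) : List ℕ → R × R
  | [] => (1, 0)
  | f :: l => (fP x f * (lc x l).1 + fN x f * (lc x l).2,
      fP x f * (lc x l).2 + fN x f * (lc x l).1)

/-- value of a leaf, positive part -/
noncomputable def zp (t : Tr) : ℕ := Tr.rec 0 (fun n => n) (fun _ => 0) (fun _ _ _ _ => 0) t

/-- value of a leaf, negative part -/
noncomputable def zn (t : Tr) : ℕ := Tr.rec 0 (fun _ => 0) (fun n => n) (fun _ _ _ _ => 0) t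

theorem z_eq (t : Tr) : z t = (zp t : ℤ) - zn t := by
  cases t <;> simp [zp, zn]

/-- three levels of a tree -/
noncomputable def look3 (t : Tr) (s : ℕ) : Tr := get (get (get t (s % 5)) (s / 5 % 5)) (s / 25)

/-- the polynomial of the tree which belongs to the flag exponents `g`, `g'` -/
noncomputable def TP (x : Fin 3 → R) (val : Tr → ℕ) (T : Tr) (g g' : ℕ) (l : List ℕ) : R :=
  (l.map fun a => (val (look3 (look3 (look3 T a) g) g') : R) * mv x a).sum

/-- the sandwich polynomial of the digits -/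
def MD (x : Fin 3 → R) (P : Chk.Data) (r c : ℕ) (I J : List (ℕ × ℕ)) : R :=
  (I.map fun q => mv x q.2 *
    (J.map fun q' => (Chk.dig P.w (P.Q.getD (r + q.1) 0) (c + q'.1) : R) * mv x q'.2).sum).sum

/-- the sandwich polynomial of the all one matrix -/
def MC (x : Fin 3 → R) (I J : List (ℕ × ℕ)) : R :=
  (I.map fun q => mv x q.2).sum * (J.map fun q => mv x q.2).sum

end sem

/-- a block: psd matrix, localiser, basis (exponents of the flag, exponents of the type) -/
structure GB where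
  P : Chk.Data
  loc : List ℕ
  bas : List (ℕ × ℕ)

/-- the basis elements with flag exponent `g`, with their positions -/
def ixf (g : ℕ) : ℕ → List (ℕ × ℕ) → List (ℕ × ℕ)
  | _, [] => []
  | i, (g', b) :: l => if g' = g then (i, b) :: ixf g (i + 1) l else ixf g (i + 1) l

section sem

variable {R : Type} [CommSemiring R]

/-- left side of the identity -/
noncomputable def LHS (x : Fin 3 → R) (T : Tr) (bl : List GB) (b c g g' : ℕ) (l : List ℕ) : R :=
  TP x zp T g g' l + (bl.map fun B =>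
    (lc x B.loc).2 * MD x B.P (B.bas.length * b) (B.bas.length * c) (ixf g 0 B.bas)
      (ixf g' 0 B.bas) +
    (lc x B.loc).1 * ((B.P.oq : R) * MC x (ixf g 0 B.bas) (ixf g' 0 B.bas))).sum

/-- right side of the identity -/
noncomputable def RHS (x : Fin 3 → R) (T : Tr) (bl : List GB) (b c g g' : ℕ) (l : List ℕ) : R :=
  TP x zn T g g' l + (bl.map fun B =>
    (lc x B.loc).1 * MD x B.P (B.bas.length * b) (B.bas.length * c) (ixf g 0 B.bas)
      (ixf g' 0 B.bas) +
    (lc x B.loc).2 * ((B.P.oq : R) * MC x (ixf g 0 B.bas) (ixf g' 0 B.bas))).sum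

end sem

/-! ### Homomorphisms -/

section hom

variable {R S : Type} [CommSemiring R] [CommSemiring S] (φ : R →+* S)

theorem map_mv (x : Fin 3 → R) (s : ℕ) : φ (mv x s) = mv (fun i => φ (x i)) s := by
  simp [mv]

theorem map_fP (x : Fin 3 → R) (f : ℕ) : φ (fP x f) = fP (fun i => φ (x i)) f := by
  unfold fP
  split_ifs <;> simp

theorem map_fN (x : Fin 3 → R) (f : ℕ) : φ (fN x f) = fN (fun i => φ (x i)) f := by
  unfold fN
  split_ifs <;> simp

theorem map_lc (x : Fin 3 → R) (l : List ℕ) : φ (lc x l).1 = (lc (fun i => φ (x i)) l).1 ∧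
    φ (lc x l).2 = (lc (fun i => φ (x i)) l).2 := by
  induction l with
  | nil => simp [lc]
  | cons f l ih =>
    constructor
    · simp only [lc, map_add, map_mul, map_fP, map_fN, ih.1, ih.2]
    · simp only [lc, map_add, map_mul, map_fP, map_fN, ih.1, ih.2]

theorem map_listSum {α : Type} (l : List α) (f : α → R) :
    φ (l.map f).sum = (l.map fun a => φ (f a)).sum := by
  induction l with
  | nil => simp
  | cons a l ih => simp [ih]

theorem map_TP (x : Fin 3 → R) (val : Tr → ℕ) (T : Tr) (g g' : ℕ) (l : List ℕ) :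
    φ (TP x val T g g' l) = TP (fun i => φ (x i)) val T g g' l := by
  unfold TP
  rw [map_listSum]
  congr 1
  refine List.map_congr_left fun a _ => ?_
  rw [map_mul, map_natCast, map_mv]

theorem map_MD (x : Fin 3 → R) (P : Chk.Data) (r c : ℕ) (I J : List (ℕ × ℕ)) :
    φ (MD x P r c I J) = MD (fun i => φ (x i)) P r c I J := by
  unfold MD
  rw [map_listSum]
  congr 1
  refine List.map_congr_left fun q _ => ?_
  rw [map_mul, map_mv, map_listSum]
  congr 2
  refine List.map_congr_left fun q' _ => ?_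
  rw [map_mul, map_natCast, map_mv]

theorem map_MC (x : Fin 3 → R) (I J : List (ℕ × ℕ)) :
    φ (MC x I J) = MC (fun i => φ (x i)) I J := by
  unfold MC
  rw [map_mul, map_listSum, map_listSum]
  simp only [map_mv]

theorem map_LHS (x : Fin 3 → R) (T : Tr) (bl : List GB) (b c g g' : ℕ) (l : List ℕ) :
    φ (LHS x T bl b c g g' l) = LHS (fun i => φ (x i)) T bl b c g g' l := by
  unfold LHS
  rw [map_add, map_TP, map_listSum]
  congr 2
  refine List.map_congr_left fun B _ => ?_
  rw [map_add, map_mul, map_mul, map_mul, map_natCast, map_MD, map_MC, (map_lc φ x B.loc).1,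
    (map_lc φ x B.loc).2]

theorem map_RHS (x : Fin 3 → R) (T : Tr) (bl : List GB) (b c g g' : ℕ) (l : List ℕ) :
    φ (RHS x T bl b c g g' l) = RHS (fun i => φ (x i)) T bl b c g g' l := by
  unfold RHS
  rw [map_add, map_TP, map_listSum]
  congr 2
  refine List.map_congr_left fun B _ => ?_
  rw [map_add, map_mul, map_mul, map_mul, map_natCast, map_MD, map_MC, (map_lc φ x B.loc).1,
    (map_lc φ x B.loc).2]

end hom

/-! ### Degrees -/

section deg

theorem deg_mv (s : ℕ) : (mv (X : Fin 3 → MvPolynomial (Fin 3) ℕ) s).totalDegree ≤ dg s := by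
  unfold mv dg
  have h : ∀ (i : Fin 3) (k : ℕ), ((X i : MvPolynomial (Fin 3) ℕ) ^ k).totalDegree ≤ k := by
    intro i k
    refine (totalDegree_pow _ _).trans ?_
    rw [totalDegree_X, mul_one]
  refine (totalDegree_mul _ _).trans ?_
  refine Nat.add_le_add ((totalDegree_mul _ _).trans (Nat.add_le_add (h _ _) (h _ _))) (h _ _)

theorem deg_fP (f : ℕ) : (fP (X : Fin 3 → MvPolynomial (Fin 3) ℕ) f).totalDegree ≤ 1 := by
  unfold fP
  split_ifs
  · rw [totalDegree_X]
  · rw [totalDegree_X]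
  · rw [totalDegree_X]
  · rw [totalDegree_one]; exact Nat.zero_le _
  · refine (totalDegree_add _ _).trans (max_le ((totalDegree_add _ _).trans (max_le ?_ ?_)) ?_) <;>
      rw [totalDegree_X]

theorem deg_fN (f : ℕ) : (fN (X : Fin 3 → MvPolynomial (Fin 3) ℕ) f).totalDegree ≤ 1 := by
  unfold fN
  split_ifs
  · rw [totalDegree_zero]; exact Nat.zero_le _
  · rw [totalDegree_X]
  · rw [totalDegree_X]
  · rw [totalDegree_X]
  · rw [totalDegree_one]; exact Nat.zero_le _

theorem deg_lc (l : List ℕ) :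
    (lc (X : Fin 3 → MvPolynomial (Fin 3) ℕ) l).1.totalDegree ≤ l.length ∧
    (lc (X : Fin 3 → MvPolynomial (Fin 3) ℕ) l).2.totalDegree ≤ l.length := by
  induction l with
  | nil => simp [lc]
  | cons f l ih =>
    have h : ∀ (p q : MvPolynomial (Fin 3) ℕ), p.totalDegree ≤ 1 → q.totalDegree ≤ l.length →
        (p * q).totalDegree ≤ l.length + 1 := by
      intro p q hp hq
      refine (totalDegree_mul _ _).trans ?_
      omega
    constructor
    · exact (totalDegree_add _ _).trans (max_le (h _ _ (deg_fP f) ih.1) (h _ _ (deg_fN f) ih.2))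
    · exact (totalDegree_add _ _).trans (max_le (h _ _ (deg_fP f) ih.2) (h _ _ (deg_fN f) ih.1))

theorem deg_listSum {α : Type} (l : List α) (f : α → MvPolynomial (Fin 3) ℕ) (d : ℕ)
    (h : ∀ a ∈ l, (f a).totalDegree ≤ d) : (l.map f).sum.totalDegree ≤ d := by
  induction l with
  | nil => simp
  | cons a l ih =>
    rw [List.map_cons, List.sum_cons]
    refine (totalDegree_add _ _).trans (max_le (h a (by simp)) (ih fun b hb => h b (by simp [hb])))

theorem deg_nat_mul (n : ℕ) (p : MvPolynomial (Fin 3) ℕ) :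
    ((n : MvPolynomial (Fin 3) ℕ) * p).totalDegree ≤ p.totalDegree := by
  refine (totalDegree_mul _ _).trans ?_
  have : (n : MvPolynomial (Fin 3) ℕ).totalDegree = 0 := by
    have h : (n : MvPolynomial (Fin 3) ℕ) = C n := (map_natCast C n).symm
    rw [h, totalDegree_C]
  omega

theorem deg_TP (val : Tr → ℕ) (T : Tr) (g g' : ℕ) (l : List ℕ) (d : ℕ) (h : ∀ a ∈ l, dg a ≤ d) :
    (TP (X : Fin 3 → MvPolynomial (Fin 3) ℕ) val T g g' l).totalDegree ≤ d := by
  unfold TP
  refine deg_listSum _ _ _ fun a ha => ?_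
  exact (deg_nat_mul _ _).trans ((deg_mv a).trans (h a ha))

theorem deg_MD (P : Chk.Data) (r c : ℕ) (I J : List (ℕ × ℕ)) (e : ℕ)
    (hI : ∀ q ∈ I, dg q.2 ≤ e) (hJ : ∀ q ∈ J, dg q.2 ≤ e) :
    (MD (X : Fin 3 → MvPolynomial (Fin 3) ℕ) P r c I J).totalDegree ≤ 2 * e := by
  unfold MD
  refine deg_listSum _ _ _ fun q hq => ?_
  refine (totalDegree_mul _ _).trans ?_
  have h1 := (deg_mv q.2).trans (hI q hq)
  have h2 : (J.map fun q' => ((Chk.dig P.w (P.Q.getD (r + q.1) 0) (c + q'.1) : ℕ) :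
      MvPolynomial (Fin 3) ℕ) * mv (X : Fin 3 → MvPolynomial (Fin 3) ℕ) q'.2).sum.totalDegree ≤ e :=
    deg_listSum _ _ _ fun q' hq' => (deg_nat_mul _ _).trans ((deg_mv q'.2).trans (hJ q' hq'))
  omega

theorem deg_MC (I J : List (ℕ × ℕ)) (e : ℕ)
    (hI : ∀ q ∈ I, dg q.2 ≤ e) (hJ : ∀ q ∈ J, dg q.2 ≤ e) :
    (MC (X : Fin 3 → MvPolynomial (Fin 3) ℕ) I J).totalDegree ≤ 2 * e := by
  unfold MC
  refine (totalDegree_mul _ _).trans ?_
  have h1 : (I.map fun q => mv (X : Fin 3 → MvPolynomial (Fin 3) ℕ) q.2).sum.totalDegree ≤ e :=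
    deg_listSum _ _ _ fun q hq => (deg_mv q.2).trans (hI q hq)
  have h2 : (J.map fun q => mv (X : Fin 3 → MvPolynomial (Fin 3) ℕ) q.2).sum.totalDegree ≤ e :=
    deg_listSum _ _ _ fun q hq => (deg_mv q.2).trans (hJ q hq)
  omega

theorem mem_ixf {g : ℕ} {l : List (ℕ × ℕ)} {i : ℕ} {q : ℕ × ℕ} (h : q ∈ ixf g i l) :
    (g, q.2) ∈ l := by
  induction l generalizing i with
  | nil => simp [ixf] at h
  | cons a l ih =>
    obtain ⟨g', b⟩ := a
    rw [ixf] at h
    split_ifs at h with h1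
    · rcases List.mem_cons.1 h with h2 | h2
      · rw [h2, h1]
        simp
      · exact List.mem_cons_of_mem _ (ih h2)
    · exact List.mem_cons_of_mem _ (ih h)

/-- degree condition of a block -/
def GB.DegOK (B : GB) : Prop := ∃ e, (∀ q ∈ B.bas, dg q.2 ≤ e) ∧ B.loc.length + 2 * e ≤ 4

theorem deg_blk {B : GB} (hB : B.DegOK) (r c g g' : ℕ) (p : MvPolynomial (Fin 3) ℕ)
    (p' : MvPolynomial (Fin 3) ℕ) (hp : p.totalDegree ≤ B.loc.length)
    (hp' : p'.totalDegree ≤ B.loc.length) :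
    (p * MD (X : Fin 3 → MvPolynomial (Fin 3) ℕ) B.P r c (ixf g 0 B.bas) (ixf g' 0 B.bas) +
      p' * ((B.P.oq : MvPolynomial (Fin 3) ℕ) *
        MC (X : Fin 3 → MvPolynomial (Fin 3) ℕ) (ixf g 0 B.bas) (ixf g' 0 B.bas))).totalDegree ≤ 4
    := by
  obtain ⟨e, he, h4⟩ := hB
  have hI : ∀ g, ∀ q ∈ ixf g 0 B.bas, dg q.2 ≤ e := fun g q hq => he (g, q.2) (mem_ixf hq)
  have h1 := deg_MD B.P r c _ _ e (hI g) (hI g')
  have h2 := (deg_nat_mul B.P.oq _).trans (deg_MC _ _ e (hI g) (hI g'))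
  refine (totalDegree_add _ _).trans (max_le ?_ ?_)
  · refine (totalDegree_mul _ _).trans ?_
    omega
  · refine (totalDegree_mul _ _).trans ?_
    omega

theorem deg_LHS (T : Tr) (bl : List GB) (b c g g' : ℕ) (l : List ℕ) (hl : ∀ a ∈ l, dg a ≤ 4)
    (hb : ∀ B ∈ bl, B.DegOK) :
    (LHS (X : Fin 3 → MvPolynomial (Fin 3) ℕ) T bl b c g g' l).totalDegree ≤ 4 := by
  unfold LHS
  refine (totalDegree_add _ _).trans (max_le (deg_TP _ _ _ _ _ _ hl) ?_)
  exact deg_listSum _ _ _ fun B hB => deg_blk (hb B hB) _ _ _ _ _ _ (deg_lc _).2 (deg_lc _).1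

theorem deg_RHS (T : Tr) (bl : List GB) (b c g g' : ℕ) (l : List ℕ) (hl : ∀ a ∈ l, dg a ≤ 4)
    (hb : ∀ B ∈ bl, B.DegOK) :
    (RHS (X : Fin 3 → MvPolynomial (Fin 3) ℕ) T bl b c g g' l).totalDegree ≤ 4 := by
  unfold RHS
  refine (totalDegree_add _ _).trans (max_le (deg_TP _ _ _ _ _ _ hl) ?_)
  exact deg_listSum _ _ _ fun B hB => deg_blk (hb B hB) _ _ _ _ _ _ (deg_lc _).1 (deg_lc _).2

end deg

/-- the Kronecker point -/
def kp (K : ℕ) : Fin 3 → ℕ := fun i => (2 ^ K) ^ (![1, 5, 25] : Fin 3 → ℕ) i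

/-- **From one evaluation to the identity.** -/
theorem LHS_eq_RHS {R : Type} [CommSemiring R] (K : ℕ) (T : Tr) (bl : List GB) (b c g g' : ℕ)
    (l : List ℕ) (hl : ∀ a ∈ l, dg a ≤ 4) (hb : ∀ B ∈ bl, B.DegOK)
    (h1 : LHS (kp 0) T bl b c g g' l < 2 ^ K) (h2 : RHS (kp 0) T bl b c g g' l < 2 ^ K)
    (h : LHS (kp K) T bl b c g g' l = RHS (kp K) T bl b c g g' l) (w : Fin 3 → R) :
    LHS w T bl b c g g' l = RHS w T bl b c g g' l := by
  have e0 : (kp 0) = fun _ => 1 := by
    funext i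
    simp [kp]
  rw [e0] at h1 h2
  have a1 : ∀ (y : Fin 3 → ℕ), eval y (LHS (X : Fin 3 → MvPolynomial (Fin 3) ℕ) T bl b c g g' l) =
      LHS y T bl b c g g' l := by
    intro y
    rw [map_LHS]
    simp
  have a2 : ∀ (y : Fin 3 → ℕ), eval y (RHS (X : Fin 3 → MvPolynomial (Fin 3) ℕ) T bl b c g g' l) =
      RHS y T bl b c g g' l := by
    intro y
    rw [map_RHS]
    simp
  have a3 : aeval w (LHS (X : Fin 3 → MvPolynomial (Fin 3) ℕ) T bl b c g g' l) =
      LHS w T bl b c g g' l := by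
    have := map_LHS (aeval w : MvPolynomial (Fin 3) ℕ →ₐ[ℕ] R).toRingHom X T bl b c g g' l
    simpa using this
  have a4 : aeval w (RHS (X : Fin 3 → MvPolynomial (Fin 3) ℕ) T bl b c g g' l) =
      RHS w T bl b c g g' l := by
    have := map_RHS (aeval w : MvPolynomial (Fin 3) ℕ →ₐ[ℕ] R).toRingHom X T bl b c g g' l
    simpa using this
  rw [← a3, ← a4]
  refine Kron.kron3 (2 ^ K) _ _ (deg_LHS T bl b c g g' l hl hb) (deg_RHS T bl b c g g' l hl hb)
    ?_ ?_ ?_ w
  · rw [a1]; exact h1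
  · rw [a2]; exact h2
  · rw [a1, a2]; exact h

end GP

end Fl

end HR
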