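import Pool.Agent.Lib.MP_a1b8b7_co.B.Inst

/-!
# The most general linear rows with one mark per pair

For every colouring `G` of the ten pairs, the multilinear form of `g` in the ten weights has to be
nonnegative on the polytope of admissible weights.
-/

set_option autoImplicit false

open Finset

namespace HR

namespace Fl

variable {n : ℕ}

/-- state from a colour (`true` = blue) and a mark -/
def cm (c m : Bool) : Fin 4 := bif c then (bif m then 3 else 2) else (bif m then 1 else 0)

/-- colour of a state -/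
def stc (s : Fin 4) : Bool := (![false, false, true, true] : Fin 4 → Bool) s

/-- mark of a state -/
def stm (s : Fin 4) : Bool := (![false, true, false, true] : Fin 4 → Bool) s

theorem cm_st (s : Fin 4) : cm (stc s) (stm s) = s := by revert s; decide

theorem stc_cm (c m : Bool) : stc (cm c m) = c := by revert c m; decide

theorem stm_cm (c m : Bool) : stm (cm c m) = m := by revert c m; decide

/-- colourings by states as pairs of a colouring and a marking -/
def eCM : (Fin 10 → Bool) × (Fin 10 → Bool) ≃ (Fin 10 → Fin 4) where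
  toFun z := fun e => cm (z.1 e) (z.2 e)
  invFun F := (fun e => stc (F e), fun e => stm (F e))
  left_inv := by
    rintro ⟨G, M⟩
    simp only [stc_cm, stm_cm]
  right_inv := by
    intro F
    funext e
    exact cm_st _

/-- Bernoulli weight -/
def bw (w : ℝ) (m : Bool) : ℝ := bif m then w else 1 - w

/-- multilinear form of a function of markings -/
def ml10 (f : (Fin 10 → Bool) → ℝ) (w : Fin 10 → ℝ) : ℝ :=
  ∑ M : Fin 10 → Bool, (∏ e, bw (w e) (M e)) * f M

/-- admissible weights for a colouring: all monochromatic triangles have weight at least one -/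
structure AdmW (G : Fin 10 → Bool) (w : Fin 10 → ℝ) : Prop where
  w0 : ∀ e, 0 ≤ w e
  w1 : ∀ e, w e ≤ 1
  tri : ∀ i j k : Fin 5, i < j → j < k → G (ei i j) = G (ei i k) → G (ei i j) = G (ei j k) →
    1 ≤ w (ei i j) + w (ei i k) + w (ei j k)

theorem P4_cm (p wR wB : Fin n → Fin n → ℝ) (u v : Fin n) (c m : Bool) :
    P4 p wR wB u v (cm c m) = (bif c then 1 - p u v else p u v) *
      bw (bif c then wB u v else wR u v) m := by
  cases c <;> cases m <;> simp [P4, cm, bw]

theorem src_ei {i j : Fin 5} (h : i < j) : src (ei i j) = i ∧ tgt (ei i j) = j := by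
  revert i j; decide

/-- **General linear rows.** -/
theorem L_hull {x : Fin n → ℝ} {p wR wB : Fin n → Fin n → ℝ} (hM : Model x p wR wB)
    (g : (Fin 10 → Fin 4) → ℝ)
    (hg : ∀ (G : Fin 10 → Bool) (w : Fin 10 → ℝ), AdmW G w →
      0 ≤ ml10 (fun M => g fun e => cm (G e) (M e)) w) : 0 ≤ L x (P4 p wR wB) g := by
  unfold L
  refine Finset.sum_nonneg fun a _ => ?_
  have h1 : ∑ F : Fin 10 → Fin 4, W5 x (P4 p wR wB) a F * g F =
      (∏ i, x (a i)) * ∑ G : Fin 10 → Bool,
        (∏ e, (bif G e then 1 - p (a (src e)) (a (tgt e)) else p (a (src e)) (a (tgt e)))) *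
          ml10 (fun M => g fun e => cm (G e) (M e))
            (fun e => bif G e then wB (a (src e)) (a (tgt e)) else wR (a (src e)) (a (tgt e))) := by
    rw [← Equiv.sum_comp eCM, Fintype.sum_prod_type, Finset.mul_sum]
    refine Finset.sum_congr rfl fun G _ => ?_
    unfold ml10
    rw [Finset.mul_sum, Finset.mul_sum]
    refine Finset.sum_congr rfl fun M _ => ?_
    change W5 x (P4 p wR wB) a (fun e => cm (G e) (M e)) * g (fun e => cm (G e) (M e)) = _
    unfold W5
    simp only [P4_cm, Finset.prod_mul_distrib]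
    ring
  rw [h1]
  refine mul_nonneg (Finset.prod_nonneg fun _ _ => hM.x0 _) (Finset.sum_nonneg fun G _ => ?_)
  refine mul_nonneg (Finset.prod_nonneg fun e _ => ?_) (hg G _ ⟨?_, ?_, ?_⟩)
  · cases G e
    · exact hM.p0 _ _
    · have := hM.p1 (a (src e)) (a (tgt e))
      simp only [cond_true]
      linarith
  · intro e
    cases G e
    · exact hM.R0 _ _
    · exact hM.B0 _ _
  · intro e
    cases G e
    · exact hM.R1 _ _
    · exact hM.B1 _ _
  · intro i j k hij hjk h2 h3
    obtain ⟨s1, t1⟩ := src_ei hij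
    obtain ⟨s2, t2⟩ := src_ei (hij.trans hjk)
    obtain ⟨s3, t3⟩ := src_ei hjk
    simp only [s1, t1, s2, t2, s3, t3]
    rw [← h2, ← h3]
    cases G (ei i j)
    · have := hM.Rt (a i) (a j) (a k)
      simp only [cond_false]
      linarith
    · have := hM.Bt (a i) (a j) (a k)
      simp only [cond_true]
      linarith

/-! ### Rules for multilinear forms -/

theorem ml10_add (f g : (Fin 10 → Bool) → ℝ) (w : Fin 10 → ℝ) :
    ml10 (fun M => f M + g M) w = ml10 f w + ml10 g w := by
  unfold ml10
  simp only [mul_add, Finset.sum_add_distrib]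

theorem ml10_smul (c : ℝ) (f : (Fin 10 → Bool) → ℝ) (w : Fin 10 → ℝ) :
    ml10 (fun M => c * f M) w = c * ml10 f w := by
  unfold ml10
  rw [Finset.mul_sum]
  exact Finset.sum_congr rfl fun M _ => by ring

/-- product functions -/
theorem ml10_prod (u : Fin 10 → Bool → ℝ) (w : Fin 10 → ℝ) :
    ml10 (fun M => ∏ e, u e (M e)) w = ∏ e, (w e * u e true + (1 - w e) * u e false) := by
  unfold ml10
  have h := Finset.prod_univ_sum (fun _ : Fin 10 => (Finset.univ : Finset Bool))
    (fun e m => bw (w e) m * u e m)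
  rw [Fintype.piFinset_univ] at h
  simp only [Finset.prod_mul_distrib] at h
  rw [← h]
  refine Finset.prod_congr rfl fun e _ => ?_
  rw [Fintype.sum_bool]
  rfl

theorem ml10_nonneg {f : (Fin 10 → Bool) → ℝ} (hf : ∀ M, 0 ≤ f M) {w : Fin 10 → ℝ}
    (h0 : ∀ e, 0 ≤ w e) (h1 : ∀ e, w e ≤ 1) : 0 ≤ ml10 f w :=
  Finset.sum_nonneg fun M _ => mul_nonneg (Finset.prod_nonneg fun e _ => by
    cases M e
    · exact sub_nonneg.2 (h1 e)
    · exact h0 e) (hf M)

end Fl

end HR
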