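import Pool.Agent.Lib.MP_a1b8b7_co.B.KKT

/-!
# Tilt variables

At a minimiser of `max (rr, bb)` with multiplier `l ≥ 1/2` we rescale the red weights by
`1 + θ = l / (1 - l)`.  The multiplier then disappears from the conditions.
-/

set_option autoImplicit false

open Finset

namespace HR

variable {n : ℕ}

/-- The data of a minimiser in tilt variables: `w` is the rescaled red weight. -/
structure Tilt (x : Fin n → ℝ) (p w wB : Fin n → Fin n → ℝ) (θ c : ℝ) : Prop where
  x0 : ∀ u, 0 ≤ x u
  x1 : ∑ u, x u = 1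
  p0 : ∀ u v, 0 ≤ p u v
  p1 : ∀ u v, p u v ≤ 1
  ps : ∀ u v, p u v = p v u
  w0 : ∀ u v, 0 ≤ w u v
  w1 : ∀ u v, w u v ≤ 1
  ws : ∀ u v, w u v = w v u
  wl : ∀ u, w u u = 1
  B0 : ∀ u v, 0 ≤ wB u v
  B1 : ∀ u v, wB u v ≤ 1
  Bs : ∀ u v, wB u v = wB v u
  Bt : ∀ u v t, 1 ≤ wB u v + wB v t + wB u t
  Bl : ∀ u, wB u u = 1
  θ0 : 0 ≤ θ
  c0 : 0 < c
  /-- red triples -/
  Rt : ∀ u v t, 0 ≤ x u * x v * x t * (p u v * p v t * p u t) *
    (w u v + w v t + w u t - (1 + θ))
  r : rr x p w = (1 + θ) * c
  b : bb x p wB = c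
  k1 : ∀ u, x u * (dR x p w u + dB x p wB u - (2 + θ) * c) = 0
  k3a : ∀ u v, 0 ≤ x u * x v * (p u v * (wB u v - w u v))
  k3b : ∀ u v, 0 ≤ x u * x v * ((1 - p u v) * (w u v - wB u v))

theorem Model.swap {x : Fin n → ℝ} {p wR wB : Fin n → Fin n → ℝ} (hM : Model x p wR wB) :
    Model x (fun u v => 1 - p u v) wB wR :=
  ⟨hM.x0, hM.x1, fun u v => by linarith [hM.p1 u v], fun u v => by linarith [hM.p0 u v],
    fun u v => by rw [hM.ps u v], hM.B0, hM.B1, hM.Bs, hM.Bt, hM.Bl, hM.R0, hM.R1, hM.Rs, hM.Rt,
    hM.Rl⟩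

theorem bb_swap (x : Fin n → ℝ) (p w : Fin n → Fin n → ℝ) :
    bb x (fun u v => 1 - p u v) w = rr x p w := by
  unfold bb rr
  simp only [sub_sub_cancel]

theorem dB_swap (x : Fin n → ℝ) (p w : Fin n → Fin n → ℝ) (u : Fin n) :
    dB x (fun u v => 1 - p u v) w u = dR x p w u := by
  unfold dB dR
  simp only [sub_sub_cancel]

theorem KKT.swap {x : Fin n → ℝ} {p wR wB : Fin n → Fin n → ℝ} {l c : ℝ}
    (h : KKT x p wR wB l c) : KKT x (fun u v => 1 - p u v) wB wR (1 - l) c := by
  refine ⟨by linarith [h.l1], by linarith [h.l0], ?_, ?_, ?_, ?_, ?_⟩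
  · intro u
    rw [dB_swap, ← dB_eq]
    linarith [h.k1 u]
  · intro u
    rw [dB_swap, ← dB_eq]
    have := h.k1' u
    linarith
  · intro u v
    have := h.k3b u v
    simp only [sub_sub_cancel]
    linarith
  · intro u v
    have := h.k3a u v
    simp only [sub_sub_cancel]
    linarith
  · rw [bb_swap, ← bb_eq]
    linarith [h.val]

/-- the sum of the two weights is positive -/
theorem Model.pos {x : Fin n → ℝ} {p wR wB : Fin n → Fin n → ℝ} (hM : Model x p wR wB) :
    0 < rr x p wR + bb x p wB := by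
  have h1 : ∀ u, x u * x u ≤ ∑ v, x u * x v * (p u v * wR u v) +
      ∑ v, x u * x v * ((1 - p u v) * wB u v) := by
    intro u
    have a1 : x u * x u * (p u u * wR u u) ≤ ∑ v, x u * x v * (p u v * wR u v) :=
      Finset.single_le_sum (f := fun v => x u * x v * (p u v * wR u v)) (fun v _ =>
        mul_nonneg (mul_nonneg (hM.x0 u) (hM.x0 v)) (mul_nonneg (hM.p0 u v) (hM.R0 u v)))
        (Finset.mem_univ u)
    have a2 : x u * x u * ((1 - p u u) * wB u u) ≤ ∑ v, x u * x v * ((1 - p u v) * wB u v) :=
      Finset.single_le_sum (f := fun v => x u * x v * ((1 - p u v) * wB u v)) (fun v _ =>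
        mul_nonneg (mul_nonneg (hM.x0 u) (hM.x0 v)) (mul_nonneg (by linarith [hM.p1 u v])
        (hM.B0 u v))) (Finset.mem_univ u)
    rw [hM.Rl u] at a1
    rw [hM.Bl u] at a2
    linarith
  have h2 : ∑ u, x u * x u ≤ rr x p wR + bb x p wB := by
    unfold rr bb
    rw [← Finset.sum_add_distrib]
    exact Finset.sum_le_sum fun u _ => h1 u
  have h3 : ∃ u, 0 < x u := by
    by_contra hne
    push Not at hne
    have : ∑ u, x u ≤ 0 := Finset.sum_nonpos fun u _ => hne u
    rw [hM.x1] at this
    linarith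
  obtain ⟨u, hu⟩ := h3
  have h4 : x u * x u ≤ ∑ u, x u * x u :=
    Finset.single_le_sum (f := fun u => x u * x u) (fun v _ => mul_self_nonneg _)
      (Finset.mem_univ u)
  have : 0 < x u * x u := mul_pos hu hu
  linarith

theorem tilt_of_kkt {x : Fin n → ℝ} {p wR wB : Fin n → Fin n → ℝ} (hM : Model x p wR wB)
    {l c : ℝ} (hl : 1 / 2 ≤ l) (hr : rr x p wR = c) (hb : bb x p wB = c)
    (hk : KKT x p wR wB l c) :
    ∃ (w : Fin n → Fin n → ℝ) (θ : ℝ), Tilt x p w wB θ c := by
  have hc : 0 < c := by
    have := hM.pos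
    rw [hr, hb] at this
    linarith
  have hl1 : l < 1 := by
    rcases lt_or_eq_of_le hk.l1 with h | h
    · exact h
    · exfalso
      have h0 : rr x p wR ≤ 0 := by
        unfold rr
        refine Finset.sum_nonpos fun u _ => Finset.sum_nonpos fun v _ => ?_
        have := hk.k3a u v
        rw [h] at this
        linarith
      linarith
  set K : ℝ := l / (1 - l) with hK
  have hl2 : 0 < 1 - l := by linarith
  have hK1 : 1 ≤ K := by
    rw [hK, le_div_iff₀ hl2]
    linarith
  have hKl : (1 - l) * K = l := by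
    rw [hK]
    field_simp
  set w : Fin n → Fin n → ℝ := fun u v => min 1 (K * wR u v) with hw
  -- on the red support the minimum is the second term
  have key : ∀ u v, x u * x v * (p u v * w u v) = x u * x v * (p u v * (K * wR u v)) := by
    intro u v
    by_cases h0 : 0 < x u * x v * p u v
    · have h1 := hk.k3a u v
      have h2 : 0 ≤ (1 - l) * wB u v - l * wR u v := by
        by_contra hneg
        rw [not_le] at hneg
        have := mul_neg_of_pos_of_neg h0 hneg
        linarith
      have h3 : K * wR u v ≤ 1 := by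
        have h4 : (1 - l) * (K * wR u v) ≤ (1 - l) * 1 := by
          have : (1 - l) * wB u v ≤ (1 - l) * 1 := mul_le_mul_of_nonneg_left (hM.B1 u v) hl2.le
          have h5 : (1 - l) * (K * wR u v) = l * wR u v := by rw [← mul_assoc, hKl]
          linarith
        exact le_of_mul_le_mul_left h4 hl2
      simp only [hw]
      rw [min_eq_right h3]
    · have h1 : x u * x v * p u v = 0 :=
        le_antisymm (not_lt.1 h0) (mul_nonneg (mul_nonneg (hM.x0 u) (hM.x0 v)) (hM.p0 u v))
      have e1 : x u * x v * (p u v * w u v) = (x u * x v * p u v) * w u v := by ring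
      have e2 : x u * x v * (p u v * (K * wR u v)) = (x u * x v * p u v) * (K * wR u v) := by ring
      rw [e1, e2, h1]
      ring
  have hdR : ∀ u, x u * dR x p w u = K * (x u * dR x p wR u) := by
    intro u
    unfold dR
    rw [Finset.mul_sum, Finset.mul_sum, Finset.mul_sum]
    refine Finset.sum_congr rfl fun v _ => ?_
    have := key u v
    linarith
  have hrr : rr x p w = K * c := by
    rw [← sum_dR, ← hr, ← sum_dR x p wR, Finset.mul_sum]
    exact Finset.sum_congr rfl fun u _ => hdR u
  have hpk : ∀ u v, 0 ≤ x u * x v * p u v := fun u v =>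
    mul_nonneg (mul_nonneg (hM.x0 u) (hM.x0 v)) (hM.p0 u v)
  refine ⟨w, K - 1, hM.x0, hM.x1, hM.p0, hM.p1, hM.ps, ?_, ?_, ?_, ?_, hM.B0, hM.B1, hM.Bs, hM.Bt,
    hM.Bl, by linarith, hc, ?_, ?_, hb, ?_, ?_, ?_⟩
  · intro u v
    exact le_min zero_le_one (mul_nonneg (by linarith) (hM.R0 u v))
  · intro u v
    exact min_le_left _ _
  · intro u v
    simp only [hw, hM.Rs u v]
  · intro u
    simp only [hw, hM.Rl u, mul_one]
    exact min_eq_left hK1
  · intro u v t
    have e : x u * x v * x t * (p u v * p v t * p u t) * (w u v + w v t + w u t - (1 + (K - 1))) =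
        x u * x v * x t * (p u v * p v t * p u t) *
          (K * (wR u v + wR v t + wR u t - 1)) := by
      have k1 := key u v
      have k2 := key v t
      have k3 := key u t
      have e1 : x u * x v * x t * (p u v * p v t * p u t) * w u v =
          x u * x v * x t * (p u v * p v t * p u t) * (K * wR u v) := by
        calc _ = x t * (p v t * p u t) * (x u * x v * (p u v * w u v)) := by ring
          _ = _ := by rw [k1]; ring
      have e2 : x u * x v * x t * (p u v * p v t * p u t) * w v t =
          x u * x v * x t * (p u v * p v t * p u t) * (K * wR v t) := by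
        calc _ = x u * (p u v * p u t) * (x v * x t * (p v t * w v t)) := by ring
          _ = _ := by rw [k2]; ring
      have e3 : x u * x v * x t * (p u v * p v t * p u t) * w u t =
          x u * x v * x t * (p u v * p v t * p u t) * (K * wR u t) := by
        calc _ = x v * (p u v * p v t) * (x u * x t * (p u t * w u t)) := by ring
          _ = _ := by rw [k3]; ring
      linear_combination e1 + e2 + e3
    rw [e]
    exact mul_nonneg (mul_nonneg (mul_nonneg (mul_nonneg (hM.x0 u) (hM.x0 v)) (hM.x0 t))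
      (mul_nonneg (mul_nonneg (hM.p0 u v) (hM.p0 v t)) (hM.p0 u t)))
      (mul_nonneg (by linarith) (by linarith [hM.Rt u v t]))
  · rw [hrr]; ring
  · intro u
    have h1 := hk.k1' u
    have h2 : (1 - l) * (x u * (dR x p w u + dB x p wB u - (2 + (K - 1)) * c)) = 0 := by
      have h3 := hdR u
      have h4 : (1 - l) * (x u * dR x p w u) = l * (x u * dR x p wR u) := by
        rw [h3, ← mul_assoc, hKl]
      linear_combination h4 + h1 - x u * c * hKl
    rcases mul_eq_zero.1 h2 with h | h
    · linarith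
    · exact h
  · intro u v
    have h1 := hk.k3a u v
    have h2 := key u v
    have h3 : (1 - l) * (x u * x v * (p u v * (wB u v - w u v))) =
        x u * x v * (p u v * ((1 - l) * wB u v - l * wR u v)) := by
      linear_combination (-(1 - l)) * h2 - (x u * x v * p u v * wR u v) * hKl
    rw [← h3] at h1
    exact le_of_mul_le_mul_left (by linarith) hl2
  · intro u v
    by_cases h0 : 0 < x u * x v * (1 - p u v)
    · have h1 := hk.k3b u v
      have h2 : 0 ≤ l * wR u v - (1 - l) * wB u v := by
        by_contra hneg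
        rw [not_le] at hneg
        have := mul_neg_of_pos_of_neg h0 hneg
        linarith
      have h3 : wB u v ≤ K * wR u v := by
        have h4 : (1 - l) * wB u v ≤ (1 - l) * (K * wR u v) := by
          rw [← mul_assoc, hKl]
          linarith
        exact le_of_mul_le_mul_left h4 hl2
      have h5 : wB u v ≤ w u v := le_min (hM.B1 u v) h3
      have := mul_nonneg h0.le (sub_nonneg.2 h5)
      linarith
    · have h1 : x u * x v * (1 - p u v) = 0 :=
        le_antisymm (not_lt.1 h0) (mul_nonneg (mul_nonneg (hM.x0 u) (hM.x0 v))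
          (by linarith [hM.p1 u v]))
      have e1 : x u * x v * ((1 - p u v) * (w u v - wB u v)) =
        (x u * x v * (1 - p u v)) * (w u v - wB u v) := by ring
      rw [e1, h1, zero_mul]

/-- **Reduction of the bound for models to tilt data.** -/
theorem model_of_tilt (h : ∀ (n : ℕ) (x : Fin n → ℝ) (p w wB : Fin n → Fin n → ℝ) (θ c : ℝ),
    Tilt x p w wB θ c → 1 / 10 ≤ c) : S_Model := by
  intro n x p wR wB hM
  by_contra hlt
  rw [not_le] at hlt
  obtain ⟨x', p', l, c, hM', hr, hb, hc, -, hk⟩ := kkt_max hM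
  rcases le_total (1 / 2) l with hl | hl
  · obtain ⟨w, θ, ht⟩ := tilt_of_kkt hM' hl hr hb hk
    have := h n x' p' w wB θ c ht
    linarith
  · obtain ⟨w, θ, ht⟩ := tilt_of_kkt hM'.swap (l := 1 - l) (c := c) (by linarith)
      (by rw [← bb_eq]; exact hb) (by rw [bb_swap]; exact hr) hk.swap
    have := h n x' _ w wR θ c ht
    linarith

end HR
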