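import Pool.Agent.Lib.MP_a1b8b7_co.B.Flag
import Pool.Agent.Lib.MP_a1b8b7_co.B.Tilt

/-!
# One mark per pair

The four states of a pair: `0` red unmarked, `1` red marked, `2` blue unmarked, `3` blue marked.
-/

set_option autoImplicit false

open Finset

namespace HR

namespace Fl

variable {n : ℕ}

/-- state probabilities with one mark per pair -/
def P4 (p wR wB : Fin n → Fin n → ℝ) (u v : Fin n) : Fin 4 → ℝ :=
  ![p u v * (1 - wR u v), p u v * wR u v, (1 - p u v) * (1 - wB u v), (1 - p u v) * wB u v]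

/-- the common part of `Model` and `Tilt` -/
structure Pre (x : Fin n → ℝ) (p wR wB : Fin n → Fin n → ℝ) : Prop where
  x0 : ∀ u, 0 ≤ x u
  x1 : ∑ u, x u = 1
  p0 : ∀ u v, 0 ≤ p u v
  p1 : ∀ u v, p u v ≤ 1
  ps : ∀ u v, p u v = p v u
  R0 : ∀ u v, 0 ≤ wR u v
  R1 : ∀ u v, wR u v ≤ 1
  Rs : ∀ u v, wR u v = wR v u
  Rl : ∀ u, wR u u = 1
  B0 : ∀ u v, 0 ≤ wB u v
  B1 : ∀ u v, wB u v ≤ 1
  Bs : ∀ u v, wB u v = wB v u
  Bl : ∀ u, wB u u = 1

theorem pre_of_model {x : Fin n → ℝ} {p wR wB : Fin n → Fin n → ℝ} (h : Model x p wR wB) :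
    Pre x p wR wB :=
  ⟨h.x0, h.x1, h.p0, h.p1, h.ps, h.R0, h.R1, h.Rs, h.Rl, h.B0, h.B1, h.Bs, h.Bl⟩

theorem pre_of_tilt {x : Fin n → ℝ} {p w wB : Fin n → Fin n → ℝ} {θ c : ℝ}
    (h : Tilt x p w wB θ c) : Pre x p w wB :=
  ⟨h.x0, h.x1, h.p0, h.p1, h.ps, h.w0, h.w1, h.ws, h.wl, h.B0, h.B1, h.Bs, h.Bl⟩

section

variable {x : Fin n → ℝ} {p wR wB : Fin n → Fin n → ℝ}

theorem net4 (h : Pre x p wR wB) : Net x (P4 p wR wB) := by
  refine ⟨h.x0, h.x1, ?_, ?_, ?_⟩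
  · intro u v s
    have a1 := h.p0 u v
    have a2 : 0 ≤ 1 - p u v := by linarith [h.p1 u v]
    have a3 := h.R0 u v
    have a4 : 0 ≤ 1 - wR u v := by linarith [h.R1 u v]
    have a5 := h.B0 u v
    have a6 : 0 ≤ 1 - wB u v := by linarith [h.B1 u v]
    fin_cases s
    · exact mul_nonneg a1 a4
    · exact mul_nonneg a1 a3
    · exact mul_nonneg a2 a6
    · exact mul_nonneg a2 a5
  · intro u v
    simp only [P4, Fin.sum_univ_four, Matrix.cons_val_zero, Matrix.cons_val_one, Matrix.cons_val]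
    ring
  · intro u v s
    simp only [P4, h.ps u v, h.Rs u v, h.Bs u v]

/-- indicator of a state -/
def ind (i : Fin 4) (s : Fin 4) : ℝ := if s = i then 1 else 0

theorem L2_ind1 : L2 x (P4 p wR wB) (ind 1) = rr x p wR := by
  unfold L2 rr
  refine Finset.sum_congr rfl fun u _ => Finset.sum_congr rfl fun v _ => ?_
  simp [P4, ind]

theorem L2_ind3 : L2 x (P4 p wR wB) (ind 3) = bb x p wB := by
  unfold L2 bb
  refine Finset.sum_congr rfl fun u _ => Finset.sum_congr rfl fun v _ => ?_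
  simp [P4, ind]

theorem L2_const {V S : Type} [Fintype V] [Fintype S] {x : V → ℝ} {P : V → V → S → ℝ}
    (h : Net x P) (k : S → ℝ) (c : ℝ) : L2 x P (fun s => k s - c) = L2 x P k - c := by
  have h1 : L2 x P (fun s => k s - c) = L2 x P k - c * ∑ u, ∑ v, x u * x v := by
    unfold L2
    rw [Finset.mul_sum, ← Finset.sum_sub_distrib]
    refine Finset.sum_congr rfl fun u _ => ?_
    rw [Finset.mul_sum, ← Finset.sum_sub_distrib]
    refine Finset.sum_congr rfl fun v _ => ?_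
    simp only [mul_sub, Finset.sum_sub_distrib, ← Finset.sum_mul, h.P1]
    ring
  have h2 : ∑ u, ∑ v, x u * x v = 1 := by
    simp only [← Finset.mul_sum, h.x1, mul_one]
  rw [h1, h2, mul_one]

theorem deg_const {V S : Type} [Fintype V] [Fintype S] {x : V → ℝ} {P : V → V → S → ℝ}
    (h : Net x P) (k : S → ℝ) (c : ℝ) (u : V) :
    deg x P (fun s => k s - c) u = deg x P k u - c := by
  have h1 : deg x P (fun s => k s - c) u = deg x P k u - c * ∑ v, x v := by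
    unfold deg
    rw [Finset.mul_sum, ← Finset.sum_sub_distrib]
    refine Finset.sum_congr rfl fun v _ => ?_
    simp only [mul_sub, Finset.sum_sub_distrib, ← Finset.sum_mul, h.P1]
    ring
  rw [h1, h.x1, mul_one]

theorem deg_ind1 (u : Fin n) : deg x (P4 p wR wB) (ind 1) u = dR x p wR u := by
  unfold deg dR
  refine Finset.sum_congr rfl fun v _ => ?_
  simp [P4, ind]

theorem deg_ind3 (u : Fin n) : deg x (P4 p wR wB) (ind 3) u = dB x p wB u := by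
  unfold deg dB
  refine Finset.sum_congr rfl fun v _ => ?_
  simp [P4, ind]

theorem deg_add {V S : Type} [Fintype V] [Fintype S] (x : V → ℝ) (P : V → V → S → ℝ)
    (k l : S → ℝ) (u : V) :
    deg x P (fun s => k s + l s) u = deg x P k u + deg x P l u := by
  unfold deg
  simp only [mul_add, Finset.sum_add_distrib]

/-- multilinear form of a table with eight entries -/
def ml (T : Fin 2 → Fin 2 → Fin 2 → ℝ) (w0 w1 w2 : ℝ) : ℝ :=
  (1 - w0) * ((1 - w1) * ((1 - w2) * T 0 0 0 + w2 * T 0 0 1) +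
      w1 * ((1 - w2) * T 0 1 0 + w2 * T 0 1 1)) +
    w0 * ((1 - w1) * ((1 - w2) * T 1 0 0 + w2 * T 1 0 1) +
      w1 * ((1 - w2) * T 1 1 0 + w2 * T 1 1 1))

/-- a function of three states supported on red triangles, given by a table of marks -/
def red3 (T : Fin 2 → Fin 2 → Fin 2 → ℝ) (A : Fin 3 → Fin 4) : ℝ :=
  (![![![T 0 0 0, T 0 0 1, 0, 0], ![T 0 1 0, T 0 1 1, 0, 0], 0, 0],
    ![![T 1 0 0, T 1 0 1, 0, 0], ![T 1 1 0, T 1 1 1, 0, 0], 0, 0], 0, 0] :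
      Fin 4 → Fin 4 → Fin 4 → ℝ) (A 0) (A 1) (A 2)

/-- a function of three states supported on blue triangles, given by a table of marks -/
def blue3 (T : Fin 2 → Fin 2 → Fin 2 → ℝ) (A : Fin 3 → Fin 4) : ℝ :=
  (![0, 0, ![0, 0, ![0, 0, T 0 0 0, T 0 0 1], ![0, 0, T 0 1 0, T 0 1 1]],
    ![0, 0, ![0, 0, T 1 0 0, T 1 0 1], ![0, 0, T 1 1 0, T 1 1 1]]] :
      Fin 4 → Fin 4 → Fin 4 → ℝ) (A 0) (A 1) (A 2)

theorem sum_red3 (T : Fin 2 → Fin 2 → Fin 2 → ℝ) (a : Fin 3 → Fin n) :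
    ∑ A, W3 x (P4 p wR wB) a A * red3 T A =
      (x (a 0) * x (a 1) * x (a 2) * (p (a 0) (a 1) * p (a 1) (a 2) * p (a 0) (a 2))) *
        ml T (wR (a 0) (a 1)) (wR (a 0) (a 2)) (wR (a 1) (a 2)) := by
  rw [← Equiv.sum_comp (eV3 (V := Fin 4)), Fintype.sum_prod_type, Fintype.sum_prod_type]
  simp only [Fin.sum_univ_four, W3, red3, P4, eV3, ml, Equiv.coe_fn_mk, Matrix.cons_val_zero,
    Matrix.cons_val_one, Matrix.cons_val, Pi.zero_apply]
  ring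

theorem sum_blue3 (T : Fin 2 → Fin 2 → Fin 2 → ℝ) (a : Fin 3 → Fin n) :
    ∑ A, W3 x (P4 p wR wB) a A * blue3 T A =
      (x (a 0) * x (a 1) * x (a 2) * ((1 - p (a 0) (a 1)) * (1 - p (a 1) (a 2)) *
        (1 - p (a 0) (a 2)))) *
        ml T (wB (a 0) (a 1)) (wB (a 0) (a 2)) (wB (a 1) (a 2)) := by
  rw [← Equiv.sum_comp (eV3 (V := Fin 4)), Fintype.sum_prod_type, Fintype.sum_prod_type]
  simp only [Fin.sum_univ_four, W3, blue3, P4, eV3, ml, Equiv.coe_fn_mk, Matrix.cons_val_zero,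
    Matrix.cons_val_one, Matrix.cons_val, Pi.zero_apply]
  ring

/-- A table is admissible with bound `κ` if its multilinear form is nonnegative whenever the three
weights have sum at least `κ`. -/
def Adm (κ : ℝ) (T : Fin 2 → Fin 2 → Fin 2 → ℝ) : Prop :=
  ∀ w0 w1 w2 : ℝ, 0 ≤ w0 → w0 ≤ 1 → 0 ≤ w1 → w1 ≤ 1 → 0 ≤ w2 → w2 ≤ 1 → κ ≤ w0 + w1 + w2 →
    0 ≤ ml T w0 w1 w2

theorem ht_red (h : Pre x p wR wB) (κ : ℝ)
    (hR : ∀ u v t, 0 < x u * x v * x t * (p u v * p v t * p u t) → κ ≤ wR u v + wR v t + wR u t)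
    (T : Fin 2 → Fin 2 → Fin 2 → ℝ) (hT : Adm κ T) (a : Fin 3 → Fin n) :
    0 ≤ ∑ A, W3 x (P4 p wR wB) a A * red3 T A := by
  rw [sum_red3]
  have h0 : 0 ≤ x (a 0) * x (a 1) * x (a 2) * (p (a 0) (a 1) * p (a 1) (a 2) * p (a 0) (a 2)) :=
    mul_nonneg (mul_nonneg (mul_nonneg (h.x0 _) (h.x0 _)) (h.x0 _))
      (mul_nonneg (mul_nonneg (h.p0 _ _) (h.p0 _ _)) (h.p0 _ _))
  rcases lt_or_eq_of_le h0 with h1 | h1
  · exact mul_nonneg h0 (hT _ _ _ (h.R0 _ _) (h.R1 _ _) (h.R0 _ _) (h.R1 _ _) (h.R0 _ _)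
      (h.R1 _ _) (by linarith [hR _ _ _ h1]))
  · rw [← h1, zero_mul]

theorem ht_blue (h : Pre x p wR wB) (κ : ℝ)
    (hB : ∀ u v t, κ ≤ wB u v + wB v t + wB u t)
    (T : Fin 2 → Fin 2 → Fin 2 → ℝ) (hT : Adm κ T) (a : Fin 3 → Fin n) :
    0 ≤ ∑ A, W3 x (P4 p wR wB) a A * blue3 T A := by
  rw [sum_blue3]
  have hp : ∀ u v, 0 ≤ 1 - p u v := fun u v => by linarith [h.p1 u v]
  exact mul_nonneg (mul_nonneg (mul_nonneg (mul_nonneg (h.x0 _) (h.x0 _)) (h.x0 _))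
      (mul_nonneg (mul_nonneg (hp _ _) (hp _ _)) (hp _ _)))
    (hT _ _ _ (h.B0 _ _) (h.B1 _ _) (h.B0 _ _) (h.B1 _ _) (h.B0 _ _)
      (h.B1 _ _) (by linarith [hB (a 0) (a 1) (a 2)]))

/-! ### Admissible tables -/

/-- number of marks minus `κ` -/
def Tcov (κ : ℝ) (i j k : Fin 2) : ℝ := (i : ℕ) + (j : ℕ) + (k : ℕ) - κ

theorem adm_cov (κ : ℝ) : Adm κ (Tcov κ) := by
  intro w0 w1 w2 h0 h0' h1 h1' h2 h2' hs
  have : ml (Tcov κ) w0 w1 w2 = w0 + w1 + w2 - κ := by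
    simp only [ml, Tcov, Fin.val_zero, Fin.val_one, Nat.cast_zero, Nat.cast_one]
    ring
  rw [this]
  linarith

/-- the inequality `(w0 + w1 + w2 - κ) (1 - w0) + (w0 - t) ^ 2 ≥ 0`, multilinear after
cancellation of `w0 ^ 2` -/
def TV1 (κ t : ℝ) (i j k : Fin 2) : ℝ :=
  ((j : ℕ) + (k : ℕ) - κ) * (1 - (i : ℕ)) + (1 - 2 * t) * (i : ℕ) + t ^ 2

theorem adm_V1 (κ t : ℝ) : Adm κ (TV1 κ t) := by
  intro w0 w1 w2 h0 h0' h1 h1' h2 h2' hs
  have : ml (TV1 κ t) w0 w1 w2 = (w0 + w1 + w2 - κ) * (1 - w0) + (w0 - t) ^ 2 := by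
    simp only [ml, TV1, Fin.val_zero, Fin.val_one, Nat.cast_zero, Nat.cast_one]
    ring
  rw [this]
  have := mul_nonneg (sub_nonneg.2 hs) (sub_nonneg.2 h0')
  nlinarith [sq_nonneg (w0 - t)]

/-- two edges: `(w0 + w1 + w2 - κ) (1 - w0) (1 - w1) + (w0 - t)^2 (1 - w1) + (w1 - u)^2 (1 - w0)` -/
def TV2 (κ t u : ℝ) (i j k : Fin 2) : ℝ :=
  ((k : ℕ) - κ) * ((1 - (i : ℕ)) * (1 - (j : ℕ))) +
    ((1 - 2 * t) * (i : ℕ) + t ^ 2) * (1 - (j : ℕ)) +
    ((1 - 2 * u) * (j : ℕ) + u ^ 2) * (1 - (i : ℕ))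

theorem adm_V2 (κ t u : ℝ) : Adm κ (TV2 κ t u) := by
  intro w0 w1 w2 h0 h0' h1 h1' h2 h2' hs
  have : ml (TV2 κ t u) w0 w1 w2 = (w0 + w1 + w2 - κ) * ((1 - w0) * (1 - w1)) +
      (w0 - t) ^ 2 * (1 - w1) + (w1 - u) ^ 2 * (1 - w0) := by
    simp only [ml, TV2, Fin.val_zero, Fin.val_one, Nat.cast_zero, Nat.cast_one]
    ring
  rw [this]
  have a0 : 0 ≤ 1 - w0 := by linarith
  have a1 : 0 ≤ 1 - w1 := by linarith
  have b1 := mul_nonneg (sub_nonneg.2 hs) (mul_nonneg a0 a1)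
  have b2 := mul_nonneg (sq_nonneg (w0 - t)) a1
  have b3 := mul_nonneg (sq_nonneg (w1 - u)) a0
  linarith

/-- three edges -/
def TV3 (κ t u v : ℝ) (i j k : Fin 2) : ℝ :=
  (-κ) * ((1 - (i : ℕ)) * (1 - (j : ℕ)) * (1 - (k : ℕ))) +
    ((1 - 2 * t) * (i : ℕ) + t ^ 2) * ((1 - (j : ℕ)) * (1 - (k : ℕ))) +
    ((1 - 2 * u) * (j : ℕ) + u ^ 2) * ((1 - (i : ℕ)) * (1 - (k : ℕ))) +
    ((1 - 2 * v) * (k : ℕ) + v ^ 2) * ((1 - (i : ℕ)) * (1 - (j : ℕ)))

theorem adm_V3 (κ t u v : ℝ) : Adm κ (TV3 κ t u v) := by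
  intro w0 w1 w2 h0 h0' h1 h1' h2 h2' hs
  have : ml (TV3 κ t u v) w0 w1 w2 = (w0 + w1 + w2 - κ) * ((1 - w0) * (1 - w1) * (1 - w2)) +
      (w0 - t) ^ 2 * ((1 - w1) * (1 - w2)) + (w1 - u) ^ 2 * ((1 - w0) * (1 - w2)) +
      (w2 - v) ^ 2 * ((1 - w0) * (1 - w1)) := by
    simp only [ml, TV3, Fin.val_zero, Fin.val_one, Nat.cast_zero, Nat.cast_one]
    ring
  rw [this]
  have a0 : 0 ≤ 1 - w0 := by linarith
  have a1 : 0 ≤ 1 - w1 := by linarith
  have a2 : 0 ≤ 1 - w2 := by linarith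
  have b1 := mul_nonneg (sub_nonneg.2 hs) (mul_nonneg (mul_nonneg a0 a1) a2)
  have b2 := mul_nonneg (sq_nonneg (w0 - t)) (mul_nonneg a1 a2)
  have b3 := mul_nonneg (sq_nonneg (w1 - u)) (mul_nonneg a0 a2)
  have b4 := mul_nonneg (sq_nonneg (w2 - v)) (mul_nonneg a0 a1)
  linarith

/-! ### Positivity of functions of three pairs and the final step -/

theorem sum_loop (h : Pre x p wR wB) (u : Fin n) (s : Fin 4) :
    P4 p wR wB u u s = if s = 1 then p u u else if s = 3 then 1 - p u u else 0 := by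
  fin_cases s <;> simp [P4, h.Rl u, h.Bl u]

/-- A nonnegative function of three pairs which is positive when all three are marked has positive
expected value. -/
theorem L3_pos (h : Pre x p wR wB) (H : (Fin 3 → Fin 4) → ℝ) (hH : ∀ A, 0 ≤ H A)
    (hpos : ∀ A : Fin 3 → Fin 4, (∀ i, A i = 1 ∨ A i = 3) → 0 < H A) :
    0 < L3 x (P4 p wR wB) H := by
  classical
  have hN := net4 h
  have h3 : ∃ u, 0 < x u := by
    by_contra hne
    push Not at hne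
    have : ∑ u, x u ≤ 0 := Finset.sum_nonpos fun u _ => hne u
    rw [h.x1] at this
    linarith
  obtain ⟨u, hu⟩ := h3
  -- one of the two loop states has positive probability
  have h4 : ∃ s : Fin 4, (s = 1 ∨ s = 3) ∧ 0 < P4 p wR wB u u s := by
    rcases lt_or_eq_of_le (h.p0 u u) with h5 | h5
    · exact ⟨1, Or.inl rfl, by rw [sum_loop h]; simpa using h5⟩
    · refine ⟨3, Or.inr rfl, ?_⟩
      rw [sum_loop h, ← h5, if_neg (by decide), if_pos rfl]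
      norm_num
  obtain ⟨s, hs, hps⟩ := h4
  have h6 : 0 < W3 x (P4 p wR wB) (fun _ => u) (fun _ => s) * H (fun _ => s) := by
    refine mul_pos ?_ (hpos _ fun _ => hs)
    unfold W3
    positivity
  have h7 : W3 x (P4 p wR wB) (fun _ => u) (fun _ => s) * H (fun _ => s) ≤
      ∑ A, W3 x (P4 p wR wB) (fun _ => u) A * H A :=
    Finset.single_le_sum (f := fun A => W3 x (P4 p wR wB) (fun _ => u) A * H A)
      (fun A _ => mul_nonneg (W3_nonneg hN _ A) (hH A)) (Finset.mem_univ _)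
  have h8 : ∑ A, W3 x (P4 p wR wB) (fun _ => u) A * H A ≤ L3 x (P4 p wR wB) H :=
    Finset.single_le_sum (f := fun a => ∑ A, W3 x (P4 p wR wB) a A * H A)
      (fun a _ => Finset.sum_nonneg fun A _ => mul_nonneg (W3_nonneg hN a A) (hH A))
      (Finset.mem_univ _)
  linarith

end

/-- **Final step of the multiplier free version**: nonnegative functions `H1, H2` of three pairs
such that `(r - 1/10) H1 + (b - 1/10) H2 ≥ 0` in every model. -/
theorem model_of_rows (H1 H2 : (Fin 3 → Fin 4) → ℝ) (h1 : ∀ A, 0 ≤ H1 A) (h2 : ∀ A, 0 ≤ H2 A)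
    (hpos : ∀ A : Fin 3 → Fin 4, (∀ i, A i = 1 ∨ A i = 3) → 0 < H1 A + H2 A)
    (hcert : ∀ (n : ℕ) (x : Fin n → ℝ) (p wR wB : Fin n → Fin n → ℝ), Model x p wR wB →
      0 ≤ L x (P4 p wR wB) (fun F => H1 ![F 0, F 1, F 2] * (ind 1 (F 9) - 1 / 10) +
        H2 ![F 0, F 1, F 2] * (ind 3 (F 9) - 1 / 10))) : S_Model := by
  intro n x p wR wB hM
  by_contra hlt
  rw [not_le, max_lt_iff] at hlt
  obtain ⟨hr, hb⟩ := hlt
  have hP := pre_of_model hM
  have hN := net4 hP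
  have h3 := hcert n x p wR wB hM
  rw [L_add, L_prod hN H1 (fun s => ind 1 s - 1 / 10), L_prod hN H2 (fun s => ind 3 s - 1 / 10),
    L2_const hN, L2_const hN, L2_ind1, L2_ind3] at h3
  have h4 := L3_pos hP (fun A => H1 A + H2 A) (fun A => add_nonneg (h1 A) (h2 A)) hpos
  rw [L3_add] at h4
  have h5 := L3_nonneg hN h1
  have h6 := L3_nonneg hN h2
  rcases lt_or_eq_of_le h5 with h7 | h7
  · have := mul_neg_of_pos_of_neg h7 (sub_neg.2 hr)
    have := mul_nonpos_of_nonneg_of_nonpos h6 (sub_nonpos.2 hb.le)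
    linarith
  · rw [← h7] at h3 h4
    have h8 : 0 < L3 x (P4 p wR wB) H2 := by linarith
    have := mul_neg_of_pos_of_neg h8 (sub_neg.2 hb)
    linarith

end Fl

end HR
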