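import Pool.Agent.Lib.MP_a1b8b7_co.B.Inst

/-!
# Two marks per pair

The six states of a pair: red with `0, 1, 2` marks, blue with `0, 1, 2` marks
(states `0, 1, 2, 3, 4, 5`).
-/

set_option autoImplicit false

open Finset

noncomputable section

namespace HR

namespace Fl

variable {n : ℕ}

/-- state probabilities with two marks per pair -/
def P6 (p wR wB : Fin n → Fin n → ℝ) (u v : Fin n) : Fin 6 → ℝ :=
  ![p u v * (1 - wR u v) ^ 2, p u v * (2 * wR u v * (1 - wR u v)), p u v * wR u v ^ 2,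
    (1 - p u v) * (1 - wB u v) ^ 2, (1 - p u v) * (2 * wB u v * (1 - wB u v)),
    (1 - p u v) * wB u v ^ 2]

section Main

variable {x : Fin n → ℝ} {p wR wB : Fin n → Fin n → ℝ}

theorem net6 (h : Pre x p wR wB) : Net x (P6 p wR wB) := by
  refine ⟨h.x0, h.x1, ?_, ?_, ?_⟩
  · intro u v s
    have a1 := h.p0 u v
    have a2 : 0 ≤ 1 - p u v := by linarith [h.p1 u v]
    have a3 := h.R0 u v
    have a4 : 0 ≤ 1 - wR u v := by linarith [h.R1 u v]
    have a5 := h.B0 u v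
    have a6 : 0 ≤ 1 - wB u v := by linarith [h.B1 u v]
    fin_cases s
    · exact mul_nonneg a1 (sq_nonneg _)
    · exact mul_nonneg a1 (mul_nonneg (mul_nonneg (by norm_num) a3) a4)
    · exact mul_nonneg a1 (sq_nonneg _)
    · exact mul_nonneg a2 (sq_nonneg _)
    · exact mul_nonneg a2 (mul_nonneg (mul_nonneg (by norm_num) a5) a6)
    · exact mul_nonneg a2 (sq_nonneg _)
  · intro u v
    simp only [P6, Fin.sum_univ_six, Matrix.cons_val_zero, Matrix.cons_val_one, Matrix.cons_val]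
    ring
  · intro u v s
    simp only [P6, h.ps u v, h.Rs u v, h.Bs u v]

/-- the red weight as a function of the state -/
def kR : Fin 6 → ℝ := ![0, 1 / 2, 1, 0, 0, 0]

/-- the blue weight as a function of the state -/
def kB : Fin 6 → ℝ := ![0, 0, 0, 0, 1 / 2, 1]

theorem sum_kR (u v : Fin n) : ∑ s, P6 p wR wB u v s * kR s = p u v * wR u v := by
  simp only [P6, kR, Fin.sum_univ_six, Matrix.cons_val_zero, Matrix.cons_val_one, Matrix.cons_val]
  ring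

theorem sum_kB (u v : Fin n) : ∑ s, P6 p wR wB u v s * kB s = (1 - p u v) * wB u v := by
  simp only [P6, kB, Fin.sum_univ_six, Matrix.cons_val_zero, Matrix.cons_val_one, Matrix.cons_val]
  ring

theorem L2_kR : L2 x (P6 p wR wB) kR = rr x p wR := by
  unfold L2 rr
  simp only [sum_kR]

theorem L2_kB : L2 x (P6 p wR wB) kB = bb x p wB := by
  unfold L2 bb
  simp only [sum_kB]

theorem deg_kR (u : Fin n) : deg x (P6 p wR wB) kR u = dR x p wR u := by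
  unfold deg dR
  simp only [sum_kR]

theorem deg_kB (u : Fin n) : deg x (P6 p wR wB) kB u = dB x p wB u := by
  unfold deg dB
  simp only [sum_kB]

/-- Bernstein form of degree `(2, 2, 2)` of a table with 27 entries -/
def b3 (w : ℝ) (f : Fin 3 → ℝ) : ℝ := (1 - w) ^ 2 * f 0 + 2 * w * (1 - w) * f 1 + w ^ 2 * f 2

/-- Bernstein form of a table of numbers of marks -/
def ml6 (T : Fin 3 → Fin 3 → Fin 3 → ℝ) (w0 w1 w2 : ℝ) : ℝ :=
  b3 w0 fun i => b3 w1 fun j => b3 w2 fun k => T i j k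

/-- state with colour offset -/
def fl : Fin 6 → Fin 3 := ![0, 1, 2, 0, 1, 2]

/-- a function of three states supported on red triangles -/
def red6 (T : Fin 3 → Fin 3 → Fin 3 → ℝ) (A : Fin 3 → Fin 6) : ℝ :=
  (![1, 1, 1, 0, 0, 0] : Fin 6 → ℝ) (A 0) * (![1, 1, 1, 0, 0, 0] : Fin 6 → ℝ) (A 1) *
    (![1, 1, 1, 0, 0, 0] : Fin 6 → ℝ) (A 2) * T (fl (A 0)) (fl (A 1)) (fl (A 2))

/-- a function of three states supported on blue triangles -/
def blue6 (T : Fin 3 → Fin 3 → Fin 3 → ℝ) (A : Fin 3 → Fin 6) : ℝ :=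
  (![0, 0, 0, 1, 1, 1] : Fin 6 → ℝ) (A 0) * (![0, 0, 0, 1, 1, 1] : Fin 6 → ℝ) (A 1) *
    (![0, 0, 0, 1, 1, 1] : Fin 6 → ℝ) (A 2) * T (fl (A 0)) (fl (A 1)) (fl (A 2))

theorem sum_P6_red (u v : Fin n) (f : Fin 3 → ℝ) :
    ∑ s, P6 p wR wB u v s * ((![1, 1, 1, 0, 0, 0] : Fin 6 → ℝ) s * f (fl s)) =
      p u v * b3 (wR u v) f := by
  simp only [P6, fl, b3, Fin.sum_univ_six, Matrix.cons_val_zero, Matrix.cons_val_one,
    Matrix.cons_val]
  ring

theorem sum_P6_blue (u v : Fin n) (f : Fin 3 → ℝ) :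
    ∑ s, P6 p wR wB u v s * ((![0, 0, 0, 1, 1, 1] : Fin 6 → ℝ) s * f (fl s)) =
      (1 - p u v) * b3 (wB u v) f := by
  simp only [P6, fl, b3, Fin.sum_univ_six, Matrix.cons_val_zero, Matrix.cons_val_one,
    Matrix.cons_val]
  ring

theorem b3_mul (w c : ℝ) (f : Fin 3 → ℝ) : b3 w (fun i => c * f i) = c * b3 w f := by
  unfold b3; ring

theorem sum_red6 (T : Fin 3 → Fin 3 → Fin 3 → ℝ) (a : Fin 3 → Fin n) :
    ∑ A, W3 x (P6 p wR wB) a A * red6 T A =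
      (x (a 0) * x (a 1) * x (a 2) * (p (a 0) (a 1) * p (a 1) (a 2) * p (a 0) (a 2))) *
        ml6 T (wR (a 0) (a 1)) (wR (a 0) (a 2)) (wR (a 1) (a 2)) := by
  rw [← Equiv.sum_comp (eV3 (V := Fin 6)), Fintype.sum_prod_type, Fintype.sum_prod_type]
  set e : Fin 6 → ℝ := ![1, 1, 1, 0, 0, 0] with he
  have h1 : ∀ s t r : Fin 6, W3 x (P6 p wR wB) a (eV3 ((s, t), r)) *
      red6 T (eV3 ((s, t), r)) = (x (a 0) * x (a 1) * x (a 2)) *
        (P6 p wR wB (a 0) (a 1) s * (e s * (P6 p wR wB (a 0) (a 2) t * (e t *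
          (P6 p wR wB (a 1) (a 2) r * (e r * T (fl s) (fl t) (fl r))))))) := by
    intro s t r
    change (x (a 0) * x (a 1) * x (a 2)) * (P6 p wR wB (a 0) (a 1) s * P6 p wR wB (a 0) (a 2) t *
      P6 p wR wB (a 1) (a 2) r) * (e s * e t * e r * T (fl s) (fl t) (fl r)) = _
    ring
  simp only [h1, ← Finset.mul_sum]
  have h2 : ∀ s t, ∑ r, P6 p wR wB (a 1) (a 2) r * (e r * T (fl s) (fl t) (fl r)) =
      p (a 1) (a 2) * b3 (wR (a 1) (a 2)) (fun k => T (fl s) (fl t) k) := fun s t =>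
    sum_P6_red _ _ (fun k => T (fl s) (fl t) k)
  simp only [h2]
  have h3 : ∀ s, ∑ t, P6 p wR wB (a 0) (a 2) t * (e t *
      (p (a 1) (a 2) * b3 (wR (a 1) (a 2)) (fun k => T (fl s) (fl t) k))) =
      p (a 0) (a 2) * b3 (wR (a 0) (a 2)) (fun j => p (a 1) (a 2) *
        b3 (wR (a 1) (a 2)) (fun k => T (fl s) j k)) := fun s =>
    sum_P6_red _ _ (fun j => p (a 1) (a 2) * b3 (wR (a 1) (a 2)) (fun k => T (fl s) j k))
  simp only [h3]
  have h4 := sum_P6_red (p := p) (wR := wR) (wB := wB) (a 0) (a 1) (fun i => p (a 0) (a 2) *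
    b3 (wR (a 0) (a 2)) (fun j => p (a 1) (a 2) * b3 (wR (a 1) (a 2)) (fun k => T i j k)))
  rw [← he] at h4
  rw [h4]
  simp only [ml6, b3_mul]
  ring

theorem sum_blue6 (T : Fin 3 → Fin 3 → Fin 3 → ℝ) (a : Fin 3 → Fin n) :
    ∑ A, W3 x (P6 p wR wB) a A * blue6 T A =
      (x (a 0) * x (a 1) * x (a 2) * ((1 - p (a 0) (a 1)) * (1 - p (a 1) (a 2)) *
        (1 - p (a 0) (a 2)))) *
        ml6 T (wB (a 0) (a 1)) (wB (a 0) (a 2)) (wB (a 1) (a 2)) := by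
  rw [← Equiv.sum_comp (eV3 (V := Fin 6)), Fintype.sum_prod_type, Fintype.sum_prod_type]
  set e : Fin 6 → ℝ := ![0, 0, 0, 1, 1, 1] with he
  have h1 : ∀ s t r : Fin 6, W3 x (P6 p wR wB) a (eV3 ((s, t), r)) *
      blue6 T (eV3 ((s, t), r)) = (x (a 0) * x (a 1) * x (a 2)) *
        (P6 p wR wB (a 0) (a 1) s * (e s * (P6 p wR wB (a 0) (a 2) t * (e t *
          (P6 p wR wB (a 1) (a 2) r * (e r * T (fl s) (fl t) (fl r))))))) := by
    intro s t r
    change (x (a 0) * x (a 1) * x (a 2)) * (P6 p wR wB (a 0) (a 1) s * P6 p wR wB (a 0) (a 2) t *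
      P6 p wR wB (a 1) (a 2) r) * (e s * e t * e r * T (fl s) (fl t) (fl r)) = _
    ring
  simp only [h1, ← Finset.mul_sum]
  have h2 : ∀ s t, ∑ r, P6 p wR wB (a 1) (a 2) r * (e r * T (fl s) (fl t) (fl r)) =
      (1 - p (a 1) (a 2)) * b3 (wB (a 1) (a 2)) (fun k => T (fl s) (fl t) k) := fun s t =>
    sum_P6_blue _ _ (fun k => T (fl s) (fl t) k)
  simp only [h2]
  have h3 : ∀ s, ∑ t, P6 p wR wB (a 0) (a 2) t * (e t *
      ((1 - p (a 1) (a 2)) * b3 (wB (a 1) (a 2)) (fun k => T (fl s) (fl t) k))) =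
      (1 - p (a 0) (a 2)) * b3 (wB (a 0) (a 2)) (fun j => (1 - p (a 1) (a 2)) *
        b3 (wB (a 1) (a 2)) (fun k => T (fl s) j k)) := fun s =>
    sum_P6_blue _ _ (fun j => (1 - p (a 1) (a 2)) * b3 (wB (a 1) (a 2)) (fun k => T (fl s) j k))
  simp only [h3]
  have h4 := sum_P6_blue (p := p) (wR := wR) (wB := wB) (a 0) (a 1) (fun i => (1 - p (a 0) (a 2)) *
    b3 (wB (a 0) (a 2)) (fun j => (1 - p (a 1) (a 2)) * b3 (wB (a 1) (a 2)) (fun k => T i j k)))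
  rw [← he] at h4
  rw [h4]
  simp only [ml6, b3_mul]
  ring

/-- Admissible tables with 27 entries. -/
def Adm6 (κ : ℝ) (T : Fin 3 → Fin 3 → Fin 3 → ℝ) : Prop :=
  ∀ w0 w1 w2 : ℝ, 0 ≤ w0 → w0 ≤ 1 → 0 ≤ w1 → w1 ≤ 1 → 0 ≤ w2 → w2 ≤ 1 → κ ≤ w0 + w1 + w2 →
    0 ≤ ml6 T w0 w1 w2

theorem ht_red6 (h : Pre x p wR wB) (κ : ℝ)
    (hR : ∀ u v t, 0 < x u * x v * x t * (p u v * p v t * p u t) → κ ≤ wR u v + wR v t + wR u t)
    (T : Fin 3 → Fin 3 → Fin 3 → ℝ) (hT : Adm6 κ T) (a : Fin 3 → Fin n) :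
    0 ≤ ∑ A, W3 x (P6 p wR wB) a A * red6 T A := by
  rw [sum_red6]
  have h0 : 0 ≤ x (a 0) * x (a 1) * x (a 2) * (p (a 0) (a 1) * p (a 1) (a 2) * p (a 0) (a 2)) :=
    mul_nonneg (mul_nonneg (mul_nonneg (h.x0 _) (h.x0 _)) (h.x0 _))
      (mul_nonneg (mul_nonneg (h.p0 _ _) (h.p0 _ _)) (h.p0 _ _))
  rcases lt_or_eq_of_le h0 with h1 | h1
  · exact mul_nonneg h0 (hT _ _ _ (h.R0 _ _) (h.R1 _ _) (h.R0 _ _) (h.R1 _ _) (h.R0 _ _)
      (h.R1 _ _) (by linarith [hR _ _ _ h1]))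
  · rw [← h1, zero_mul]

theorem ht_blue6 (h : Pre x p wR wB) (κ : ℝ)
    (hB : ∀ u v t, κ ≤ wB u v + wB v t + wB u t)
    (T : Fin 3 → Fin 3 → Fin 3 → ℝ) (hT : Adm6 κ T) (a : Fin 3 → Fin n) :
    0 ≤ ∑ A, W3 x (P6 p wR wB) a A * blue6 T A := by
  rw [sum_blue6]
  have hp : ∀ u v, 0 ≤ 1 - p u v := fun u v => by linarith [h.p1 u v]
  exact mul_nonneg (mul_nonneg (mul_nonneg (mul_nonneg (h.x0 _) (h.x0 _)) (h.x0 _))
      (mul_nonneg (mul_nonneg (hp _ _) (hp _ _)) (hp _ _)))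
    (hT _ _ _ (h.B0 _ _) (h.B1 _ _) (h.B0 _ _) (h.B1 _ _) (h.B0 _ _)
      (h.B1 _ _) (by linarith [hB (a 0) (a 1) (a 2)]))

/-- degree one Bernstein functions in degree two form -/
def e1 (i : Fin 2) (a : Fin 3) : ℝ := (![![1, 1 / 2, 0], ![0, 1 / 2, 1]] : Fin 2 → Fin 3 → ℝ) i a

/-- the weight times a degree one Bernstein function in degree two form -/
def f1 (i : Fin 2) (a : Fin 3) : ℝ := (![![0, 1 / 2, 0], ![0, 0, 1]] : Fin 2 → Fin 3 → ℝ) i a

/-- `(w0 + w1 + w2 - κ)` times degree one Bernstein functions of the three weights -/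
def Tcov6 (κ : ℝ) (i j k : Fin 2) (a b c : Fin 3) : ℝ :=
  f1 i a * e1 j b * e1 k c + e1 i a * f1 j b * e1 k c + e1 i a * e1 j b * f1 k c -
    κ * (e1 i a * e1 j b * e1 k c)

/-- degree one Bernstein functions -/
def be (i : Fin 2) (w : ℝ) : ℝ := (![1 - w, w] : Fin 2 → ℝ) i

theorem b3_e1 (i : Fin 2) (w : ℝ) : b3 w (e1 i) = be i w := by
  fin_cases i <;> simp [b3, e1, be] <;> ring

theorem b3_f1 (i : Fin 2) (w : ℝ) : b3 w (f1 i) = w * be i w := by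
  fin_cases i <;> simp [b3, f1, be] <;> ring

theorem be_nonneg (i : Fin 2) {w : ℝ} (h0 : 0 ≤ w) (h1 : w ≤ 1) : 0 ≤ be i w := by
  fin_cases i <;> simp [be] <;> linarith

theorem ml6_prod (f g h : Fin 3 → ℝ) (w0 w1 w2 : ℝ) :
    ml6 (fun a b c => f a * g b * h c) w0 w1 w2 = b3 w0 f * b3 w1 g * b3 w2 h := by
  unfold ml6 b3; ring

theorem ml6_Tcov6 (κ : ℝ) (i j k : Fin 2) (w0 w1 w2 : ℝ) :
    ml6 (Tcov6 κ i j k) w0 w1 w2 = (w0 + w1 + w2 - κ) * (be i w0 * be j w1 * be k w2) := by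
  have h1 : ml6 (Tcov6 κ i j k) w0 w1 w2 =
      ml6 (fun a b c => f1 i a * e1 j b * e1 k c) w0 w1 w2 +
      ml6 (fun a b c => e1 i a * f1 j b * e1 k c) w0 w1 w2 +
      ml6 (fun a b c => e1 i a * e1 j b * f1 k c) w0 w1 w2 -
      κ * ml6 (fun a b c => e1 i a * e1 j b * e1 k c) w0 w1 w2 := by
    unfold ml6 b3 Tcov6; ring
  rw [h1]
  simp only [ml6_prod, b3_e1, b3_f1]
  ring

theorem adm6_cov (κ : ℝ) (i j k : Fin 2) : Adm6 κ (Tcov6 κ i j k) := by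
  intro w0 w1 w2 h0 h0' h1 h1' h2 h2' hs
  rw [ml6_Tcov6]
  exact mul_nonneg (sub_nonneg.2 hs) (mul_nonneg (mul_nonneg (be_nonneg i h0 h0')
    (be_nonneg j h1 h1')) (be_nonneg k h2 h2'))

theorem sum_loop6 (h : Pre x p wR wB) (u : Fin n) (s : Fin 6) :
    P6 p wR wB u u s = if s = 2 then p u u else if s = 5 then 1 - p u u else 0 := by
  fin_cases s <;> simp [P6, h.Rl u, h.Bl u]

/-- A nonnegative function of three pairs which is positive when all three are fully marked has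
positive expected value. -/
theorem L3_pos6 (h : Pre x p wR wB) (H : (Fin 3 → Fin 6) → ℝ) (hH : ∀ A, 0 ≤ H A)
    (hpos : ∀ A : Fin 3 → Fin 6, (∀ i, A i = 2 ∨ A i = 5) → 0 < H A) :
    0 < L3 x (P6 p wR wB) H := by
  classical
  have hN := net6 h
  have h3 : ∃ u, 0 < x u := by
    by_contra hne
    push Not at hne
    have : ∑ u, x u ≤ 0 := Finset.sum_nonpos fun u _ => hne u
    rw [h.x1] at this
    linarith
  obtain ⟨u, hu⟩ := h3
  have h4 : ∃ s : Fin 6, (s = 2 ∨ s = 5) ∧ 0 < P6 p wR wB u u s := by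
    rcases lt_or_eq_of_le (h.p0 u u) with h5 | h5
    · exact ⟨2, Or.inl rfl, by rw [sum_loop6 h]; simpa using h5⟩
    · refine ⟨5, Or.inr rfl, ?_⟩
      rw [sum_loop6 h, ← h5, if_neg (by decide), if_pos rfl]
      norm_num
  obtain ⟨s, hs, hps⟩ := h4
  have h6 : 0 < W3 x (P6 p wR wB) (fun _ => u) (fun _ => s) * H (fun _ => s) := by
    refine mul_pos ?_ (hpos _ fun _ => hs)
    unfold W3
    positivity
  have h7 : W3 x (P6 p wR wB) (fun _ => u) (fun _ => s) * H (fun _ => s) ≤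
      ∑ A, W3 x (P6 p wR wB) (fun _ => u) A * H A :=
    Finset.single_le_sum (f := fun A => W3 x (P6 p wR wB) (fun _ => u) A * H A)
      (fun A _ => mul_nonneg (W3_nonneg hN _ A) (hH A)) (Finset.mem_univ _)
  have h8 : ∑ A, W3 x (P6 p wR wB) (fun _ => u) A * H A ≤ L3 x (P6 p wR wB) H :=
    Finset.single_le_sum (f := fun a => ∑ A, W3 x (P6 p wR wB) a A * H A)
      (fun a _ => Finset.sum_nonneg fun A _ => mul_nonneg (W3_nonneg hN a A) (hH A))
      (Finset.mem_univ _)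
  linarith

end Main

/-- **Final step of the multiplier free version, two marks.** -/
theorem model_of_rows6 (H1 H2 : (Fin 3 → Fin 6) → ℝ) (h1 : ∀ A, 0 ≤ H1 A) (h2 : ∀ A, 0 ≤ H2 A)
    (hpos : ∀ A : Fin 3 → Fin 6, (∀ i, A i = 2 ∨ A i = 5) → 0 < H1 A + H2 A)
    (hcert : ∀ (n : ℕ) (x : Fin n → ℝ) (p wR wB : Fin n → Fin n → ℝ), Model x p wR wB →
      0 ≤ L x (P6 p wR wB) (fun F => H1 ![F 0, F 1, F 2] * (kR (F 9) - 1 / 10) +
        H2 ![F 0, F 1, F 2] * (kB (F 9) - 1 / 10))) : S_Model := by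
  intro n x p wR wB hM
  by_contra hlt
  rw [not_le, max_lt_iff] at hlt
  obtain ⟨hr, hb⟩ := hlt
  have hP := pre_of_model hM
  have hN := net6 hP
  have h3 := hcert n x p wR wB hM
  rw [L_add, L_prod hN H1 (fun s => kR s - 1 / 10), L_prod hN H2 (fun s => kB s - 1 / 10),
    L2_const hN, L2_const hN, L2_kR, L2_kB] at h3
  have h4 := L3_pos6 hP (fun A => H1 A + H2 A) (fun A => add_nonneg (h1 A) (h2 A)) hpos
  rw [L3_add] at h4
  have h5 := L3_nonneg hN h1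
  have h6 := L3_nonneg hN h2
  rcases lt_or_eq_of_le h5 with h7 | h7
  · have := mul_neg_of_pos_of_neg h7 (sub_neg.2 hr)
    have := mul_nonpos_of_nonneg_of_nonpos h6 (sub_nonpos.2 hb.le)
    linarith
  · rw [← h7] at h3 h4
    have h8 : 0 < L3 x (P6 p wR wB) H2 := by linarith
    have := mul_neg_of_pos_of_neg h8 (sub_neg.2 hb)
    linarith

end Fl

end HR
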