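import Pool.Agent.Lib.MP_a1b8b7_co.B.Bridge

/-!
# First order conditions for models

For fixed weights `wR`, `wB` on `Fin n` the pairs `(x, p)` with `Model x p wR wB` form a compact set
on which `rr` and `bb` are continuous.  We compute the directional derivatives and deduce the
multiplier conditions `KKT` at

* a minimiser of `max (rr, bb)`            (`kkt_max`),
* a minimiser of `rr + bb` subject to `rr, bb ≤ 1/10` (`kkt_sum`).
-/

set_option autoImplicit false

open Finset

namespace HR

variable {n : ℕ}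

/-- red degree of a vertex -/
def dR (x : Fin n → ℝ) (p wR : Fin n → Fin n → ℝ) (u : Fin n) : ℝ :=
  ∑ v, x v * (p u v * wR u v)

/-- blue degree of a vertex -/
def dB (x : Fin n → ℝ) (p wB : Fin n → Fin n → ℝ) (u : Fin n) : ℝ :=
  ∑ v, x v * ((1 - p u v) * wB u v)

/-- The multiplier conditions with multiplier `l` of red and `1 - l` of blue; `c` is the value
`l * rr + (1 - l) * bb` (see `KKT.val`). -/
structure KKT (x : Fin n → ℝ) (p wR wB : Fin n → Fin n → ℝ) (l c : ℝ) : Prop where
  l0 : 0 ≤ l
  l1 : l ≤ 1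
  k1 : ∀ u, c ≤ l * dR x p wR u + (1 - l) * dB x p wB u
  k1' : ∀ u, x u * (l * dR x p wR u + (1 - l) * dB x p wB u - c) = 0
  k3a : ∀ u v, 0 ≤ x u * x v * (p u v * ((1 - l) * wB u v - l * wR u v))
  k3b : ∀ u v, 0 ≤ x u * x v * ((1 - p u v) * (l * wR u v - (1 - l) * wB u v))
  val : l * rr x p wR + (1 - l) * bb x p wB = c

theorem bb_eq (x : Fin n → ℝ) (p wB : Fin n → Fin n → ℝ) :
    bb x p wB = rr x (fun u v => 1 - p u v) wB := rfl

theorem dB_eq (x : Fin n → ℝ) (p wB : Fin n → Fin n → ℝ) (u : Fin n) :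
    dB x p wB u = dR x (fun u v => 1 - p u v) wB u := rfl

theorem sum_dR (x : Fin n → ℝ) (p w : Fin n → Fin n → ℝ) :
    ∑ u, x u * dR x p w u = rr x p w := by
  unfold dR rr
  refine Finset.sum_congr rfl fun u _ => ?_
  rw [Finset.mul_sum]
  exact Finset.sum_congr rfl fun v _ => by ring

theorem sum_dB (x : Fin n → ℝ) (p w : Fin n → Fin n → ℝ) :
    ∑ u, x u * dB x p w u = bb x p w := sum_dR x (fun u v => 1 - p u v) w

theorem rr_nonneg {x : Fin n → ℝ} {p w : Fin n → Fin n → ℝ} (hx : ∀ u, 0 ≤ x u)
    (hp : ∀ u v, 0 ≤ p u v) (hw : ∀ u v, 0 ≤ w u v) : 0 ≤ rr x p w :=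
  Finset.sum_nonneg fun u _ => Finset.sum_nonneg fun v _ =>
    mul_nonneg (mul_nonneg (hx u) (hx v)) (mul_nonneg (hp u v) (hw u v))

/-- upper Taylor estimate along a segment -/
theorem rr_taylor (x y : Fin n → ℝ) (p s w : Fin n → Fin n → ℝ) (hs : ∀ u v, p u v * w u v =
    p v u * w v u) :
    ∃ C : ℝ, 0 ≤ C ∧ ∀ t : ℝ, 0 ≤ t → t ≤ 1 →
      rr (fun u => x u + t * y u) (fun u v => p u v + t * s u v) w ≤
        rr x p w + t * (2 * ∑ u, y u * dR x p w u + ∑ u, ∑ v, x u * x v * (s u v * w u v)) +
          C * t ^ 2 := by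
  set g2 : ℝ := ∑ u, ∑ v, (y u * y v * (p u v * w u v) +
    (y u * x v + x u * y v) * (s u v * w u v)) with hg2
  set g3 : ℝ := ∑ u, ∑ v, y u * y v * (s u v * w u v) with hg3
  refine ⟨|g2| + |g3|, by positivity, fun t ht0 ht1 => ?_⟩
  have e1 : ∑ u, ∑ v, (y u * x v + x u * y v) * (p u v * w u v) = 2 * ∑ u, y u * dR x p w u := by
    have a1 : ∑ u, ∑ v, y u * x v * (p u v * w u v) = ∑ u, y u * dR x p w u := by
      refine Finset.sum_congr rfl fun u _ => ?_
      unfold dR
      rw [Finset.mul_sum]
      exact Finset.sum_congr rfl fun v _ => by ring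
    have a2 : ∑ u, ∑ v, x u * y v * (p u v * w u v) = ∑ u, y u * dR x p w u := by
      rw [Finset.sum_comm, ← a1]
      refine Finset.sum_congr rfl fun u _ => Finset.sum_congr rfl fun v _ => ?_
      rw [hs v u]
      ring
    simp only [add_mul, Finset.sum_add_distrib, a1, a2]
    ring
  have e0 : rr (fun u => x u + t * y u) (fun u v => p u v + t * s u v) w =
      rr x p w + t * (2 * ∑ u, y u * dR x p w u + ∑ u, ∑ v, x u * x v * (s u v * w u v)) +
        t ^ 2 * g2 + t ^ 3 * g3 := by
    rw [← e1, hg2, hg3]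
    unfold rr
    simp only [← Finset.sum_add_distrib, Finset.mul_sum]
    exact Finset.sum_congr rfl fun u _ => Finset.sum_congr rfl fun v _ => by ring
  rw [e0]
  have h2 : t ^ 2 * g2 ≤ t ^ 2 * |g2| := mul_le_mul_of_nonneg_left (le_abs_self _) (by positivity)
  have h3 : t ^ 3 * g3 ≤ t ^ 2 * |g3| := by
    have : t ^ 3 * g3 ≤ t ^ 3 * |g3| := mul_le_mul_of_nonneg_left (le_abs_self _) (by positivity)
    have h4 : t ^ 3 ≤ t ^ 2 := pow_le_pow_of_le_one ht0 ht1 (by norm_num)
    exact this.trans (mul_le_mul_of_nonneg_right h4 (abs_nonneg _))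
  nlinarith [h2, h3]

/-- The set of directions: towards a vertex, towards blue, towards red. -/
abbrev Dir (n : ℕ) : Type := Fin n ⊕ ((Fin n × Fin n) ⊕ (Fin n × Fin n))

/-- half the derivative of the red weight in a direction -/
def derR (x : Fin n → ℝ) (p w : Fin n → Fin n → ℝ) : Dir n → ℝ
  | Sum.inl u => dR x p w u - rr x p w
  | Sum.inr (Sum.inl q) => -(x q.1 * x q.2 * (p q.1 q.2 * w q.1 q.2))
  | Sum.inr (Sum.inr q) => x q.1 * x q.2 * ((1 - p q.1 q.2) * w q.1 q.2)

/-- half the derivative of the blue weight in a direction -/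
def derB (x : Fin n → ℝ) (p w : Fin n → Fin n → ℝ) : Dir n → ℝ
  | Sum.inl u => dB x p w u - bb x p w
  | Sum.inr (Sum.inl q) => x q.1 * x q.2 * (p q.1 q.2 * w q.1 q.2)
  | Sum.inr (Sum.inr q) => -(x q.1 * x q.2 * ((1 - p q.1 q.2) * w q.1 q.2))

theorem sum_dir (f : Dir n → ℝ) : ∑ d, f d = ∑ u, f (Sum.inl u) +
    (∑ u, ∑ v, f (Sum.inr (Sum.inl (u, v))) + ∑ u, ∑ v, f (Sum.inr (Sum.inr (u, v)))) := by
  rw [Fintype.sum_sum_type, Fintype.sum_sum_type, Fintype.sum_prod_type, Fintype.sum_prod_type]

/-- A mixture of directions can be followed for a short time. -/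
theorem exists_path {x : Fin n → ℝ} {p wR wB : Fin n → Fin n → ℝ} (hM : Model x p wR wB)
    (q : Dir n → ℝ) (hq0 : ∀ d, 0 ≤ q d) (hq1 : ∑ d, q d = 1) :
    ∃ C : ℝ, 0 ≤ C ∧ ∀ t : ℝ, 0 ≤ t → t ≤ 1 / 2 → ∃ (x' : Fin n → ℝ) (p' : Fin n → Fin n → ℝ),
      Model x' p' wR wB ∧
      rr x' p' wR ≤ rr x p wR + t * (2 * ∑ d, q d * derR x p wR d) + C * t ^ 2 ∧
      bb x' p' wB ≤ bb x p wB + t * (2 * ∑ d, q d * derB x p wB d) + C * t ^ 2 := by
  classical
  set a : Fin n → ℝ := fun u => q (Sum.inl u) with ha
  set β : Fin n → Fin n → ℝ := fun u v => q (Sum.inr (Sum.inl (u, v))) with hβ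
  set γ : Fin n → Fin n → ℝ := fun u v => q (Sum.inr (Sum.inr (u, v))) with hγ
  have ha0 : ∀ u, 0 ≤ a u := fun u => hq0 _
  have hβ0 : ∀ u v, 0 ≤ β u v := fun u v => hq0 _
  have hγ0 : ∀ u v, 0 ≤ γ u v := fun u v => hq0 _
  have hsum : ∑ u, a u + (∑ u, ∑ v, β u v + ∑ u, ∑ v, γ u v) = 1 := by
    rw [← hq1, sum_dir]
  have hA0 : 0 ≤ ∑ u, a u := Finset.sum_nonneg fun u _ => ha0 u
  have hBs0 : 0 ≤ ∑ u, ∑ v, β u v := Finset.sum_nonneg fun u _ => Finset.sum_nonneg fun v _ =>
    hβ0 u v
  have hGs0 : 0 ≤ ∑ u, ∑ v, γ u v := Finset.sum_nonneg fun u _ => Finset.sum_nonneg fun v _ =>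
    hγ0 u v
  have hA1 : ∑ u, a u ≤ 1 := by linarith
  have hβ1 : ∀ u v, β u v ≤ 1 := by
    intro u v
    have h1 : β u v ≤ ∑ v, β u v :=
      Finset.single_le_sum (f := fun v => β u v) (fun v _ => hβ0 u v) (Finset.mem_univ v)
    have h2 : ∑ v, β u v ≤ ∑ u, ∑ v, β u v :=
      Finset.single_le_sum (f := fun u => ∑ v, β u v)
        (fun u _ => Finset.sum_nonneg fun v _ => hβ0 u v) (Finset.mem_univ u)
    linarith
  have hγ1 : ∀ u v, γ u v ≤ 1 := by
    intro u v
    have h1 : γ u v ≤ ∑ v, γ u v :=
      Finset.single_le_sum (f := fun v => γ u v) (fun v _ => hγ0 u v) (Finset.mem_univ v)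
    have h2 : ∑ v, γ u v ≤ ∑ u, ∑ v, γ u v :=
      Finset.single_le_sum (f := fun u => ∑ v, γ u v)
        (fun u _ => Finset.sum_nonneg fun v _ => hγ0 u v) (Finset.mem_univ u)
    linarith
  set y : Fin n → ℝ := fun u => a u - (∑ u, a u) * x u with hy
  set s : Fin n → Fin n → ℝ := fun u v =>
    (γ u v + γ v u) * (1 - p u v) - (β u v + β v u) * p u v with hs
  have hsymR : ∀ u v, p u v * wR u v = p v u * wR v u := fun u v => by rw [hM.ps u v, hM.Rs u v]
  have hsymB : ∀ u v, (1 - p u v) * wB u v = (1 - p v u) * wB v u := fun u v => by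
    rw [hM.ps u v, hM.Bs u v]
  obtain ⟨C1, hC1, h1⟩ := rr_taylor x y p s wR hsymR
  obtain ⟨C2, hC2, h2⟩ := rr_taylor x y (fun u v => 1 - p u v) (fun u v => - s u v) wB hsymB
  -- the derivatives
  have gsym : ∀ (g w : Fin n → Fin n → ℝ), (∀ u v, w u v = w v u) →
      ∑ u, ∑ v, x u * x v * ((g u v + g v u) * w u v) =
        2 * ∑ u, ∑ v, g u v * (x u * x v * w u v) := by
    intro g w hw
    have b1 : ∑ u, ∑ v, x u * x v * (g v u * w u v) = ∑ u, ∑ v, g u v * (x u * x v * w u v) := by
      rw [Finset.sum_comm]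
      refine Finset.sum_congr rfl fun u _ => Finset.sum_congr rfl fun v _ => ?_
      rw [hw v u]
      ring
    have b2 : ∑ u, ∑ v, x u * x v * (g u v * w u v) = ∑ u, ∑ v, g u v * (x u * x v * w u v) :=
      Finset.sum_congr rfl fun u _ => Finset.sum_congr rfl fun v _ => by ring
    simp only [add_mul, mul_add, Finset.sum_add_distrib, b1, b2]
    ring
  have gen : ∀ (P w : Fin n → Fin n → ℝ), ∑ u, y u * dR x P w u =
      ∑ u, a u * (dR x P w u - rr x P w) := by
    intro P w
    have c1 : ∑ u, y u * dR x P w u = ∑ u, a u * dR x P w u - (∑ u, a u) * rr x P w := by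
      rw [← sum_dR x P w, Finset.mul_sum, ← Finset.sum_sub_distrib]
      refine Finset.sum_congr rfl fun u _ => ?_
      simp only [hy]
      ring
    rw [c1, Finset.sum_mul, ← Finset.sum_sub_distrib]
    exact Finset.sum_congr rfl fun u _ => by ring
  have dR1 : 2 * ∑ u, y u * dR x p wR u + ∑ u, ∑ v, x u * x v * (s u v * wR u v) =
      2 * ∑ d, q d * derR x p wR d := by
    rw [gen p wR, sum_dir]
    have e1 : ∑ u, ∑ v, x u * x v * (s u v * wR u v) =
        ∑ u, ∑ v, x u * x v * ((γ u v + γ v u) * ((1 - p u v) * wR u v)) -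
        ∑ u, ∑ v, x u * x v * ((β u v + β v u) * (p u v * wR u v)) := by
      rw [← Finset.sum_sub_distrib]
      refine Finset.sum_congr rfl fun u _ => ?_
      rw [← Finset.sum_sub_distrib]
      refine Finset.sum_congr rfl fun v _ => ?_
      simp only [hs]
      ring
    rw [e1, gsym γ (fun u v => (1 - p u v) * wR u v) (fun u v => by rw [hM.ps u v, hM.Rs u v]),
      gsym β (fun u v => p u v * wR u v) hsymR]
    simp only [derR, ha, hβ, hγ, mul_neg, Finset.sum_neg_distrib]
    ring
  have dB1 : 2 * ∑ u, y u * dR x (fun u v => 1 - p u v) wB u +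
      ∑ u, ∑ v, x u * x v * (- s u v * wB u v) = 2 * ∑ d, q d * derB x p wB d := by
    rw [gen (fun u v => 1 - p u v) wB, sum_dir]
    have e1 : ∑ u, ∑ v, x u * x v * (- s u v * wB u v) =
        ∑ u, ∑ v, x u * x v * ((β u v + β v u) * (p u v * wB u v)) -
        ∑ u, ∑ v, x u * x v * ((γ u v + γ v u) * ((1 - p u v) * wB u v)) := by
      rw [← Finset.sum_sub_distrib]
      refine Finset.sum_congr rfl fun u _ => ?_
      rw [← Finset.sum_sub_distrib]
      refine Finset.sum_congr rfl fun v _ => ?_
      simp only [hs]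
      ring
    rw [e1, gsym γ (fun u v => (1 - p u v) * wB u v) hsymB,
      gsym β (fun u v => p u v * wB u v) (fun u v => by rw [hM.ps u v, hM.Bs u v])]
    simp only [derB, ha, hβ, hγ, mul_neg, Finset.sum_neg_distrib, dB_eq, bb_eq]
    ring
  refine ⟨max C1 C2, le_trans hC1 (le_max_left _ _), fun t ht0 ht1 => ?_⟩
  refine ⟨fun u => x u + t * y u, fun u v => p u v + t * s u v, ?_, ?_, ?_⟩
  · have hys : ∑ u, y u = 0 := by
      simp only [hy, Finset.sum_sub_distrib, ← Finset.mul_sum, hM.x1]
      ring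
    refine ⟨?_, ?_, ?_, ?_, ?_, hM.R0, hM.R1, hM.Rs, hM.Rt, hM.Rl, hM.B0, hM.B1, hM.Bs, hM.Bt,
      hM.Bl⟩
    · intro u
      have h3 : 0 ≤ (1 - t * ∑ u, a u) * x u := mul_nonneg (by nlinarith) (hM.x0 u)
      have h4 : 0 ≤ t * a u := mul_nonneg ht0 (ha0 u)
      simp only [hy]
      nlinarith
    · rw [Finset.sum_add_distrib, ← Finset.mul_sum, hys, hM.x1]
      ring
    · intro u v
      have k1 : 0 ≤ (1 - t * (β u v + β v u)) * p u v :=
        mul_nonneg (by nlinarith [hβ1 u v, hβ1 v u, hβ0 u v, hβ0 v u]) (hM.p0 u v)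
      have k2 : 0 ≤ t * ((γ u v + γ v u) * (1 - p u v)) :=
        mul_nonneg ht0 (mul_nonneg (add_nonneg (hγ0 u v) (hγ0 v u)) (by linarith [hM.p1 u v]))
      simp only [hs]
      nlinarith
    · intro u v
      have k1 : 0 ≤ (1 - t * (γ u v + γ v u)) * (1 - p u v) :=
        mul_nonneg (by nlinarith [hγ1 u v, hγ1 v u, hγ0 u v, hγ0 v u]) (by linarith [hM.p1 u v])
      have k2 : 0 ≤ t * ((β u v + β v u) * p u v) :=
        mul_nonneg ht0 (mul_nonneg (add_nonneg (hβ0 u v) (hβ0 v u)) (hM.p0 u v))
      simp only [hs]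
      nlinarith
    · intro u v
      simp only [hs, hM.ps u v]
      ring
  · have h3 := h1 t ht0 (by linarith)
    rw [dR1] at h3
    have h4 : C1 * t ^ 2 ≤ max C1 C2 * t ^ 2 :=
      mul_le_mul_of_nonneg_right (le_max_left _ _) (by positivity)
    linarith
  · have h3 := h2 t ht0 (by linarith)
    rw [dB1] at h3
    have h4 : C2 * t ^ 2 ≤ max C1 C2 * t ^ 2 :=
      mul_le_mul_of_nonneg_right (le_max_right _ _) (by positivity)
    have h5 : bb (fun u => x u + t * y u) (fun u v => p u v + t * s u v) wB =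
        rr (fun u => x u + t * y u) (fun u v => 1 - p u v + t * - s u v) wB := by
      rw [bb_eq]
      congr 1
      funext u v
      ring
    rw [h5]
    rw [← bb_eq] at h3
    linarith

theorem cont_rr (w : Fin n → Fin n → ℝ) :
    Continuous fun z : (Fin n → ℝ) × (Fin n → Fin n → ℝ) => rr z.1 z.2 w := by
  unfold rr
  fun_prop

theorem cont_bb (w : Fin n → Fin n → ℝ) :
    Continuous fun z : (Fin n → ℝ) × (Fin n → Fin n → ℝ) => bb z.1 z.2 w := by
  unfold bb
  fun_prop

theorem isCompact_models (wR wB : Fin n → Fin n → ℝ) :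
    IsCompact {z : (Fin n → ℝ) × (Fin n → Fin n → ℝ) | Model z.1 z.2 wR wB} := by
  have hbox : IsCompact (Set.Icc (0 : (Fin n → ℝ) × (Fin n → Fin n → ℝ))
      (fun _ => 1, fun _ _ => 1)) := isCompact_Icc
  refine hbox.of_isClosed_subset ?_ ?_
  · have : {z : (Fin n → ℝ) × (Fin n → Fin n → ℝ) | Model z.1 z.2 wR wB} =
        {z | (∀ u, 0 ≤ z.1 u) ∧ (∑ u, z.1 u = 1) ∧ (∀ u v, 0 ≤ z.2 u v) ∧ (∀ u v, z.2 u v ≤ 1) ∧
          (∀ u v, z.2 u v = z.2 v u) ∧ ((∀ u v, 0 ≤ wR u v) ∧ (∀ u v, wR u v ≤ 1) ∧
          (∀ u v, wR u v = wR v u) ∧ (∀ u v t, 1 ≤ wR u v + wR v t + wR u t) ∧ (∀ u, wR u u = 1) ∧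
          (∀ u v, 0 ≤ wB u v) ∧ (∀ u v, wB u v ≤ 1) ∧
          (∀ u v, wB u v = wB v u) ∧ (∀ u v t, 1 ≤ wB u v + wB v t + wB u t) ∧
          (∀ u, wB u u = 1))} := by
      ext z
      constructor
      · rintro ⟨a1, a2, a3, a4, a5, a6, a7, a8, a9, a10, a11, a12, a13, a14, a15⟩
        exact ⟨a1, a2, a3, a4, a5, a6, a7, a8, a9, a10, a11, a12, a13, a14, a15⟩
      · rintro ⟨a1, a2, a3, a4, a5, a6, a7, a8, a9, a10, a11, a12, a13, a14, a15⟩
        exact ⟨a1, a2, a3, a4, a5, a6, a7, a8, a9, a10, a11, a12, a13, a14, a15⟩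
    rw [this]
    simp only [Set.ofPred_and, Set.ofPred_forall]
    refine IsClosed.inter (isClosed_iInter fun u => isClosed_le (by fun_prop) (by fun_prop)) ?_
    refine IsClosed.inter (isClosed_eq (by fun_prop) (by fun_prop)) ?_
    refine IsClosed.inter (isClosed_iInter fun u => isClosed_iInter fun v =>
      isClosed_le (by fun_prop) (by fun_prop)) ?_
    refine IsClosed.inter (isClosed_iInter fun u => isClosed_iInter fun v =>
      isClosed_le (by fun_prop) (by fun_prop)) ?_
    refine IsClosed.inter (isClosed_iInter fun u => isClosed_iInter fun v =>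
      isClosed_eq (by fun_prop) (by fun_prop)) ?_
    simp only [← Set.ofPred_forall, ← Set.ofPred_and]
    exact isClosed_const
  · intro z hz
    have hz : Model z.1 z.2 wR wB := hz
    refine ⟨⟨fun u => hz.x0 u, fun u v => hz.p0 u v⟩, ⟨fun u => ?_, fun u v => hz.p1 u v⟩⟩
    have := Finset.single_le_sum (f := z.1) (fun v _ => hz.x0 v) (Finset.mem_univ u)
    rw [hz.x1] at this
    exact this

/-- A value with negative slope can be decreased. -/
theorem small_t (A C δ : ℝ) (hA : A < 0) (hC : 0 ≤ C) (hδ : 0 < δ) :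
    ∃ t : ℝ, 0 < t ∧ t ≤ δ ∧ t * A + C * t ^ 2 < 0 := by
  refine ⟨min δ (-A / (2 * (C + 1))), lt_min hδ (by apply div_pos <;> linarith), min_le_left _ _, ?_⟩
  set t := min δ (-A / (2 * (C + 1))) with ht
  have ht0 : 0 < t := lt_min hδ (by apply div_pos <;> linarith)
  have h1 : t ≤ -A / (2 * (C + 1)) := min_le_right _ _
  rw [le_div_iff₀ (by linarith)] at h1
  nlinarith [mul_nonneg ht0.le hC, mul_pos ht0 ht0]

theorem kkt_of_dir {x : Fin n → ℝ} {p wR wB : Fin n → Fin n → ℝ} (hM : Model x p wR wB)
    (l : ℝ) (hl0 : 0 ≤ l) (hl1 : l ≤ 1)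
    (hd : ∀ d, 0 ≤ l * derR x p wR d + (1 - l) * derB x p wB d) :
    KKT x p wR wB l (l * rr x p wR + (1 - l) * bb x p wB) := by
  have k1 : ∀ u, l * rr x p wR + (1 - l) * bb x p wB ≤
      l * dR x p wR u + (1 - l) * dB x p wB u := by
    intro u
    have := hd (Sum.inl u)
    simp only [derR, derB] at this
    linarith
  refine ⟨hl0, hl1, k1, ?_, ?_, ?_, rfl⟩
  · have hs : ∑ u, x u * (l * dR x p wR u + (1 - l) * dB x p wB u -
        (l * rr x p wR + (1 - l) * bb x p wB)) = 0 := by
      have e : ∀ u, x u * (l * dR x p wR u + (1 - l) * dB x p wB u -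
          (l * rr x p wR + (1 - l) * bb x p wB)) = l * (x u * dR x p wR u) +
          (1 - l) * (x u * dB x p wB u) - (l * rr x p wR + (1 - l) * bb x p wB) * x u :=
        fun u => by ring
      simp only [e, Finset.sum_sub_distrib, Finset.sum_add_distrib, ← Finset.mul_sum, sum_dR,
        sum_dB, hM.x1]
      ring
    have h0 := (Finset.sum_eq_zero_iff_of_nonneg (fun u _ => mul_nonneg (hM.x0 u)
      (sub_nonneg.2 (k1 u)))).1 hs
    exact fun u => h0 u (Finset.mem_univ u)
  · intro u v
    have := hd (Sum.inr (Sum.inl (u, v)))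
    simp only [derR, derB] at this
    linarith
  · intro u v
    have := hd (Sum.inr (Sum.inr (u, v)))
    simp only [derR, derB] at this
    linarith

/-- **Multiplier rule for `max (rr, bb)`.** -/
theorem kkt_max {x : Fin n → ℝ} {p wR wB : Fin n → Fin n → ℝ} (hM : Model x p wR wB) :
    ∃ (x' : Fin n → ℝ) (p' : Fin n → Fin n → ℝ) (l c : ℝ), Model x' p' wR wB ∧
      rr x' p' wR = c ∧ bb x' p' wB = c ∧ c ≤ max (rr x p wR) (bb x p wB) ∧
      (∀ (x'' : Fin n → ℝ) (p'' : Fin n → Fin n → ℝ), Model x'' p'' wR wB →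
        c ≤ max (rr x'' p'' wR) (bb x'' p'' wB)) ∧ KKT x' p' wR wB l c := by
  classical
  obtain ⟨z, hz, hmin⟩ := (isCompact_models wR wB).exists_isMinOn ⟨(x, p), hM⟩
    ((cont_rr wR).max (cont_bb wB)).continuousOn
  have hz : Model z.1 z.2 wR wB := hz
  have hmin' : ∀ (x'' : Fin n → ℝ) (p'' : Fin n → Fin n → ℝ), Model x'' p'' wR wB →
      max (rr z.1 z.2 wR) (bb z.1 z.2 wB) ≤ max (rr x'' p'' wR) (bb x'' p'' wB) :=
    fun x'' p'' h => hmin (show (x'', p'') ∈ _ from h)
  obtain ⟨y, s⟩ := z
  simp only at hz hmin'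
  have hn : Nonempty (Fin n) := by
    by_contra h
    rw [not_nonempty_iff] at h
    have := hz.x1
    rw [Finset.univ_eq_empty, Finset.sum_empty] at this
    norm_num at this
  obtain ⟨u0⟩ := hn
  have : Nonempty (Dir n) := ⟨Sum.inl u0⟩
  have hr0 : 0 ≤ rr y s wR := rr_nonneg hz.x0 hz.p0 hz.R0
  have hb0 : 0 ≤ bb y s wB := rr_nonneg hz.x0 (fun u v => by linarith [hz.p1 u v]) hz.B0
  -- both values agree
  have hx2 : ∑ u, ∑ v, y u * y v = 1 := by
    simp only [← Finset.mul_sum, hz.x1, mul_one]
  have hrb : rr y s wR = bb y s wB := by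
    rcases lt_trichotomy (rr y s wR) (bb y s wB) with h | h | h
    · exfalso
      set t : ℝ := min 1 ((bb y s wB - rr y s wR) / 2) with ht
      have ht0 : 0 < t := lt_min one_pos (by linarith)
      have ht1 : t ≤ 1 := min_le_left _ _
      have ht2 : t ≤ (bb y s wB - rr y s wR) / 2 := min_le_right _ _
      have hm : Model y (fun u v => s u v + t * (1 - s u v)) wR wB := by
        refine ⟨hz.x0, hz.x1, ?_, ?_, ?_, hz.R0, hz.R1, hz.Rs, hz.Rt, hz.Rl, hz.B0, hz.B1, hz.Bs,
          hz.Bt, hz.Bl⟩
        · intro u v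
          have := mul_nonneg ht0.le (sub_nonneg.2 (hz.p1 u v))
          linarith [hz.p0 u v]
        · intro u v
          have := mul_nonneg (sub_nonneg.2 ht1) (sub_nonneg.2 (hz.p1 u v))
          nlinarith
        · intro u v
          simp only [hz.ps u v]
      have h1 := hmin' _ _ hm
      have h2 : bb y (fun u v => s u v + t * (1 - s u v)) wB = (1 - t) * bb y s wB := by
        unfold bb
        rw [Finset.mul_sum]
        refine Finset.sum_congr rfl fun u _ => ?_
        rw [Finset.mul_sum]
        exact Finset.sum_congr rfl fun v _ => by ring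
      have h3 : rr y (fun u v => s u v + t * (1 - s u v)) wR ≤ rr y s wR + t := by
        have e : rr y (fun u v => s u v + t * (1 - s u v)) wR = rr y s wR +
            t * ∑ u, ∑ v, y u * y v * ((1 - s u v) * wR u v) := by
          unfold rr
          rw [Finset.mul_sum, ← Finset.sum_add_distrib]
          refine Finset.sum_congr rfl fun u _ => ?_
          rw [Finset.mul_sum, ← Finset.sum_add_distrib]
          exact Finset.sum_congr rfl fun v _ => by ring
        have e2 : ∑ u, ∑ v, y u * y v * ((1 - s u v) * wR u v) ≤ 1 := by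
          refine le_trans ?_ hx2.le
          refine Finset.sum_le_sum fun u _ => Finset.sum_le_sum fun v _ => ?_
          have : (1 - s u v) * wR u v ≤ 1 :=
            mul_le_one₀ (by linarith [hz.p0 u v]) (hz.R0 u v) (hz.R1 u v)
          have h0 := mul_nonneg (hz.x0 u) (hz.x0 v)
          nlinarith
        rw [e]
        nlinarith
      rw [max_eq_right h.le, h2] at h1
      rcases le_max_iff.1 h1 with h4 | h4
      · linarith
      · have : 0 < t * bb y s wB := mul_pos ht0 (lt_of_le_of_lt hr0 h)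
        linarith
    · exact h
    · exfalso
      set t : ℝ := min 1 ((rr y s wR - bb y s wB) / 2) with ht
      have ht0 : 0 < t := lt_min one_pos (by linarith)
      have ht1 : t ≤ 1 := min_le_left _ _
      have ht2 : t ≤ (rr y s wR - bb y s wB) / 2 := min_le_right _ _
      have hm : Model y (fun u v => s u v - t * s u v) wR wB := by
        refine ⟨hz.x0, hz.x1, ?_, ?_, ?_, hz.R0, hz.R1, hz.Rs, hz.Rt, hz.Rl, hz.B0, hz.B1, hz.Bs,
          hz.Bt, hz.Bl⟩
        · intro u v
          have := mul_nonneg (sub_nonneg.2 ht1) (hz.p0 u v)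
          linarith
        · intro u v
          have := mul_nonneg ht0.le (hz.p0 u v)
          linarith [hz.p1 u v]
        · intro u v
          simp only [hz.ps u v]
      have h1 := hmin' _ _ hm
      have h2 : rr y (fun u v => s u v - t * s u v) wR = (1 - t) * rr y s wR := by
        unfold rr
        rw [Finset.mul_sum]
        refine Finset.sum_congr rfl fun u _ => ?_
        rw [Finset.mul_sum]
        exact Finset.sum_congr rfl fun v _ => by ring
      have h3 : bb y (fun u v => s u v - t * s u v) wB ≤ bb y s wB + t := by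
        have e : bb y (fun u v => s u v - t * s u v) wB = bb y s wB +
            t * ∑ u, ∑ v, y u * y v * (s u v * wB u v) := by
          unfold bb
          rw [Finset.mul_sum, ← Finset.sum_add_distrib]
          refine Finset.sum_congr rfl fun u _ => ?_
          rw [Finset.mul_sum, ← Finset.sum_add_distrib]
          exact Finset.sum_congr rfl fun v _ => by ring
        have e2 : ∑ u, ∑ v, y u * y v * (s u v * wB u v) ≤ 1 := by
          refine le_trans ?_ hx2.le
          refine Finset.sum_le_sum fun u _ => Finset.sum_le_sum fun v _ => ?_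
          have : s u v * wB u v ≤ 1 :=
            mul_le_one₀ (hz.p1 u v) (hz.B0 u v) (hz.B1 u v)
          have h0 := mul_nonneg (hz.x0 u) (hz.x0 v)
          nlinarith
        rw [e]
        nlinarith
      rw [max_eq_left h.le, h2] at h1
      rcases le_max_iff.1 h1 with h4 | h4
      · have : 0 < t * rr y s wR := mul_pos ht0 (lt_of_le_of_lt hb0 h)
        linarith
      · linarith
  -- the multiplier
  obtain ⟨V, q, w, hq0, hq1, hw0, hw1, hqV, hwV⟩ := MPacf82c.minimax
    (fun (d : Dir n) (h : Bool) => bif h then derR y s wR d else derB y s wB d)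
  have hVR := hqV true
  have hVB := hqV false
  simp only [cond_true, cond_false] at hVR hVB
  have hV : 0 ≤ V := by
    by_contra hneg
    rw [not_le] at hneg
    obtain ⟨C, hC, hpath⟩ := exists_path hz q hq0 hq1
    obtain ⟨t, ht0, ht1, ht2⟩ := small_t (2 * V) C (1 / 2) (by linarith) hC (by norm_num)
    obtain ⟨x', p', hm, hr, hb⟩ := hpath t ht0.le ht1
    have h1 := hmin' _ _ hm
    rw [← hrb, max_self] at h1
    have a1 : t * (2 * ∑ d, q d * derR y s wR d) ≤ t * (2 * V) :=
      mul_le_mul_of_nonneg_left (by linarith) ht0.le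
    have a2 : t * (2 * ∑ d, q d * derB y s wB d) ≤ t * (2 * V) :=
      mul_le_mul_of_nonneg_left (by linarith) ht0.le
    rcases le_max_iff.1 h1 with h4 | h4 <;> linarith
  rw [Fintype.sum_bool] at hw1
  have hdir : ∀ d, 0 ≤ w true * derR y s wR d + (1 - w true) * derB y s wB d := by
    intro d
    have := hwV d
    rw [Fintype.sum_bool] at this
    simp only [cond_true, cond_false] at this
    have e : 1 - w true = w false := by linarith
    rw [e]
    linarith
  have hk := kkt_of_dir hz (w true) (hw0 true) (by linarith [hw0 false]) hdir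
  refine ⟨y, s, w true, rr y s wR, hz, rfl, hrb.symm, ?_, ?_, ?_⟩
  · have := hmin' x p hM
    rwa [← hrb, max_self] at this
  · intro x'' p'' h
    have := hmin' x'' p'' h
    rwa [← hrb, max_self] at this
  · have e : w true * rr y s wR + (1 - w true) * bb y s wB = rr y s wR := by
      rw [← hrb]; ring
    rwa [e] at hk

/-- **Multiplier rule for `rr + bb` subject to `rr, bb ≤ κ`.** -/
theorem kkt_sum {x : Fin n → ℝ} {p wR wB : Fin n → Fin n → ℝ} (hM : Model x p wR wB) (κ : ℝ)
    (hκ : 0 < κ) (hr : rr x p wR < κ) (hb : bb x p wB < κ) :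
    ∃ (x' : Fin n → ℝ) (p' : Fin n → Fin n → ℝ), Model x' p' wR wB ∧
      rr x' p' wR + bb x' p' wB ≤ rr x p wR + bb x p wB ∧
      (∀ (x'' : Fin n → ℝ) (p'' : Fin n → Fin n → ℝ), Model x'' p'' wR wB →
        rr x'' p'' wR ≤ κ → bb x'' p'' wB ≤ κ →
        rr x' p' wR + bb x' p' wB ≤ rr x'' p'' wR + bb x'' p'' wB) ∧
      ((rr x' p' wR < κ ∧ bb x' p' wB < κ ∧
          KKT x' p' wR wB (1 / 2) ((rr x' p' wR + bb x' p' wB) / 2)) ∨
       (rr x' p' wR = κ ∧ bb x' p' wB < κ ∧ ∃ l : ℝ, 1 / 2 ≤ l ∧ l < 1 ∧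
          KKT x' p' wR wB l (l * κ + (1 - l) * bb x' p' wB)) ∨
       (rr x' p' wR < κ ∧ bb x' p' wB = κ ∧ ∃ l : ℝ, 0 < l ∧ l ≤ 1 / 2 ∧
          KKT x' p' wR wB l (l * rr x' p' wR + (1 - l) * κ))) := by
  classical
  have hcl : IsClosed {z : (Fin n → ℝ) × (Fin n → Fin n → ℝ) | rr z.1 z.2 wR ≤ κ ∧
      bb z.1 z.2 wB ≤ κ} :=
    (isClosed_le (cont_rr wR) continuous_const).inter (isClosed_le (cont_bb wB) continuous_const)
  obtain ⟨z, hz, hmin⟩ := ((isCompact_models wR wB).inter_right hcl).exists_isMinOn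
    ⟨(x, p), hM, hr.le, hb.le⟩ ((cont_rr wR).add (cont_bb wB)).continuousOn
  obtain ⟨hz, hzr, hzb⟩ := hz
  have hz : Model z.1 z.2 wR wB := hz
  have hmin' : ∀ (x'' : Fin n → ℝ) (p'' : Fin n → Fin n → ℝ), Model x'' p'' wR wB →
      rr x'' p'' wR ≤ κ → bb x'' p'' wB ≤ κ →
      rr z.1 z.2 wR + bb z.1 z.2 wB ≤ rr x'' p'' wR + bb x'' p'' wB :=
    fun x'' p'' h h1 h2 => hmin (show (x'', p'') ∈ _ from ⟨h, h1, h2⟩)
  obtain ⟨y, s⟩ := z
  simp only at hz hmin' hzr hzb
  have hn : Nonempty (Fin n) := by
    by_contra h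
    rw [not_nonempty_iff] at h
    have := hz.x1
    rw [Finset.univ_eq_empty, Finset.sum_empty] at this
    norm_num at this
  obtain ⟨u0⟩ := hn
  have : Nonempty (Dir n) := ⟨Sum.inl u0⟩
  have hr0 : 0 ≤ rr y s wR := rr_nonneg hz.x0 hz.p0 hz.R0
  have hb0 : 0 ≤ bb y s wB := rr_nonneg hz.x0 (fun u v => by linarith [hz.p1 u v]) hz.B0
  have hm0 := hmin' x p hM hr.le hb.le
  refine ⟨y, s, hz, hm0, hmin', ?_⟩
  rcases lt_or_eq_of_le hzr with h1 | h1
  · rcases lt_or_eq_of_le hzb with h2 | h2
    · -- no active constraint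
      left
      refine ⟨h1, h2, ?_⟩
      have hdir : ∀ d, 0 ≤ (1 / 2 : ℝ) * derR y s wR d + (1 - 1 / 2) * derB y s wB d := by
        intro d
        by_contra hneg
        rw [not_le] at hneg
        set q : Dir n → ℝ := fun e => if e = d then 1 else 0 with hq
        have hq0 : ∀ e, 0 ≤ q e := fun e => by simp only [hq]; split_ifs <;> norm_num
        have hq1 : ∑ e, q e = 1 := by simp [hq]
        have hqs : ∀ f : Dir n → ℝ, ∑ e, q e * f e = f d := fun f => by simp [hq]
        obtain ⟨C, hC, hpath⟩ := exists_path hz q hq0 hq1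
        simp only [hqs] at hpath
        -- small time
        set M : ℝ := 2 * |derR y s wR d| + 2 * |derB y s wB d| + C + 1 with hMd
        have hM1 : 1 ≤ M := by
          have := abs_nonneg (derR y s wR d)
          have := abs_nonneg (derB y s wB d)
          linarith
        set δ : ℝ := min (1 / 2) (min ((κ - rr y s wR) / M) ((κ - bb y s wB) / M)) with hδ
        have hδ0 : 0 < δ := lt_min (by norm_num) (lt_min (div_pos (by linarith) (by linarith))
          (div_pos (by linarith) (by linarith)))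
        obtain ⟨t, ht0, ht1, ht2⟩ := small_t (2 * (derR y s wR d + derB y s wB d)) (2 * C) δ
          (by linarith) (by linarith) hδ0
        have hth : t ≤ 1 / 2 := ht1.trans (min_le_left _ _)
        have ht3 : t * M ≤ κ - rr y s wR := by
          rw [← le_div_iff₀ (by linarith)]
          exact ht1.trans ((min_le_right _ _).trans (min_le_left _ _))
        have ht4 : t * M ≤ κ - bb y s wB := by
          rw [← le_div_iff₀ (by linarith)]
          exact ht1.trans ((min_le_right _ _).trans (min_le_right _ _))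
        obtain ⟨x', p', hm, hr', hb'⟩ := hpath t ht0.le hth
        have ht5 : C * t ^ 2 ≤ C * t := by
          have : t ^ 2 ≤ t := by nlinarith
          exact mul_le_mul_of_nonneg_left this hC
        have a1 := mul_le_mul_of_nonneg_left (le_abs_self (derR y s wR d)) ht0.le
        have a2 := mul_le_mul_of_nonneg_left (le_abs_self (derB y s wB d)) ht0.le
        have a3 := mul_nonneg ht0.le (abs_nonneg (derR y s wR d))
        have a4 := mul_nonneg ht0.le (abs_nonneg (derB y s wB d))
        have hMt : t * M = 2 * (t * |derR y s wR d|) + 2 * (t * |derB y s wB d|) + C * t + t := by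
          rw [hMd]; ring
        have h5 := hmin' x' p' hm (by linarith) (by linarith)
        linarith
      have hk := kkt_of_dir hz (1 / 2) (by norm_num) (by norm_num) hdir
      have e : 1 / 2 * rr y s wR + (1 - 1 / 2) * bb y s wB = (rr y s wR + bb y s wB) / 2 := by ring
      rwa [e] at hk
    · -- blue active
      right; right
      refine ⟨h1, h2, ?_⟩
      obtain ⟨V, q, w, hq0, hq1, hw0, hw1, hqV, hwV⟩ := MPacf82c.minimax
        (fun (d : Dir n) (h : Bool) => bif h then derR y s wR d + derB y s wB d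
          else derB y s wB d)
      have hVR := hqV true
      have hVB := hqV false
      simp only [cond_true, cond_false, mul_add, Finset.sum_add_distrib] at hVR hVB
      have hV : 0 ≤ V := by
        by_contra hneg
        rw [not_le] at hneg
        obtain ⟨C, hC, hpath⟩ := exists_path hz q hq0 hq1
        set DR := ∑ d, q d * derR y s wR d with hDR
        set DB := ∑ d, q d * derB y s wB d with hDB
        set M : ℝ := 2 * |DR| + C + 1 with hMd
        have hM1 : 1 ≤ M := by
          have := abs_nonneg DR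
          linarith
        set δ : ℝ := min (1 / 2) ((κ - rr y s wR) / M) with hδ
        have hδ0 : 0 < δ := lt_min (by norm_num) (div_pos (by linarith) (by linarith))
        obtain ⟨t, ht0, ht1, ht2⟩ := small_t (2 * V) (2 * C) δ
          (by linarith) (by linarith) hδ0
        have hth : t ≤ 1 / 2 := ht1.trans (min_le_left _ _)
        have ht3 : t * M ≤ κ - rr y s wR := by
          rw [← le_div_iff₀ (by linarith)]
          exact ht1.trans (min_le_right _ _)
        obtain ⟨x', p', hm, hr', hb'⟩ := hpath t ht0.le hth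
        have ht5 : C * t ^ 2 ≤ C * t := by
          have : t ^ 2 ≤ t := by nlinarith
          exact mul_le_mul_of_nonneg_left this hC
        have hCt : 0 ≤ C * t ^ 2 := by positivity
        have a1 := mul_le_mul_of_nonneg_left (le_abs_self DR) ht0.le
        have a2 := mul_le_mul_of_nonneg_left hVR ht0.le
        have a3 := mul_le_mul_of_nonneg_left hVB ht0.le
        have hMt : t * M = 2 * (t * |DR|) + C * t + t := by
          rw [hMd]; ring
        have h5 := hmin' x' p' hm (by linarith) (by linarith)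
        linarith
      rw [Fintype.sum_bool] at hw1
      have hwd : ∀ d, 0 ≤ w true * derR y s wR d + derB y s wB d := by
        intro d
        have := hwV d
        rw [Fintype.sum_bool] at this
        simp only [cond_true, cond_false] at this
        have e : w false = 1 - w true := by linarith
        rw [e] at this
        linarith
      have hw0' : 0 < w true := by
        rcases lt_or_eq_of_le (hw0 true) with h | h
        · exact h
        · exfalso
          have h0 : ∀ u v, y u * y v * ((1 - s u v) * wB u v) ≤ 0 := by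
            intro u v
            have := hwd (Sum.inr (Sum.inr (u, v)))
            rw [← h] at this
            simp only [derB, zero_mul, zero_add] at this
            linarith
          have : bb y s wB ≤ 0 := by
            unfold bb
            exact Finset.sum_nonpos fun u _ => Finset.sum_nonpos fun v _ => h0 u v
          linarith
      have hw1' : w true ≤ 1 := by linarith [hw0 false]
      set l : ℝ := w true / (1 + w true) with hl
      have hl0 : 0 < l := div_pos hw0' (by linarith)
      have hl1 : l ≤ 1 / 2 := by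
        rw [hl, div_le_div_iff₀ (by linarith) (by norm_num)]
        linarith
      have hl2 : 1 - l = 1 / (1 + w true) := by
        rw [hl]
        field_simp
        ring
      refine ⟨l, hl0, hl1, ?_⟩
      have hdir : ∀ d, 0 ≤ l * derR y s wR d + (1 - l) * derB y s wB d := by
        intro d
        have e : l * derR y s wR d + (1 - l) * derB y s wB d =
            (w true * derR y s wR d + derB y s wB d) / (1 + w true) := by
          rw [hl2, hl]
          ring
        rw [e]
        exact div_nonneg (hwd d) (by linarith)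
      have hk := kkt_of_dir hz l hl0.le (by linarith) hdir
      rwa [h2] at hk
  · -- red active
    right; left
    have h2 : bb y s wB < κ := by linarith
    refine ⟨h1, h2, ?_⟩
    obtain ⟨V, q, w, hq0, hq1, hw0, hw1, hqV, hwV⟩ := MPacf82c.minimax
      (fun (d : Dir n) (h : Bool) => bif h then derR y s wR d + derB y s wB d
        else derR y s wR d)
    have hVR := hqV true
    have hVB := hqV false
    simp only [cond_true, cond_false, mul_add, Finset.sum_add_distrib] at hVR hVB
    have hV : 0 ≤ V := by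
      by_contra hneg
      rw [not_le] at hneg
      obtain ⟨C, hC, hpath⟩ := exists_path hz q hq0 hq1
      set DR := ∑ d, q d * derR y s wR d with hDR
      set DB := ∑ d, q d * derB y s wB d with hDB
      set M : ℝ := 2 * |DB| + C + 1 with hMd
      have hM1 : 1 ≤ M := by
        have := abs_nonneg DB
        linarith
      set δ : ℝ := min (1 / 2) ((κ - bb y s wB) / M) with hδ
      have hδ0 : 0 < δ := lt_min (by norm_num) (div_pos (by linarith) (by linarith))
      obtain ⟨t, ht0, ht1, ht2⟩ := small_t (2 * V) (2 * C) δ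
        (by linarith) (by linarith) hδ0
      have hth : t ≤ 1 / 2 := ht1.trans (min_le_left _ _)
      have ht3 : t * M ≤ κ - bb y s wB := by
        rw [← le_div_iff₀ (by linarith)]
        exact ht1.trans (min_le_right _ _)
      obtain ⟨x', p', hm, hr', hb'⟩ := hpath t ht0.le hth
      have ht5 : C * t ^ 2 ≤ C * t := by
        have : t ^ 2 ≤ t := by nlinarith
        exact mul_le_mul_of_nonneg_left this hC
      have hCt : 0 ≤ C * t ^ 2 := by positivity
      have a1 := mul_le_mul_of_nonneg_left (le_abs_self DB) ht0.le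
      have a2 := mul_le_mul_of_nonneg_left hVR ht0.le
      have a3 := mul_le_mul_of_nonneg_left hVB ht0.le
      have hMt : t * M = 2 * (t * |DB|) + C * t + t := by
        rw [hMd]; ring
      have h5 := hmin' x' p' hm (by linarith) (by linarith)
      linarith
    rw [Fintype.sum_bool] at hw1
    have hwd : ∀ d, 0 ≤ derR y s wR d + w true * derB y s wB d := by
      intro d
      have := hwV d
      rw [Fintype.sum_bool] at this
      simp only [cond_true, cond_false] at this
      have e : w false = 1 - w true := by linarith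
      rw [e] at this
      linarith
    have hw0' : 0 < w true := by
      rcases lt_or_eq_of_le (hw0 true) with h | h
      · exact h
      · exfalso
        have h0 : ∀ u v, y u * y v * (s u v * wR u v) ≤ 0 := by
          intro u v
          have := hwd (Sum.inr (Sum.inl (u, v)))
          rw [← h] at this
          simp only [derR, zero_mul, add_zero] at this
          linarith
        have : rr y s wR ≤ 0 := by
          unfold rr
          exact Finset.sum_nonpos fun u _ => Finset.sum_nonpos fun v _ => h0 u v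
        linarith
    have hw1' : w true ≤ 1 := by linarith [hw0 false]
    set l : ℝ := 1 / (1 + w true) with hl
    have hl1 : l < 1 := by
      rw [hl, div_lt_one (by linarith)]
      linarith
    have hl0 : 1 / 2 ≤ l := by
      rw [hl, div_le_div_iff₀ (by norm_num) (by linarith)]
      linarith
    have hl2 : 1 - l = w true / (1 + w true) := by
      rw [hl]
      field_simp
      ring
    refine ⟨l, hl0, hl1, ?_⟩
    have hdir : ∀ d, 0 ≤ l * derR y s wR d + (1 - l) * derB y s wB d := by
      intro d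
      have e : l * derR y s wR d + (1 - l) * derB y s wB d =
          (derR y s wR d + w true * derB y s wB d) / (1 + w true) := by
        rw [hl2, hl]
        ring
      rw [e]
      exact div_nonneg (hwd d) (by linarith)
    have hk := kkt_of_dir hz l (by linarith) hl1.le hdir
    rwa [h1] at hk

end HR
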