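import Pool.Agent.Lib.MP_a1b8b7_co.B.MainK

/-!
# The main check: meaning of the kernel functions
-/

set_option autoImplicit false

open Finset

namespace HR

namespace Fl

open Tr

/-- one ordering of the type, one order of the flags -/
noncomputable def dG (GD : Tr) (a0 a1 a2 b0 b1 b2 c0 c1 c2 x0 x1 x2 y0 y1 y2 z0 z1 z2 : ℕ) : ℤ :=
  if a0 ≤ a1 ∧ a1 ≤ a2 then
    (if k3 b0 b1 b2 ≤ k3 c0 c1 c2 then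
      z (l9 (gsel GD (a0 + a1 + a2) (k3 b0 b1 b2) (k3 c0 c1 c2)) x0 x1 x2 y0 y1 y2 z0 z1 z2)
    else
      z (l9 (gsel GD (a0 + a1 + a2) (k3 c0 c1 c2) (k3 b0 b1 b2)) x0 x1 x2 z0 z1 z2 y0 y1 y2))
  else 0

/-- one ordering -/
noncomputable def dT (TD : Tr) (a0 a1 a2 s x0 x1 x2 u : ℕ) : ℤ :=
  z (l4 (get (get TD (k3 a0 a1 a2)) s) x0 x1 x2 u)

/-- one ordering -/
noncomputable def dP (PD : Tr) (a0 a1 a2 b0 b1 b2 x0 x1 x2 y0 y1 y2 : ℕ) : ℤ :=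
  z (l6 (get (get PD (k3 a0 a1 a2)) (k3 b0 b1 b2)) x0 x1 x2 y0 y1 y2)

theorem nt_true (a b : ℕ) : nt true a b = a := id rfl
theorem nt_false (a b : ℕ) : nt false a b = b := id rfl

theorem ble_false {a b : ℕ} (h : Nat.ble a b = false) : b < a := by
  by_contra hlt
  rw [not_lt] at hlt
  rw [Nat.ble_eq_true_of_le hlt] at h
  exact absurd h (by simp)

theorem OF2_z : (OF2 : ℤ) = 2 * (OF : ℤ) := by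
  have h : OF2 = 2 * OF := rfl
  rw [h]; push_cast; ring

theorem OF6_z : (OF6 : ℤ) = 6 * (OF : ℤ) := by
  have h : OF6 = 6 * OF := rfl
  rw [h]; push_cast; ring

theorem OF8_z : (OF8 : ℤ) = 8 * (OF : ℤ) := by
  have h : OF8 = 8 * OF := rfl
  rw [h]; push_cast; ring

theorem OF12_z : (OF12 : ℤ) = 12 * (OF : ℤ) := by
  have h : OF12 = 12 * OF := rfl
  rw [h]; push_cast; ring

theorem OFall_z : (OFall : ℤ) = 361 * (OF : ℤ) := by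
  have h : OFall = 361 * OF := rfl
  rw [h]; push_cast; ring

theorem nadd (a b : ℕ) : Nat.add a b = a + b := id rfl
theorem nmul (a b : ℕ) : Nat.mul a b = a * b := id rfl

theorem kG2_ge (GD : Tr) (t b0 b1 b2 c0 c1 c2 x0 x1 x2 y0 y1 y2 z0 z1 z2 : ℕ) :
    (if k3 b0 b1 b2 ≤ k3 c0 c1 c2 then
      z (l9 (gsel GD t (k3 b0 b1 b2) (k3 c0 c1 c2)) x0 x1 x2 y0 y1 y2 z0 z1 z2)
    else
      z (l9 (gsel GD t (k3 c0 c1 c2) (k3 b0 b1 b2)) x0 x1 x2 z0 z1 z2 y0 y1 y2)) +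
    (if k3 c0 c1 c2 ≤ k3 b0 b1 b2 then
      z (l9 (gsel GD t (k3 c0 c1 c2) (k3 b0 b1 b2)) x0 x1 x2 z0 z1 z2 y0 y1 y2)
    else
      z (l9 (gsel GD t (k3 b0 b1 b2) (k3 c0 c1 c2)) x0 x1 x2 y0 y1 y2 z0 z1 z2)) + 2 * (OF : ℤ) ≤
    (kG2 GD t (k3 b0 b1 b2) (k3 c0 c1 c2) x0 x1 x2 y0 y1 y2 z0 z1 z2 : ℤ) := by
  have v1 := z_le_v (l9 (gsel GD t (k3 b0 b1 b2) (k3 c0 c1 c2)) x0 x1 x2 y0 y1 y2 z0 z1 z2)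
  have v2 := z_le_v (l9 (gsel GD t (k3 c0 c1 c2) (k3 b0 b1 b2)) x0 x1 x2 z0 z1 z2 y0 y1 y2)
  unfold kG2
  cases h1 : Nat.ble (k3 b0 b1 b2) (k3 c0 c1 c2) with
  | true =>
    have l1 := Nat.le_of_ble_eq_true h1
    cases h2 : Nat.ble (k3 c0 c1 c2) (k3 b0 b1 b2) with
    | true =>
      have l2 := Nat.le_of_ble_eq_true h2
      have e : k3 c0 c1 c2 = k3 b0 b1 b2 := le_antisymm l2 l1
      rw [e] at v1 v2 ⊢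
      rw [if_pos (le_refl _), if_pos (le_refl _), nt_true, nt_true, nadd]
      push_cast
      linarith
    | false =>
      have l2 := ble_false h2
      rw [if_pos l1, if_neg (not_le.2 l2), nt_true, nt_false, nmul]
      push_cast
      linarith
  | false =>
    have l1 := ble_false h1
    rw [if_neg (not_le.2 l1), if_pos l1.le, nt_false, nmul]
    push_cast
    linarith

theorem kG_ge (GD : Tr) (a0 a1 a2 b0 b1 b2 c0 c1 c2 x0 x1 x2 y0 y1 y2 z0 z1 z2 : ℕ) :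
    dG GD a0 a1 a2 b0 b1 b2 c0 c1 c2 x0 x1 x2 y0 y1 y2 z0 z1 z2 +
      dG GD a0 a1 a2 c0 c1 c2 b0 b1 b2 x0 x1 x2 z0 z1 z2 y0 y1 y2 + 2 * (OF : ℤ) ≤
    (kG GD a0 a1 a2 b0 b1 b2 c0 c1 c2 x0 x1 x2 y0 y1 y2 z0 z1 z2 : ℤ) := by
  unfold kG dG
  have hOF2 := OF2_z
  cases h1 : Nat.ble a0 a1 with
  | false =>
    have l1 := ble_false h1
    simp only [if_neg (fun h : a0 ≤ a1 ∧ a1 ≤ a2 => not_le.2 l1 h.1), nt_false, hOF2]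
    linarith
  | true =>
    have l1 := Nat.le_of_ble_eq_true h1
    cases h2 : Nat.ble a1 a2 with
    | false =>
      have l2 := ble_false h2
      simp only [if_neg (fun h : a0 ≤ a1 ∧ a1 ≤ a2 => not_le.2 l2 h.2), nt_true, nt_false, hOF2]
      linarith
    | true =>
      have l2 := Nat.le_of_ble_eq_true h2
      simp only [if_pos (And.intro l1 l2), nt_true]
      exact kG2_ge GD (a0 + a1 + a2) b0 b1 b2 c0 c1 c2 x0 x1 x2 y0 y1 y2 z0 z1 z2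

theorem kT_ge (TD : Tr) (a0 a1 a2 s x0 x1 x2 u : ℕ) :
    dT TD a0 a1 a2 s x0 x1 x2 u + (OF : ℤ) ≤ (kT TD a0 a1 a2 s x0 x1 x2 u : ℤ) := by
  unfold kT dT
  linarith [z_le_v (l4 (get (get TD (k3 a0 a1 a2)) s) x0 x1 x2 u)]

theorem kP_ge (PD : Tr) (a0 a1 a2 b0 b1 b2 x0 x1 x2 y0 y1 y2 : ℕ) :
    dP PD a0 a1 a2 b0 b1 b2 x0 x1 x2 y0 y1 y2 + (OF : ℤ) ≤
      (kP PD a0 a1 a2 b0 b1 b2 x0 x1 x2 y0 y1 y2 : ℤ) := by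
  unfold kP dP
  linarith [z_le_v (l6 (get (get PD (k3 a0 a1 a2)) (k3 b0 b1 b2)) x0 x1 x2 y0 y1 y2)]

/-- coefficient of the piece with type of size three -/
noncomputable def cG (GD : Tr) (X Y : Fin 10 → ℕ) : ℤ :=
  if Y 9 = 0 then dG GD (X 0) (X 1) (X 2) (X 3) (X 4) (X 5) (X 6) (X 7) (X 8)
    (Y 0) (Y 1) (Y 2) (Y 3) (Y 4) (Y 5) (Y 6) (Y 7) (Y 8) else 0

/-- coefficient of the piece with three vertices and the last pair, total degree `n` -/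
noncomputable def cT (TD : Tr) (n : ℕ) (X Y : Fin 10 → ℕ) : ℤ :=
  if Y 0 + Y 1 + Y 2 + Y 9 = n then dT TD (X 0) (X 1) (X 2) (X 9) (Y 0) (Y 1) (Y 2) (Y 9) else 0

/-- coefficient of the piece with type of size one, total degree `n` -/
noncomputable def cP (PD : Tr) (n : ℕ) (X Y : Fin 10 → ℕ) : ℤ :=
  if Y 0 + Y 1 + Y 2 + Y 3 + Y 6 + Y 9 = n then
    dP PD (X 0) (X 1) (X 2) (X 3) (X 6) (X 9) (Y 0) (Y 1) (Y 2) (Y 3) (Y 6) (Y 9) else 0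

theorem sumG_ge (GD : Tr) (X Y : Fin 10 → ℕ) :
    (H12.map fun h => cG GD (X ∘ pf h) (Y ∘ pf h)).sum + 12 * (OF : ℤ) ≤
    (nt (Nat.beq (Y 9) 0) (kGG GD (X 0) (X 1) (X 2) (X 3) (X 4) (X 5) (X 6) (X 7) (X 8)
        (Y 0) (Y 1) (Y 2) (Y 3) (Y 4) (Y 5) (Y 6) (Y 7) (Y 8)) OF12 : ℕ) := by
  have hOF12 := OF12_z
  simp only [H12, List.map_cons, List.map_nil, List.sum_cons, List.sum_nil]
  rw [show cG GD (X ∘ pf (v5 0 1 2 3 4)) (Y ∘ pf (v5 0 1 2 3 4)) =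
      if Y 9 = 0 then dG GD (X 0) (X 1) (X 2) (X 3) (X 4) (X 5) (X 6) (X 7) (X 8)
      (Y 0) (Y 1) (Y 2) (Y 3) (Y 4) (Y 5) (Y 6) (Y 7) (Y 8)
      else 0 from rfl]
  rw [show cG GD (X ∘ pf (v5 0 1 2 4 3)) (Y ∘ pf (v5 0 1 2 4 3)) =
      if Y 9 = 0 then dG GD (X 0) (X 1) (X 2) (X 6) (X 7) (X 8) (X 3) (X 4) (X 5)
      (Y 0) (Y 1) (Y 2) (Y 6) (Y 7) (Y 8) (Y 3) (Y 4) (Y 5)
      else 0 from rfl]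
  rw [show cG GD (X ∘ pf (v5 1 0 2 3 4)) (Y ∘ pf (v5 1 0 2 3 4)) =
      if Y 9 = 0 then dG GD (X 0) (X 2) (X 1) (X 4) (X 3) (X 5) (X 7) (X 6) (X 8)
      (Y 0) (Y 2) (Y 1) (Y 4) (Y 3) (Y 5) (Y 7) (Y 6) (Y 8)
      else 0 from rfl]
  rw [show cG GD (X ∘ pf (v5 1 0 2 4 3)) (Y ∘ pf (v5 1 0 2 4 3)) =
      if Y 9 = 0 then dG GD (X 0) (X 2) (X 1) (X 7) (X 6) (X 8) (X 4) (X 3) (X 5)
      (Y 0) (Y 2) (Y 1) (Y 7) (Y 6) (Y 8) (Y 4) (Y 3) (Y 5)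
      else 0 from rfl]
  rw [show cG GD (X ∘ pf (v5 0 2 1 3 4)) (Y ∘ pf (v5 0 2 1 3 4)) =
      if Y 9 = 0 then dG GD (X 1) (X 0) (X 2) (X 3) (X 5) (X 4) (X 6) (X 8) (X 7)
      (Y 1) (Y 0) (Y 2) (Y 3) (Y 5) (Y 4) (Y 6) (Y 8) (Y 7)
      else 0 from rfl]
  rw [show cG GD (X ∘ pf (v5 0 2 1 4 3)) (Y ∘ pf (v5 0 2 1 4 3)) =
      if Y 9 = 0 then dG GD (X 1) (X 0) (X 2) (X 6) (X 8) (X 7) (X 3) (X 5) (X 4)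
      (Y 1) (Y 0) (Y 2) (Y 6) (Y 8) (Y 7) (Y 3) (Y 5) (Y 4)
      else 0 from rfl]
  rw [show cG GD (X ∘ pf (v5 2 1 0 3 4)) (Y ∘ pf (v5 2 1 0 3 4)) =
      if Y 9 = 0 then dG GD (X 2) (X 1) (X 0) (X 5) (X 4) (X 3) (X 8) (X 7) (X 6)
      (Y 2) (Y 1) (Y 0) (Y 5) (Y 4) (Y 3) (Y 8) (Y 7) (Y 6)
      else 0 from rfl]
  rw [show cG GD (X ∘ pf (v5 2 1 0 4 3)) (Y ∘ pf (v5 2 1 0 4 3)) =
      if Y 9 = 0 then dG GD (X 2) (X 1) (X 0) (X 8) (X 7) (X 6) (X 5) (X 4) (X 3)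
      (Y 2) (Y 1) (Y 0) (Y 8) (Y 7) (Y 6) (Y 5) (Y 4) (Y 3)
      else 0 from rfl]
  rw [show cG GD (X ∘ pf (v5 1 2 0 3 4)) (Y ∘ pf (v5 1 2 0 3 4)) =
      if Y 9 = 0 then dG GD (X 2) (X 0) (X 1) (X 4) (X 5) (X 3) (X 7) (X 8) (X 6)
      (Y 2) (Y 0) (Y 1) (Y 4) (Y 5) (Y 3) (Y 7) (Y 8) (Y 6)
      else 0 from rfl]
  rw [show cG GD (X ∘ pf (v5 1 2 0 4 3)) (Y ∘ pf (v5 1 2 0 4 3)) =
      if Y 9 = 0 then dG GD (X 2) (X 0) (X 1) (X 7) (X 8) (X 6) (X 4) (X 5) (X 3)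
      (Y 2) (Y 0) (Y 1) (Y 7) (Y 8) (Y 6) (Y 4) (Y 5) (Y 3)
      else 0 from rfl]
  rw [show cG GD (X ∘ pf (v5 2 0 1 3 4)) (Y ∘ pf (v5 2 0 1 3 4)) =
      if Y 9 = 0 then dG GD (X 1) (X 2) (X 0) (X 5) (X 3) (X 4) (X 8) (X 6) (X 7)
      (Y 1) (Y 2) (Y 0) (Y 5) (Y 3) (Y 4) (Y 8) (Y 6) (Y 7)
      else 0 from rfl]
  rw [show cG GD (X ∘ pf (v5 2 0 1 4 3)) (Y ∘ pf (v5 2 0 1 4 3)) =
      if Y 9 = 0 then dG GD (X 1) (X 2) (X 0) (X 8) (X 6) (X 7) (X 5) (X 3) (X 4)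
      (Y 1) (Y 2) (Y 0) (Y 8) (Y 6) (Y 7) (Y 5) (Y 3) (Y 4)
      else 0 from rfl]
  cases hb : Nat.beq (Y 9) 0 with
  | false =>
    have hne : Y 9 ≠ 0 := Nat.ne_of_beq_eq_false hb
    simp only [if_neg hne, nt_false, hOF12, add_zero, zero_add]
    exact le_refl _
  | true =>
    have he : Y 9 = 0 := Nat.eq_of_beq_eq_true hb
    simp only [if_pos he, nt_true]
    have G0 := kG_ge GD (X 0) (X 1) (X 2) (X 3) (X 4) (X 5) (X 6) (X 7) (X 8)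
      (Y 0) (Y 1) (Y 2) (Y 3) (Y 4) (Y 5) (Y 6) (Y 7) (Y 8)
    have G1 := kG_ge GD (X 0) (X 2) (X 1) (X 4) (X 3) (X 5) (X 7) (X 6) (X 8)
      (Y 0) (Y 2) (Y 1) (Y 4) (Y 3) (Y 5) (Y 7) (Y 6) (Y 8)
    have G2 := kG_ge GD (X 1) (X 0) (X 2) (X 3) (X 5) (X 4) (X 6) (X 8) (X 7)
      (Y 1) (Y 0) (Y 2) (Y 3) (Y 5) (Y 4) (Y 6) (Y 8) (Y 7)
    have G3 := kG_ge GD (X 2) (X 1) (X 0) (X 5) (X 4) (X 3) (X 8) (X 7) (X 6)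
      (Y 2) (Y 1) (Y 0) (Y 5) (Y 4) (Y 3) (Y 8) (Y 7) (Y 6)
    have G4 := kG_ge GD (X 2) (X 0) (X 1) (X 4) (X 5) (X 3) (X 7) (X 8) (X 6)
      (Y 2) (Y 0) (Y 1) (Y 4) (Y 5) (Y 3) (Y 7) (Y 8) (Y 6)
    have G5 := kG_ge GD (X 1) (X 2) (X 0) (X 5) (X 3) (X 4) (X 8) (X 6) (X 7)
      (Y 1) (Y 2) (Y 0) (Y 5) (Y 3) (Y 4) (Y 8) (Y 6) (Y 7)
    unfold kGG
    simp only [nadd]
    push_cast
    linarith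

theorem sumT_ge (TD : Tr) (n : ℕ) (X Y : Fin 10 → ℕ) :
    (H12.map fun h => cT TD n (X ∘ pf h) (Y ∘ pf h)).sum + 12 * (OF : ℤ) ≤
    2 * ((nt (Nat.beq (Nat.add (Nat.add (Nat.add (Y 0) (Y 1)) (Y 2)) (Y 9)) n)
      (kTT TD (X 0) (X 1) (X 2) (X 9) (Y 0) (Y 1) (Y 2) (Y 9)) OF6 : ℕ) : ℤ) := by
  have hOF6 := OF6_z
  simp only [H12, List.map_cons, List.map_nil, List.sum_cons, List.sum_nil]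
  rw [show cT TD n (X ∘ pf (v5 0 1 2 3 4)) (Y ∘ pf (v5 0 1 2 3 4)) =
      if Y 0 + Y 1 + Y 2 + Y 9 = n then
      dT TD (X 0) (X 1) (X 2) (X 9) (Y 0) (Y 1) (Y 2) (Y 9)
      else 0 from rfl]
  rw [show cT TD n (X ∘ pf (v5 0 1 2 4 3)) (Y ∘ pf (v5 0 1 2 4 3)) =
      if Y 0 + Y 1 + Y 2 + Y 9 = n then
      dT TD (X 0) (X 1) (X 2) (X 9) (Y 0) (Y 1) (Y 2) (Y 9)
      else 0 from rfl]
  rw [show cT TD n (X ∘ pf (v5 1 0 2 3 4)) (Y ∘ pf (v5 1 0 2 3 4)) =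
      if Y 0 + Y 2 + Y 1 + Y 9 = n then
      dT TD (X 0) (X 2) (X 1) (X 9) (Y 0) (Y 2) (Y 1) (Y 9)
      else 0 from rfl]
  rw [show cT TD n (X ∘ pf (v5 1 0 2 4 3)) (Y ∘ pf (v5 1 0 2 4 3)) =
      if Y 0 + Y 2 + Y 1 + Y 9 = n then
      dT TD (X 0) (X 2) (X 1) (X 9) (Y 0) (Y 2) (Y 1) (Y 9)
      else 0 from rfl]
  rw [show cT TD n (X ∘ pf (v5 0 2 1 3 4)) (Y ∘ pf (v5 0 2 1 3 4)) =
      if Y 1 + Y 0 + Y 2 + Y 9 = n then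
      dT TD (X 1) (X 0) (X 2) (X 9) (Y 1) (Y 0) (Y 2) (Y 9)
      else 0 from rfl]
  rw [show cT TD n (X ∘ pf (v5 0 2 1 4 3)) (Y ∘ pf (v5 0 2 1 4 3)) =
      if Y 1 + Y 0 + Y 2 + Y 9 = n then
      dT TD (X 1) (X 0) (X 2) (X 9) (Y 1) (Y 0) (Y 2) (Y 9)
      else 0 from rfl]
  rw [show cT TD n (X ∘ pf (v5 2 1 0 3 4)) (Y ∘ pf (v5 2 1 0 3 4)) =
      if Y 2 + Y 1 + Y 0 + Y 9 = n then
      dT TD (X 2) (X 1) (X 0) (X 9) (Y 2) (Y 1) (Y 0) (Y 9)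
      else 0 from rfl]
  rw [show cT TD n (X ∘ pf (v5 2 1 0 4 3)) (Y ∘ pf (v5 2 1 0 4 3)) =
      if Y 2 + Y 1 + Y 0 + Y 9 = n then
      dT TD (X 2) (X 1) (X 0) (X 9) (Y 2) (Y 1) (Y 0) (Y 9)
      else 0 from rfl]
  rw [show cT TD n (X ∘ pf (v5 1 2 0 3 4)) (Y ∘ pf (v5 1 2 0 3 4)) =
      if Y 2 + Y 0 + Y 1 + Y 9 = n then
      dT TD (X 2) (X 0) (X 1) (X 9) (Y 2) (Y 0) (Y 1) (Y 9)
      else 0 from rfl]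
  rw [show cT TD n (X ∘ pf (v5 1 2 0 4 3)) (Y ∘ pf (v5 1 2 0 4 3)) =
      if Y 2 + Y 0 + Y 1 + Y 9 = n then
      dT TD (X 2) (X 0) (X 1) (X 9) (Y 2) (Y 0) (Y 1) (Y 9)
      else 0 from rfl]
  rw [show cT TD n (X ∘ pf (v5 2 0 1 3 4)) (Y ∘ pf (v5 2 0 1 3 4)) =
      if Y 1 + Y 2 + Y 0 + Y 9 = n then
      dT TD (X 1) (X 2) (X 0) (X 9) (Y 1) (Y 2) (Y 0) (Y 9)
      else 0 from rfl]
  rw [show cT TD n (X ∘ pf (v5 2 0 1 4 3)) (Y ∘ pf (v5 2 0 1 4 3)) =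
      if Y 1 + Y 2 + Y 0 + Y 9 = n then
      dT TD (X 1) (X 2) (X 0) (X 9) (Y 1) (Y 2) (Y 0) (Y 9)
      else 0 from rfl]
  rw [show Y 0 + Y 2 + Y 1 + Y 9 = Y 0 + Y 1 + Y 2 + Y 9 from by omega]
  rw [show Y 1 + Y 0 + Y 2 + Y 9 = Y 0 + Y 1 + Y 2 + Y 9 from by omega]
  rw [show Y 2 + Y 1 + Y 0 + Y 9 = Y 0 + Y 1 + Y 2 + Y 9 from by omega]
  rw [show Y 2 + Y 0 + Y 1 + Y 9 = Y 0 + Y 1 + Y 2 + Y 9 from by omega]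
  rw [show Y 1 + Y 2 + Y 0 + Y 9 = Y 0 + Y 1 + Y 2 + Y 9 from by omega]
  cases hb : Nat.beq (Nat.add (Nat.add (Nat.add (Y 0) (Y 1)) (Y 2)) (Y 9)) n with
  | false =>
    have hne : Y 0 + Y 1 + Y 2 + Y 9 ≠ n := Nat.ne_of_beq_eq_false hb
    simp only [if_neg hne, nt_false, hOF6]
    linarith
  | true =>
    have he : Y 0 + Y 1 + Y 2 + Y 9 = n := Nat.eq_of_beq_eq_true hb
    simp only [if_pos he, nt_true]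
    have T0 := kT_ge TD (X 0) (X 1) (X 2) (X 9) (Y 0) (Y 1) (Y 2) (Y 9)
    have T1 := kT_ge TD (X 0) (X 2) (X 1) (X 9) (Y 0) (Y 2) (Y 1) (Y 9)
    have T2 := kT_ge TD (X 1) (X 0) (X 2) (X 9) (Y 1) (Y 0) (Y 2) (Y 9)
    have T3 := kT_ge TD (X 2) (X 1) (X 0) (X 9) (Y 2) (Y 1) (Y 0) (Y 9)
    have T4 := kT_ge TD (X 2) (X 0) (X 1) (X 9) (Y 2) (Y 0) (Y 1) (Y 9)
    have T5 := kT_ge TD (X 1) (X 2) (X 0) (X 9) (Y 1) (Y 2) (Y 0) (Y 9)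
    unfold kTT
    simp only [nadd]
    push_cast
    linarith

/-- sum over the twelve permutations of a triple and a pair -/
noncomputable def Tri (GD TD : Tr) (n : ℕ) (X Y : Fin 10 → ℕ) : ℤ :=
  (H12.map fun h => cG GD (X ∘ pf h) (Y ∘ pf h) + cT TD n (X ∘ pf h) (Y ∘ pf h)).sum

theorem kTri_ge (GD TD : Tr) (n : ℕ) (X Y : Fin 10 → ℕ) :
    Tri GD TD n X Y + 24 * (OF : ℤ) ≤
    (kTri GD TD n (X 0) (X 1) (X 2) (X 3) (X 4) (X 5) (X 6) (X 7) (X 8) (X 9)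
      (Y 0) (Y 1) (Y 2) (Y 3) (Y 4) (Y 5) (Y 6) (Y 7) (Y 8) (Y 9) : ℤ) := by
  have h1 := sumG_ge GD X Y
  have h2 := sumT_ge TD n X Y
  have h3 : Tri GD TD n X Y = (H12.map fun h => cG GD (X ∘ pf h) (Y ∘ pf h)).sum +
      (H12.map fun h => cT TD n (X ∘ pf h) (Y ∘ pf h)).sum := by
    unfold Tri
    exact List.sum_map_add
  rw [h3]
  unfold kTri
  rw [nadd, nmul]
  push_cast
  linarith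

/-- sum over the eight permutations of a rooted pairing -/
noncomputable def Pai (PD : Tr) (n : ℕ) (X Y : Fin 10 → ℕ) : ℤ :=
  (H8.map fun h => cP PD n (X ∘ pf h) (Y ∘ pf h)).sum

theorem kPai_ge (PD : Tr) (n : ℕ) (X Y : Fin 10 → ℕ) :
    Pai PD n X Y + 8 * (OF : ℤ) ≤
    (kPai PD n (X 0) (X 1) (X 2) (X 3) (X 6) (X 9) (Y 0) (Y 1) (Y 2) (Y 3) (Y 6) (Y 9) : ℤ) := by
  have hOF8 := OF8_z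
  unfold Pai
  simp only [H8, List.map_cons, List.map_nil, List.sum_cons, List.sum_nil]
  rw [show cP PD n (X ∘ pf (v5 0 1 2 3 4)) (Y ∘ pf (v5 0 1 2 3 4)) =
      if Y 0 + Y 1 + Y 2 + Y 3 + Y 6 + Y 9 = n then
      dP PD (X 0) (X 1) (X 2) (X 3) (X 6) (X 9) (Y 0) (Y 1) (Y 2) (Y 3) (Y 6) (Y 9)
      else 0 from rfl]
  rw [show cP PD n (X ∘ pf (v5 0 2 1 3 4)) (Y ∘ pf (v5 0 2 1 3 4)) =
      if Y 1 + Y 0 + Y 2 + Y 3 + Y 6 + Y 9 = n then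
      dP PD (X 1) (X 0) (X 2) (X 3) (X 6) (X 9) (Y 1) (Y 0) (Y 2) (Y 3) (Y 6) (Y 9)
      else 0 from rfl]
  rw [show cP PD n (X ∘ pf (v5 0 1 2 4 3)) (Y ∘ pf (v5 0 1 2 4 3)) =
      if Y 0 + Y 1 + Y 2 + Y 6 + Y 3 + Y 9 = n then
      dP PD (X 0) (X 1) (X 2) (X 6) (X 3) (X 9) (Y 0) (Y 1) (Y 2) (Y 6) (Y 3) (Y 9)
      else 0 from rfl]
  rw [show cP PD n (X ∘ pf (v5 0 2 1 4 3)) (Y ∘ pf (v5 0 2 1 4 3)) =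
      if Y 1 + Y 0 + Y 2 + Y 6 + Y 3 + Y 9 = n then
      dP PD (X 1) (X 0) (X 2) (X 6) (X 3) (X 9) (Y 1) (Y 0) (Y 2) (Y 6) (Y 3) (Y 9)
      else 0 from rfl]
  rw [show cP PD n (X ∘ pf (v5 0 3 4 1 2)) (Y ∘ pf (v5 0 3 4 1 2)) =
      if Y 3 + Y 6 + Y 9 + Y 0 + Y 1 + Y 2 = n then
      dP PD (X 3) (X 6) (X 9) (X 0) (X 1) (X 2) (Y 3) (Y 6) (Y 9) (Y 0) (Y 1) (Y 2)
      else 0 from rfl]
  rw [show cP PD n (X ∘ pf (v5 0 4 3 1 2)) (Y ∘ pf (v5 0 4 3 1 2)) =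
      if Y 6 + Y 3 + Y 9 + Y 0 + Y 1 + Y 2 = n then
      dP PD (X 6) (X 3) (X 9) (X 0) (X 1) (X 2) (Y 6) (Y 3) (Y 9) (Y 0) (Y 1) (Y 2)
      else 0 from rfl]
  rw [show cP PD n (X ∘ pf (v5 0 3 4 2 1)) (Y ∘ pf (v5 0 3 4 2 1)) =
      if Y 3 + Y 6 + Y 9 + Y 1 + Y 0 + Y 2 = n then
      dP PD (X 3) (X 6) (X 9) (X 1) (X 0) (X 2) (Y 3) (Y 6) (Y 9) (Y 1) (Y 0) (Y 2)
      else 0 from rfl]
  rw [show cP PD n (X ∘ pf (v5 0 4 3 2 1)) (Y ∘ pf (v5 0 4 3 2 1)) =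
      if Y 6 + Y 3 + Y 9 + Y 1 + Y 0 + Y 2 = n then
      dP PD (X 6) (X 3) (X 9) (X 1) (X 0) (X 2) (Y 6) (Y 3) (Y 9) (Y 1) (Y 0) (Y 2)
      else 0 from rfl]
  rw [show Y 1 + Y 0 + Y 2 + Y 3 + Y 6 + Y 9 =
      Y 0 + Y 1 + Y 2 + Y 3 + Y 6 + Y 9 from by omega]
  rw [show Y 0 + Y 1 + Y 2 + Y 6 + Y 3 + Y 9 =
      Y 0 + Y 1 + Y 2 + Y 3 + Y 6 + Y 9 from by omega]
  rw [show Y 1 + Y 0 + Y 2 + Y 6 + Y 3 + Y 9 =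
      Y 0 + Y 1 + Y 2 + Y 3 + Y 6 + Y 9 from by omega]
  rw [show Y 3 + Y 6 + Y 9 + Y 0 + Y 1 + Y 2 =
      Y 0 + Y 1 + Y 2 + Y 3 + Y 6 + Y 9 from by omega]
  rw [show Y 6 + Y 3 + Y 9 + Y 0 + Y 1 + Y 2 =
      Y 0 + Y 1 + Y 2 + Y 3 + Y 6 + Y 9 from by omega]
  rw [show Y 3 + Y 6 + Y 9 + Y 1 + Y 0 + Y 2 =
      Y 0 + Y 1 + Y 2 + Y 3 + Y 6 + Y 9 from by omega]
  rw [show Y 6 + Y 3 + Y 9 + Y 1 + Y 0 + Y 2 =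
      Y 0 + Y 1 + Y 2 + Y 3 + Y 6 + Y 9 from by omega]
  unfold kPai
  cases hb : Nat.beq (Nat.add (Nat.add (Nat.add (Nat.add (Nat.add (Y 0) (Y 1)) (Y 2)) (Y 3)) (Y 6))
      (Y 9)) n with
  | false =>
    have hne : Y 0 + Y 1 + Y 2 + Y 3 + Y 6 + Y 9 ≠ n := Nat.ne_of_beq_eq_false hb
    simp only [if_neg hne, nt_false, hOF8]
    linarith
  | true =>
    have he : Y 0 + Y 1 + Y 2 + Y 3 + Y 6 + Y 9 = n := Nat.eq_of_beq_eq_true hb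
    simp only [if_pos he, nt_true, nadd]
    have P0 := kP_ge PD (X 0) (X 1) (X 2) (X 3) (X 6) (X 9) (Y 0) (Y 1) (Y 2) (Y 3) (Y 6) (Y 9)
    have P1 := kP_ge PD (X 1) (X 0) (X 2) (X 3) (X 6) (X 9) (Y 1) (Y 0) (Y 2) (Y 3) (Y 6) (Y 9)
    have P2 := kP_ge PD (X 0) (X 1) (X 2) (X 6) (X 3) (X 9) (Y 0) (Y 1) (Y 2) (Y 6) (Y 3) (Y 9)
    have P3 := kP_ge PD (X 1) (X 0) (X 2) (X 6) (X 3) (X 9) (Y 1) (Y 0) (Y 2) (Y 6) (Y 3) (Y 9)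
    have P4 := kP_ge PD (X 3) (X 6) (X 9) (X 0) (X 1) (X 2) (Y 3) (Y 6) (Y 9) (Y 0) (Y 1) (Y 2)
    have P5 := kP_ge PD (X 6) (X 3) (X 9) (X 0) (X 1) (X 2) (Y 6) (Y 3) (Y 9) (Y 0) (Y 1) (Y 2)
    have P6 := kP_ge PD (X 3) (X 6) (X 9) (X 1) (X 0) (X 2) (Y 3) (Y 6) (Y 9) (Y 1) (Y 0) (Y 2)
    have P7 := kP_ge PD (X 6) (X 3) (X 9) (X 1) (X 0) (X 2) (Y 6) (Y 3) (Y 9) (Y 1) (Y 0) (Y 2)
    push_cast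
    linarith

theorem kTris_ge (GD TD : Tr) (n : ℕ) (X Y : Fin 10 → ℕ) :
    (R10.map fun r => Tri GD TD n (X ∘ pf r) (Y ∘ pf r)).sum + 240 * (OF : ℤ) ≤
    (kTris GD TD n (X 0) (X 1) (X 2) (X 3) (X 4) (X 5) (X 6) (X 7) (X 8) (X 9)
      (Y 0) (Y 1) (Y 2) (Y 3) (Y 4) (Y 5) (Y 6) (Y 7) (Y 8) (Y 9) : ℤ) := by
  simp only [R10, List.map_cons, List.map_nil, List.sum_cons, List.sum_nil]
  have r0 : Tri GD TD n (X ∘ pf (v5 0 1 2 3 4)) (Y ∘ pf (v5 0 1 2 3 4)) + 24 * (OF : ℤ) ≤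
      (kTri GD TD n (X 0) (X 1) (X 2) (X 3) (X 4) (X 5) (X 6) (X 7) (X 8) (X 9)
      (Y 0) (Y 1) (Y 2) (Y 3) (Y 4) (Y 5) (Y 6) (Y 7) (Y 8) (Y 9) : ℤ) := kTri_ge GD TD n (X ∘ pf (v5 0 1 2 3 4)) (Y ∘ pf (v5 0 1 2 3 4))
  have r1 : Tri GD TD n (X ∘ pf (v5 0 1 3 2 4)) (Y ∘ pf (v5 0 1 3 2 4)) + 24 * (OF : ℤ) ≤
      (kTri GD TD n (X 0) (X 3) (X 4) (X 1) (X 2) (X 5) (X 6) (X 7) (X 9) (X 8)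
      (Y 0) (Y 3) (Y 4) (Y 1) (Y 2) (Y 5) (Y 6) (Y 7) (Y 9) (Y 8) : ℤ) := kTri_ge GD TD n (X ∘ pf (v5 0 1 3 2 4)) (Y ∘ pf (v5 0 1 3 2 4))
  have r2 : Tri GD TD n (X ∘ pf (v5 0 2 3 1 4)) (Y ∘ pf (v5 0 2 3 1 4)) + 24 * (OF : ℤ) ≤
      (kTri GD TD n (X 1) (X 3) (X 5) (X 0) (X 2) (X 4) (X 6) (X 8) (X 9) (X 7)
      (Y 1) (Y 3) (Y 5) (Y 0) (Y 2) (Y 4) (Y 6) (Y 8) (Y 9) (Y 7) : ℤ) := kTri_ge GD TD n (X ∘ pf (v5 0 2 3 1 4)) (Y ∘ pf (v5 0 2 3 1 4))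
  have r3 : Tri GD TD n (X ∘ pf (v5 1 2 3 0 4)) (Y ∘ pf (v5 1 2 3 0 4)) + 24 * (OF : ℤ) ≤
      (kTri GD TD n (X 2) (X 4) (X 5) (X 0) (X 1) (X 3) (X 7) (X 8) (X 9) (X 6)
      (Y 2) (Y 4) (Y 5) (Y 0) (Y 1) (Y 3) (Y 7) (Y 8) (Y 9) (Y 6) : ℤ) := kTri_ge GD TD n (X ∘ pf (v5 1 2 3 0 4)) (Y ∘ pf (v5 1 2 3 0 4))
  have r4 : Tri GD TD n (X ∘ pf (v5 0 1 4 2 3)) (Y ∘ pf (v5 0 1 4 2 3)) + 24 * (OF : ℤ) ≤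
      (kTri GD TD n (X 0) (X 6) (X 7) (X 1) (X 2) (X 8) (X 3) (X 4) (X 9) (X 5)
      (Y 0) (Y 6) (Y 7) (Y 1) (Y 2) (Y 8) (Y 3) (Y 4) (Y 9) (Y 5) : ℤ) := kTri_ge GD TD n (X ∘ pf (v5 0 1 4 2 3)) (Y ∘ pf (v5 0 1 4 2 3))
  have r5 : Tri GD TD n (X ∘ pf (v5 0 2 4 1 3)) (Y ∘ pf (v5 0 2 4 1 3)) + 24 * (OF : ℤ) ≤
      (kTri GD TD n (X 1) (X 6) (X 8) (X 0) (X 2) (X 7) (X 3) (X 5) (X 9) (X 4)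
      (Y 1) (Y 6) (Y 8) (Y 0) (Y 2) (Y 7) (Y 3) (Y 5) (Y 9) (Y 4) : ℤ) := kTri_ge GD TD n (X ∘ pf (v5 0 2 4 1 3)) (Y ∘ pf (v5 0 2 4 1 3))
  have r6 : Tri GD TD n (X ∘ pf (v5 1 2 4 0 3)) (Y ∘ pf (v5 1 2 4 0 3)) + 24 * (OF : ℤ) ≤
      (kTri GD TD n (X 2) (X 7) (X 8) (X 0) (X 1) (X 6) (X 4) (X 5) (X 9) (X 3)
      (Y 2) (Y 7) (Y 8) (Y 0) (Y 1) (Y 6) (Y 4) (Y 5) (Y 9) (Y 3) : ℤ) := kTri_ge GD TD n (X ∘ pf (v5 1 2 4 0 3)) (Y ∘ pf (v5 1 2 4 0 3))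
  have r7 : Tri GD TD n (X ∘ pf (v5 0 3 4 1 2)) (Y ∘ pf (v5 0 3 4 1 2)) + 24 * (OF : ℤ) ≤
      (kTri GD TD n (X 3) (X 6) (X 9) (X 0) (X 4) (X 7) (X 1) (X 5) (X 8) (X 2)
      (Y 3) (Y 6) (Y 9) (Y 0) (Y 4) (Y 7) (Y 1) (Y 5) (Y 8) (Y 2) : ℤ) := kTri_ge GD TD n (X ∘ pf (v5 0 3 4 1 2)) (Y ∘ pf (v5 0 3 4 1 2))
  have r8 : Tri GD TD n (X ∘ pf (v5 1 3 4 0 2)) (Y ∘ pf (v5 1 3 4 0 2)) + 24 * (OF : ℤ) ≤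
      (kTri GD TD n (X 4) (X 7) (X 9) (X 0) (X 3) (X 6) (X 2) (X 5) (X 8) (X 1)
      (Y 4) (Y 7) (Y 9) (Y 0) (Y 3) (Y 6) (Y 2) (Y 5) (Y 8) (Y 1) : ℤ) := kTri_ge GD TD n (X ∘ pf (v5 1 3 4 0 2)) (Y ∘ pf (v5 1 3 4 0 2))
  have r9 : Tri GD TD n (X ∘ pf (v5 2 3 4 0 1)) (Y ∘ pf (v5 2 3 4 0 1)) + 24 * (OF : ℤ) ≤
      (kTri GD TD n (X 5) (X 8) (X 9) (X 1) (X 3) (X 6) (X 2) (X 4) (X 7) (X 0)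
      (Y 5) (Y 8) (Y 9) (Y 1) (Y 3) (Y 6) (Y 2) (Y 4) (Y 7) (Y 0) : ℤ) := kTri_ge GD TD n (X ∘ pf (v5 2 3 4 0 1)) (Y ∘ pf (v5 2 3 4 0 1))
  unfold kTris
  simp only [nadd]
  push_cast
  linarith

theorem kPais_ge (PD : Tr) (n : ℕ) (X Y : Fin 10 → ℕ) :
    (R15.map fun r => Pai PD n (X ∘ pf r) (Y ∘ pf r)).sum + 120 * (OF : ℤ) ≤
    (kPais PD n (X 0) (X 1) (X 2) (X 3) (X 4) (X 5) (X 6) (X 7) (X 8) (X 9)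
      (Y 0) (Y 1) (Y 2) (Y 3) (Y 4) (Y 5) (Y 6) (Y 7) (Y 8) (Y 9) : ℤ) := by
  simp only [R15, List.map_cons, List.map_nil, List.sum_cons, List.sum_nil]
  have r0 : Pai PD n (X ∘ pf (v5 0 1 2 3 4)) (Y ∘ pf (v5 0 1 2 3 4)) + 8 * (OF : ℤ) ≤
      (kPai PD n (X 0) (X 1) (X 2) (X 3) (X 6) (X 9) (Y 0) (Y 1) (Y 2) (Y 3) (Y 6) (Y 9) : ℤ) :=
      kPai_ge PD n (X ∘ pf (v5 0 1 2 3 4)) (Y ∘ pf (v5 0 1 2 3 4))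
  have r1 : Pai PD n (X ∘ pf (v5 0 1 3 2 4)) (Y ∘ pf (v5 0 1 3 2 4)) + 8 * (OF : ℤ) ≤
      (kPai PD n (X 0) (X 3) (X 4) (X 1) (X 6) (X 8) (Y 0) (Y 3) (Y 4) (Y 1) (Y 6) (Y 8) : ℤ) :=
      kPai_ge PD n (X ∘ pf (v5 0 1 3 2 4)) (Y ∘ pf (v5 0 1 3 2 4))
  have r2 : Pai PD n (X ∘ pf (v5 0 1 4 2 3)) (Y ∘ pf (v5 0 1 4 2 3)) + 8 * (OF : ℤ) ≤
      (kPai PD n (X 0) (X 6) (X 7) (X 1) (X 3) (X 5) (Y 0) (Y 6) (Y 7) (Y 1) (Y 3) (Y 5) : ℤ) :=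
      kPai_ge PD n (X ∘ pf (v5 0 1 4 2 3)) (Y ∘ pf (v5 0 1 4 2 3))
  have r3 : Pai PD n (X ∘ pf (v5 1 0 2 3 4)) (Y ∘ pf (v5 1 0 2 3 4)) + 8 * (OF : ℤ) ≤
      (kPai PD n (X 0) (X 2) (X 1) (X 4) (X 7) (X 9) (Y 0) (Y 2) (Y 1) (Y 4) (Y 7) (Y 9) : ℤ) :=
      kPai_ge PD n (X ∘ pf (v5 1 0 2 3 4)) (Y ∘ pf (v5 1 0 2 3 4))
  have r4 : Pai PD n (X ∘ pf (v5 1 0 3 2 4)) (Y ∘ pf (v5 1 0 3 2 4)) + 8 * (OF : ℤ) ≤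
      (kPai PD n (X 0) (X 4) (X 3) (X 2) (X 7) (X 8) (Y 0) (Y 4) (Y 3) (Y 2) (Y 7) (Y 8) : ℤ) :=
      kPai_ge PD n (X ∘ pf (v5 1 0 3 2 4)) (Y ∘ pf (v5 1 0 3 2 4))
  have r5 : Pai PD n (X ∘ pf (v5 1 0 4 2 3)) (Y ∘ pf (v5 1 0 4 2 3)) + 8 * (OF : ℤ) ≤
      (kPai PD n (X 0) (X 7) (X 6) (X 2) (X 4) (X 5) (Y 0) (Y 7) (Y 6) (Y 2) (Y 4) (Y 5) : ℤ) :=
      kPai_ge PD n (X ∘ pf (v5 1 0 4 2 3)) (Y ∘ pf (v5 1 0 4 2 3))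
  have r6 : Pai PD n (X ∘ pf (v5 2 0 1 3 4)) (Y ∘ pf (v5 2 0 1 3 4)) + 8 * (OF : ℤ) ≤
      (kPai PD n (X 1) (X 2) (X 0) (X 5) (X 8) (X 9) (Y 1) (Y 2) (Y 0) (Y 5) (Y 8) (Y 9) : ℤ) :=
      kPai_ge PD n (X ∘ pf (v5 2 0 1 3 4)) (Y ∘ pf (v5 2 0 1 3 4))
  have r7 : Pai PD n (X ∘ pf (v5 2 0 3 1 4)) (Y ∘ pf (v5 2 0 3 1 4)) + 8 * (OF : ℤ) ≤
      (kPai PD n (X 1) (X 5) (X 3) (X 2) (X 8) (X 7) (Y 1) (Y 5) (Y 3) (Y 2) (Y 8) (Y 7) : ℤ) :=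
      kPai_ge PD n (X ∘ pf (v5 2 0 3 1 4)) (Y ∘ pf (v5 2 0 3 1 4))
  have r8 : Pai PD n (X ∘ pf (v5 2 0 4 1 3)) (Y ∘ pf (v5 2 0 4 1 3)) + 8 * (OF : ℤ) ≤
      (kPai PD n (X 1) (X 8) (X 6) (X 2) (X 5) (X 4) (Y 1) (Y 8) (Y 6) (Y 2) (Y 5) (Y 4) : ℤ) :=
      kPai_ge PD n (X ∘ pf (v5 2 0 4 1 3)) (Y ∘ pf (v5 2 0 4 1 3))
  have r9 : Pai PD n (X ∘ pf (v5 3 0 1 2 4)) (Y ∘ pf (v5 3 0 1 2 4)) + 8 * (OF : ℤ) ≤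
      (kPai PD n (X 3) (X 4) (X 0) (X 5) (X 9) (X 8) (Y 3) (Y 4) (Y 0) (Y 5) (Y 9) (Y 8) : ℤ) :=
      kPai_ge PD n (X ∘ pf (v5 3 0 1 2 4)) (Y ∘ pf (v5 3 0 1 2 4))
  have r10 : Pai PD n (X ∘ pf (v5 3 0 2 1 4)) (Y ∘ pf (v5 3 0 2 1 4)) + 8 * (OF : ℤ) ≤
      (kPai PD n (X 3) (X 5) (X 1) (X 4) (X 9) (X 7) (Y 3) (Y 5) (Y 1) (Y 4) (Y 9) (Y 7) : ℤ) :=
      kPai_ge PD n (X ∘ pf (v5 3 0 2 1 4)) (Y ∘ pf (v5 3 0 2 1 4))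
  have r11 : Pai PD n (X ∘ pf (v5 3 0 4 1 2)) (Y ∘ pf (v5 3 0 4 1 2)) + 8 * (OF : ℤ) ≤
      (kPai PD n (X 3) (X 9) (X 6) (X 4) (X 5) (X 2) (Y 3) (Y 9) (Y 6) (Y 4) (Y 5) (Y 2) : ℤ) :=
      kPai_ge PD n (X ∘ pf (v5 3 0 4 1 2)) (Y ∘ pf (v5 3 0 4 1 2))
  have r12 : Pai PD n (X ∘ pf (v5 4 0 1 2 3)) (Y ∘ pf (v5 4 0 1 2 3)) + 8 * (OF : ℤ) ≤
      (kPai PD n (X 6) (X 7) (X 0) (X 8) (X 9) (X 5) (Y 6) (Y 7) (Y 0) (Y 8) (Y 9) (Y 5) : ℤ) :=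
      kPai_ge PD n (X ∘ pf (v5 4 0 1 2 3)) (Y ∘ pf (v5 4 0 1 2 3))
  have r13 : Pai PD n (X ∘ pf (v5 4 0 2 1 3)) (Y ∘ pf (v5 4 0 2 1 3)) + 8 * (OF : ℤ) ≤
      (kPai PD n (X 6) (X 8) (X 1) (X 7) (X 9) (X 4) (Y 6) (Y 8) (Y 1) (Y 7) (Y 9) (Y 4) : ℤ) :=
      kPai_ge PD n (X ∘ pf (v5 4 0 2 1 3)) (Y ∘ pf (v5 4 0 2 1 3))
  have r14 : Pai PD n (X ∘ pf (v5 4 0 3 1 2)) (Y ∘ pf (v5 4 0 3 1 2)) + 8 * (OF : ℤ) ≤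
      (kPai PD n (X 6) (X 9) (X 3) (X 7) (X 8) (X 2) (Y 6) (Y 9) (Y 3) (Y 7) (Y 8) (Y 2) : ℤ) :=
      kPai_ge PD n (X ∘ pf (v5 4 0 3 1 2)) (Y ∘ pf (v5 4 0 3 1 2))
  unfold kPais
  simp only [nadd]
  push_cast
  linarith

/-- coefficient of the sum of all pieces -/
noncomputable def cA (GD PD TD : Tr) (n : ℕ) (X Y : Fin 10 → ℕ) : ℤ :=
  cG GD X Y + cT TD n X Y + cP PD n X Y

theorem leafN_ge (GD PD TD t : Tr) (n : ℕ) (X Y : Fin 10 → ℕ) :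
    (∑ π : Equiv.Perm (Fin 5), cA GD PD TD n (X ∘ pe π) (Y ∘ pe π)) + z t + 361 * (OF : ℤ) ≤
    (leafN GD PD TD t n (X 0) (X 1) (X 2) (X 3) (X 4) (X 5) (X 6) (X 7) (X 8) (X 9)
      (Y 0) (Y 1) (Y 2) (Y 3) (Y 4) (Y 5) (Y 6) (Y 7) (Y 8) (Y 9) : ℤ) := by
  have h1 : (∑ π : Equiv.Perm (Fin 5), cA GD PD TD n (X ∘ pe π) (Y ∘ pe π)) =
      (∑ π : Equiv.Perm (Fin 5), (cG GD (X ∘ pf π) (Y ∘ pf π) + cT TD n (X ∘ pf π) (Y ∘ pf π))) +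
      ∑ π : Equiv.Perm (Fin 5), cP PD n (X ∘ pf π) (Y ∘ pf π) := by
    rw [← Finset.sum_add_distrib]
    rfl
  have h2 := sum12 (fun φ => cG GD (X ∘ pf φ) (Y ∘ pf φ) + cT TD n (X ∘ pf φ) (Y ∘ pf φ))
  have h3 := sum8 (fun φ => cP PD n (X ∘ pf φ) (Y ∘ pf φ))
  have h4 : (R10.map fun r => (H12.map fun h => cG GD (X ∘ pf (r ∘ h)) (Y ∘ pf (r ∘ h)) +
      cT TD n (X ∘ pf (r ∘ h)) (Y ∘ pf (r ∘ h))).sum).sum =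
      (R10.map fun r => Tri GD TD n (X ∘ pf r) (Y ∘ pf r)).sum := by
    refine congrArg List.sum (List.map_congr_left fun r _ => ?_)
    unfold Tri
    refine congrArg List.sum (List.map_congr_left fun h hh => ?_)
    rw [pf_comp r h (injH12 h hh)]
    rfl
  have h5 : (R15.map fun r => (H8.map fun h => cP PD n (X ∘ pf (r ∘ h)) (Y ∘ pf (r ∘ h))).sum).sum
      = (R15.map fun r => Pai PD n (X ∘ pf r) (Y ∘ pf r)).sum := by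
    refine congrArg List.sum (List.map_congr_left fun r _ => ?_)
    unfold Pai
    refine congrArg List.sum (List.map_congr_left fun h hh => ?_)
    rw [pf_comp r h (injH8 h hh)]
    rfl
  have h6 := kTris_ge GD TD n X Y
  have h7 := kPais_ge PD n X Y
  have h8 := z_le_v t
  rw [h1, h2, h3, h4, h5]
  unfold leafN
  rw [nadd, nadd]
  push_cast
  linarith

theorem leafB_imp (GD PD TD t : Tr) (n : ℕ) (X Y : Fin 10 → ℕ)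
    (h : leafB GD PD TD t n (X 0) (X 1) (X 2) (X 3) (X 4) (X 5) (X 6) (X 7) (X 8) (X 9)
      (Y 0) (Y 1) (Y 2) (Y 3) (Y 4) (Y 5) (Y 6) (Y 7) (Y 8) (Y 9) = true) :
    (∑ π : Equiv.Perm (Fin 5), cA GD PD TD n (X ∘ pe π) (Y ∘ pe π)) + z t ≤ 0 := by
  have h1 := leafN_ge GD PD TD t n X Y
  have h2 := Nat.le_of_ble_eq_true h
  have h3 := OFall_z
  have h4 : (leafN GD PD TD t n (X 0) (X 1) (X 2) (X 3) (X 4) (X 5) (X 6) (X 7) (X 8) (X 9)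
      (Y 0) (Y 1) (Y 2) (Y 3) (Y 4) (Y 5) (Y 6) (Y 7) (Y 8) (Y 9) : ℤ) ≤ (OFall : ℤ) := by exact_mod_cast h2
  linarith

end Fl

end HR
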