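import Pool.Agent.Lib.MP_a1b8b7_co.B.MainA

/-!
# The main check: from the kernel test to the polynomial inequality
-/

set_option autoImplicit false

open Finset

namespace HR

namespace Fl

open Tr

theorem nsub (a b : ℕ) : Nat.sub a b = a - b := id rfl

theorem mainK_imp (GD PD TD t : Tr) (D : ℕ) (X Y : Fin 10 → ℕ)
    (h : mainK GD PD TD t D (X 0) (X 1) (X 2) (X 3) (X 4) (X 5) (X 6) (X 7) (X 8) (X 9) = true)
    (hY : Y 0 + Y 1 + Y 2 + Y 3 + Y 4 + Y 5 + Y 6 + Y 7 + Y 8 + Y 9 ≤ D) :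
    (∑ π : Equiv.Perm (Fin 5), cA GD PD TD (Y 0 + Y 1 + Y 2 + Y 3 + Y 4 + Y 5 + Y 6 + Y 7 + Y 8 + Y 9)
      (X ∘ pe π) (Y ∘ pe π)) + z (lookF 10 t Y) ≤ 0 := by
  unfold mainK at h
  unfold m0 at h
  rw [allk_iff] at h
  replace h := h (Y 0) (by
    simp only [Nat.succ_eq_add_one]
    omega)
  unfold m1 at h
  rw [allk_iff] at h
  replace h := h (Y 1) (by
    simp only [nsub, Nat.succ_eq_add_one]
    omega)
  unfold m2 at h
  rw [allk_iff] at h
  replace h := h (Y 2) (by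
    simp only [nsub, Nat.succ_eq_add_one]
    omega)
  unfold m3 at h
  rw [allk_iff] at h
  replace h := h (Y 3) (by
    simp only [nsub, Nat.succ_eq_add_one]
    omega)
  unfold m4 at h
  rw [allk_iff] at h
  replace h := h (Y 4) (by
    simp only [nsub, Nat.succ_eq_add_one]
    omega)
  unfold m5 at h
  rw [allk_iff] at h
  replace h := h (Y 5) (by
    simp only [nsub, Nat.succ_eq_add_one]
    omega)
  unfold m6 at h
  rw [allk_iff] at h
  replace h := h (Y 6) (by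
    simp only [nsub, Nat.succ_eq_add_one]
    omega)
  unfold m7 at h
  rw [allk_iff] at h
  replace h := h (Y 7) (by
    simp only [nsub, Nat.succ_eq_add_one]
    omega)
  unfold m8 at h
  rw [allk_iff] at h
  replace h := h (Y 8) (by
    simp only [nsub, Nat.succ_eq_add_one]
    omega)
  unfold m9 at h
  rw [allk_iff] at h
  replace h := h (Y 9) (by
    simp only [nsub, Nat.succ_eq_add_one]
    omega)
  have h2 := leafB_imp GD PD TD _ _ X Y h
  have e1 : (Nat.add (Nat.add (Nat.add (Nat.add (Nat.add (Nat.add (Nat.add (Nat.add (Nat.add (Nat.add 0 (Y 0)) (Y 1)) (Y 2)) (Y 3)) (Y 4)) (Y 5)) (Y 6)) (Y 7)) (Y 8)) (Y 9)) = Y 0 + Y 1 + Y 2 + Y 3 + Y 4 + Y 5 + Y 6 + Y 7 + Y 8 + Y 9 := by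
    change 0 + Y 0 + Y 1 + Y 2 + Y 3 + Y 4 + Y 5 + Y 6 + Y 7 + Y 8 + Y 9 = Y 0 + Y 1 + Y 2 + Y 3 + Y 4 + Y 5 + Y 6 + Y 7 + Y 8 + Y 9
    omega
  have e2 : (get (get (get (get (get (get (get (get (get (get t (Y 0)) (Y 1)) (Y 2)) (Y 3)) (Y 4)) (Y 5)) (Y 6)) (Y 7)) (Y 8)) (Y 9)) =
      lookF 10 t Y := rfl
  rw [e1, e2] at h2
  exact h2

/-- a polynomial function of the data given by its coefficients -/
noncomputable def RC (D : ℕ) (c : (Fin 10 → ℕ) → (Fin 10 → ℕ) → ℤ) (d : Fin 10 → Bool × ℝ) : ℝ :=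
  ∑ α : Fin 10 → Fin (D + 1), (c (fun e => cn (d e).1) (fun e => (α e : ℕ)) : ℝ) *
    ∏ e, (d e).2 ^ (α e : ℕ)

theorem RC_comp (D : ℕ) (c : (Fin 10 → ℕ) → (Fin 10 → ℕ) → ℤ) (d : Fin 10 → Bool × ℝ)
    (π : Equiv.Perm (Fin 5)) : RC D c (d ∘ pe π) = RC D (fun X Y => c (X ∘ pe π) (Y ∘ pe π)) d := by
  unfold RC
  rw [← Equiv.sum_comp (Equiv.arrowCongr (peE π).symm (Equiv.refl (Fin (D + 1))))]
  refine Finset.sum_congr rfl fun α _ => ?_
  congr 1
  exact Equiv.prod_comp (peE π) (fun e => (d e).2 ^ (α e : ℕ))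

theorem RC_sum (D : ℕ) (c : Equiv.Perm (Fin 5) → (Fin 10 → ℕ) → (Fin 10 → ℕ) → ℤ)
    (d : Fin 10 → Bool × ℝ) :
    ∑ π : Equiv.Perm (Fin 5), RC D (c π) d = RC D (fun X Y => ∑ π, c π X Y) d := by
  unfold RC
  rw [Finset.sum_comm]
  refine Finset.sum_congr rfl fun α _ => ?_
  rw [← Finset.sum_mul]
  push_cast
  rfl

/-- exponents extended by zero -/
noncomputable def exd {D n : ℕ} (ι : Fin n → Fin 10) (β : Fin n → Fin (D + 1)) :
    Fin 10 → Fin (D + 1) := Function.extend ι β (fun _ => 0)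

theorem pol_embed (D n : ℕ) (t : Tr) (ι : Fin n → Fin 10) (hι : Function.Injective ι)
    (w : Fin 10 → ℝ) :
    pol D n t (fun i => w (ι i)) = ∑ α : Fin 10 → Fin (D + 1),
      if (∀ e, e ∉ Set.range ι → (α e : ℕ) = 0) ∧ ∑ e, (α e : ℕ) ≤ D then
        (z (lookF n t (fun i => (α (ι i) : ℕ))) : ℝ) * ∏ e, w e ^ (α e : ℕ) else 0 := by
  classical
  unfold pol
  have hv : ∀ β : Fin n → Fin (D + 1), ∀ i, exd ι β (ι i) = β i :=
    fun β i => hι.extend_apply β _ i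
  have hv' : ∀ β : Fin n → Fin (D + 1), ∀ e, e ∉ Set.range ι → exd ι β e = 0 :=
    fun β e he => Function.extend_apply' β _ e (fun ⟨i, hi⟩ => he ⟨i, hi⟩)
  refine Finset.sum_of_injOn (fun β => exd ι β) ?_ ?_ ?_ ?_
  · intro β _ β' _ h
    funext i
    have := congrFun h (ι i)
    simp only [hv] at this
    exact this
  · intro β _
    exact Finset.mem_coe.2 (Finset.mem_univ _)
  · intro α _ hα
    rw [if_neg]
    rintro ⟨h1, -⟩
    refine hα ⟨fun i => α (ι i), Finset.mem_coe.2 (Finset.mem_univ _), ?_⟩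
    funext e
    by_cases he : e ∈ Set.range ι
    · obtain ⟨i, rfl⟩ := he
      exact hv _ i
    · change exd ι _ e = _
      rw [hv' _ e he]
      exact Fin.ext (h1 e he).symm
  · intro β _
    have e1 : ∑ e, (exd ι β e : ℕ) = ∑ i, (β i : ℕ) := by
      refine (Fintype.sum_of_injective ι hι (fun i => (β i : ℕ))
        (fun e => (exd ι β e : ℕ)) ?_ ?_).symm
      · intro e he
        change (exd ι β e : ℕ) = 0
        rw [hv' β e he]
        rfl
      · intro i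
        change _ = (exd ι β (ι i) : ℕ)
        rw [hv]
    have e2 : ∏ e, w e ^ (exd ι β e : ℕ) = ∏ i, w (ι i) ^ (β i : ℕ) := by
      refine (Fintype.prod_of_injective ι hι (fun i => w (ι i) ^ (β i : ℕ))
        (fun e => w e ^ (exd ι β e : ℕ)) ?_ ?_).symm
      · intro e he
        change w e ^ (exd ι β e : ℕ) = 1
        rw [hv' β e he]
        exact pow_zero _
      · intro i
        change _ = w (ι i) ^ (exd ι β (ι i) : ℕ)
        rw [hv]
    have e3 : (∀ e, e ∉ Set.range ι → (exd ι β e : ℕ) = 0) := by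
      intro e he
      rw [hv' β e he]
      rfl
    simp only [e1, e2, hv]
    by_cases h : ∑ i, (β i : ℕ) ≤ D
    · rw [if_pos h, if_pos ⟨e3, h⟩]
    · rw [if_neg h, if_neg (fun h' => h h'.2)]

end Fl

end HR
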