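import Pool.Agent.Lib.MP_a1b8b7_co.B.MainB

/-!
# The main check: the pieces as polynomials with coefficients `cG`, `cT`, `cP`
-/

set_option autoImplicit false

open Finset

namespace HR

namespace Fl

open Tr

/-- coefficients cut off at degree `D` -/
noncomputable def cut (D : ℕ) (c : (Fin 10 → ℕ) → (Fin 10 → ℕ) → ℤ) (X Y : Fin 10 → ℕ) : ℤ :=
  if ∑ e, Y e ≤ D then c X Y else 0

theorem k3_cn (a b c : Bool) : k3 (cn a) (cn b) (cn c) = cn3 a b c := by
  cases a <;> cases b <;> cases c <;> rfl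

theorem gsel_cn (GD : Tr) (t b c : ℕ) : gsel GD t b c = get (get (get GD t) b) (c - b) := rfl

/-- positions of the nine variables -/
def i9 : Fin 9 → Fin 10 := ![0, 1, 2, 3, 4, 5, 6, 7, 8]
/-- positions with the two flags exchanged -/
def i9' : Fin 9 → Fin 10 := ![0, 1, 2, 6, 7, 8, 3, 4, 5]
/-- positions of the six variables of two flags on one vertex -/
def i6 : Fin 6 → Fin 10 := ![0, 1, 2, 3, 6, 9]
/-- positions of a triple and the last pair -/
def i4 : Fin 4 → Fin 10 := ![0, 1, 2, 9]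

theorem i9_inj : Function.Injective i9 := by decide
theorem i9'_inj : Function.Injective i9' := by decide
theorem i6_inj : Function.Injective i6 := by decide
theorem i4_inj : Function.Injective i4 := by decide

theorem r9 (f : Fin 10 → ℕ) : (∀ e, e ∉ Set.range i9 → f e = 0) ↔ f 9 = 0 := by
  constructor
  · intro h
    exact h 9 (by rintro ⟨i, hi⟩; revert i; decide)
  · intro h e he
    fin_cases e
    · exact absurd ⟨0, rfl⟩ he
    · exact absurd ⟨1, rfl⟩ he
    · exact absurd ⟨2, rfl⟩ he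
    · exact absurd ⟨3, rfl⟩ he
    · exact absurd ⟨4, rfl⟩ he
    · exact absurd ⟨5, rfl⟩ he
    · exact absurd ⟨6, rfl⟩ he
    · exact absurd ⟨7, rfl⟩ he
    · exact absurd ⟨8, rfl⟩ he
    · exact h

theorem r9' (f : Fin 10 → ℕ) : (∀ e, e ∉ Set.range i9' → f e = 0) ↔ f 9 = 0 := by
  constructor
  · intro h
    exact h 9 (by rintro ⟨i, hi⟩; revert i; decide)
  · intro h e he
    fin_cases e
    · exact absurd ⟨0, rfl⟩ he
    · exact absurd ⟨1, rfl⟩ he
    · exact absurd ⟨2, rfl⟩ he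
    · exact absurd ⟨6, rfl⟩ he
    · exact absurd ⟨7, rfl⟩ he
    · exact absurd ⟨8, rfl⟩ he
    · exact absurd ⟨3, rfl⟩ he
    · exact absurd ⟨4, rfl⟩ he
    · exact absurd ⟨5, rfl⟩ he
    · exact h

theorem sum10 (f : Fin 10 → ℕ) :
    ∑ e, f e = f 0 + f 1 + f 2 + f 3 + f 4 + f 5 + f 6 + f 7 + f 8 + f 9 := by
  simp only [Fin.sum_univ_succ, Fin.sum_univ_zero]
  simp only [Fin.succ_zero_eq_one, Fin.succ_one_eq_two]
  change f 0 + (f 1 + (f 2 + (f 3 + (f 4 + (f 5 + (f 6 + (f 7 + (f 8 + (f 9 + 0))))))))) = _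
  omega

theorem r6 (f : Fin 10 → ℕ) : (∀ e, e ∉ Set.range i6 → f e = 0) ↔
    f 0 + f 1 + f 2 + f 3 + f 6 + f 9 = ∑ e, f e := by
  rw [sum10]
  constructor
  · intro h
    have h4 := h 4 (by rintro ⟨i, hi⟩; revert i; decide)
    have h5 := h 5 (by rintro ⟨i, hi⟩; revert i; decide)
    have h7 := h 7 (by rintro ⟨i, hi⟩; revert i; decide)
    have h8 := h 8 (by rintro ⟨i, hi⟩; revert i; decide)
    omega
  · intro h e he
    fin_cases e
    · exact absurd ⟨0, rfl⟩ he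
    · exact absurd ⟨1, rfl⟩ he
    · exact absurd ⟨2, rfl⟩ he
    · exact absurd ⟨3, rfl⟩ he
    · change f 4 = 0; omega
    · change f 5 = 0; omega
    · exact absurd ⟨4, rfl⟩ he
    · change f 7 = 0; omega
    · change f 8 = 0; omega
    · exact absurd ⟨5, rfl⟩ he

theorem r4 (f : Fin 10 → ℕ) : (∀ e, e ∉ Set.range i4 → f e = 0) ↔
    f 0 + f 1 + f 2 + f 9 = ∑ e, f e := by
  rw [sum10]
  constructor
  · intro h
    have h3 := h 3 (by rintro ⟨i, hi⟩; revert i; decide)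
    have h4 := h 4 (by rintro ⟨i, hi⟩; revert i; decide)
    have h5 := h 5 (by rintro ⟨i, hi⟩; revert i; decide)
    have h6 := h 6 (by rintro ⟨i, hi⟩; revert i; decide)
    have h7 := h 7 (by rintro ⟨i, hi⟩; revert i; decide)
    have h8 := h 8 (by rintro ⟨i, hi⟩; revert i; decide)
    omega
  · intro h e he
    fin_cases e
    · exact absurd ⟨0, rfl⟩ he
    · exact absurd ⟨1, rfl⟩ he
    · exact absurd ⟨2, rfl⟩ he
    · change f 3 = 0; omega
    · change f 4 = 0; omega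
    · change f 5 = 0; omega
    · change f 6 = 0; omega
    · change f 7 = 0; omega
    · change f 8 = 0; omega
    · exact absurd ⟨3, rfl⟩ he

theorem Gpc_eq (D : ℕ) (GD : Tr) (d : Fin 10 → Bool × ℝ) :
    Gpc D GD d = RC D (cut D (cG GD)) d := by
  unfold Gpc RC
  by_cases h1 : cn (d 0).1 ≤ cn (d 1).1 ∧ cn (d 1).1 ≤ cn (d 2).1
  · rw [if_pos h1]
    by_cases h2 : cn3 (d 3).1 (d 4).1 (d 5).1 ≤ cn3 (d 6).1 (d 7).1 (d 8).1
    · rw [if_pos h2]
      have e1 : ![(d 0).2, (d 1).2, (d 2).2, (d 3).2, (d 4).2, (d 5).2, (d 6).2, (d 7).2,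
          (d 8).2] = fun i => (fun e => (d e).2) (i9 i) := by
        funext i
        fin_cases i <;> rfl
      rw [e1, pol_embed D 9 _ i9 i9_inj (fun e => (d e).2)]
      refine Finset.sum_congr rfl fun α _ => ?_
      have hr := r9 (fun e => (α e : ℕ))
      unfold cut cG dG
      by_cases h3 : ∑ e, (α e : ℕ) ≤ D
      · by_cases h4 : (α 9 : ℕ) = 0
        · rw [if_pos ⟨hr.2 h4, h3⟩, if_pos h3, if_pos h4, if_pos h1, k3_cn, k3_cn, if_pos h2]
          rfl
        · rw [if_neg (fun h => h4 (hr.1 h.1)), if_pos h3, if_neg h4]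
          simp
      · rw [if_neg (fun h => h3 h.2), if_neg h3]
        simp
    · rw [if_neg h2]
      have e1 : ![(d 0).2, (d 1).2, (d 2).2, (d 6).2, (d 7).2, (d 8).2, (d 3).2, (d 4).2,
          (d 5).2] = fun i => (fun e => (d e).2) (i9' i) := by
        funext i
        fin_cases i <;> rfl
      rw [e1, pol_embed D 9 _ i9' i9'_inj (fun e => (d e).2)]
      refine Finset.sum_congr rfl fun α _ => ?_
      have hr := r9' (fun e => (α e : ℕ))
      unfold cut cG dG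
      by_cases h3 : ∑ e, (α e : ℕ) ≤ D
      · by_cases h4 : (α 9 : ℕ) = 0
        · rw [if_pos ⟨hr.2 h4, h3⟩, if_pos h3, if_pos h4, if_pos h1, k3_cn, k3_cn, if_neg h2]
          rfl
        · rw [if_neg (fun h => h4 (hr.1 h.1)), if_pos h3, if_neg h4]
          simp
      · rw [if_neg (fun h => h3 h.2), if_neg h3]
        simp
  · rw [if_neg h1]
    symm
    refine Finset.sum_eq_zero fun α _ => ?_
    unfold cut cG dG
    rw [if_neg h1]
    simp

theorem Tpc_eq (D : ℕ) (TD : Tr) (d : Fin 10 → Bool × ℝ) :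
    Tpc D TD d = RC D (cut D (fun X Y => cT TD (∑ e, Y e) X Y)) d := by
  unfold Tpc RC
  have e1 : ![(d 0).2, (d 1).2, (d 2).2, (d 9).2] = fun i => (fun e => (d e).2) (i4 i) := by
    funext i
    fin_cases i <;> rfl
  rw [e1, pol_embed D 4 _ i4 i4_inj (fun e => (d e).2)]
  refine Finset.sum_congr rfl fun α _ => ?_
  have hr := r4 (fun e => (α e : ℕ))
  unfold cut cT dT
  beta_reduce
  by_cases h3 : ∑ e, (α e : ℕ) ≤ D
  · by_cases h4 : (α 0 : ℕ) + (α 1 : ℕ) + (α 2 : ℕ) + (α 9 : ℕ) = ∑ e, (α e : ℕ)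
    · rw [if_pos ⟨hr.2 h4, h3⟩, if_pos h3, if_pos h4, k3_cn]
      rfl
    · rw [if_neg (fun h => h4 (hr.1 h.1)), if_pos h3, if_neg h4]
      simp
  · rw [if_neg (fun h => h3 h.2), if_neg h3]
    simp

theorem Ppc_eq (D : ℕ) (PD : Tr) (d : Fin 10 → Bool × ℝ) :
    Ppc D PD d = RC D (cut D (fun X Y => cP PD (∑ e, Y e) X Y)) d := by
  unfold Ppc RC
  have e1 : ![(d 0).2, (d 1).2, (d 2).2, (d 3).2, (d 6).2, (d 9).2] =
      fun i => (fun e => (d e).2) (i6 i) := by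
    funext i
    fin_cases i <;> rfl
  rw [e1, pol_embed D 6 _ i6 i6_inj (fun e => (d e).2)]
  refine Finset.sum_congr rfl fun α _ => ?_
  have hr := r6 (fun e => (α e : ℕ))
  unfold cut cP dP
  beta_reduce
  by_cases h3 : ∑ e, (α e : ℕ) ≤ D
  · by_cases h4 : (α 0 : ℕ) + (α 1 : ℕ) + (α 2 : ℕ) + (α 3 : ℕ) + (α 6 : ℕ) + (α 9 : ℕ) =
        ∑ e, (α e : ℕ)
    · rw [if_pos ⟨hr.2 h4, h3⟩, if_pos h3, if_pos h4, k3_cn, k3_cn]
      rfl
    · rw [if_neg (fun h => h4 (hr.1 h.1)), if_pos h3, if_neg h4]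
      simp
  · rw [if_neg (fun h => h3 h.2), if_neg h3]
    simp

theorem RC_add (D : ℕ) (c c' : (Fin 10 → ℕ) → (Fin 10 → ℕ) → ℤ) (d : Fin 10 → Bool × ℝ) :
    RC D c d + RC D c' d = RC D (fun X Y => c X Y + c' X Y) d := by
  unfold RC
  rw [← Finset.sum_add_distrib]
  refine Finset.sum_congr rfl fun α _ => ?_
  push_cast
  ring

/-- the sum of all pieces -/
noncomputable def Apc (D : ℕ) (GD PD TD : Tr) (d : Fin 10 → Bool × ℝ) : ℝ :=
  Gpc D GD d + Tpc D TD d + Ppc D PD d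

theorem Apc_eq (D : ℕ) (GD PD TD : Tr) (d : Fin 10 → Bool × ℝ) :
    Apc D GD PD TD d = RC D (cut D (fun X Y => cA GD PD TD (∑ e, Y e) X Y)) d := by
  unfold Apc
  rw [Gpc_eq, Tpc_eq, Ppc_eq, RC_add, RC_add]
  congr 1
  funext X Y
  unfold cut cA
  by_cases h : ∑ e, Y e ≤ D
  · simp only [if_pos h]
  · simp only [if_neg h, add_zero]

theorem sum_pe (Y : Fin 10 → ℕ) (π : Equiv.Perm (Fin 5)) : ∑ e, (Y ∘ pe π) e = ∑ e, Y e :=
  Equiv.sum_comp (peE π) Y

theorem prod_nonneg' {w : Fin 10 → ℝ} (hw : ∀ e, 0 ≤ w e) (α : Fin 10 → ℕ) :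
    0 ≤ ∏ e, w e ^ α e := Finset.prod_nonneg fun e _ => pow_nonneg (hw e) _

/-- **Result of the main check for one colouring.** -/
theorem main_ineq (GD PD TD t : Tr) (D : ℕ) (d : Fin 10 → Bool × ℝ) (hw : ∀ e, 0 ≤ (d e).2)
    (h : mainK GD PD TD t D (cn (d 0).1) (cn (d 1).1) (cn (d 2).1) (cn (d 3).1) (cn (d 4).1)
      (cn (d 5).1) (cn (d 6).1) (cn (d 7).1) (cn (d 8).1) (cn (d 9).1) = true) :
    (∑ π : Equiv.Perm (Fin 5), Apc D GD PD TD (d ∘ pe π)) + pol D 10 t (fun e => (d e).2) ≤ 0 := by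
  simp only [Apc_eq, RC_comp]
  rw [RC_sum]
  unfold RC pol
  rw [← Finset.sum_add_distrib]
  refine Finset.sum_nonpos fun α _ => ?_
  by_cases h3 : ∑ e, (α e : ℕ) ≤ D
  · have h4 : ∀ π : Equiv.Perm (Fin 5), cut D (fun X Y => cA GD PD TD (∑ e, Y e) X Y)
        ((fun e => cn (d e).1) ∘ pe π) ((fun e => (α e : ℕ)) ∘ pe π) =
        cA GD PD TD (∑ e, (α e : ℕ)) ((fun e => cn (d e).1) ∘ pe π)
          ((fun e => (α e : ℕ)) ∘ pe π) := by
      intro π
      unfold cut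
      rw [sum_pe, if_pos h3]
      beta_reduce
      rw [sum_pe]
    simp only [h4, if_pos h3]
    rw [← add_mul]
    refine mul_nonpos_of_nonpos_of_nonneg ?_ (prod_nonneg' hw _)
    have h5 := mainK_imp GD PD TD t D (fun e => cn (d e).1) (fun e => (α e : ℕ)) h
      (by rw [← sum10 (fun e => (α e : ℕ))]; exact h3)
    rw [← sum10 (fun e => (α e : ℕ))] at h5
    exact_mod_cast h5
  · have h4 : ∀ π : Equiv.Perm (Fin 5), cut D (fun X Y => cA GD PD TD (∑ e, Y e) X Y)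
        ((fun e => cn (d e).1) ∘ pe π) ((fun e => (α e : ℕ)) ∘ pe π) = 0 := by
      intro π
      unfold cut
      rw [sum_pe, if_neg h3]
    simp only [h4, if_neg h3, Finset.sum_const_zero, Int.cast_zero, zero_mul, add_zero]
    exact le_refl _

end Fl

end HR
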