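import Pool.Agent.Lib.MP_a1b8b7_co.B.Poly

/-!
# The main check: kernel functions

Colours are the numbers `0` (red) and `1` (blue).  For one sequence of ten colours and one sequence
of ten exponents the function `leafN` adds the entries (plus offsets) of all the pieces.
-/

set_option autoImplicit false

open Finset

namespace HR

namespace Fl

open Tr

/-- entry of a tree with nine levels -/
noncomputable def l9 (t : Tr) (x0 x1 x2 x3 x4 x5 x6 x7 x8 : ℕ) : Tr :=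
  get (get (get (get (get (get (get (get (get t x0) x1) x2) x3) x4) x5) x6) x7) x8

/-- entry of a tree with six levels -/
noncomputable def l6 (t : Tr) (x0 x1 x2 x3 x4 x5 : ℕ) : Tr :=
  get (get (get (get (get (get t x0) x1) x2) x3) x4) x5

/-- entry of a tree with four levels -/
noncomputable def l4 (t : Tr) (x0 x1 x2 x3 : ℕ) : Tr :=
  get (get (get (get t x0) x1) x2) x3

/-- code of three colours, for the kernel -/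
noncomputable def k3 (a b c : ℕ) : ℕ :=
  Nat.add (Nat.mul (Nat.add (Nat.mul a (nat_lit 2)) b) (nat_lit 2)) c

/-- tree for a type with `t` blue pairs and two flags with codes `b ≤ c` -/
noncomputable def gsel (GD : Tr) (t b c : ℕ) : Tr := get (get (get GD t) b) (Nat.sub c b)

/-- two times the offset -/
noncomputable def OF2 : ℕ := Nat.mul (nat_lit 2) OF

/-- both orders of the flags, given the codes -/
noncomputable def kG2 (GD : Tr) (t b c x0 x1 x2 y0 y1 y2 z0 z1 z2 : ℕ) : ℕ :=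
  nt (Nat.ble b c)
    (nt (Nat.ble c b)
      (Nat.add (v (l9 (gsel GD t b c) x0 x1 x2 y0 y1 y2 z0 z1 z2))
        (v (l9 (gsel GD t b c) x0 x1 x2 z0 z1 z2 y0 y1 y2)))
      (Nat.mul (nat_lit 2) (v (l9 (gsel GD t b c) x0 x1 x2 y0 y1 y2 z0 z1 z2))))
    (Nat.mul (nat_lit 2) (v (l9 (gsel GD t c b) x0 x1 x2 z0 z1 z2 y0 y1 y2)))

/-- one ordering of the type, both orders of the flags -/
noncomputable def kG (GD : Tr) (a0 a1 a2 b0 b1 b2 c0 c1 c2 x0 x1 x2 y0 y1 y2 z0 z1 z2 : ℕ) : ℕ :=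
  nt (Nat.ble a0 a1) (nt (Nat.ble a1 a2)
    (kG2 GD (Nat.add (Nat.add a0 a1) a2) (k3 b0 b1 b2) (k3 c0 c1 c2)
      x0 x1 x2 y0 y1 y2 z0 z1 z2) OF2) OF2

/-- all orderings of the type, both orders of the flags -/
noncomputable def kGG (GD : Tr) (a0 a1 a2 b0 b1 b2 c0 c1 c2 x0 x1 x2 y0 y1 y2 z0 z1 z2 : ℕ) : ℕ :=
  Nat.add (Nat.add (Nat.add (Nat.add (Nat.add 
    (kG GD a0 a1 a2 b0 b1 b2 c0 c1 c2 x0 x1 x2 y0 y1 y2 z0 z1 z2)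
    (kG GD a0 a2 a1 b1 b0 b2 c1 c0 c2 x0 x2 x1 y1 y0 y2 z1 z0 z2))
    (kG GD a1 a0 a2 b0 b2 b1 c0 c2 c1 x1 x0 x2 y0 y2 y1 z0 z2 z1))
    (kG GD a2 a1 a0 b2 b1 b0 c2 c1 c0 x2 x1 x0 y2 y1 y0 z2 z1 z0))
    (kG GD a2 a0 a1 b1 b2 b0 c1 c2 c0 x2 x0 x1 y1 y2 y0 z1 z2 z0))
    (kG GD a1 a2 a0 b2 b0 b1 c2 c0 c1 x1 x2 x0 y2 y0 y1 z2 z0 z1)

/-- a piece with three vertices and the last pair -/
noncomputable def kT (TD : Tr) (a0 a1 a2 s x0 x1 x2 u : ℕ) : ℕ :=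
  v (l4 (get (get TD (k3 a0 a1 a2)) s) x0 x1 x2 u)

/-- all orderings -/
noncomputable def kTT (TD : Tr) (a0 a1 a2 s x0 x1 x2 u : ℕ) : ℕ :=
  Nat.add (Nat.add (Nat.add (Nat.add (Nat.add 
    (kT TD a0 a1 a2 s x0 x1 x2 u)
    (kT TD a0 a2 a1 s x0 x2 x1 u))
    (kT TD a1 a0 a2 s x1 x0 x2 u))
    (kT TD a2 a1 a0 s x2 x1 x0 u))
    (kT TD a2 a0 a1 s x2 x0 x1 u))
    (kT TD a1 a2 a0 s x1 x2 x0 u)

/-- offsets -/
noncomputable def OF6 : ℕ := Nat.mul (nat_lit 6) OF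
/-- offsets -/
noncomputable def OF8 : ℕ := Nat.mul (nat_lit 8) OF
/-- offsets -/
noncomputable def OF12 : ℕ := Nat.mul (nat_lit 12) OF

/-- all terms of one triple; `n` = total degree -/
noncomputable def kTri (GD TD : Tr) (n a0 a1 a2 b0 b1 b2 c0 c1 c2 s
    x0 x1 x2 y0 y1 y2 z0 z1 z2 u : ℕ) : ℕ :=
  Nat.add
    (nt (Nat.beq u (nat_lit 0)) (kGG GD a0 a1 a2 b0 b1 b2 c0 c1 c2 x0 x1 x2 y0 y1 y2 z0 z1 z2) OF12)
    (Nat.mul (nat_lit 2) (nt (Nat.beq (Nat.add (Nat.add (Nat.add x0 x1) x2) u) n)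
      (kTT TD a0 a1 a2 s x0 x1 x2 u) OF6))

/-- a piece with a type of size one -/
noncomputable def kP (PD : Tr) (a0 a1 a2 b0 b1 b2 x0 x1 x2 y0 y1 y2 : ℕ) : ℕ :=
  v (l6 (get (get PD (k3 a0 a1 a2)) (k3 b0 b1 b2)) x0 x1 x2 y0 y1 y2)

/-- all terms of one vertex and one pairing; `n` = total degree -/
noncomputable def kPai (PD : Tr) (n a0 a1 a2 b0 b1 b2 x0 x1 x2 y0 y1 y2 : ℕ) : ℕ :=
  nt (Nat.beq (Nat.add (Nat.add (Nat.add (Nat.add (Nat.add x0 x1) x2) y0) y1) y2) n)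
    (Nat.add (Nat.add (Nat.add (Nat.add (Nat.add (Nat.add (Nat.add 
      (kP PD a0 a1 a2 b0 b1 b2 x0 x1 x2 y0 y1 y2)
      (kP PD a1 a0 a2 b0 b1 b2 x1 x0 x2 y0 y1 y2))
      (kP PD a0 a1 a2 b1 b0 b2 x0 x1 x2 y1 y0 y2))
      (kP PD a1 a0 a2 b1 b0 b2 x1 x0 x2 y1 y0 y2))
      (kP PD b0 b1 b2 a0 a1 a2 y0 y1 y2 x0 x1 x2))
      (kP PD b1 b0 b2 a0 a1 a2 y1 y0 y2 x0 x1 x2))
      (kP PD b0 b1 b2 a1 a0 a2 y0 y1 y2 x1 x0 x2))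
      (kP PD b1 b0 b2 a1 a0 a2 y1 y0 y2 x1 x0 x2)) OF8

/-- sum over the ten triples -/
noncomputable def kTris (GD TD : Tr) (n h0 h1 h2 h3 h4 h5 h6 h7 h8 h9
    q0 q1 q2 q3 q4 q5 q6 q7 q8 q9 : ℕ) : ℕ :=
  Nat.add (Nat.add (Nat.add (Nat.add (Nat.add (Nat.add (Nat.add (Nat.add (Nat.add 
    (kTri GD TD n h0 h1 h2 h3 h4 h5 h6 h7 h8 h9
        q0 q1 q2 q3 q4 q5 q6 q7 q8 q9)
    (kTri GD TD n h0 h3 h4 h1 h2 h5 h6 h7 h9 h8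
        q0 q3 q4 q1 q2 q5 q6 q7 q9 q8))
    (kTri GD TD n h1 h3 h5 h0 h2 h4 h6 h8 h9 h7
        q1 q3 q5 q0 q2 q4 q6 q8 q9 q7))
    (kTri GD TD n h2 h4 h5 h0 h1 h3 h7 h8 h9 h6
        q2 q4 q5 q0 q1 q3 q7 q8 q9 q6))
    (kTri GD TD n h0 h6 h7 h1 h2 h8 h3 h4 h9 h5
        q0 q6 q7 q1 q2 q8 q3 q4 q9 q5))
    (kTri GD TD n h1 h6 h8 h0 h2 h7 h3 h5 h9 h4
        q1 q6 q8 q0 q2 q7 q3 q5 q9 q4))
    (kTri GD TD n h2 h7 h8 h0 h1 h6 h4 h5 h9 h3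
        q2 q7 q8 q0 q1 q6 q4 q5 q9 q3))
    (kTri GD TD n h3 h6 h9 h0 h4 h7 h1 h5 h8 h2
        q3 q6 q9 q0 q4 q7 q1 q5 q8 q2))
    (kTri GD TD n h4 h7 h9 h0 h3 h6 h2 h5 h8 h1
        q4 q7 q9 q0 q3 q6 q2 q5 q8 q1))
    (kTri GD TD n h5 h8 h9 h1 h3 h6 h2 h4 h7 h0
        q5 q8 q9 q1 q3 q6 q2 q4 q7 q0)

/-- sum over the fifteen rooted pairings -/
noncomputable def kPais (PD : Tr) (n h0 h1 h2 h3 h4 h5 h6 h7 h8 h9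
    q0 q1 q2 q3 q4 q5 q6 q7 q8 q9 : ℕ) : ℕ :=
  Nat.add (Nat.add (Nat.add (Nat.add (Nat.add (Nat.add (Nat.add (Nat.add (Nat.add (Nat.add (Nat.add (Nat.add (Nat.add (Nat.add 
    (kPai PD n h0 h1 h2 h3 h6 h9 q0 q1 q2 q3 q6 q9)
    (kPai PD n h0 h3 h4 h1 h6 h8 q0 q3 q4 q1 q6 q8))
    (kPai PD n h0 h6 h7 h1 h3 h5 q0 q6 q7 q1 q3 q5))
    (kPai PD n h0 h2 h1 h4 h7 h9 q0 q2 q1 q4 q7 q9))
    (kPai PD n h0 h4 h3 h2 h7 h8 q0 q4 q3 q2 q7 q8))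
    (kPai PD n h0 h7 h6 h2 h4 h5 q0 q7 q6 q2 q4 q5))
    (kPai PD n h1 h2 h0 h5 h8 h9 q1 q2 q0 q5 q8 q9))
    (kPai PD n h1 h5 h3 h2 h8 h7 q1 q5 q3 q2 q8 q7))
    (kPai PD n h1 h8 h6 h2 h5 h4 q1 q8 q6 q2 q5 q4))
    (kPai PD n h3 h4 h0 h5 h9 h8 q3 q4 q0 q5 q9 q8))
    (kPai PD n h3 h5 h1 h4 h9 h7 q3 q5 q1 q4 q9 q7))
    (kPai PD n h3 h9 h6 h4 h5 h2 q3 q9 q6 q4 q5 q2))
    (kPai PD n h6 h7 h0 h8 h9 h5 q6 q7 q0 q8 q9 q5))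
    (kPai PD n h6 h8 h1 h7 h9 h4 q6 q8 q1 q7 q9 q4))
    (kPai PD n h6 h9 h3 h7 h8 h2 q6 q9 q3 q7 q8 q2)

/-- all terms -/
noncomputable def leafN (GD PD TD t : Tr) (n h0 h1 h2 h3 h4 h5 h6 h7 h8 h9
    q0 q1 q2 q3 q4 q5 q6 q7 q8 q9 : ℕ) : ℕ :=
  Nat.add (Nat.add (kTris GD TD n h0 h1 h2 h3 h4 h5 h6 h7 h8 h9
    q0 q1 q2 q3 q4 q5 q6 q7 q8 q9)
    (kPais PD n h0 h1 h2 h3 h4 h5 h6 h7 h8 h9
    q0 q1 q2 q3 q4 q5 q6 q7 q8 q9)) (v t)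

/-- the number of offsets in `leafN` is `10 * 24 + 15 * 8 + 1 = 361` -/
noncomputable def OFall : ℕ := Nat.mul (nat_lit 361) OF

/-- the test for one exponent vector -/
noncomputable def leafB (GD PD TD t : Tr) (n h0 h1 h2 h3 h4 h5 h6 h7 h8 h9
    q0 q1 q2 q3 q4 q5 q6 q7 q8 q9 : ℕ) : Bool :=
  Nat.ble (leafN GD PD TD t n h0 h1 h2 h3 h4 h5 h6 h7 h8 h9
    q0 q1 q2 q3 q4 q5 q6 q7 q8 q9) OFall

/-- loop over the exponent number 9; `n` = degree so far, `r` = remaining degree -/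
noncomputable def m9 (GD PD TD t : Tr) (n r h0 h1 h2 h3 h4 h5 h6 h7 h8 h9
    q0 q1 q2 q3 q4 q5 q6 q7 q8 : ℕ) : Bool :=
  allk (Nat.succ r) (fun q9 => leafB GD PD TD (get t q9) (Nat.add n q9) h0 h1 h2 h3 h4 h5 h6 h7 h8 h9
    q0 q1 q2 q3 q4 q5 q6 q7 q8 q9)

/-- loop over the exponent number 8 -/
noncomputable def m8 (GD PD TD t : Tr) (n r h0 h1 h2 h3 h4 h5 h6 h7 h8 h9
    q0 q1 q2 q3 q4 q5 q6 q7 : ℕ) : Bool :=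
  allk (Nat.succ r) (fun q8 => m9 GD PD TD (get t q8) (Nat.add n q8) (Nat.sub r q8)
    h0 h1 h2 h3 h4 h5 h6 h7 h8 h9
    q0 q1 q2 q3 q4 q5 q6 q7 q8)

/-- loop over the exponent number 7 -/
noncomputable def m7 (GD PD TD t : Tr) (n r h0 h1 h2 h3 h4 h5 h6 h7 h8 h9
    q0 q1 q2 q3 q4 q5 q6 : ℕ) : Bool :=
  allk (Nat.succ r) (fun q7 => m8 GD PD TD (get t q7) (Nat.add n q7) (Nat.sub r q7)
    h0 h1 h2 h3 h4 h5 h6 h7 h8 h9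
    q0 q1 q2 q3 q4 q5 q6 q7)

/-- loop over the exponent number 6 -/
noncomputable def m6 (GD PD TD t : Tr) (n r h0 h1 h2 h3 h4 h5 h6 h7 h8 h9
    q0 q1 q2 q3 q4 q5 : ℕ) : Bool :=
  allk (Nat.succ r) (fun q6 => m7 GD PD TD (get t q6) (Nat.add n q6) (Nat.sub r q6)
    h0 h1 h2 h3 h4 h5 h6 h7 h8 h9
    q0 q1 q2 q3 q4 q5 q6)

/-- loop over the exponent number 5 -/
noncomputable def m5 (GD PD TD t : Tr) (n r h0 h1 h2 h3 h4 h5 h6 h7 h8 h9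
    q0 q1 q2 q3 q4 : ℕ) : Bool :=
  allk (Nat.succ r) (fun q5 => m6 GD PD TD (get t q5) (Nat.add n q5) (Nat.sub r q5)
    h0 h1 h2 h3 h4 h5 h6 h7 h8 h9
    q0 q1 q2 q3 q4 q5)

/-- loop over the exponent number 4 -/
noncomputable def m4 (GD PD TD t : Tr) (n r h0 h1 h2 h3 h4 h5 h6 h7 h8 h9
    q0 q1 q2 q3 : ℕ) : Bool :=
  allk (Nat.succ r) (fun q4 => m5 GD PD TD (get t q4) (Nat.add n q4) (Nat.sub r q4)
    h0 h1 h2 h3 h4 h5 h6 h7 h8 h9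
    q0 q1 q2 q3 q4)

/-- loop over the exponent number 3 -/
noncomputable def m3 (GD PD TD t : Tr) (n r h0 h1 h2 h3 h4 h5 h6 h7 h8 h9
    q0 q1 q2 : ℕ) : Bool :=
  allk (Nat.succ r) (fun q3 => m4 GD PD TD (get t q3) (Nat.add n q3) (Nat.sub r q3)
    h0 h1 h2 h3 h4 h5 h6 h7 h8 h9
    q0 q1 q2 q3)

/-- loop over the exponent number 2 -/
noncomputable def m2 (GD PD TD t : Tr) (n r h0 h1 h2 h3 h4 h5 h6 h7 h8 h9
    q0 q1 : ℕ) : Bool :=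
  allk (Nat.succ r) (fun q2 => m3 GD PD TD (get t q2) (Nat.add n q2) (Nat.sub r q2)
    h0 h1 h2 h3 h4 h5 h6 h7 h8 h9
    q0 q1 q2)

/-- loop over the exponent number 1 -/
noncomputable def m1 (GD PD TD t : Tr) (n r h0 h1 h2 h3 h4 h5 h6 h7 h8 h9
    q0 : ℕ) : Bool :=
  allk (Nat.succ r) (fun q1 => m2 GD PD TD (get t q1) (Nat.add n q1) (Nat.sub r q1)
    h0 h1 h2 h3 h4 h5 h6 h7 h8 h9
    q0 q1)

/-- loop over the exponent number 0 -/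
noncomputable def m0 (GD PD TD t : Tr) (n r h0 h1 h2 h3 h4 h5 h6 h7 h8 h9
    : ℕ) : Bool :=
  allk (Nat.succ r) (fun q0 => m1 GD PD TD (get t q0) (Nat.add n q0) (Nat.sub r q0)
    h0 h1 h2 h3 h4 h5 h6 h7 h8 h9
    q0)

/-- **The main check for one colouring**: `D` = degree, `t` = tree of the colouring. -/
noncomputable def mainK (GD PD TD t : Tr) (D h0 h1 h2 h3 h4 h5 h6 h7 h8 h9 : ℕ) : Bool :=
  m0 GD PD TD t (nat_lit 0) D h0 h1 h2 h3 h4 h5 h6 h7 h8 h9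

end Fl

end HR
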