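import Pool.Agent.Lib.MP_a1b8b7_co.B.PFlag

/-!
# The colour swap

The model `(x, 1 - p, wB, wR)` and its functional `LL`.
-/

set_option autoImplicit false

open Finset

namespace HR

namespace Fl

variable {n : ℕ} {x : Fin n → ℝ} {p wR wB : Fin n → Fin n → ℝ}

/-- the other colour -/
def sw (d : Bool × ℝ) : Bool × ℝ := (!d.1, d.2)

@[simp] theorem sw_sw (d : Bool × ℝ) : sw (sw d) = d := by simp [sw]

@[simp] theorem sw_fst (d : Bool × ℝ) : (sw d).1 = !d.1 := rfl

@[simp] theorem sw_snd (d : Bool × ℝ) : (sw d).2 = d.2 := rfl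

/-- the swapped model -/
theorem model_swap (h : Model x p wR wB) : Model x (fun u v => 1 - p u v) wB wR :=
  ⟨h.x0, h.x1, fun u v => sub_nonneg.2 (h.p1 u v), fun u v => sub_le_self _ (h.p0 u v),
    fun u v => by rw [h.ps u v], h.B0, h.B1, h.Bs, h.Bt, h.Bl, h.R0, h.R1, h.Rs, h.Rt, h.Rl⟩

theorem rr_swap : rr x (fun u v => 1 - p u v) wB = bb x p wB := rfl

theorem bb_swap : bb x (fun u v => 1 - p u v) wR = rr x p wR := by
  unfold bb rr
  simp only [sub_sub_cancel]

theorem PC_swap (u v : Fin n) (c : Bool) : PC (fun u v => 1 - p u v) u v c = PC p u v (!c) := by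
  cases c
  · rfl
  · simp [PC]

theorem lw_swap (u v : Fin n) (c : Bool) : lw wB wR u v c = sw (lw wR wB u v (!c)) := by
  cases c
  · rfl
  · rfl

/-- **The functional of the swapped model.** -/
theorem LL_swap (g : (Fin 10 → Bool × ℝ) → ℝ) :
    LL x (PC fun u v => 1 - p u v) (lw wB wR) g =
      LL x (PC p) (lw wR wB) (fun d => g fun e => sw (d e)) := by
  unfold LL
  refine Finset.sum_congr rfl fun a _ => ?_
  rw [← Equiv.sum_comp (Equiv.arrowCongr (Equiv.refl (Fin 10)) Equiv.boolNot)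
    (fun F => W5 x (PC p) a F * g fun e => sw (dat (lw wR wB) a F e))]
  refine Finset.sum_congr rfl fun F _ => ?_
  have h1 : ∀ e, (Equiv.arrowCongr (Equiv.refl (Fin 10)) Equiv.boolNot) F e = !F e := fun e => rfl
  congr 1
  · unfold W5
    congr 1
    refine Finset.prod_congr rfl fun e _ => ?_
    rw [PC_swap, h1]
  · congr 1
    funext e
    simp only [dat]
    rw [lw_swap, h1]

theorem AdmD_sw {d : Fin 10 → Bool × ℝ} (h : AdmD d) : AdmD fun e => sw (d e) := by
  refine ⟨fun e => h.w0 e, fun e => h.w1 e, ?_⟩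
  intro i j k hij hjk h1 h2
  simp only [sw_fst, sw_snd] at h1 h2 ⊢
  exact h.tri i j k hij hjk (by simpa using h1) (by simpa using h2)

end Fl

end HR
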