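import Pool.Agent.Lib.MP_a1b8b7_co.B.Canon
import Pool.Agent.Lib.MP_a1b8b7_co.B.Swap

/-!
# The main check for a colouring and its complement
-/

set_option autoImplicit false

open Finset

namespace HR

namespace Fl

open Tr

/-- two times the number of offsets -/
noncomputable def OFtwo : ℕ := Nat.mul (nat_lit 722) OF

/-- the test for one exponent vector: colours `h` and complementary colours `g` -/
noncomputable def leafS (GD PD TD t : Tr) (n h0 h1 h2 h3 h4 h5 h6 h7 h8 h9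
    g0 g1 g2 g3 g4 g5 g6 g7 g8 g9
    q0 q1 q2 q3 q4 q5 q6 q7 q8 q9 : ℕ) : Bool :=
  Nat.ble (Nat.add (leafN GD PD TD t n h0 h1 h2 h3 h4 h5 h6 h7 h8 h9
    q0 q1 q2 q3 q4 q5 q6 q7 q8 q9)
    (leafN GD PD TD e n g0 g1 g2 g3 g4 g5 g6 g7 g8 g9
    q0 q1 q2 q3 q4 q5 q6 q7 q8 q9)) OFtwo

/-- loop over the exponent number 9; `n` = degree so far, `r` = remaining degree -/
noncomputable def s9 (GD PD TD t : Tr) (n r h0 h1 h2 h3 h4 h5 h6 h7 h8 h9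
    g0 g1 g2 g3 g4 g5 g6 g7 g8 g9
    q0 q1 q2 q3 q4 q5 q6 q7 q8 : ℕ) : Bool :=
  allk (Nat.succ r) (fun q9 => leafS GD PD TD (get t q9) (Nat.add n q9) h0 h1 h2 h3 h4 h5 h6 h7 h8 h9
    g0 g1 g2 g3 g4 g5 g6 g7 g8 g9
    q0 q1 q2 q3 q4 q5 q6 q7 q8 q9)

/-- loop over the exponent number 8 -/
noncomputable def s8 (GD PD TD t : Tr) (n r h0 h1 h2 h3 h4 h5 h6 h7 h8 h9
    g0 g1 g2 g3 g4 g5 g6 g7 g8 g9
    q0 q1 q2 q3 q4 q5 q6 q7 : ℕ) : Bool :=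
  allk (Nat.succ r) (fun q8 => s9 GD PD TD (get t q8) (Nat.add n q8) (Nat.sub r q8)
    h0 h1 h2 h3 h4 h5 h6 h7 h8 h9
    g0 g1 g2 g3 g4 g5 g6 g7 g8 g9
    q0 q1 q2 q3 q4 q5 q6 q7 q8)

/-- loop over the exponent number 7 -/
noncomputable def s7 (GD PD TD t : Tr) (n r h0 h1 h2 h3 h4 h5 h6 h7 h8 h9
    g0 g1 g2 g3 g4 g5 g6 g7 g8 g9
    q0 q1 q2 q3 q4 q5 q6 : ℕ) : Bool :=
  allk (Nat.succ r) (fun q7 => s8 GD PD TD (get t q7) (Nat.add n q7) (Nat.sub r q7)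
    h0 h1 h2 h3 h4 h5 h6 h7 h8 h9
    g0 g1 g2 g3 g4 g5 g6 g7 g8 g9
    q0 q1 q2 q3 q4 q5 q6 q7)

/-- loop over the exponent number 6 -/
noncomputable def s6 (GD PD TD t : Tr) (n r h0 h1 h2 h3 h4 h5 h6 h7 h8 h9
    g0 g1 g2 g3 g4 g5 g6 g7 g8 g9
    q0 q1 q2 q3 q4 q5 : ℕ) : Bool :=
  allk (Nat.succ r) (fun q6 => s7 GD PD TD (get t q6) (Nat.add n q6) (Nat.sub r q6)
    h0 h1 h2 h3 h4 h5 h6 h7 h8 h9
    g0 g1 g2 g3 g4 g5 g6 g7 g8 g9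
    q0 q1 q2 q3 q4 q5 q6)

/-- loop over the exponent number 5 -/
noncomputable def s5 (GD PD TD t : Tr) (n r h0 h1 h2 h3 h4 h5 h6 h7 h8 h9
    g0 g1 g2 g3 g4 g5 g6 g7 g8 g9
    q0 q1 q2 q3 q4 : ℕ) : Bool :=
  allk (Nat.succ r) (fun q5 => s6 GD PD TD (get t q5) (Nat.add n q5) (Nat.sub r q5)
    h0 h1 h2 h3 h4 h5 h6 h7 h8 h9
    g0 g1 g2 g3 g4 g5 g6 g7 g8 g9
    q0 q1 q2 q3 q4 q5)

/-- loop over the exponent number 4 -/
noncomputable def s4 (GD PD TD t : Tr) (n r h0 h1 h2 h3 h4 h5 h6 h7 h8 h9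
    g0 g1 g2 g3 g4 g5 g6 g7 g8 g9
    q0 q1 q2 q3 : ℕ) : Bool :=
  allk (Nat.succ r) (fun q4 => s5 GD PD TD (get t q4) (Nat.add n q4) (Nat.sub r q4)
    h0 h1 h2 h3 h4 h5 h6 h7 h8 h9
    g0 g1 g2 g3 g4 g5 g6 g7 g8 g9
    q0 q1 q2 q3 q4)

/-- loop over the exponent number 3 -/
noncomputable def s3 (GD PD TD t : Tr) (n r h0 h1 h2 h3 h4 h5 h6 h7 h8 h9
    g0 g1 g2 g3 g4 g5 g6 g7 g8 g9
    q0 q1 q2 : ℕ) : Bool :=
  allk (Nat.succ r) (fun q3 => s4 GD PD TD (get t q3) (Nat.add n q3) (Nat.sub r q3)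
    h0 h1 h2 h3 h4 h5 h6 h7 h8 h9
    g0 g1 g2 g3 g4 g5 g6 g7 g8 g9
    q0 q1 q2 q3)

/-- loop over the exponent number 2 -/
noncomputable def s2 (GD PD TD t : Tr) (n r h0 h1 h2 h3 h4 h5 h6 h7 h8 h9
    g0 g1 g2 g3 g4 g5 g6 g7 g8 g9
    q0 q1 : ℕ) : Bool :=
  allk (Nat.succ r) (fun q2 => s3 GD PD TD (get t q2) (Nat.add n q2) (Nat.sub r q2)
    h0 h1 h2 h3 h4 h5 h6 h7 h8 h9
    g0 g1 g2 g3 g4 g5 g6 g7 g8 g9
    q0 q1 q2)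

/-- loop over the exponent number 1 -/
noncomputable def s1 (GD PD TD t : Tr) (n r h0 h1 h2 h3 h4 h5 h6 h7 h8 h9
    g0 g1 g2 g3 g4 g5 g6 g7 g8 g9
    q0 : ℕ) : Bool :=
  allk (Nat.succ r) (fun q1 => s2 GD PD TD (get t q1) (Nat.add n q1) (Nat.sub r q1)
    h0 h1 h2 h3 h4 h5 h6 h7 h8 h9
    g0 g1 g2 g3 g4 g5 g6 g7 g8 g9
    q0 q1)

/-- loop over the exponent number 0 -/
noncomputable def s0 (GD PD TD t : Tr) (n r h0 h1 h2 h3 h4 h5 h6 h7 h8 h9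
    g0 g1 g2 g3 g4 g5 g6 g7 g8 g9
     : ℕ) : Bool :=
  allk (Nat.succ r) (fun q0 => s1 GD PD TD (get t q0) (Nat.add n q0) (Nat.sub r q0)
    h0 h1 h2 h3 h4 h5 h6 h7 h8 h9
    g0 g1 g2 g3 g4 g5 g6 g7 g8 g9
     q0)

/-- **The main check for one colouring and its complement**: `D` = degree, `t` = tree. -/
noncomputable def mainS (GD PD TD t : Tr) (D h0 h1 h2 h3 h4 h5 h6 h7 h8 h9
    g0 g1 g2 g3 g4 g5 g6 g7 g8 g9 : ℕ) : Bool :=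
  s0 GD PD TD t (nat_lit 0) D h0 h1 h2 h3 h4 h5 h6 h7 h8 h9
    g0 g1 g2 g3 g4 g5 g6 g7 g8 g9

theorem OFtwo_z : (OFtwo : ℤ) = 722 * (OF : ℤ) := by
  have : OFtwo = 722 * OF := id rfl
  rw [this]
  push_cast
  rfl

theorem leafS_imp (GD PD TD t : Tr) (n : ℕ) (X Z Y : Fin 10 → ℕ)
    (h : leafS GD PD TD t n (X 0) (X 1) (X 2) (X 3) (X 4) (X 5) (X 6) (X 7) (X 8) (X 9)
      (Z 0) (Z 1) (Z 2) (Z 3) (Z 4) (Z 5) (Z 6) (Z 7) (Z 8) (Z 9)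
      (Y 0) (Y 1) (Y 2) (Y 3) (Y 4) (Y 5) (Y 6) (Y 7) (Y 8) (Y 9) = true) :
    (∑ π : Equiv.Perm (Fin 5), (cA GD PD TD n (X ∘ pe π) (Y ∘ pe π) +
      cA GD PD TD n (Z ∘ pe π) (Y ∘ pe π))) + z t ≤ 0 := by
  have h1 := leafN_ge GD PD TD t n X Y
  have h1' := leafN_ge GD PD TD e n Z Y
  have h2 := Nat.le_of_ble_eq_true h
  have h3 := OFtwo_z
  have h4 : (leafN GD PD TD t n (X 0) (X 1) (X 2) (X 3) (X 4) (X 5) (X 6) (X 7) (X 8) (X 9)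
      (Y 0) (Y 1) (Y 2) (Y 3) (Y 4) (Y 5) (Y 6) (Y 7) (Y 8) (Y 9) : ℤ) + (leafN GD PD TD e n (Z 0) (Z 1) (Z 2) (Z 3) (Z 4) (Z 5) (Z 6) (Z 7) (Z 8) (Z 9)
      (Y 0) (Y 1) (Y 2) (Y 3) (Y 4) (Y 5) (Y 6) (Y 7) (Y 8) (Y 9) : ℤ) ≤ (OFtwo : ℤ) := by exact_mod_cast h2
  rw [z_e] at h1'
  rw [Finset.sum_add_distrib]
  linarith

theorem mainS_imp (GD PD TD t : Tr) (D : ℕ) (X Z Y : Fin 10 → ℕ)
    (h : mainS GD PD TD t D (X 0) (X 1) (X 2) (X 3) (X 4) (X 5) (X 6) (X 7) (X 8) (X 9)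
      (Z 0) (Z 1) (Z 2) (Z 3) (Z 4) (Z 5) (Z 6) (Z 7) (Z 8) (Z 9) = true)
    (hY : Y 0 + Y 1 + Y 2 + Y 3 + Y 4 + Y 5 + Y 6 + Y 7 + Y 8 + Y 9 ≤ D) :
    (∑ π : Equiv.Perm (Fin 5), (cA GD PD TD (Y 0 + Y 1 + Y 2 + Y 3 + Y 4 + Y 5 + Y 6 + Y 7 + Y 8 + Y 9)
      (X ∘ pe π) (Y ∘ pe π) + cA GD PD TD (Y 0 + Y 1 + Y 2 + Y 3 + Y 4 + Y 5 + Y 6 + Y 7 + Y 8 + Y 9)
      (Z ∘ pe π) (Y ∘ pe π))) + z (lookF 10 t Y) ≤ 0 := by
  unfold mainS at h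
  unfold s0 at h
  rw [allk_iff] at h
  replace h := h (Y 0) (by
    simp only [Nat.succ_eq_add_one]
    omega)
  unfold s1 at h
  rw [allk_iff] at h
  replace h := h (Y 1) (by
    simp only [nsub, Nat.succ_eq_add_one]
    omega)
  unfold s2 at h
  rw [allk_iff] at h
  replace h := h (Y 2) (by
    simp only [nsub, Nat.succ_eq_add_one]
    omega)
  unfold s3 at h
  rw [allk_iff] at h
  replace h := h (Y 3) (by
    simp only [nsub, Nat.succ_eq_add_one]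
    omega)
  unfold s4 at h
  rw [allk_iff] at h
  replace h := h (Y 4) (by
    simp only [nsub, Nat.succ_eq_add_one]
    omega)
  unfold s5 at h
  rw [allk_iff] at h
  replace h := h (Y 5) (by
    simp only [nsub, Nat.succ_eq_add_one]
    omega)
  unfold s6 at h
  rw [allk_iff] at h
  replace h := h (Y 6) (by
    simp only [nsub, Nat.succ_eq_add_one]
    omega)
  unfold s7 at h
  rw [allk_iff] at h
  replace h := h (Y 7) (by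
    simp only [nsub, Nat.succ_eq_add_one]
    omega)
  unfold s8 at h
  rw [allk_iff] at h
  replace h := h (Y 8) (by
    simp only [nsub, Nat.succ_eq_add_one]
    omega)
  unfold s9 at h
  rw [allk_iff] at h
  replace h := h (Y 9) (by
    simp only [nsub, Nat.succ_eq_add_one]
    omega)
  have h2 := leafS_imp GD PD TD _ _ X Z Y h
  have e1 : (Nat.add (Nat.add (Nat.add (Nat.add (Nat.add (Nat.add (Nat.add (Nat.add (Nat.add (Nat.add 0 (Y 0)) (Y 1)) (Y 2)) (Y 3)) (Y 4)) (Y 5)) (Y 6)) (Y 7)) (Y 8)) (Y 9)) = Y 0 + Y 1 + Y 2 + Y 3 + Y 4 + Y 5 + Y 6 + Y 7 + Y 8 + Y 9 := by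
    change 0 + Y 0 + Y 1 + Y 2 + Y 3 + Y 4 + Y 5 + Y 6 + Y 7 + Y 8 + Y 9 = Y 0 + Y 1 + Y 2 + Y 3 + Y 4 + Y 5 + Y 6 + Y 7 + Y 8 + Y 9
    omega
  have e2 : (get (get (get (get (get (get (get (get (get (get t (Y 0)) (Y 1)) (Y 2)) (Y 3)) (Y 4)) (Y 5)) (Y 6)) (Y 7)) (Y 8)) (Y 9)) =
      lookF 10 t Y := rfl
  rw [e1, e2] at h2
  exact h2

/-- all colours exchanged -/
def swd (d : Fin 10 → Bool × ℝ) : Fin 10 → Bool × ℝ := fun e => sw (d e)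

/-- **Result of the main check for one colouring and its complement.** -/
theorem main_ineqS (GD PD TD t : Tr) (D : ℕ) (d : Fin 10 → Bool × ℝ) (hw : ∀ e, 0 ≤ (d e).2)
    (h : mainS GD PD TD t D (cn (d 0).1) (cn (d 1).1) (cn (d 2).1) (cn (d 3).1) (cn (d 4).1) (cn (d 5).1) (cn (d 6).1) (cn (d 7).1) (cn (d 8).1) (cn (d 9).1)
      (cn (!(d 0).1)) (cn (!(d 1).1)) (cn (!(d 2).1)) (cn (!(d 3).1)) (cn (!(d 4).1)) (cn (!(d 5).1)) (cn (!(d 6).1)) (cn (!(d 7).1)) (cn (!(d 8).1)) (cn (!(d 9).1)) = true) :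
    (∑ π : Equiv.Perm (Fin 5), (Apc D GD PD TD (d ∘ pe π) + Apc D GD PD TD (swd (d ∘ pe π)))) +
      pol D 10 t (fun e => (d e).2) ≤ 0 := by
  have e0 : ∀ π : Equiv.Perm (Fin 5), swd (d ∘ pe π) = (swd d) ∘ pe π := fun π => rfl
  simp only [e0, Apc_eq, RC_comp]
  rw [Finset.sum_add_distrib, RC_sum, RC_sum]
  unfold RC pol
  rw [← Finset.sum_add_distrib, ← Finset.sum_add_distrib]
  refine Finset.sum_nonpos fun α _ => ?_
  by_cases h3 : ∑ e, (α e : ℕ) ≤ D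
  · have h4 : ∀ (X : Fin 10 → ℕ) (π : Equiv.Perm (Fin 5)),
        cut D (fun X Y => cA GD PD TD (∑ e, Y e) X Y)
        (X ∘ pe π) ((fun e => (α e : ℕ)) ∘ pe π) =
        cA GD PD TD (∑ e, (α e : ℕ)) (X ∘ pe π)
          ((fun e => (α e : ℕ)) ∘ pe π) := by
      intro X π
      unfold cut
      rw [sum_pe, if_pos h3]
      beta_reduce
      rw [sum_pe]
    simp only [h4, if_pos h3]
    have e1 : ∀ e, ((swd d) e).2 = (d e).2 := fun e => rfl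
    have e2 : ∀ e, ((swd d) e).1 = !(d e).1 := fun e => rfl
    simp only [e1, e2]
    rw [← add_mul, ← add_mul]
    refine mul_nonpos_of_nonpos_of_nonneg ?_ (prod_nonneg' hw _)
    have h5 := mainS_imp GD PD TD t D (fun e => cn (d e).1) (fun e => cn (!(d e).1))
      (fun e => (α e : ℕ)) h
      (by rw [← sum10 (fun e => (α e : ℕ))]; exact h3)
    rw [← sum10 (fun e => (α e : ℕ)), Finset.sum_add_distrib] at h5
    exact_mod_cast h5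
  · have h4 : ∀ (X : Fin 10 → ℕ) (π : Equiv.Perm (Fin 5)),
        cut D (fun X Y => cA GD PD TD (∑ e, Y e) X Y)
        (X ∘ pe π) ((fun e => (α e : ℕ)) ∘ pe π) = 0 := by
      intro X π
      unfold cut
      rw [sum_pe, if_neg h3]
    simp only [h4, if_neg h3, Finset.sum_const_zero, Int.cast_zero, zero_mul, add_zero]
    exact le_refl _

end Fl

end HR
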