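import Pool.Agent.Lib.MP_a1b8b7_co.B.Enum

/-!
# Every state sequence has a minimal representative
-/

set_option autoImplicit false

open Finset

namespace HR

namespace Fl

theorem dif_inj {r : Fin 5 → Fin 5} (h : Dif r) : Function.Injective r := by
  refine inj_of [r] ?_ r (by simp)
  simp [h]

theorem exists_dif : ∀ p q r : Fin 5, p ≠ q → p ≠ r → q ≠ r →
    ∃ s t : Fin 5, Dif (v5 p q r s t) := by
  decide +kernel

theorem exists_perm (p q r : Fin 5) (h1 : p ≠ q) (h2 : p ≠ r) (h3 : q ≠ r) :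
    ∃ σ : Equiv.Perm (Fin 5), σ 0 = p ∧ σ 1 = q ∧ σ 2 = r := by
  obtain ⟨s, t, h⟩ := exists_dif p q r h1 h2 h3
  exact ⟨Equiv.ofBijective _ (Finite.injective_iff_bijective.1 (dif_inj h)), rfl, rfl, rfl⟩

theorem c3_lt {k x y z : ℕ} (hx : x < k) (hy : y < k) (hz : z < k) : c3 k x y z < k ^ 3 := by
  rw [c3_eq]
  have h1 : x * k + y < k * k := by nlinarith
  have h2 : (x * k + y) * k + z < k * k * k := by nlinarith
  have : k ^ 3 = k * k * k := by ring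
  omega

/-- comparison of two digit numbers -/
theorem two_digits {K a b a' b' : ℕ} (hb' : b' < K) (h : a * K + b ≤ a' * K + b') :
    a ≤ a' ∧ (a = a' → b ≤ b') := by
  constructor
  · by_contra hlt
    rw [not_le] at hlt
    have : (a' + 1) * K ≤ a * K := Nat.mul_le_mul_right _ hlt
    nlinarith
  · rintro rfl
    omega

variable {k : ℕ}

/-- the number that is minimised -/
noncomputable def NN (k : ℕ) (G : Fin 10 → Fin k) : ℕ :=
  (c3 k (G 0) (G 1) (G 2) * k ^ 3 + c3 k (G 3) (G 4) (G 5)) * k ^ 3 + c3 k (G 6) (G 7) (G 8)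

theorem NN_le {G G' : Fin 10 → Fin k} (h : NN k G ≤ NN k G') :
    c3 k (G 0) (G 1) (G 2) ≤ c3 k (G' 0) (G' 1) (G' 2) ∧
      (c3 k (G 0) (G 1) (G 2) = c3 k (G' 0) (G' 1) (G' 2) →
        c3 k (G 3) (G 4) (G 5) ≤ c3 k (G' 3) (G' 4) (G' 5)) := by
  have h1 := (two_digits (c3_lt (G' 6).2 (G' 7).2 (G' 8).2) h).1
  exact two_digits (c3_lt (G' 3).2 (G' 4).2 (G' 5).2) h1

theorem comp_pe (F : Fin 10 → Fin k) (ρ σ : Equiv.Perm (Fin 5)) :
    (F ∘ pe ρ) ∘ pe σ = F ∘ pe (ρ * σ) := by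
  funext e
  simp only [Function.comp, pe_pe]

theorem exists_min_rep (F : Fin 10 → Fin k) : ∃ ρ : Equiv.Perm (Fin 5),
    ∀ σ : Equiv.Perm (Fin 5), NN k (F ∘ pe ρ) ≤ NN k ((F ∘ pe ρ) ∘ pe σ) := by
  obtain ⟨ρ, -, h⟩ := Finset.exists_min_image (Finset.univ : Finset (Equiv.Perm (Fin 5)))
    (fun ρ => NN k (F ∘ pe ρ)) ⟨1, Finset.mem_univ _⟩
  refine ⟨ρ, fun σ => ?_⟩
  rw [comp_pe]
  exact h _ (Finset.mem_univ _)

theorem c3_swap1 {x y z : ℕ} (hk : 0 < k) (hx : x < k)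
    (h : c3 k x y z ≤ c3 k y x z) : x ≤ y := by
  rw [c3_eq, c3_eq] at h
  have h1 : (x * k + y) * k ≤ (y * k + x) * k := by omega
  have h2 : x * k + y ≤ y * k + x := Nat.le_of_mul_le_mul_right h1 hk
  by_contra hlt
  rw [not_le] at hlt
  obtain ⟨t, rfl⟩ : ∃ t, x = y + 1 + t := ⟨x - (y + 1), by omega⟩
  have h3 : (y + 1 + t) * k = y * k + k + t * k := by ring
  rw [h3] at h2
  have h4 : t ≤ t * k := Nat.le_mul_of_pos_right t hk
  omega

theorem c3_swap2 {x y z : ℕ} (h : c3 k x y z ≤ c3 k x z y) (hk : 0 < k) (hy : y < k) :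
    y ≤ z := by
  rw [c3_eq, c3_eq] at h
  have h1 : (x * k + y) * k = x * k * k + y * k := by ring
  have h2 : (x * k + z) * k = x * k * k + z * k := by ring
  have h3 : y * k + z ≤ z * k + y := by omega
  by_contra hlt
  rw [not_le] at hlt
  obtain ⟨t, rfl⟩ : ∃ t, y = z + 1 + t := ⟨y - (z + 1), by omega⟩
  have h5 : (z + 1 + t) * k = z * k + k + t * k := by ring
  rw [h5] at h3
  have h4 : t ≤ t * k := Nat.le_mul_of_pos_right t hk
  omega

theorem sk_of_tri {G : Fin 10 → Fin k}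
    (hG : ∀ p q r : Fin 5, p ≠ q → p ≠ r → q ≠ r →
      c3 k (G 0) (G 1) (G 2) ≤ c3 k (G (ei p q)) (G (ei p r)) (G (ei q r)))
    (p q r : Fin 5) (h1 : p ≠ q) (h2 : p ≠ r) (h3 : q ≠ r) (b : Bool)
    (h : sk k (c3 k (G 0) (G 1) (G 2)) (G (ei p q)) (G (ei p r)) (G (ei q r)) b = true) :
    b = true := by
  refine sk_imp h (hG p q r h1 h2 h3) ?_ ?_ ?_ ?_ ?_
  · have := hG q p r h1.symm h3 h2
    rwa [ei_comm q p] at this
  · have := hG q r p h3 h1.symm h2.symm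
    rwa [ei_comm q p, ei_comm r p] at this
  · have := hG p r q h2 h1 h3.symm
    rwa [ei_comm r q] at this
  · have := hG r p q h2.symm h3.symm h1
    rwa [ei_comm r p, ei_comm r q] at this
  · have := hG r q p h3.symm h2.symm h1.symm
    rwa [ei_comm r q, ei_comm r p, ei_comm q p] at this

theorem min_of_rep (G : Fin 10 → Fin k)
    (hm : ∀ σ : Equiv.Perm (Fin 5), NN k G ≤ NN k (G ∘ pe σ)) :
    Min k (G 0) (G 1) (G 2) (G 3) (G 4) (G 5) (G 6) (G 7) (G 8) (G 9) := by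
  have hk : 0 < k := (Nat.zero_le _).trans_lt (G 0).2
  have hG : ∀ p q r : Fin 5, p ≠ q → p ≠ r → q ≠ r →
      c3 k (G 0) (G 1) (G 2) ≤ c3 k (G (ei p q)) (G (ei p r)) (G (ei q r)) := by
    intro p q r h1 h2 h3
    obtain ⟨σ, rfl, rfl, rfl⟩ := exists_perm p q r h1 h2 h3
    exact (NN_le (hm σ)).1
  have s34 := (NN_le (hm (Equiv.swap 3 4))).2
  have s12 := NN_le (hm (Equiv.swap 1 2))
  have s01 := NN_le (hm (Equiv.swap 0 1))
  have e34 : ∀ e f : Fin 10, pe (Equiv.swap 3 4) e = f → (G ∘ pe (Equiv.swap 3 4)) e = G f :=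
    fun e f h => by rw [Function.comp, h]
  have e12 : ∀ e f : Fin 10, pe (Equiv.swap 1 2) e = f → (G ∘ pe (Equiv.swap 1 2)) e = G f :=
    fun e f h => by rw [Function.comp, h]
  have e01 : ∀ e f : Fin 10, pe (Equiv.swap 0 1) e = f → (G ∘ pe (Equiv.swap 0 1)) e = G f :=
    fun e f h => by rw [Function.comp, h]
  rw [e34 0 0 (by decide), e34 1 1 (by decide), e34 2 2 (by decide), e34 3 6 (by decide),
    e34 4 7 (by decide), e34 5 8 (by decide)] at s34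
  rw [e12 0 1 (by decide), e12 1 0 (by decide), e12 2 2 (by decide), e12 3 3 (by decide),
    e12 4 5 (by decide), e12 5 4 (by decide)] at s12
  rw [e01 0 0 (by decide), e01 1 2 (by decide), e01 2 1 (by decide), e01 3 4 (by decide),
    e01 4 3 (by decide), e01 5 5 (by decide)] at s01
  refine ⟨(G 0).2, (G 1).2, (G 2).2, (G 3).2, (G 4).2, (G 5).2, (G 6).2, (G 7).2, (G 8).2,
    (G 9).2, ?_, ?_, ?_, ?_, s34 rfl, ?_, ?_, ?_, ?_, ?_, ?_, ?_, ?_, ?_⟩
  · exact c3_swap1 hk (G 0).2 s12.1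
  · exact c3_swap2 s01.1 hk (G 1).2
  · intro h
    have := s01.2 (by rw [h])
    exact c3_swap1 hk (G 3).2 this
  · intro h
    have := s12.2 (by rw [h])
    exact c3_swap2 this hk (G 4).2
  · exact sk_of_tri hG 0 1 3 (by decide) (by decide) (by decide)
  · exact sk_of_tri hG 0 2 3 (by decide) (by decide) (by decide)
  · exact sk_of_tri hG 1 2 3 (by decide) (by decide) (by decide)
  · exact sk_of_tri hG 0 1 4 (by decide) (by decide) (by decide)
  · exact sk_of_tri hG 0 2 4 (by decide) (by decide) (by decide)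
  · exact sk_of_tri hG 1 2 4 (by decide) (by decide) (by decide)
  · exact sk_of_tri hG 0 3 4 (by decide) (by decide) (by decide)
  · exact sk_of_tri hG 1 3 4 (by decide) (by decide) (by decide)
  · exact sk_of_tri hG 2 3 4 (by decide) (by decide) (by decide)

/-- **Enumeration.** If the check succeeds for all sorted types, then every sequence of states has a
vertex permutation for which the leaf test succeeds. -/
theorem exists_leaf (leaf : ℕ → ℕ → ℕ → ℕ → ℕ → ℕ → ℕ → ℕ → ℕ → ℕ → Bool)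
    (h : ∀ d0 d1 d2 : ℕ, d0 ≤ d1 → d1 ≤ d2 → d2 < k → chk3 k leaf d0 d1 d2 = true)
    (F : Fin 10 → Fin k) : ∃ ρ : Equiv.Perm (Fin 5),
      leaf ((F ∘ pe ρ) 0) ((F ∘ pe ρ) 1) ((F ∘ pe ρ) 2) ((F ∘ pe ρ) 3) ((F ∘ pe ρ) 4)
        ((F ∘ pe ρ) 5) ((F ∘ pe ρ) 6) ((F ∘ pe ρ) 7) ((F ∘ pe ρ) 8) ((F ∘ pe ρ) 9) = true := by
  obtain ⟨ρ, hρ⟩ := exists_min_rep F
  have hM := min_of_rep (F ∘ pe ρ) hρ
  exact ⟨ρ, leaf_of_min hM (h _ _ _ hM.a1 hM.a2 hM.h2)⟩

/-- symmetrised function -/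
noncomputable def sy {M : Type} [AddCommMonoid M] (g : (Fin 10 → Fin k) → M)
    (F : Fin 10 → Fin k) : M :=
  ∑ π : Equiv.Perm (Fin 5), g (F ∘ pe π)

theorem sy_inv {M : Type} [AddCommMonoid M] (g : (Fin 10 → Fin k) → M) (F : Fin 10 → Fin k)
    (ρ : Equiv.Perm (Fin 5)) : sy g (F ∘ pe ρ) = sy g F := by
  unfold sy
  simp only [comp_pe]
  exact Equiv.sum_comp (Equiv.mulLeft ρ) (fun π => g (F ∘ pe π))

/-- **The principle of the checker.** -/
theorem all_of_leaf (g : (Fin 10 → Fin k) → ℤ)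
    (leaf : ℕ → ℕ → ℕ → ℕ → ℕ → ℕ → ℕ → ℕ → ℕ → ℕ → Bool)
    (hl : ∀ F : Fin 10 → Fin k, leaf (F 0) (F 1) (F 2) (F 3) (F 4) (F 5) (F 6) (F 7) (F 8) (F 9) =
      true → 0 ≤ sy g F)
    (h : ∀ d0 d1 d2 : ℕ, d0 ≤ d1 → d1 ≤ d2 → d2 < k → chk3 k leaf d0 d1 d2 = true)
    (F : Fin 10 → Fin k) : 0 ≤ ∑ π : Equiv.Perm (Fin 5), g (F ∘ pe π) := by
  obtain ⟨ρ, hρ⟩ := exists_leaf leaf h F
  have := hl _ hρ
  rwa [sy_inv] at this

end Fl

end HR
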