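import Pool.Agent.Lib.MP_a1b8b7_co.B.Ex

/-!
# Checking that a tabulated polynomial is nonnegative on a cover polytope

`chk` compares (by Kronecker substitution) a table `T` with a nonnegative expression `E`.
-/

set_option autoImplicit false

open Finset MvPolynomial

namespace HR

namespace Own

/-! ### conditions on expressions -/

/-- code of a triangle -/
def tcode (i j l : ℕ) : ℕ := i + 16 * j + 256 * l

noncomputable def memK (c : ℕ) (l : List ℕ) : Bool :=
  List.rec (motive := fun _ => Bool) false (fun a _ ih => or (Nat.beq a c) ih) l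

noncomputable def lenK (l : List (List ℕ)) : ℕ :=
  List.rec (motive := fun _ => ℕ) (nat_lit 0) (fun _ _ ih => Nat.add ih (nat_lit 1)) l

noncomputable def len1 (l : List ℕ) : ℕ :=
  List.rec (motive := fun _ => ℕ) (nat_lit 0) (fun _ _ ih => Nat.add ih (nat_lit 1)) l

theorem lenK_eq (l : List (List ℕ)) : lenK l = l.length := by
  induction l with
  | nil => rfl
  | cons a l ih => change lenK l + 1 = _; rw [ih]; rfl

theorem len1_eq (l : List ℕ) : len1 l = l.length := by
  induction l with
  | nil => rfl
  | cons a l ih => change len1 l + 1 = _; rw [ih]; rfl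

theorem mem_of_memK {c : ℕ} {l : List ℕ} (h : memK c l = true) : c ∈ l := by
  induction l with
  | nil => exact absurd h (by simp [memK])
  | cons a l ih =>
    change (Nat.beq a c || memK c l) = true at h
    rw [Bool.or_eq_true] at h
    rcases h with h | h
    · rw [Nat.eq_of_beq_eq_true h]; exact List.mem_cons_self
    · exact List.mem_cons_of_mem _ (ih h)

/-- validity of the factors and of the forms -/
noncomputable def okE (trs : List ℕ) (E : Ex) : Bool :=
  Ex.rec (motive := fun _ => Bool) (fun _ => true) (fun _ _ r s => and r s) (fun _ _ r => r)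
    (fun _ _ r => r)
    (fun i j l _ r => and (and (Nat.ble i (nat_lit 9)) (and (Nat.ble j (nat_lit 9))
      (and (Nat.ble l (nat_lit 9)) (memK (tcode i j l) trs)))) r)
    (fun B p => and (Nat.beq (lenK B) p.n) p.check) E

/-- all monomials have degree at most `d / 2` -/
noncomputable def allLen (B : List (List ℕ)) (d : ℕ) : Bool :=
  List.rec (motive := fun _ => Bool) true
    (fun b _ ih => and (Nat.ble (Nat.mul (nat_lit 2) (len1 b)) d) ih) B

/-- degree at most `d` -/
noncomputable def dE (E : Ex) (d : ℕ) : Bool :=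
  Ex.rec (motive := fun _ => ℕ → Bool) (fun _ _ => true) (fun _ _ r s d => and (r d) (s d))
    (fun _ _ r d => Nat.rec (motive := fun _ => Bool) false (fun d' _ => r d') d)
    (fun _ _ r d => Nat.rec (motive := fun _ => Bool) false (fun d' _ => r d') d)
    (fun _ _ _ _ r d => Nat.rec (motive := fun _ => Bool) false (fun d' _ => r d') d)
    (fun B _ d => allLen B d) E d

theorem allLen_spec {B : List (List ℕ)} {d : ℕ} (h : allLen B d = true) :
    ∀ b ∈ B, 2 * b.length ≤ d := by
  induction B with
  | nil => intro b hb; simp at hb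
  | cons a B ih =>
    change (Nat.ble (2 * len1 a) d && allLen B d) = true at h
    rw [Bool.and_eq_true] at h
    intro b hb
    rcases List.mem_cons.1 hb with rfl | hb
    · rw [← len1_eq]; exact Nat.le_of_ble_eq_true h.1
    · exact ih h.2 b hb

/-! ### real values -/

section real

variable (x : ℕ → ℝ)

theorem rowE_real (w : ℕ) (l : List (List ℕ)) : ∀ r : ℕ,
    rowE x w l r = ∑ j ∈ range l.length, mon x (l.getD j []) * (Chk.dig w r j : ℝ) := by
  induction l with
  | nil => intro r; simp [rowE]
  | cons b l ih =>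
    intro r
    rw [rowE, ih, List.length_cons, Finset.sum_range_succ']
    simp only [List.getD_cons_succ, List.getD_cons_zero]
    rw [add_comm]
    congr 1
    refine Finset.sum_congr rfl fun j _ => ?_
    rw [Chk.dig_succ, Nat.shiftRight_eq_div_pow]

theorem rowsE_real (w : ℕ) (B : List (List ℕ)) (l : List (List ℕ)) : ∀ r : List ℕ,
    r.length = l.length →
    rowsE x w B l r = ∑ i ∈ range l.length, mon x (l.getD i []) * rowE x w B (r.getD i 0) := by
  induction l with
  | nil => intro r hr; simp [rowsE]
  | cons b l ih =>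
    intro r hr
    cases r with
    | nil => simp at hr
    | cons q qs =>
      rw [rowsE, ih qs (by simpa using hr), List.length_cons, Finset.sum_range_succ']
      simp only [List.getD_cons_succ, List.getD_cons_zero]
      rw [add_comm]

theorem sumE_real (l : List (List ℕ)) :
    sumE x l = ∑ i ∈ range l.length, mon x (l.getD i []) := by
  induction l with
  | nil => simp [sumE]
  | cons b l ih =>
    rw [sumE, ih, List.length_cons, Finset.sum_range_succ']
    simp only [List.getD_cons_succ, List.getD_cons_zero]
    rw [add_comm]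

/-- the value is nonnegative on the cover polytope -/
theorem ev_nonneg {trs : List ℕ} (h0 : ∀ i, 0 ≤ x i) (h1 : ∀ i, x i ≤ 1)
    (ht : ∀ i j l, i ≤ 9 → j ≤ 9 → l ≤ 9 → tcode i j l ∈ trs → 1 ≤ x i + x j + x l)
    (E : Ex) (h : okE trs E = true) : 0 ≤ (ev x E).1 - (ev x E).2 := by
  induction E with
  | k m => simp [ev]
  | a e g ih1 ih2 =>
    change (okE trs e && okE trs g) = true at h
    rw [Bool.and_eq_true] at h
    have a1 := ih1 h.1
    have a2 := ih2 h.2
    simp only [ev]
    linarith
  | v i e ih =>
    have a1 := ih h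
    simp only [ev]
    nlinarith [mul_nonneg (h0 i) a1]
  | u i e ih =>
    have a1 := ih h
    simp only [ev]
    nlinarith [mul_nonneg (sub_nonneg.2 (h1 i)) a1]
  | t i j l e ih =>
    change ((Nat.ble i 9 && (Nat.ble j 9 && (Nat.ble l 9 && memK (tcode i j l) trs))) &&
      okE trs e) = true at h
    simp only [Bool.and_eq_true] at h
    obtain ⟨⟨b1, b2, b3, b4⟩, b5⟩ := h
    have a1 := ih b5
    have a2 := ht i j l (Nat.le_of_ble_eq_true b1) (Nat.le_of_ble_eq_true b2)
      (Nat.le_of_ble_eq_true b3) (mem_of_memK b4)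
    simp only [ev]
    nlinarith [mul_nonneg (sub_nonneg.2 a2) a1]
  | q B p =>
    change (Nat.beq (lenK B) p.n && p.check) = true at h
    rw [Bool.and_eq_true] at h
    have hn : B.length = p.n := by rw [← lenK_eq]; exact Nat.eq_of_beq_eq_true h.1
    have hok := Chk.Data.ok_of_check h.2
    have hs := Chk.Data.sound h.2 fun i => mon x (B.getD i [])
    simp only [ev]
    rw [rowsE_real x _ _ _ _ (by rw [hok.len, hn]), sumE_real, hn]
    refine le_of_le_of_eq hs ?_
    have e1 : (p.oq : ℝ) * ((∑ i ∈ range p.n, mon x (B.getD i [])) *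
        ∑ i ∈ range p.n, mon x (B.getD i [])) = ∑ i ∈ range p.n, ∑ j ∈ range p.n,
          (p.oq : ℝ) * mon x (B.getD i []) * mon x (B.getD j []) := by
      rw [Finset.sum_mul_sum, Finset.mul_sum]
      refine Finset.sum_congr rfl fun i _ => ?_
      rw [Finset.mul_sum]
      refine Finset.sum_congr rfl fun j _ => ?_
      ring
    rw [e1, ← Finset.sum_sub_distrib]
    refine Finset.sum_congr rfl fun i _ => ?_
    rw [rowE_real, hn, Finset.mul_sum, ← Finset.sum_sub_distrib]
    refine Finset.sum_congr rfl fun j _ => ?_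
    rw [Chk.Data.Qt]
    push_cast
    ring

end real

/-! ### degrees -/

section degree

variable {n : ℕ} {x : ℕ → MvPolynomial (Fin n) ℕ} (hx : ∀ i, (x i).totalDegree ≤ 1)

theorem deg_add {P Q : MvPolynomial (Fin n) ℕ} {d : ℕ} (h1 : P.totalDegree ≤ d)
    (h2 : Q.totalDegree ≤ d) : (P + Q).totalDegree ≤ d :=
  (totalDegree_add P Q).trans (max_le h1 h2)

theorem deg_mul {P Q : MvPolynomial (Fin n) ℕ} {a b d : ℕ} (h1 : P.totalDegree ≤ a)
    (h2 : Q.totalDegree ≤ b) (h : a + b ≤ d) : (P * Q).totalDegree ≤ d :=
  (totalDegree_mul P Q).trans ((Nat.add_le_add h1 h2).trans h)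

theorem deg_natCast (m : ℕ) : ((m : ℕ) : MvPolynomial (Fin n) ℕ).totalDegree ≤ 0 := by
  have : ((m : ℕ) : MvPolynomial (Fin n) ℕ) = C m := by simp
  rw [this, totalDegree_C]

include hx

theorem deg_mon (l : List ℕ) : (mon x l).totalDegree ≤ l.length := by
  induction l with
  | nil => simp [mon]
  | cons i l ih =>
    rw [mon, List.length_cons]
    exact deg_mul (hx i) ih (by omega)

theorem deg_rowE (w : ℕ) (l : List (List ℕ)) {d : ℕ} (hl : ∀ b ∈ l, b.length ≤ d) : ∀ r : ℕ,
    (rowE x w l r).totalDegree ≤ d := by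
  induction l with
  | nil => intro r; simp [rowE]
  | cons b l ih =>
    intro r
    rw [rowE]
    exact deg_add (deg_mul ((deg_mon hx b).trans (hl b List.mem_cons_self)) (deg_natCast _) (by omega))
      (ih (fun c hc => hl c (List.mem_cons_of_mem _ hc)) _)

theorem deg_rowsE (w : ℕ) (B l : List (List ℕ)) {d : ℕ} (hB : ∀ b ∈ B, b.length ≤ d)
    (hl : ∀ b ∈ l, b.length ≤ d) : ∀ r : List ℕ, (rowsE x w B l r).totalDegree ≤ 2 * d := by
  induction l with
  | nil => intro r; simp [rowsE]
  | cons b l ih =>
    intro r
    cases r with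
    | nil => simp [rowsE]
    | cons q qs =>
      rw [rowsE]
      exact deg_add (deg_mul ((deg_mon hx b).trans (hl b List.mem_cons_self))
        (deg_rowE hx w B hB q) (by omega)) (ih (fun c hc => hl c (List.mem_cons_of_mem _ hc)) _)

theorem deg_sumE (l : List (List ℕ)) {d : ℕ} (hl : ∀ b ∈ l, b.length ≤ d) :
    (sumE x l).totalDegree ≤ d := by
  induction l with
  | nil => simp [sumE]
  | cons b l ih =>
    rw [sumE]
    exact deg_add ((deg_mon hx b).trans (hl b List.mem_cons_self))
      (ih fun c hc => hl c (List.mem_cons_of_mem _ hc))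

theorem deg_ev (E : Ex) : ∀ d : ℕ, dE E d = true →
    (ev x E).1.totalDegree ≤ d ∧ (ev x E).2.totalDegree ≤ d := by
  induction E with
  | k m =>
    intro d _
    simp only [ev]
    exact ⟨(deg_natCast m).trans (Nat.zero_le _), by simp⟩
  | a e g ih1 ih2 =>
    intro d h
    change (dE e d && dE g d) = true at h
    rw [Bool.and_eq_true] at h
    have a1 := ih1 d h.1
    have a2 := ih2 d h.2
    exact ⟨deg_add a1.1 a2.1, deg_add a1.2 a2.2⟩
  | v i e ih =>
    intro d h
    cases d with
    | zero => exact absurd h (by simp [dE])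
    | succ d =>
      have a1 := ih d h
      exact ⟨deg_mul (hx i) a1.1 (by omega), deg_mul (hx i) a1.2 (by omega)⟩
  | u i e ih =>
    intro d h
    cases d with
    | zero => exact absurd h (by simp [dE])
    | succ d =>
      have a1 := ih d h
      exact ⟨deg_add (a1.1.trans (by omega)) (deg_mul (hx i) a1.2 (by omega)),
        deg_add (a1.2.trans (by omega)) (deg_mul (hx i) a1.1 (by omega))⟩
  | t i j l e ih =>
    intro d h
    cases d with
    | zero => exact absurd h (by simp [dE])
    | succ d =>
      have a1 := ih d h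
      exact ⟨deg_add (deg_add (deg_mul (hx i) a1.1 (by omega)) (deg_add (deg_mul (hx j) a1.1
        (by omega)) (deg_mul (hx l) a1.1 (by omega)))) (a1.2.trans (by omega)),
        deg_add (deg_add (deg_mul (hx i) a1.2 (by omega)) (deg_add (deg_mul (hx j) a1.2
        (by omega)) (deg_mul (hx l) a1.2 (by omega)))) (a1.1.trans (by omega))⟩
  | q B p =>
    intro d h
    change allLen B d = true at h
    have h1 := allLen_spec h
    have h2 : ∀ b ∈ B, b.length ≤ d / 2 := fun b hb => by have := h1 b hb; omega
    have h3 : 2 * (d / 2) ≤ d := by omega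
    refine ⟨(deg_rowsE hx _ B B h2 h2 _).trans h3, ?_⟩
    exact deg_mul (deg_natCast _) (deg_mul (deg_sumE hx B h2) (deg_sumE hx B h2) le_rfl)
      (by omega)

end degree

end Own

end HR
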