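import Pool.Agent.Lib.MP_a1b8b7_co.B.Ex

/-!
# Evaluation of coefficient tables

`evT T n D x` is the value (positive part, negative part) of the polynomial `pol D n T` at the
point `x`, in an arbitrary commutative semiring; `evTK` is the kernel version for powers of two.
-/

set_option autoImplicit false

open Finset

namespace HR

namespace Own

open Fl Fl.Tr

section generic

variable {A : Type} [CommSemiring A]

/-- value of a table with `n` levels, total degree at most `D` -/
noncomputable def evT : Tr → ℕ → ℕ → (ℕ → A) → A × A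
  | Tr.e, _, _, _ => (0, 0)
  | Tr.p k, 0, _, _ => ((k : A), 0)
  | Tr.p _, _ + 1, _, _ => (0, 0)
  | Tr.m k, 0, _, _ => (0, (k : A))
  | Tr.m _, _ + 1, _, _ => (0, 0)
  | Tr.c _ _, 0, _, _ => (0, 0)
  | Tr.c h _, n + 1, 0, x => evT h n 0 fun i => x (i + 1)
  | Tr.c h t, n + 1, D + 1, x =>
    ((evT h n (D + 1) fun i => x (i + 1)).1 + x 0 * (evT t (n + 1) D x).1,
      (evT h n (D + 1) fun i => x (i + 1)).2 + x 0 * (evT t (n + 1) D x).2)

end generic

section natural

variable {A B : Type} [CommSemiring A] [CommSemiring B] (f : A →+* B)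

theorem evT_map (T : Tr) : ∀ (n D : ℕ) (x : ℕ → A),
    f (evT T n D x).1 = (evT T n D fun i => f (x i)).1 ∧
      f (evT T n D x).2 = (evT T n D fun i => f (x i)).2 := by
  induction T with
  | e => intro n D x; simp [evT]
  | p k => intro n D x; cases n <;> simp [evT]
  | m k => intro n D x; cases n <;> simp [evT]
  | c h t ih1 ih2 =>
    intro n D x
    cases n with
    | zero => simp [evT]
    | succ n =>
      cases D with
      | zero =>
        simp only [evT]
        exact ih1 n 0 _
      | succ D =>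
        have a1 := ih1 n (D + 1) fun i => x (i + 1)
        have a2 := ih2 (n + 1) D x
        simp only [evT, map_add, map_mul, a1.1, a1.2, a2.1, a2.2, and_self]

end natural

/-! ### the kernel version -/

section kernel

noncomputable def evTK (T : Tr) (n D kt : ℕ) : ℕ × ℕ :=
  Tr.rec (motive := fun _ => ℕ → ℕ → ℕ → ℕ × ℕ)
    (fun _ _ _ => (nat_lit 0, nat_lit 0))
    (fun k n _ _ => Nat.rec (motive := fun _ => ℕ × ℕ) (k, nat_lit 0)
      (fun _ _ => (nat_lit 0, nat_lit 0)) n)
    (fun k n _ _ => Nat.rec (motive := fun _ => ℕ × ℕ) (nat_lit 0, k)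
      (fun _ _ => (nat_lit 0, nat_lit 0)) n)
    (fun _ _ rh rt n D kt => Nat.rec (motive := fun _ => ℕ × ℕ) (nat_lit 0, nat_lit 0)
      (fun n' _ => Nat.rec (motive := fun _ => ℕ × ℕ)
        (rh n' (nat_lit 0) (Nat.shiftRight kt (nat_lit 32)))
        (fun D' _ => (Nat.add (rh n' D (Nat.shiftRight kt (nat_lit 32))).1
            (Nat.shiftLeft (rt n D' kt).1 (Nat.mod kt (nat_lit 4294967296))),
          Nat.add (rh n' D (Nat.shiftRight kt (nat_lit 32))).2
            (Nat.shiftLeft (rt n D' kt).2 (Nat.mod kt (nat_lit 4294967296))))) D) n)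
    T n D kt

theorem pt_shift (kt : ℕ) : (fun i => pt kt (i + 1)) = pt (kt >>> 32) := by
  funext i
  unfold pt sh
  congr 2
  change (kt >>> (32 * (i + 1))) = ((kt >>> 32) >>> (32 * i))
  rw [← Nat.shiftRight_add]
  congr 1
  ring

theorem pt_zero (kt : ℕ) : pt kt 0 = 2 ^ (kt % 4294967296) := by
  unfold pt sh
  congr 2

theorem evTK_eq (T : Tr) : ∀ n D kt : ℕ, evTK T n D kt = evT T n D (pt kt) := by
  induction T with
  | e => intro n D kt; rfl
  | p k => intro n D kt; cases n <;> rfl
  | m k => intro n D kt; cases n <;> rfl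
  | c h t ih1 ih2 =>
    intro n D kt
    cases n with
    | zero => rfl
    | succ n =>
      cases D with
      | zero =>
        change evTK h n 0 (kt >>> 32) = _
        rw [ih1, evT, pt_shift]
      | succ D =>
        change ((evTK h n (D + 1) (kt >>> 32)).1 +
          Nat.shiftLeft (evTK t (n + 1) D kt).1 (kt % 4294967296),
          (evTK h n (D + 1) (kt >>> 32)).2 +
          Nat.shiftLeft (evTK t (n + 1) D kt).2 (kt % 4294967296)) = _
        rw [ih1, ih2, shl, shl, evT, pt_shift, pt_zero]

end kernel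

/-! ### relation with `pol` -/

section pol

theorem pol_e (D : ℕ) : ∀ (n : ℕ) (w : Fin n → ℝ), pol D n Tr.e w = 0 := by
  have hl : ∀ (n : ℕ) (α : Fin n → ℕ), lookF n Tr.e α = Tr.e := by
    intro n
    induction n with
    | zero => intro α; rfl
    | succ n ih =>
      intro α
      rw [lookF]
      have hg : ∀ i : ℕ, get Tr.e i = Tr.e := by
        intro i
        induction i with
        | zero => rfl
        | succ i ih => rw [get_succ, tl_e, ih]
      rw [hg, ih]
  intro n w
  unfold pol
  refine Finset.sum_eq_zero fun α _ => ?_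
  rw [hl]
  simp

theorem pol_zero (D : ℕ) (T : Tr) (w : Fin 0 → ℝ) : pol D 0 T w = T.z := by
  unfold pol
  rw [Fintype.sum_unique]
  simp [lookF]

/-- the value of a table in terms of the values of its children -/
theorem pol_rec (D n : ℕ) (T : Tr) (w : Fin (n + 1) → ℝ) :
    pol D (n + 1) T w = ∑ i ∈ range (D + 1), w 0 ^ i * pol (D - i) n (get T i) fun j => w j.succ := by
  unfold pol
  rw [← (Fin.consEquiv (fun _ => Fin (D + 1))).sum_comp, Fintype.sum_prod_type,
    Finset.sum_range]
  refine Finset.sum_congr rfl fun i _ => ?_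
  rw [Finset.mul_sum]
  -- both sides are sums over the exponents of total degree at most `D - i`
  have key : ∀ (B : ℕ) (hB : D - (i : ℕ) ≤ B) (g : (Fin n → ℕ) → ℝ),
      (∑ α : Fin n → Fin (B + 1), if ∑ j, (α j : ℕ) ≤ D - i then g (fun j => (α j : ℕ)) else 0) =
        ∑ α ∈ (Fintype.piFinset fun _ : Fin n => range (D + 1)).filter
          (fun α => ∑ j, α j ≤ D - i), g α := by
    intro B hB g
    rw [← Finset.sum_filter]
    refine Finset.sum_bij (fun α _ => fun j => (α j : ℕ)) ?_ ?_ ?_ ?_
    · intro α hα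
      rw [Finset.mem_filter] at hα ⊢
      refine ⟨?_, hα.2⟩
      rw [Fintype.mem_piFinset]
      intro j
      have h1 : (α j : ℕ) ≤ ∑ j, (α j : ℕ) :=
        Finset.single_le_sum (f := fun j => ((α j : Fin (B + 1)) : ℕ))
          (fun _ _ => Nat.zero_le _) (Finset.mem_univ j)
      have h2 := hα.2
      rw [Finset.mem_range]
      omega
    · intro α _ β _ h
      funext j
      exact Fin.ext (congrFun h j)
    · intro β hβ
      rw [Finset.mem_filter] at hβ
      have h1 : ∀ j, β j < B + 1 := by
        intro j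
        have := Finset.single_le_sum (f := β) (fun _ _ => Nat.zero_le _) (Finset.mem_univ j)
        have h2 := hβ.2
        omega
      refine ⟨fun j => ⟨β j, h1 j⟩, ?_, rfl⟩
      rw [Finset.mem_filter]
      exact ⟨Finset.mem_univ _, hβ.2⟩
    · intro α _
      rfl
  have e1 := key D (Nat.sub_le _ _) fun α => ((lookF n (get T i) α).z : ℝ) *
    (w 0 ^ (i : ℕ) * ∏ j, w j.succ ^ α j)
  have e2 := key (D - i) le_rfl fun α => ((lookF n (get T i) α).z : ℝ) *
    (w 0 ^ (i : ℕ) * ∏ j, w j.succ ^ α j)
  have e3 : (∑ α : Fin n → Fin (D + 1),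
      if ∑ j, ((Fin.consEquiv (fun _ => Fin (D + 1)) (i, α) j : Fin (D + 1)) : ℕ) ≤ D then
        ((lookF (n + 1) T fun j => ((Fin.consEquiv (fun _ => Fin (D + 1)) (i, α) j : Fin (D + 1)) : ℕ)).z : ℝ) *
          ∏ j, w j ^ ((Fin.consEquiv (fun _ => Fin (D + 1)) (i, α) j : Fin (D + 1)) : ℕ) else 0) =
      ∑ α : Fin n → Fin (D + 1), if ∑ j, (α j : ℕ) ≤ D - i then
        ((lookF n (get T i) (fun j => (α j : ℕ))).z : ℝ) *
          (w 0 ^ (i : ℕ) * ∏ j, w j.succ ^ (α j : ℕ)) else 0 := by
    refine Finset.sum_congr rfl fun α _ => ?_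
    have h0 : ((Fin.consEquiv (fun _ => Fin (D + 1)) (i, α) 0 : Fin (D + 1)) : ℕ) = i := rfl
    have h1 : ∀ j : Fin n, ((Fin.consEquiv (fun _ => Fin (D + 1)) (i, α) j.succ : Fin (D + 1)) : ℕ) =
        α j := fun j => rfl
    rw [Fin.sum_univ_succ, Fin.prod_univ_succ, lookF]
    simp only [h0, h1]
    have hi : (i : ℕ) ≤ D := Nat.lt_succ_iff.1 i.2
    by_cases hc : ∑ j, (α j : ℕ) ≤ D - i
    · rw [if_pos hc, if_pos (by omega)]
    · rw [if_neg hc, if_neg (by omega)]
  rw [e3, e1, ← e2]
  refine Finset.sum_congr rfl fun α _ => ?_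
  split_ifs
  · ring
  · rw [mul_zero]

theorem pol_c (D n : ℕ) (h t : Tr) (w : Fin (n + 1) → ℝ) :
    pol (D + 1) (n + 1) (Tr.c h t) w = (pol (D + 1) n h fun j => w j.succ) +
      w 0 * pol D (n + 1) t w := by
  rw [pol_rec, Finset.sum_range_succ', pol_rec D n t w, Finset.mul_sum]
  simp only [get_zero, hd_c, pow_zero, one_mul, Nat.sub_zero]
  rw [add_comm]
  congr 1
  refine Finset.sum_congr rfl fun i _ => ?_
  rw [get_succ, tl_c, Nat.add_sub_add_right, pow_succ']
  ring

theorem pol_c0 (n : ℕ) (h t : Tr) (w : Fin (n + 1) → ℝ) :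
    pol 0 (n + 1) (Tr.c h t) w = pol 0 n h fun j => w j.succ := by
  rw [pol_rec]
  simp

theorem pol_leaf (D n : ℕ) (T : Tr) (hT : hd T = Tr.e) (hT' : tl T = Tr.e)
    (w : Fin (n + 1) → ℝ) : pol D (n + 1) T w = 0 := by
  rw [pol_rec]
  refine Finset.sum_eq_zero fun i _ => ?_
  have : get T i = Tr.e := by
    cases i with
    | zero => rw [get_zero, hT]
    | succ i =>
      rw [get_succ, hT']
      clear * -
      induction i with
      | zero => rfl
      | succ i ih => rw [get_succ, tl_e, ih]
  rw [this, pol_e, mul_zero]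

theorem evT_pol (T : Tr) : ∀ (n D : ℕ) (w : Fin n → ℝ) (x : ℕ → ℝ),
    (∀ i : Fin n, x i = w i) → (evT T n D x).1 - (evT T n D x).2 = pol D n T w := by
  induction T with
  | e => intro n D w x _; simp [evT, pol_e]
  | p k =>
    intro n D w x _
    cases n with
    | zero => simp [evT, pol_zero]
    | succ n => rw [pol_leaf D n _ rfl rfl]; simp [evT]
  | m k =>
    intro n D w x _
    cases n with
    | zero => simp [evT, pol_zero]
    | succ n => rw [pol_leaf D n _ rfl rfl]; simp [evT]
  | c h t ih1 ih2 =>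
    intro n D w x hx
    cases n with
    | zero => simp [evT, pol_zero]
    | succ n =>
      have hx' : ∀ i : Fin n, (fun i => x (i + 1)) (i : ℕ) = w i.succ := fun i => by
        have := hx i.succ
        simpa using this
      cases D with
      | zero =>
        rw [pol_c0]
        simp only [evT]
        exact ih1 n 0 _ _ hx'
      | succ D =>
        rw [pol_c, ← ih1 n (D + 1) _ (fun i => x (i + 1)) hx', ← ih2 (n + 1) D w x hx]
        simp only [evT]
        have h0 : x 0 = w 0 := hx 0
        rw [h0]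
        ring

end pol

end Own

end HR
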