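import Pool.Agent.Lib.MP_a1b8b7_co.B.Own
import Pool.Agent.Lib.MP_a1b8b7_co.B.TrEv

/-!
# The Kronecker check in ten variables
-/

set_option autoImplicit false

open Finset MvPolynomial

namespace HR

namespace Own

open Fl Fl.Tr

/-! ### sums of keys -/

/-- exponents of total degree at most `D` -/
def monsL : ℕ → ℕ → List (List ℕ)
  | 0, _ => [[]]
  | n + 1, D => (List.range (D + 1)).flatMap fun i => (monsL n (D - i)).map fun m => i :: m

/-- the sums of at most `D` keys -/
def keysL : List ℕ → ℕ → List ℕ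
  | [], _ => [0]
  | a :: s, D => (List.range (D + 1)).flatMap fun i => (keysL s (D - i)).map fun m => i * a + m

def dot : List ℕ → List ℕ → ℕ
  | a :: s, i :: l => i * a + dot s l
  | _, _ => 0

theorem keysL_eq (s : List ℕ) : ∀ D : ℕ, keysL s D = (monsL s.length D).map (dot s) := by
  induction s with
  | nil => intro D; simp [keysL, monsL, dot]
  | cons a s ih =>
    intro D
    rw [keysL, List.length_cons, monsL, List.map_flatMap]
    congr 1
    funext i
    rw [ih, List.map_map, List.map_map]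
    rfl

theorem mem_monsL : ∀ (m : List ℕ) (D : ℕ), m.sum ≤ D → m ∈ monsL m.length D := by
  intro m
  induction m with
  | nil => intro D _; simp [monsL]
  | cons i m ih =>
    intro D h
    rw [List.sum_cons] at h
    rw [List.length_cons, monsL, List.mem_flatMap]
    refine ⟨i, List.mem_range.2 (by omega), ?_⟩
    rw [List.mem_map]
    exact ⟨m, ih _ (by omega), rfl⟩

noncomputable def nodupK (l : List ℕ) (M : ℕ) : Bool :=
  List.rec (motive := fun _ => ℕ → Bool) (fun _ => true)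
    (fun a _ ih M => and (Nat.beq (Nat.mod (Nat.shiftRight M a) (nat_lit 2)) (nat_lit 0))
      (ih (Nat.lor M (Nat.shiftLeft (nat_lit 1) a)))) l M

theorem nodupK_spec (l : List ℕ) : ∀ M : ℕ, nodupK l M = true →
    l.Nodup ∧ ∀ a ∈ l, M.testBit a = false := by
  induction l with
  | nil => intro M _; simp
  | cons a l ih =>
    intro M h
    change (Nat.beq (M >>> a % 2) 0 && nodupK l (M ||| Nat.shiftLeft 1 a)) = true at h
    rw [Bool.and_eq_true] at h
    have h1 : M.testBit a = false := by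
      have := Nat.eq_of_beq_eq_true h.1
      rw [Nat.testBit_eq_decide_div_mod_eq, ← Nat.shiftRight_eq_div_pow, this]
      simp
    obtain ⟨h2, h3⟩ := ih _ h.2
    refine ⟨List.nodup_cons.2 ⟨fun ha => ?_, h2⟩, ?_⟩
    · have h4 := h3 a ha
      rw [Nat.testBit_or, shl, mul_one, Nat.testBit_two_pow_self, Bool.or_true] at h4
      exact absurd h4 (by simp)
    · intro b hb
      rcases List.mem_cons.1 hb with rfl | hb
      · exact h1
      · have h4 := h3 b hb
        rw [Nat.testBit_or, Bool.or_eq_false_iff] at h4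
        exact h4.1

theorem dot_ofFn : ∀ (n : ℕ) (s m : Fin n → ℕ),
    dot (List.ofFn s) (List.ofFn m) = ∑ i, s i * m i := by
  intro n
  induction n with
  | zero => intro s m; simp [dot]
  | succ n ih =>
    intro s m
    rw [List.ofFn_succ, List.ofFn_succ, dot, ih, Fin.sum_univ_succ, mul_comm]

theorem wt_inj {n D : ℕ} (s : Fin n → ℕ) (h : nodupK (keysL (List.ofFn s) D) 0 = true)
    (m m' : Fin n →₀ ℕ) (hm : ∑ i, m i ≤ D) (hm' : ∑ i, m' i ≤ D)
    (he : Kron.wt s m = Kron.wt s m') : m = m' := by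
  obtain ⟨h1, -⟩ := nodupK_spec _ _ h
  rw [keysL_eq, List.length_ofFn] at h1
  have mem : ∀ m : Fin n →₀ ℕ, ∑ i, m i ≤ D → List.ofFn m ∈ monsL n D := by
    intro m hm
    have := mem_monsL (List.ofFn m) D (by rw [List.sum_ofFn]; exact hm)
    rwa [List.length_ofFn] at this
  have h2 := List.inj_on_of_nodup_map h1 (mem m hm) (mem m' hm') (by
    rw [dot_ofFn, dot_ofFn]
    exact he)
  have h3 := List.ofFn_injective h2
  ext i
  exact congrFun h3 i

/-! ### the table of shifts -/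

noncomputable def tabK (W : ℕ) (s : List ℕ) : ℕ :=
  List.rec (motive := fun _ => ℕ) (nat_lit 0)
    (fun a _ ih => Nat.add (Nat.mul W a) (Nat.shiftLeft ih (nat_lit 32))) s

theorem sh_succ (y z i : ℕ) (ha : y < 2 ^ 32) : sh (y + 2 ^ 32 * z) (i + 1) = sh z i := by
  have h1 : (y + 2 ^ 32 * z) >>> (32 * (i + 1)) = z >>> (32 * i) := by
    rw [mul_add, add_comm (32 * i), Nat.shiftRight_add, mul_one]
    congr 1
    rw [Nat.shiftRight_eq_div_pow]
    omega
  exact congrArg (fun t => t % 4294967296) h1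

theorem sh_zero (y z : ℕ) (ha : y < 2 ^ 32) : sh (y + 2 ^ 32 * z) 0 = y := by
  have h1 : (y + 2 ^ 32 * z) >>> (32 * 0) = y + 2 ^ 32 * z := rfl
  have h2 : (y + 2 ^ 32 * z) % 4294967296 = y := by omega
  exact (congrArg (fun t => t % 4294967296) h1).trans h2

theorem sh_nil (i : ℕ) : sh 0 i = 0 := by
  have h1 : (0 : ℕ) >>> (32 * i) = 0 := Nat.zero_shiftRight _
  have h2 : (0 : ℕ) % 4294967296 = 0 := by omega
  exact (congrArg (fun t => t % 4294967296) h1).trans h2

theorem tabK_cons (W a : ℕ) (s : List ℕ) : tabK W (a :: s) = W * a + 2 ^ 32 * tabK W s :=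
  congrArg (fun t => W * a + t) (shl (tabK W s) 32)

theorem sh_tabK (W : ℕ) (s : List ℕ) (h : ∀ a ∈ s, W * a < 2 ^ 32) :
    ∀ i : ℕ, sh (tabK W s) i = W * s.getD i 0 := by
  induction s with
  | nil =>
    intro i
    exact (sh_nil i).trans (by simp)
  | cons a s ih =>
    have ha := h a List.mem_cons_self
    intro i
    rw [tabK_cons]
    cases i with
    | zero =>
      rw [List.getD_cons_zero]
      exact sh_zero _ _ ha
    | succ i =>
      rw [List.getD_cons_succ]
      exact (sh_succ _ _ _ ha).trans (ih (fun b hb => h b (List.mem_cons_of_mem _ hb)) i)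

/-! ### polynomials -/

/-- the variables -/
noncomputable def Xv (n : ℕ) (i : ℕ) : MvPolynomial (Fin n) ℕ :=
  if h : i < n then X ⟨i, h⟩ else 1

theorem Xv_deg (n i : ℕ) : (Xv n i).totalDegree ≤ 1 := by
  unfold Xv
  split_ifs with h
  · rw [totalDegree_X]
  · simp

theorem deg_evT {n : ℕ} (T : Tr) : ∀ (l D : ℕ) (x : ℕ → MvPolynomial (Fin n) ℕ),
    (∀ i, (x i).totalDegree ≤ 1) →
    (evT T l D x).1.totalDegree ≤ D ∧ (evT T l D x).2.totalDegree ≤ D := by
  induction T with
  | e => intro l D x _; simp [evT]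
  | p k =>
    intro l D x _
    cases l with
    | zero => exact ⟨(deg_natCast k).trans (Nat.zero_le _), by simp [evT]⟩
    | succ l => simp [evT]
  | m k =>
    intro l D x _
    cases l with
    | zero => exact ⟨by simp [evT], (deg_natCast k).trans (Nat.zero_le _)⟩
    | succ l => simp [evT]
  | c h t ih1 ih2 =>
    intro l D x hx
    cases l with
    | zero => simp [evT]
    | succ l =>
      cases D with
      | zero => exact ih1 l 0 _ fun i => hx (i + 1)
      | succ D =>
        have a1 := ih1 l (D + 1) (fun i => x (i + 1)) fun i => hx (i + 1)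
        have a2 := ih2 (l + 1) D x hx
        exact ⟨deg_add a1.1 (deg_mul (hx 0) a2.1 (by omega)),
          deg_add a1.2 (deg_mul (hx 0) a2.2 (by omega))⟩

/-- the value of the variables at the Kronecker point -/
theorem eval_Xv {n : ℕ} (s : Fin n → ℕ) (W : ℕ) (h : ∀ i, W * s i < 2 ^ 32) (i : ℕ) :
    eval (fun i : Fin n => (2 ^ W) ^ s i) (Xv n i) = pt (tabK W (List.ofFn s)) i := by
  rw [pt, sh_tabK W _ (by
    intro a ha
    rw [List.mem_ofFn] at ha
    obtain ⟨j, rfl⟩ := ha
    exact h j)]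
  unfold Xv
  split_ifs with hi
  · rw [eval_X, ← pow_mul, List.getD_eq_getElem _ _ (by rw [List.length_ofFn]; exact hi),
      List.getElem_ofFn]
  · rw [List.getD_eq_default _ _ (by rw [List.length_ofFn]; omega), mul_zero, pow_zero, map_one]

theorem eval_Xv_one {n : ℕ} (i : ℕ) : eval (fun _ : Fin n => 1) (Xv n i) = pt 0 i := by
  have : pt 0 i = 1 := by
    unfold pt
    rw [sh_nil, pow_zero]
  rw [this]
  unfold Xv
  split_ifs with hi
  · rw [eval_X]
  · rw [map_one]

/-- real values -/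
theorem aeval_Xv {n : ℕ} (w : Fin n → ℝ) (i : ℕ) :
    aeval w (Xv n i) = if h : i < n then w ⟨i, h⟩ else 1 := by
  unfold Xv
  split_ifs with hi
  · rw [aeval_X]
  · rw [map_one]

/-! ### the check -/

/-- comparison of an expression and a table at one point -/
noncomputable def cmpK (n D kt : ℕ) (E : Ex) (T : Tr) : Bool :=
  Nat.beq (Nat.add (evK kt E).1 (evTK T n D kt).2) (Nat.add (evK kt E).2 (evTK T n D kt).1)

noncomputable def bndK (n D B : ℕ) (E : Ex) (T : Tr) : Bool :=
  and (Nat.ble (Nat.add (nat_lit 1) (Nat.add (evK (nat_lit 0) E).1 (evTK T n D (nat_lit 0)).2)) B)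
    (Nat.ble (Nat.add (nat_lit 1) (Nat.add (evK (nat_lit 0) E).2 (evTK T n D (nat_lit 0)).1)) B)

theorem eq_of_cmp {n D : ℕ} (s : Fin n → ℕ) (hs : nodupK (keysL (List.ofFn s) D) 0 = true)
    {W : ℕ} (hW : ∀ i, W * s i < 2 ^ 32) {E : Ex} {T : Tr} (hd : dE E D = true)
    (hc : cmpK n D (tabK W (List.ofFn s)) E T = true) (hb : bndK n D (2 ^ W) E T = true)
    (w : Fin n → ℝ) :
    (ev (fun i => if h : i < n then w ⟨i, h⟩ else 1) E).1 -
      (ev (fun i => if h : i < n then w ⟨i, h⟩ else 1) E).2 = pol D n T w := by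
  have c1 : (evK (tabK W (List.ofFn s)) E).1 + (evTK T n D (tabK W (List.ofFn s))).2 =
      (evK (tabK W (List.ofFn s)) E).2 + (evTK T n D (tabK W (List.ofFn s))).1 :=
    Nat.eq_of_beq_eq_true hc
  change (Nat.ble (1 + ((evK 0 E).1 + (evTK T n D 0).2)) (2 ^ W) &&
    Nat.ble (1 + ((evK 0 E).2 + (evTK T n D 0).1)) (2 ^ W)) = true at hb
  rw [Bool.and_eq_true] at hb
  have b1 := Nat.le_of_ble_eq_true hb.1
  have b2 := Nat.le_of_ble_eq_true hb.2
  rw [evK_eq, evTK_eq] at c1 b1 b2
  have dX := Xv_deg n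
  have d1 := deg_ev dX E D hd
  have d2 := deg_evT T n D (Xv n) dX
  set P := (ev (Xv n) E).1 + (evT T n D (Xv n)).2 with hP
  set Q := (ev (Xv n) E).2 + (evT T n D (Xv n)).1 with hQ
  have dP : P.totalDegree ≤ D := deg_add d1.1 d2.2
  have dQ : Q.totalDegree ≤ D := deg_add d1.2 d2.1
  have e1 : (fun i => (eval (fun i : Fin n => (2 ^ W) ^ s i)) (Xv n i)) =
      pt (tabK W (List.ofFn s)) := funext fun i => eval_Xv s W hW i
  have e2 : (fun i => (eval (fun _ : Fin n => 1)) (Xv n i)) = pt 0 :=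
    funext fun i => eval_Xv_one i
  have f1 := ev_map (eval (fun i : Fin n => (2 ^ W) ^ s i)) (Xv n) E
  have f2 := evT_map (eval (fun i : Fin n => (2 ^ W) ^ s i)) T n D (Xv n)
  have g1 := ev_map (eval (fun _ : Fin n => 1)) (Xv n) E
  have g2 := evT_map (eval (fun _ : Fin n => 1)) T n D (Xv n)
  rw [e1] at f1 f2
  rw [e2] at g1 g2
  have hs' : ∀ m ∈ P.support ∪ Q.support, ∀ m' ∈ P.support ∪ Q.support,
      Kron.wt s m = Kron.wt s m' → m = m' := by
    have hdeg : ∀ m ∈ P.support ∪ Q.support, ∑ i, m i ≤ D := by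
      intro m hm
      rcases Finset.mem_union.1 hm with hm | hm
      · exact Kron.deg_le_of_mem dP hm
      · exact Kron.deg_le_of_mem dQ hm
    intro m hm m' hm' he
    exact wt_inj s hs m m' (hdeg m hm) (hdeg m' hm') he
  have key := Kron.kron_aeval s (2 ^ W) P Q hs'
    (by rw [hP, map_add, g1.1, g2.2]; omega)
    (by rw [hQ, map_add, g1.2, g2.1]; omega)
    (by rw [hP, hQ, map_add, map_add, f1.1, f1.2, f2.1, f2.2]; exact c1) w
  have r1 := ev_map (aeval w : MvPolynomial (Fin n) ℕ →ₐ[ℕ] ℝ).toRingHom (Xv n) E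
  have r2 := evT_map (aeval w : MvPolynomial (Fin n) ℕ →ₐ[ℕ] ℝ).toRingHom T n D (Xv n)
  have e3 : (fun i => (aeval w : MvPolynomial (Fin n) ℕ →ₐ[ℕ] ℝ).toRingHom (Xv n i)) =
      fun i => if h : i < n then w ⟨i, h⟩ else 1 := funext fun i => aeval_Xv w i
  rw [e3] at r1 r2
  have r3 : (aeval w) P = (aeval w) (ev (Xv n) E).1 + (aeval w) (evT T n D (Xv n)).2 := by
    rw [hP, map_add]
  have r4 : (aeval w) Q = (aeval w) (ev (Xv n) E).2 + (aeval w) (evT T n D (Xv n)).1 := by
    rw [hQ, map_add]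
  have r5 : ∀ R : MvPolynomial (Fin n) ℕ,
      (aeval w : MvPolynomial (Fin n) ℕ →ₐ[ℕ] ℝ).toRingHom R = (aeval w) R := fun R => rfl
  rw [r5, r5] at r1 r2
  rw [r3, r4, r1.1, r1.2, r2.1, r2.2] at key
  have hpol := evT_pol T n D w (fun i => if h : i < n then w ⟨i, h⟩ else 1) (fun i => by
    simp [i.2])
  linarith

/-- keys for ten variables, degree at most four -/
def s10 : Fin 10 → ℕ := ![4556, 2772, 1491, 858, 386, 153, 55, 21, 5, 1]

theorem s10_ok : nodupK (keysL (List.ofFn s10) 4) 0 = true := by decide +kernel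

/-- **The own part of a colouring.**  If the table `T` equals a valid expression, its value is
nonnegative on the cover polytope. -/
theorem own_sound {W kt : ℕ} {trs : List ℕ} {E : Ex} {T : Tr}
    (hW : Nat.ble (Nat.mul W (nat_lit 4556)) (nat_lit 4294967295) = true)
    (hkt : Nat.beq (tabK W (List.ofFn s10)) kt = true)
    (hok : okE trs E = true) (hd : dE E (nat_lit 4) = true)
    (hc : cmpK (nat_lit 10) (nat_lit 4) kt E T = true)
    (hb : bndK (nat_lit 10) (nat_lit 4) (Nat.pow (nat_lit 2) W) E T = true)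
    (w : Fin 10 → ℝ) (h0 : ∀ i, 0 ≤ w i) (h1 : ∀ i, w i ≤ 1)
    (ht : ∀ i j l : Fin 10, tcode i j l ∈ trs → 1 ≤ w i + w j + w l) :
    0 ≤ pol 4 10 T w := by
  have hkt' := Nat.eq_of_beq_eq_true hkt
  subst hkt'
  have hW' : ∀ i, W * s10 i < 2 ^ 32 := by
    have h2 : W * 4556 ≤ 4294967295 := Nat.le_of_ble_eq_true hW
    have h3 : ∀ i, s10 i ≤ 4556 := by decide
    intro i
    have h4 : W * s10 i ≤ W * 4556 := Nat.mul_le_mul_left _ (h3 i)
    omega
  have key := eq_of_cmp s10 s10_ok hW' hd hc hb w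
  rw [← key]
  refine ev_nonneg _ (trs := trs) ?_ ?_ ?_ E hok
  · intro i
    split_ifs
    · exact h0 _
    · norm_num
  · intro i
    split_ifs
    · exact h1 _
    · norm_num
  · intro i j l hi hj hl hm
    rw [dif_pos (by omega), dif_pos (by omega), dif_pos (by omega)]
    exact ht ⟨i, by omega⟩ ⟨j, by omega⟩ ⟨l, by omega⟩ hm

/-! ### colourings -/

/-- the ten triangles -/
def triL : List (Fin 10 × Fin 10 × Fin 10) :=
  [(0, 1, 2), (0, 3, 4), (1, 3, 5), (2, 4, 5), (0, 6, 7), (1, 6, 8), (2, 7, 8), (3, 6, 9),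
    (4, 7, 9), (5, 8, 9)]

/-- all codes in `trs` are codes of monochromatic triangles of `H` -/
def trsOK (H : Fin 10 → Bool) (trs : List ℕ) : Bool :=
  trs.all fun c => triL.any fun t =>
    (tcode t.1 t.2.1 t.2.2 == c) && ((H t.1 == H t.2.1) && (H t.1 == H t.2.2))

theorem triL_ei : ∀ t ∈ triL, ∃ i j k : Fin 5, i < j ∧ j < k ∧ Fl.ei i j = t.1 ∧
    Fl.ei i k = t.2.1 ∧ Fl.ei j k = t.2.2 := by
  decide +kernel

theorem tcode_inj : ∀ i j l i' j' l' : Fin 10, tcode i j l = tcode i' j' l' →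
    i = i' ∧ j = j' ∧ l = l' := by
  intro i j l i' j' l' h
  unfold tcode at h
  refine ⟨Fin.ext ?_, Fin.ext ?_, Fin.ext ?_⟩ <;> omega

theorem tri_of_adm {H : Fin 10 → Bool} {trs : List ℕ} (h : trsOK H trs = true) {w : Fin 10 → ℝ}
    (hA : Fl.AdmD fun e => (H e, w e)) (i j l : Fin 10) (hm : tcode i j l ∈ trs) :
    1 ≤ w i + w j + w l := by
  unfold trsOK at h
  rw [List.all_eq_true] at h
  have h1 := h _ hm
  rw [List.any_eq_true] at h1
  obtain ⟨t, ht, h2⟩ := h1
  simp only [Bool.and_eq_true, beq_iff_eq] at h2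
  obtain ⟨h3, h4, h5⟩ := h2
  obtain ⟨rfl, rfl, rfl⟩ := tcode_inj _ _ _ _ _ _ h3
  obtain ⟨a, b, c, hab, hbc, e1, e2, e3⟩ := triL_ei t ht
  have h6 := hA.tri a b c hab hbc
  simp only at h6
  rw [e1, e2, e3] at h6
  exact h6 h4 h5

/-- **The own part of a colouring `H`.** -/
theorem own_adm {W kt : ℕ} {trs : List ℕ} {E : Ex} {T : Tr} {H : Fin 10 → Bool}
    (htr : trsOK H trs = true)
    (hW : Nat.ble (Nat.mul W (nat_lit 4556)) (nat_lit 4294967295) = true)
    (hkt : Nat.beq (tabK W (List.ofFn s10)) kt = true)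
    (hok : okE trs E = true) (hd : dE E (nat_lit 4) = true)
    (hc : cmpK (nat_lit 10) (nat_lit 4) kt E T = true)
    (hb : bndK (nat_lit 10) (nat_lit 4) (Nat.pow (nat_lit 2) W) E T = true)
    (w : Fin 10 → ℝ) (hA : Fl.AdmD fun e => (H e, w e)) : 0 ≤ pol 4 10 T w :=
  own_sound hW hkt hok hd hc hb w hA.w0 hA.w1 fun i j l hm => tri_of_adm htr hA i j l hm

end Own

end HR
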