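import Pool.Agent.Lib.MP_a1b8b7_co.B.Asm
import Pool.Agent.Lib.MP_a1b8b7_co.B.OwnChk

/-!
# The own part in the form needed for the assembly
-/

set_option autoImplicit false

open Finset

namespace HR

namespace Own

open Fl Fl.Tr

theorem codeB_inj {H H' : Fin 10 → Bool} (h : codeB H = codeB H') : H = H' := by
  have h1 := codeX_inj (fun e => cn_lt (H e)) (fun e => cn_lt (H' e)) h
  funext e
  have h2 := congrFun h1 e
  cases h3 : H e <;> cases h4 : H' e <;> simp_all [cn]

/-- **The own part of a colouring `H` with code `c`.** -/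
theorem own_ok {W kt : ℕ} {trs : List ℕ} {E : Ex} {T : Tr} {H : Fin 10 → Bool} {c : ℕ}
    (hcode : codeB H = c)
    (htr : trsOK H trs = true)
    (hW : Nat.ble (Nat.mul W (nat_lit 4556)) (nat_lit 4294967295) = true)
    (hkt : Nat.beq (tabK W (List.ofFn s10)) kt = true)
    (hok : okE trs E = true) (hd : dE E (nat_lit 4) = true)
    (hc : cmpK (nat_lit 10) (nat_lit 4) kt E T = true)
    (hb : bndK (nat_lit 10) (nat_lit 4) (Nat.pow (nat_lit 2) W) E T = true) : OwnOK 4 T c := by
  intro d hA hd'
  rw [← hcode] at hd'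
  have h1 := codeB_inj hd'
  rw [← h1] at htr
  exact own_adm htr hW hkt hok hd hc hb (fun e => (d e).2) hA

end Own

end HR
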