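import Pool.Agent.Lib.MP_a1b8b7_co.B.Flag
import Pool.Agent.Lib.MP_a1b8b7_co.B.Inst

/-!
# Five vertex flag functionals with arbitrary functions of the weights

As in `Flag.lean`, but a pair `u v` in state `s` carries a datum `l u v s : D` (for us: the colour
and the real weight), and the functional is evaluated on arbitrary real functions of the ten data.
-/

set_option autoImplicit false

open Finset

namespace HR

namespace Fl

variable {V S D : Type} [Fintype V] [Fintype S]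

/-- the ten data of five vertices in given states -/
def dat (l : V → V → S → D) (a : Fin 5 → V) (F : Fin 10 → S) : Fin 10 → D :=
  fun e => l (a (src e)) (a (tgt e)) (F e)

/-- the flag functional on functions of the data -/
def LL (x : V → ℝ) (P : V → V → S → ℝ) (l : V → V → S → D) (g : (Fin 10 → D) → ℝ) : ℝ :=
  ∑ a : Fin 5 → V, ∑ F : Fin 10 → S, W5 x P a F * g (dat l a F)

theorem LL_add (x : V → ℝ) (P : V → V → S → ℝ) (l : V → V → S → D) (g h : (Fin 10 → D) → ℝ) :
    LL x P l (fun d => g d + h d) = LL x P l g + LL x P l h := by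
  unfold LL
  simp only [mul_add, Finset.sum_add_distrib]

theorem LL_sub (x : V → ℝ) (P : V → V → S → ℝ) (l : V → V → S → D) (g h : (Fin 10 → D) → ℝ) :
    LL x P l (fun d => g d - h d) = LL x P l g - LL x P l h := by
  unfold LL
  simp only [mul_sub, Finset.sum_sub_distrib]

theorem LL_smul (x : V → ℝ) (P : V → V → S → ℝ) (l : V → V → S → D) (c : ℝ)
    (g : (Fin 10 → D) → ℝ) : LL x P l (fun d => c * g d) = c * LL x P l g := by
  unfold LL
  simp only [Finset.mul_sum]
  exact Finset.sum_congr rfl fun a _ => Finset.sum_congr rfl fun F _ => by ring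

theorem LL_sum {ι : Type} (s : Finset ι) (x : V → ℝ) (P : V → V → S → ℝ) (l : V → V → S → D)
    (g : ι → (Fin 10 → D) → ℝ) :
    LL x P l (fun d => ∑ i ∈ s, g i d) = ∑ i ∈ s, LL x P l (g i) := by
  unfold LL
  simp only [Finset.mul_sum]
  calc _ = ∑ a : Fin 5 → V, ∑ i ∈ s, ∑ F : Fin 10 → S, W5 x P a F * g i (dat l a F) :=
        Finset.sum_congr rfl fun a _ => Finset.sum_comm
    _ = _ := Finset.sum_comm

section basic

variable {x : V → ℝ} {P : V → V → S → ℝ} (hN : Net x P) {l : V → V → S → D}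

include hN

theorem LL_nonneg {g : (Fin 10 → D) → ℝ} (hg : ∀ a F, 0 ≤ g (dat l a F)) : 0 ≤ LL x P l g :=
  Finset.sum_nonneg fun a _ => Finset.sum_nonneg fun F _ =>
    mul_nonneg (W5_nonneg hN a F) (hg a F)

theorem LL_perm (hl : ∀ u v s, l u v s = l v u s) (π : Equiv.Perm (Fin 5))
    (g : (Fin 10 → D) → ℝ) : LL x P l (fun d => g (d ∘ pe π)) = LL x P l g := by
  unfold LL
  have h1 : ∀ (a : Fin 5 → V) (F : Fin 10 → S), W5 x P a F = W5 x P (a ∘ π) (F ∘ pe π) := by
    intro a F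
    unfold W5
    congr 1
    · exact (Equiv.prod_comp π (fun i => x (a i))).symm
    · rw [← Equiv.prod_comp (peE π) (fun e => P (a (src e)) (a (tgt e)) (F e))]
      refine Finset.prod_congr rfl fun e _ => ?_
      change P (a (src (pe π e))) (a (tgt (pe π e))) (F (pe π e)) = _
      rcases ends_pe π e with ⟨h1, h2⟩ | ⟨h1, h2⟩
      · rw [h1, h2]
        rfl
      · rw [h1, h2, hN.Ps]
        rfl
  have h2 : ∀ (a : Fin 5 → V) (F : Fin 10 → S), dat l a F ∘ pe π = dat l (a ∘ π) (F ∘ pe π) := by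
    intro a F
    funext e
    change l (a (src (pe π e))) (a (tgt (pe π e))) (F (pe π e)) = _
    rcases ends_pe π e with ⟨h1, h2⟩ | ⟨h1, h2⟩
    · rw [h1, h2]
      rfl
    · rw [h1, h2, hl]
      rfl
  calc ∑ a : Fin 5 → V, ∑ F : Fin 10 → S, W5 x P a F * g (dat l a F ∘ pe π)
      = ∑ a : Fin 5 → V, ∑ F : Fin 10 → S, W5 x P (a ∘ π) (F ∘ pe π) *
          g (dat l (a ∘ π) (F ∘ pe π)) :=
        Finset.sum_congr rfl fun a _ => Finset.sum_congr rfl fun F _ => by
          rw [← h1 a F, h2 a F]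
    _ = ∑ a : Fin 5 → V, ∑ F : Fin 10 → S, W5 x P (a ∘ π) F * g (dat l (a ∘ π) F) := by
        refine Finset.sum_congr rfl fun a _ => ?_
        exact Equiv.sum_comp (Equiv.arrowCongr (peE π).symm (Equiv.refl S))
          (fun F => W5 x P (a ∘ π) F * g (dat l (a ∘ π) F))
    _ = ∑ a : Fin 5 → V, ∑ F : Fin 10 → S, W5 x P a F * g (dat l a F) :=
        Equiv.sum_comp (Equiv.arrowCongr π.symm (Equiv.refl V))
          (fun a => ∑ F : Fin 10 → S, W5 x P a F * g (dat l a F))

/-- **Symmetrisation over the vertex permutations.** -/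
theorem LL_symm (hl : ∀ u v s, l u v s = l v u s) (g : (Fin 10 → D) → ℝ) :
    LL x P l (fun d => ∑ π : Equiv.Perm (Fin 5), g (d ∘ pe π)) = 120 * LL x P l g := by
  rw [LL_sum]
  simp only [LL_perm hN hl]
  rw [Finset.sum_const, Finset.card_univ, Fintype.card_perm, Fintype.card_fin, nsmul_eq_mul]
  norm_num [Nat.factorial]

/-- **The certificate principle.** -/
theorem LL_nonneg_of_symm (hl : ∀ u v s, l u v s = l v u s) (g : (Fin 10 → D) → ℝ)
    (hg : ∀ a F, 0 ≤ ∑ π : Equiv.Perm (Fin 5), g (dat l a F ∘ pe π)) : 0 ≤ LL x P l g := by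
  have h1 := LL_nonneg hN (l := l) (g := fun d => ∑ π : Equiv.Perm (Fin 5), g (d ∘ pe π)) hg
  rw [LL_symm hN hl] at h1
  linarith

end basic

/-- the three data of a triple -/
def da3 (l : V → V → S → D) (a : Fin 3 → V) (A : Fin 3 → S) : Fin 3 → D :=
  ![l (a 0) (a 1) (A 0), l (a 0) (a 2) (A 1), l (a 1) (a 2) (A 2)]

/-- the three data of an extension -/
def dx3 (l : V → V → S → D) (a : Fin 3 → V) (u : V) (B : Fin 3 → S) : Fin 3 → D :=
  ![l (a 0) u (B 0), l (a 1) u (B 1), l (a 2) u (B 2)]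

omit [Fintype V] [Fintype S] in
theorem dat_join (l : V → V → S → D) (a : Fin 3 → V) (u v : V) (A B C : Fin 3 → S) (s : S) :
    dat l (eV ((a, u), v)) (join A B C s) = join (da3 l a A) (dx3 l a u B) (dx3 l a v C)
      (l u v s) := by
  funext e
  fin_cases e <;> rfl

/-- splitting of `LL` along a type of size three -/
theorem LL_split3 (x : V → ℝ) (P : V → V → S → ℝ) (l : V → V → S → D) (g : (Fin 10 → D) → ℝ) :
    LL x P l g = ∑ a : Fin 3 → V, ∑ A : Fin 3 → S, W3 x P a A *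
      ∑ B : Fin 3 → S, ∑ C : Fin 3 → S, ∑ u, ∑ v, ∑ s,
        ext3 x P a u B * ext3 x P a v C * P u v s *
          g (join (da3 l a A) (dx3 l a u B) (dx3 l a v C) (l u v s)) := by
  have h1 : LL x P l g = ∑ z : ((Fin 3 → V) × V) × V,
      ∑ F : (((Fin 3 → S) × (Fin 3 → S)) × (Fin 3 → S)) × S,
        W5 x P (eV z) (eS F) * g (dat l (eV z) (eS F)) := by
    unfold LL
    rw [← Equiv.sum_comp eV]
    refine Finset.sum_congr rfl fun z _ => ?_
    rw [← Equiv.sum_comp eS]
  rw [h1]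
  simp only [Fintype.sum_prod_type]
  refine Finset.sum_congr rfl fun a _ => ?_
  simp only [Finset.mul_sum]
  calc ∑ u : V, ∑ v : V, ∑ A : Fin 3 → S, ∑ B : Fin 3 → S, ∑ C : Fin 3 → S, ∑ s : S,
        W5 x P (eV ((a, u), v)) (eS (((A, B), C), s)) *
          g (dat l (eV ((a, u), v)) (eS (((A, B), C), s)))
      = ∑ u : V, ∑ A : Fin 3 → S, ∑ B : Fin 3 → S, ∑ C : Fin 3 → S, ∑ v : V, ∑ s : S,
        W5 x P (eV ((a, u), v)) (eS (((A, B), C), s)) *
          g (dat l (eV ((a, u), v)) (eS (((A, B), C), s))) := by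
        refine Finset.sum_congr rfl fun u _ => ?_
        rw [Finset.sum_comm]
        refine Finset.sum_congr rfl fun A _ => ?_
        rw [Finset.sum_comm]
        exact Finset.sum_congr rfl fun B _ => Finset.sum_comm
    _ = ∑ A : Fin 3 → S, ∑ B : Fin 3 → S, ∑ C : Fin 3 → S, ∑ u : V, ∑ v : V, ∑ s : S,
        W5 x P (eV ((a, u), v)) (eS (((A, B), C), s)) *
          g (dat l (eV ((a, u), v)) (eS (((A, B), C), s))) := by
        rw [Finset.sum_comm]
        refine Finset.sum_congr rfl fun A _ => ?_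
        rw [Finset.sum_comm]
        exact Finset.sum_congr rfl fun B _ => Finset.sum_comm
    _ = _ := by
        refine Finset.sum_congr rfl fun A _ => Finset.sum_congr rfl fun B _ =>
          Finset.sum_congr rfl fun C _ => Finset.sum_congr rfl fun u _ =>
          Finset.sum_congr rfl fun v _ => Finset.sum_congr rfl fun s _ => ?_
        change W5 x P (eV ((a, u), v)) (join A B C s) *
          g (dat l (eV ((a, u), v)) (join A B C s)) = _
        rw [W5_join, dat_join]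
        ring

/-- flag vectors: `φ i A B` is a function of the data of the type and of the flag -/
def Y3 {ι : Type} (x : V → ℝ) (P : V → V → S → ℝ) (l : V → V → S → D)
    (φ : ι → (Fin 3 → D) → (Fin 3 → D) → ℝ) (a : Fin 3 → V) (A : Fin 3 → S) (i : ι) : ℝ :=
  ∑ B : Fin 3 → S, ∑ u, ext3 x P a u B * φ i (da3 l a A) (dx3 l a u B)

/-- **Type of size three**: forms in arbitrary flag functions. -/
theorem LL_type3 {ι : Type} [Fintype ι] {x : V → ℝ} {P : V → V → S → ℝ} (hN : Net x P)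
    (l : V → V → S → D) (Q : (Fin 3 → D) → ι → ι → ℝ)
    (φ : ι → (Fin 3 → D) → (Fin 3 → D) → ℝ) :
    LL x P l (fun d => ∑ i, ∑ j, Q ![d 0, d 1, d 2] i j *
      (φ i ![d 0, d 1, d 2] ![d 3, d 4, d 5] * φ j ![d 0, d 1, d 2] ![d 6, d 7, d 8])) =
      ∑ a : Fin 3 → V, ∑ A : Fin 3 → S, W3 x P a A *
        ∑ i, ∑ j, Q (da3 l a A) i j * (Y3 x P l φ a A i * Y3 x P l φ a A j) := by
  rw [LL_split3]
  refine Finset.sum_congr rfl fun a _ => Finset.sum_congr rfl fun A _ => ?_
  congr 1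
  have eA : ∀ A : Fin 3 → D, ![A 0, A 1, A 2] = A := fun A => by
    ext i; fin_cases i <;> rfl
  have h1 : ∀ (B C : Fin 3 → S) (u v : V), ∑ s, ext3 x P a u B * ext3 x P a v C * P u v s *
      (fun d : Fin 10 → D => ∑ i, ∑ j, Q ![d 0, d 1, d 2] i j *
      (φ i ![d 0, d 1, d 2] ![d 3, d 4, d 5] * φ j ![d 0, d 1, d 2] ![d 6, d 7, d 8]))
        (join (da3 l a A) (dx3 l a u B) (dx3 l a v C) (l u v s)) =
      ∑ i, ∑ j, Q (da3 l a A) i j * ((ext3 x P a u B * φ i (da3 l a A) (dx3 l a u B)) *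
        (ext3 x P a v C * φ j (da3 l a A) (dx3 l a v C))) := by
    intro B C u v
    have h2 : ∀ s, ext3 x P a u B * ext3 x P a v C * P u v s *
      (fun d : Fin 10 → D => ∑ i, ∑ j, Q ![d 0, d 1, d 2] i j *
      (φ i ![d 0, d 1, d 2] ![d 3, d 4, d 5] * φ j ![d 0, d 1, d 2] ![d 6, d 7, d 8]))
        (join (da3 l a A) (dx3 l a u B) (dx3 l a v C) (l u v s)) =
      (∑ i, ∑ j, Q (da3 l a A) i j * ((ext3 x P a u B * φ i (da3 l a A) (dx3 l a u B)) *
        (ext3 x P a v C * φ j (da3 l a A) (dx3 l a v C)))) * P u v s := by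
      intro s
      change _ * (∑ i, ∑ j, Q ![da3 l a A 0, da3 l a A 1, da3 l a A 2] i j *
        (φ i ![da3 l a A 0, da3 l a A 1, da3 l a A 2] ![dx3 l a u B 0, dx3 l a u B 1, dx3 l a u B 2]
        * φ j ![da3 l a A 0, da3 l a A 1, da3 l a A 2]
          ![dx3 l a v C 0, dx3 l a v C 1, dx3 l a v C 2])) = _
      rw [eA, eA, eA, Finset.mul_sum, Finset.sum_mul]
      refine Finset.sum_congr rfl fun i _ => ?_
      rw [Finset.mul_sum, Finset.sum_mul]
      exact Finset.sum_congr rfl fun j _ => by ring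
    simp only [h2]
    rw [← Finset.mul_sum, hN.P1, mul_one]
  simp only [h1]
  -- reorder
  have h3 : ∀ i j, ∑ B : Fin 3 → S, ∑ C : Fin 3 → S, ∑ u, ∑ v,
      Q (da3 l a A) i j * ((ext3 x P a u B * φ i (da3 l a A) (dx3 l a u B)) *
        (ext3 x P a v C * φ j (da3 l a A) (dx3 l a v C))) =
      Q (da3 l a A) i j * (Y3 x P l φ a A i * Y3 x P l φ a A j) := by
    intro i j
    unfold Y3
    rw [Finset.sum_mul_sum, Finset.mul_sum]
    refine Finset.sum_congr rfl fun B _ => ?_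
    rw [Finset.mul_sum]
    refine Finset.sum_congr rfl fun C _ => ?_
    rw [Finset.sum_mul_sum, Finset.mul_sum]
    refine Finset.sum_congr rfl fun u _ => ?_
    rw [Finset.mul_sum]
  calc ∑ B : Fin 3 → S, ∑ C : Fin 3 → S, ∑ u, ∑ v, ∑ i, ∑ j,
        Q (da3 l a A) i j * ((ext3 x P a u B * φ i (da3 l a A) (dx3 l a u B)) *
        (ext3 x P a v C * φ j (da3 l a A) (dx3 l a v C)))
      = ∑ B : Fin 3 → S, ∑ C : Fin 3 → S, ∑ i, ∑ j, ∑ u, ∑ v,
        Q (da3 l a A) i j * ((ext3 x P a u B * φ i (da3 l a A) (dx3 l a u B)) *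
        (ext3 x P a v C * φ j (da3 l a A) (dx3 l a v C))) := by
        refine Finset.sum_congr rfl fun B _ => Finset.sum_congr rfl fun C _ => ?_
        calc _ = ∑ u, ∑ i, ∑ j, ∑ v, Q (da3 l a A) i j *
              ((ext3 x P a u B * φ i (da3 l a A) (dx3 l a u B)) *
              (ext3 x P a v C * φ j (da3 l a A) (dx3 l a v C))) := by
              refine Finset.sum_congr rfl fun u _ => ?_
              rw [Finset.sum_comm]
              exact Finset.sum_congr rfl fun i _ => Finset.sum_comm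
          _ = _ := by
              rw [Finset.sum_comm]
              exact Finset.sum_congr rfl fun i _ => Finset.sum_comm
    _ = ∑ B : Fin 3 → S, ∑ i, ∑ j, ∑ C : Fin 3 → S, ∑ u, ∑ v,
        Q (da3 l a A) i j * ((ext3 x P a u B * φ i (da3 l a A) (dx3 l a u B)) *
        (ext3 x P a v C * φ j (da3 l a A) (dx3 l a v C))) := by
        refine Finset.sum_congr rfl fun B _ => ?_
        rw [Finset.sum_comm]
        exact Finset.sum_congr rfl fun i _ => Finset.sum_comm
    _ = ∑ i, ∑ j, ∑ B : Fin 3 → S, ∑ C : Fin 3 → S, ∑ u, ∑ v,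
        Q (da3 l a A) i j * ((ext3 x P a u B * φ i (da3 l a A) (dx3 l a u B)) *
        (ext3 x P a v C * φ j (da3 l a A) (dx3 l a v C))) := by
        rw [Finset.sum_comm]
        exact Finset.sum_congr rfl fun i _ => Finset.sum_comm
    _ = _ := by
        refine Finset.sum_congr rfl fun i _ => Finset.sum_congr rfl fun j _ => ?_
        exact h3 i j

/-- **Type of size three, psd for the data of every triple.** -/
theorem LL_psd3 {ι : Type} [Fintype ι] {x : V → ℝ} {P : V → V → S → ℝ} (hN : Net x P)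
    (l : V → V → S → D) (Q : (Fin 3 → D) → ι → ι → ℝ)
    (φ : ι → (Fin 3 → D) → (Fin 3 → D) → ℝ)
    (hQ : ∀ (a : Fin 3 → V) (A : Fin 3 → S) (y : ι → ℝ),
      0 ≤ ∑ i, ∑ j, Q (da3 l a A) i j * (y i * y j)) :
    0 ≤ LL x P l (fun d => ∑ i, ∑ j, Q ![d 0, d 1, d 2] i j *
      (φ i ![d 0, d 1, d 2] ![d 3, d 4, d 5] * φ j ![d 0, d 1, d 2] ![d 6, d 7, d 8])) := by
  rw [LL_type3 hN]
  exact Finset.sum_nonneg fun a _ => Finset.sum_nonneg fun A _ =>
    mul_nonneg (W3_nonneg hN a A) (hQ a A _)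

/-! ### Products -/

/-- functional for three vertices -/
def LL3 (x : V → ℝ) (P : V → V → S → ℝ) (l : V → V → S → D) (H : (Fin 3 → D) → ℝ) : ℝ :=
  ∑ a : Fin 3 → V, ∑ A : Fin 3 → S, W3 x P a A * H (da3 l a A)

/-- functional for one pair -/
def LL2 (x : V → ℝ) (P : V → V → S → ℝ) (l : V → V → S → D) (h : D → ℝ) : ℝ :=
  ∑ u, ∑ v, x u * x v * ∑ s, P u v s * h (l u v s)

/-- degree functional -/
def ddeg (x : V → ℝ) (P : V → V → S → ℝ) (l : V → V → S → D) (k : D → ℝ) (u : V) : ℝ :=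
  ∑ v, x v * ∑ s, P u v s * k (l u v s)

theorem sum_ext3 {x : V → ℝ} {P : V → V → S → ℝ} (hN : Net x P) (a : Fin 3 → V) (u : V) :
    ∑ B : Fin 3 → S, ext3 x P a u B = x u := by
  have e0 : ∑ B : Fin 3 → S, ∏ i, P (a i) u (B i) = 1 := by
    have := Finset.prod_univ_sum (fun _ : Fin 3 => (Finset.univ : Finset S))
      (fun i s => P (a i) u s)
    rw [Fintype.piFinset_univ] at this
    rw [← this]
    simp only [hN.P1, Finset.prod_const_one]
  have e1 : ∀ B : Fin 3 → S, ext3 x P a u B = x u * ∏ i, P (a i) u (B i) := by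
    intro B
    rw [Fin.prod_univ_three]
    rfl
  simp only [e1, ← Finset.mul_sum, e0, mul_one]

theorem LL_prod {x : V → ℝ} {P : V → V → S → ℝ} (hN : Net x P) (l : V → V → S → D)
    (H : (Fin 3 → D) → ℝ) (h : D → ℝ) :
    LL x P l (fun d => H ![d 0, d 1, d 2] * h (d 9)) = LL3 x P l H * LL2 x P l h := by
  rw [LL_split3]
  unfold LL3
  rw [Finset.sum_mul]
  refine Finset.sum_congr rfl fun a _ => ?_
  rw [Finset.sum_mul]
  refine Finset.sum_congr rfl fun A _ => ?_
  rw [mul_assoc]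
  congr 1
  have eA : ∀ A : Fin 3 → D, ![A 0, A 1, A 2] = A := fun A => by
    ext i; fin_cases i <;> rfl
  calc ∑ B : Fin 3 → S, ∑ C : Fin 3 → S, ∑ u, ∑ v, ∑ s,
        ext3 x P a u B * ext3 x P a v C * P u v s *
        (fun d : Fin 10 → D => H ![d 0, d 1, d 2] * h (d 9))
          (join (da3 l a A) (dx3 l a u B) (dx3 l a v C) (l u v s))
      = ∑ B : Fin 3 → S, ∑ C : Fin 3 → S, ∑ u, ∑ v,
        H (da3 l a A) * (ext3 x P a u B * (ext3 x P a v C * ∑ s, P u v s * h (l u v s))) := by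
        refine Finset.sum_congr rfl fun B _ => Finset.sum_congr rfl fun C _ =>
          Finset.sum_congr rfl fun u _ => Finset.sum_congr rfl fun v _ => ?_
        rw [Finset.mul_sum, Finset.mul_sum, Finset.mul_sum]
        refine Finset.sum_congr rfl fun s _ => ?_
        change _ * (H ![da3 l a A 0, da3 l a A 1, da3 l a A 2] * h (l u v s)) = _
        rw [eA]
        ring
    _ = ∑ u, ∑ v, ∑ B : Fin 3 → S, ∑ C : Fin 3 → S,
        H (da3 l a A) * (ext3 x P a u B * (ext3 x P a v C * ∑ s, P u v s * h (l u v s))) := by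
        calc _ = ∑ B : Fin 3 → S, ∑ u, ∑ C : Fin 3 → S, ∑ v, H (da3 l a A) *
              (ext3 x P a u B * (ext3 x P a v C * ∑ s, P u v s * h (l u v s))) :=
              Finset.sum_congr rfl fun B _ => Finset.sum_comm
          _ = ∑ B : Fin 3 → S, ∑ u, ∑ v, ∑ C : Fin 3 → S, H (da3 l a A) *
              (ext3 x P a u B * (ext3 x P a v C * ∑ s, P u v s * h (l u v s))) :=
              Finset.sum_congr rfl fun B _ => Finset.sum_congr rfl fun u _ => Finset.sum_comm
          _ = ∑ u, ∑ B : Fin 3 → S, ∑ v, ∑ C : Fin 3 → S, H (da3 l a A) *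
              (ext3 x P a u B * (ext3 x P a v C * ∑ s, P u v s * h (l u v s))) :=
              Finset.sum_comm
          _ = _ := Finset.sum_congr rfl fun u _ => Finset.sum_comm
    _ = ∑ u, ∑ v, H (da3 l a A) * (x u * (x v * ∑ s, P u v s * h (l u v s))) := by
        refine Finset.sum_congr rfl fun u _ => Finset.sum_congr rfl fun v _ => ?_
        simp only [← Finset.mul_sum, ← Finset.sum_mul, sum_ext3 hN]
    _ = H (da3 l a A) * LL2 x P l h := by
        unfold LL2
        simp only [Finset.mul_sum, mul_assoc]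

/-! ### Rooted rows -/

/-- the six data of four vertices -/
def da4 (l : V → V → S → D) (a : Fin 4 → V) (A : Fin 6 → S) : Fin 6 → D :=
  ![l (a 0) (a 1) (A 0), l (a 0) (a 2) (A 1), l (a 1) (a 2) (A 2), l (a 0) (a 3) (A 3),
    l (a 1) (a 3) (A 4), l (a 2) (a 3) (A 5)]

/-- **Rooted rows.** -/
theorem LL_root {x : V → ℝ} {P : V → V → S → ℝ} (hN : Net x P) (l : V → V → S → D)
    (H : (Fin 6 → D) → ℝ) (k : D → ℝ) :
    LL x P l (fun d => H ![d 0, d 1, d 2, d 3, d 4, d 5] * k (d 6)) =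
      ∑ a : Fin 4 → V, ∑ A : Fin 6 → S, W4 x P a A * (H (da4 l a A) * ddeg x P l k (a 0)) := by
  have h1 : LL x P l (fun d => H ![d 0, d 1, d 2, d 3, d 4, d 5] * k (d 6)) =
      ∑ z : (Fin 4 → V) × V, ∑ F : ((Fin 6 → S) × S) × (Fin 3 → S),
        W5 x P (eV4 z) (eS4 F) * (fun d : Fin 10 → D =>
          H ![d 0, d 1, d 2, d 3, d 4, d 5] * k (d 6)) (dat l (eV4 z) (eS4 F)) := by
    unfold LL
    rw [← Equiv.sum_comp eV4]
    refine Finset.sum_congr rfl fun z _ => ?_
    rw [← Equiv.sum_comp eS4]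
  rw [h1]
  simp only [Fintype.sum_prod_type]
  refine Finset.sum_congr rfl fun a _ => ?_
  have hC : ∀ u : V, ∑ C : Fin 3 → S, P (a 1) u (C 0) * P (a 2) u (C 1) * P (a 3) u (C 2) = 1 := by
    intro u
    have := Finset.prod_univ_sum (fun _ : Fin 3 => (Finset.univ : Finset S))
      (fun i s => P (a i.succ) u s)
    rw [Fintype.piFinset_univ] at this
    simp only [hN.P1, Finset.prod_const_one, Fin.prod_univ_three] at this
    rw [this]
    rfl
  have h2 : ∀ (u : V) (A : Fin 6 → S) (s : S), ∑ C : Fin 3 → S,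
      W5 x P (eV4 (a, u)) (eS4 ((A, s), C)) *
        (H ![dat l (eV4 (a, u)) (eS4 ((A, s), C)) 0, dat l (eV4 (a, u)) (eS4 ((A, s), C)) 1,
          dat l (eV4 (a, u)) (eS4 ((A, s), C)) 2, dat l (eV4 (a, u)) (eS4 ((A, s), C)) 3,
          dat l (eV4 (a, u)) (eS4 ((A, s), C)) 4, dat l (eV4 (a, u)) (eS4 ((A, s), C)) 5] *
          k (dat l (eV4 (a, u)) (eS4 ((A, s), C)) 6)) =
      W4 x P a A * (H (da4 l a A) * (x u * (P (a 0) u s * k (l (a 0) u s)))) := by
    intro u A s
    have h3 : ∀ C : Fin 3 → S, W5 x P (eV4 (a, u)) (eS4 ((A, s), C)) *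
        (H ![dat l (eV4 (a, u)) (eS4 ((A, s), C)) 0, dat l (eV4 (a, u)) (eS4 ((A, s), C)) 1,
          dat l (eV4 (a, u)) (eS4 ((A, s), C)) 2, dat l (eV4 (a, u)) (eS4 ((A, s), C)) 3,
          dat l (eV4 (a, u)) (eS4 ((A, s), C)) 4, dat l (eV4 (a, u)) (eS4 ((A, s), C)) 5] *
          k (dat l (eV4 (a, u)) (eS4 ((A, s), C)) 6)) =
        W4 x P a A * (H (da4 l a A) * (x u * (P (a 0) u s * k (l (a 0) u s)))) *
          (P (a 1) u (C 0) * P (a 2) u (C 1) * P (a 3) u (C 2)) := by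
      intro C
      rw [W5_four]
      change _ * (H (da4 l a A) * k (l (a 0) u s)) = _
      ring
    simp only [h3]
    rw [← Finset.mul_sum, hC, mul_one]
  simp only [h2]
  rw [Finset.sum_comm]
  refine Finset.sum_congr rfl fun A _ => ?_
  unfold ddeg
  simp only [Finset.mul_sum]

/-- rooted rows vanish when the degree condition holds on the support -/
theorem LL_root_zero {x : V → ℝ} {P : V → V → S → ℝ} (hN : Net x P) (l : V → V → S → D)
    (H : (Fin 6 → D) → ℝ) (k : D → ℝ) (hk : ∀ u, x u * ddeg x P l k u = 0) :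
    LL x P l (fun d => H ![d 0, d 1, d 2, d 3, d 4, d 5] * k (d 6)) = 0 := by
  rw [LL_root hN]
  refine Finset.sum_eq_zero fun a _ => Finset.sum_eq_zero fun A _ => ?_
  have : W4 x P a A * (H (da4 l a A) * ddeg x P l k (a 0)) = (x (a 0) * ddeg x P l k (a 0)) *
      ((x (a 1) * x (a 2) * x (a 3)) *
        (P (a 0) (a 1) (A 0) * P (a 0) (a 2) (A 1) * P (a 1) (a 2) (A 2) *
          (P (a 0) (a 3) (A 3) * P (a 1) (a 3) (A 4) * P (a 2) (a 3) (A 5))) *
            H (da4 l a A)) := by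
    unfold W4
    ring
  rw [this, hk, zero_mul]

/-! ### Types of size one -/

/-- the three data of a flag on one vertex -/
def dx1 (l : V → V → S → D) (a : V) (z : V × V) (B : Fin 3 → S) : Fin 3 → D :=
  ![l a z.1 (B 0), l a z.2 (B 1), l z.1 z.2 (B 2)]

/-- flag vectors on one vertex -/
def Y1 {ι : Type} (x : V → ℝ) (P : V → V → S → ℝ) (l : V → V → S → D)
    (φ : ι → (Fin 3 → D) → ℝ) (a : V) (i : ι) : ℝ :=
  ∑ B : Fin 3 → S, ∑ z, ext1 x P a z B * φ i (dx1 l a z B)

/-- **Types of size one.** -/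
theorem LL_type1 {ι : Type} [Fintype ι] {x : V → ℝ} {P : V → V → S → ℝ} (hN : Net x P)
    (l : V → V → S → D) (Q : ι → ι → ℝ) (φ : ι → (Fin 3 → D) → ℝ) :
    LL x P l (fun d => ∑ i, ∑ j, Q i j * (φ i ![d 0, d 1, d 2] * φ j ![d 3, d 6, d 9])) =
      ∑ a : V, x a * ∑ i, ∑ j, Q i j * (Y1 x P l φ a i * Y1 x P l φ a j) := by
  have h1 : LL x P l (fun d => ∑ i, ∑ j, Q i j * (φ i ![d 0, d 1, d 2] * φ j ![d 3, d 6, d 9])) =
      ∑ z : V × ((V × V) × (V × V)), ∑ F : ((Fin 3 → S) × (Fin 3 → S)) × (Fin 4 → S),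
        W5 x P (eV1 z) (eS1 F) * (fun d : Fin 10 → D =>
          ∑ i, ∑ j, Q i j * (φ i ![d 0, d 1, d 2] * φ j ![d 3, d 6, d 9]))
            (dat l (eV1 z) (eS1 F)) := by
    unfold LL
    rw [← Equiv.sum_comp eV1]
    refine Finset.sum_congr rfl fun z _ => ?_
    rw [← Equiv.sum_comp eS1]
  rw [h1, Fintype.sum_prod_type]
  refine Finset.sum_congr rfl fun a _ => ?_
  rw [Fintype.sum_prod_type]
  have hD : ∀ z z' : V × V, ∑ D : Fin 4 → S,
      P z.1 z'.1 (D 0) * P z.2 z'.1 (D 1) * P z.1 z'.2 (D 2) * P z.2 z'.2 (D 3) = 1 := by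
    intro z z'
    have := Finset.prod_univ_sum (fun _ : Fin 4 => (Finset.univ : Finset S))
      (fun i s => P ((![z.1, z.2, z.1, z.2] : Fin 4 → V) i)
        ((![z'.1, z'.1, z'.2, z'.2] : Fin 4 → V) i) s)
    rw [Fintype.piFinset_univ] at this
    simp only [hN.P1, Finset.prod_const_one, Fin.prod_univ_four] at this
    rw [this]
    rfl
  have h2 : ∀ z z' : V × V, ∑ F : ((Fin 3 → S) × (Fin 3 → S)) × (Fin 4 → S),
      W5 x P (eV1 (a, (z, z'))) (eS1 F) * (fun d : Fin 10 → D =>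
          ∑ i, ∑ j, Q i j * (φ i ![d 0, d 1, d 2] * φ j ![d 3, d 6, d 9]))
            (dat l (eV1 (a, (z, z'))) (eS1 F)) =
      ∑ B, ∑ C, ∑ i, ∑ j, x a * (Q i j * ((ext1 x P a z B * φ i (dx1 l a z B)) *
        (ext1 x P a z' C * φ j (dx1 l a z' C)))) := by
    intro z z'
    rw [Fintype.sum_prod_type, Fintype.sum_prod_type]
    refine Finset.sum_congr rfl fun B _ => Finset.sum_congr rfl fun C _ => ?_
    have h3 : ∀ D' : Fin 4 → S, W5 x P (eV1 (a, (z, z'))) (eS1 ((B, C), D')) *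
        (fun d : Fin 10 → D =>
          ∑ i, ∑ j, Q i j * (φ i ![d 0, d 1, d 2] * φ j ![d 3, d 6, d 9]))
            (dat l (eV1 (a, (z, z'))) (eS1 ((B, C), D'))) =
        (∑ i, ∑ j, x a * (Q i j * ((ext1 x P a z B * φ i (dx1 l a z B)) *
        (ext1 x P a z' C * φ j (dx1 l a z' C))))) *
        (P z.1 z'.1 (D' 0) * P z.2 z'.1 (D' 1) * P z.1 z'.2 (D' 2) * P z.2 z'.2 (D' 3)) := by
      intro D'
      rw [W5_one]
      change _ * (∑ i, ∑ j, Q i j * (φ i (dx1 l a z B) * φ j (dx1 l a z' C))) = _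
      rw [Finset.mul_sum, Finset.sum_mul]
      refine Finset.sum_congr rfl fun i _ => ?_
      rw [Finset.mul_sum, Finset.sum_mul]
      exact Finset.sum_congr rfl fun j _ => by ring
    simp only [h3]
    rw [← Finset.mul_sum, hD, mul_one]
  simp only [h2]
  have h4 : ∀ i j, ∑ z : V × V, ∑ z' : V × V, ∑ B, ∑ C,
      x a * (Q i j * ((ext1 x P a z B * φ i (dx1 l a z B)) *
        (ext1 x P a z' C * φ j (dx1 l a z' C)))) =
      x a * (Q i j * (Y1 x P l φ a i * Y1 x P l φ a j)) := by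
    intro i j
    have e1 : Y1 x P l φ a i = ∑ z, ∑ B, ext1 x P a z B * φ i (dx1 l a z B) := by
      unfold Y1
      exact Finset.sum_comm
    have e2 : Y1 x P l φ a j = ∑ z, ∑ B, ext1 x P a z B * φ j (dx1 l a z B) := by
      unfold Y1
      exact Finset.sum_comm
    rw [e1, e2, Finset.sum_mul_sum, Finset.mul_sum, Finset.mul_sum]
    refine Finset.sum_congr rfl fun z _ => ?_
    rw [Finset.mul_sum, Finset.mul_sum]
    refine Finset.sum_congr rfl fun z' _ => ?_
    rw [Finset.sum_mul_sum, Finset.mul_sum, Finset.mul_sum]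
    refine Finset.sum_congr rfl fun B _ => ?_
    rw [Finset.mul_sum, Finset.mul_sum]
  calc ∑ z : V × V, ∑ z' : V × V, ∑ B, ∑ C, ∑ i, ∑ j,
        x a * (Q i j * ((ext1 x P a z B * φ i (dx1 l a z B)) *
        (ext1 x P a z' C * φ j (dx1 l a z' C))))
      = ∑ z : V × V, ∑ z' : V × V, ∑ i, ∑ j, ∑ B, ∑ C,
        x a * (Q i j * ((ext1 x P a z B * φ i (dx1 l a z B)) *
        (ext1 x P a z' C * φ j (dx1 l a z' C)))) := by
        refine Finset.sum_congr rfl fun z _ => Finset.sum_congr rfl fun z' _ => ?_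
        calc _ = ∑ B, ∑ i, ∑ j, ∑ C, x a * (Q i j * ((ext1 x P a z B * φ i (dx1 l a z B)) *
              (ext1 x P a z' C * φ j (dx1 l a z' C)))) := by
              refine Finset.sum_congr rfl fun B _ => ?_
              rw [Finset.sum_comm]
              exact Finset.sum_congr rfl fun i _ => Finset.sum_comm
          _ = _ := by
              rw [Finset.sum_comm]
              exact Finset.sum_congr rfl fun i _ => Finset.sum_comm
    _ = ∑ z : V × V, ∑ i, ∑ j, ∑ z' : V × V, ∑ B, ∑ C,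
        x a * (Q i j * ((ext1 x P a z B * φ i (dx1 l a z B)) *
        (ext1 x P a z' C * φ j (dx1 l a z' C)))) := by
        refine Finset.sum_congr rfl fun z _ => ?_
        rw [Finset.sum_comm]
        exact Finset.sum_congr rfl fun i _ => Finset.sum_comm
    _ = ∑ i, ∑ j, ∑ z : V × V, ∑ z' : V × V, ∑ B, ∑ C,
        x a * (Q i j * ((ext1 x P a z B * φ i (dx1 l a z B)) *
        (ext1 x P a z' C * φ j (dx1 l a z' C)))) := by
        rw [Finset.sum_comm]
        exact Finset.sum_congr rfl fun i _ => Finset.sum_comm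
    _ = _ := by
        rw [Finset.mul_sum]
        refine Finset.sum_congr rfl fun i _ => ?_
        rw [Finset.mul_sum]
        exact Finset.sum_congr rfl fun j _ => h4 i j

/-- **Types of size one, psd forms.** -/
theorem LL_psd1 {ι : Type} [Fintype ι] {x : V → ℝ} {P : V → V → S → ℝ} (hN : Net x P)
    (l : V → V → S → D) (Q : ι → ι → ℝ) (φ : ι → (Fin 3 → D) → ℝ)
    (hQ : ∀ y : ι → ℝ, 0 ≤ ∑ i, ∑ j, Q i j * (y i * y j)) :
    0 ≤ LL x P l (fun d => ∑ i, ∑ j, Q i j * (φ i ![d 0, d 1, d 2] * φ j ![d 3, d 6, d 9])) := by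
  rw [LL_type1 hN]
  exact Finset.sum_nonneg fun a _ => mul_nonneg (hN.x0 a) (hQ _)

/-! ### The instance with colours and weights -/

section inst

variable {n : ℕ}

/-- colour probabilities (`true` = blue) -/
def PC (p : Fin n → Fin n → ℝ) (u v : Fin n) (c : Bool) : ℝ := bif c then 1 - p u v else p u v

/-- colour and weight of a pair -/
def lw (wR wB : Fin n → Fin n → ℝ) (u v : Fin n) (c : Bool) : Bool × ℝ :=
  (c, bif c then wB u v else wR u v)

/-- admissible data -/
structure AdmD (d : Fin 10 → Bool × ℝ) : Prop where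
  w0 : ∀ e, 0 ≤ (d e).2
  w1 : ∀ e, (d e).2 ≤ 1
  tri : ∀ i j k : Fin 5, i < j → j < k → (d (ei i j)).1 = (d (ei i k)).1 →
    (d (ei i j)).1 = (d (ei j k)).1 → 1 ≤ (d (ei i j)).2 + (d (ei i k)).2 + (d (ei j k)).2

/-- admissible data of three vertices -/
structure AdmT (A : Fin 3 → Bool × ℝ) : Prop where
  w0 : ∀ e, 0 ≤ (A e).2
  w1 : ∀ e, (A e).2 ≤ 1
  tri : (A 0).1 = (A 1).1 → (A 0).1 = (A 2).1 → 1 ≤ (A 0).2 + (A 1).2 + (A 2).2

variable {x : Fin n → ℝ} {p wR wB : Fin n → Fin n → ℝ}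

theorem netC (h : Pre x p wR wB) : Net x (PC p) := by
  refine ⟨h.x0, h.x1, ?_, ?_, ?_⟩
  · intro u v s
    cases s
    · exact h.p0 u v
    · exact sub_nonneg.2 (h.p1 u v)
  · intro u v
    rw [Fintype.sum_bool]
    simp [PC]
  · intro u v s
    simp only [PC, h.ps u v]

theorem lw_symm (h : Pre x p wR wB) (u v : Fin n) (c : Bool) : lw wR wB u v c = lw wR wB v u c := by
  simp only [lw, h.Rs u v, h.Bs u v]

theorem src_ei' {i j : Fin 5} (h : i < j) : src (ei i j) = i ∧ tgt (ei i j) = j := by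
  revert i j; decide

theorem admD_dat (hM : Model x p wR wB) (a : Fin 5 → Fin n) (F : Fin 10 → Bool) :
    AdmD (dat (lw wR wB) a F) := by
  refine ⟨?_, ?_, ?_⟩
  · intro e
    simp only [dat, lw]
    cases F e
    · exact hM.R0 _ _
    · exact hM.B0 _ _
  · intro e
    simp only [dat, lw]
    cases F e
    · exact hM.R1 _ _
    · exact hM.B1 _ _
  · intro i j k hij hjk h2 h3
    obtain ⟨s1, t1⟩ := src_ei' hij
    obtain ⟨s2, t2⟩ := src_ei' (hij.trans hjk)
    obtain ⟨s3, t3⟩ := src_ei' hjk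
    simp only [dat, lw] at h2 h3
    simp only [dat, lw, s1, t1, s2, t2, s3, t3]
    rw [← h2, ← h3]
    cases F (ei i j)
    · have := hM.Rt (a i) (a j) (a k)
      simp only [cond_false]
      linarith
    · have := hM.Bt (a i) (a j) (a k)
      simp only [cond_true]
      linarith

theorem admT_da3 (hM : Model x p wR wB) (a : Fin 3 → Fin n) (A : Fin 3 → Bool) :
    AdmT (da3 (lw wR wB) a A) := by
  have hw : ∀ u v c, 0 ≤ (lw wR wB u v c).2 ∧ (lw wR wB u v c).2 ≤ 1 := by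
    intro u v c
    cases c
    · exact ⟨hM.R0 _ _, hM.R1 _ _⟩
    · exact ⟨hM.B0 _ _, hM.B1 _ _⟩
  refine ⟨?_, ?_, ?_⟩
  · intro e
    fin_cases e
    · exact (hw _ _ _).1
    · exact (hw _ _ _).1
    · exact (hw _ _ _).1
  · intro e
    fin_cases e
    · exact (hw _ _ _).2
    · exact (hw _ _ _).2
    · exact (hw _ _ _).2
  · intro h1 h2
    change A 0 = A 1 at h1
    change A 0 = A 2 at h2
    change 1 ≤ (lw wR wB (a 0) (a 1) (A 0)).2 + (lw wR wB (a 0) (a 2) (A 1)).2 +
      (lw wR wB (a 1) (a 2) (A 2)).2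
    rw [← h1, ← h2]
    unfold lw
    cases A 0
    · have := hM.Rt (a 0) (a 1) (a 2)
      simp only [cond_false]
      linarith
    · have := hM.Bt (a 0) (a 1) (a 2)
      simp only [cond_true]
      linarith

/-- red weight of a datum -/
def wtR (d : Bool × ℝ) : ℝ := bif d.1 then 0 else d.2

/-- blue weight of a datum -/
def wtB (d : Bool × ℝ) : ℝ := bif d.1 then d.2 else 0

theorem LL2_wtR : LL2 x (PC p) (lw wR wB) wtR = rr x p wR := by
  unfold LL2 rr
  refine Finset.sum_congr rfl fun u _ => Finset.sum_congr rfl fun v _ => ?_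
  simp [PC, lw, wtR]

theorem LL2_wtB : LL2 x (PC p) (lw wR wB) wtB = bb x p wB := by
  unfold LL2 bb
  refine Finset.sum_congr rfl fun u _ => Finset.sum_congr rfl fun v _ => ?_
  simp [PC, lw, wtB]

theorem ddeg_wtR (u : Fin n) : ddeg x (PC p) (lw wR wB) wtR u = dR x p wR u := by
  unfold ddeg dR
  refine Finset.sum_congr rfl fun v _ => ?_
  simp [PC, lw, wtR]

theorem ddeg_wtB (u : Fin n) : ddeg x (PC p) (lw wR wB) wtB u = dB x p wB u := by
  unfold ddeg dB
  refine Finset.sum_congr rfl fun v _ => ?_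
  simp [PC, lw, wtB]

theorem LL2_const (h : Pre x p wR wB) (k : Bool × ℝ → ℝ) (c : ℝ) :
    LL2 x (PC p) (lw wR wB) (fun d => k d - c) = LL2 x (PC p) (lw wR wB) k - c := by
  have hN := netC h
  have h1 : LL2 x (PC p) (lw wR wB) (fun d => k d - c) =
      LL2 x (PC p) (lw wR wB) k - c * ∑ u, ∑ v, x u * x v := by
    unfold LL2
    rw [Finset.mul_sum, ← Finset.sum_sub_distrib]
    refine Finset.sum_congr rfl fun u _ => ?_
    rw [Finset.mul_sum, ← Finset.sum_sub_distrib]
    refine Finset.sum_congr rfl fun v _ => ?_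
    simp only [mul_sub, Finset.sum_sub_distrib, ← Finset.sum_mul, hN.P1]
    ring
  have h2 : ∑ u, ∑ v, x u * x v = 1 := by
    simp only [← Finset.mul_sum, h.x1, mul_one]
  rw [h1, h2, mul_one]

theorem LL3_nonneg (hM : Model x p wR wB) {H : (Fin 3 → Bool × ℝ) → ℝ}
    (hH : ∀ A, AdmT A → 0 ≤ H A) : 0 ≤ LL3 x (PC p) (lw wR wB) H :=
  Finset.sum_nonneg fun a _ => Finset.sum_nonneg fun A _ =>
    mul_nonneg (W3_nonneg (netC (pre_of_model hM)) a A) (hH _ (admT_da3 hM a A))

theorem LL3_add (H K : (Fin 3 → Bool × ℝ) → ℝ) :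
    LL3 x (PC p) (lw wR wB) (fun A => H A + K A) =
      LL3 x (PC p) (lw wR wB) H + LL3 x (PC p) (lw wR wB) K := by
  unfold LL3
  simp only [mul_add, Finset.sum_add_distrib]

/-- positivity from the loops -/
theorem LL3_pos (hM : Model x p wR wB) (H : (Fin 3 → Bool × ℝ) → ℝ)
    (hH : ∀ A, AdmT A → 0 ≤ H A) (hpos : ∀ c : Bool, 0 < H (fun _ => (c, 1))) :
    0 < LL3 x (PC p) (lw wR wB) H := by
  have h := pre_of_model hM
  have hN := netC h
  have h3 : ∃ u, 0 < x u := by
    by_contra hne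
    push Not at hne
    have : ∑ u, x u ≤ 0 := Finset.sum_nonpos fun u _ => hne u
    rw [h.x1] at this
    linarith
  obtain ⟨u, hu⟩ := h3
  have h4 : ∃ c : Bool, 0 < PC p u u c := by
    rcases lt_or_eq_of_le (h.p0 u u) with h5 | h5
    · exact ⟨false, h5⟩
    · refine ⟨true, ?_⟩
      simp only [PC, cond_true, ← h5]
      norm_num
  obtain ⟨c, hc⟩ := h4
  have hd : da3 (lw wR wB) (fun _ => u) (fun _ => c) = fun _ => (c, 1) := by
    have hl : lw wR wB u u c = (c, 1) := by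
      cases c <;> simp [lw, hM.Rl, hM.Bl]
    funext e
    fin_cases e <;> exact hl
  have h6 : 0 < W3 x (PC p) (fun _ => u) (fun _ => c) *
      H (da3 (lw wR wB) (fun _ => u) (fun _ => c)) := by
    rw [hd]
    refine mul_pos ?_ (hpos c)
    unfold W3
    positivity
  have h7 : W3 x (PC p) (fun _ => u) (fun _ => c) * H (da3 (lw wR wB) (fun _ => u) (fun _ => c)) ≤
      ∑ A, W3 x (PC p) (fun _ => u) A * H (da3 (lw wR wB) (fun _ => u) A) :=
    Finset.single_le_sum
      (f := fun A => W3 x (PC p) (fun _ => u) A * H (da3 (lw wR wB) (fun _ => u) A))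
      (fun A _ => mul_nonneg (W3_nonneg hN _ A) (hH _ (admT_da3 hM _ A))) (Finset.mem_univ _)
  have h8 : ∑ A, W3 x (PC p) (fun _ => u) A * H (da3 (lw wR wB) (fun _ => u) A) ≤
      LL3 x (PC p) (lw wR wB) H :=
    Finset.single_le_sum (f := fun a => ∑ A, W3 x (PC p) a A * H (da3 (lw wR wB) a A))
      (fun a _ => Finset.sum_nonneg fun A _ =>
        mul_nonneg (W3_nonneg hN a A) (hH _ (admT_da3 hM a A)))
      (Finset.mem_univ _)
  linarith

end inst

/-- **Final step of the multiplier free version with arbitrary functions of the weights.** -/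
theorem model_of_rowsP (H1 H2 : (Fin 3 → Bool × ℝ) → ℝ) (h1 : ∀ A, AdmT A → 0 ≤ H1 A)
    (h2 : ∀ A, AdmT A → 0 ≤ H2 A)
    (hpos : ∀ c : Bool, 0 < H1 (fun _ => (c, 1)) + H2 (fun _ => (c, 1)))
    (hcert : ∀ (n : ℕ) (x : Fin n → ℝ) (p wR wB : Fin n → Fin n → ℝ), Model x p wR wB →
      0 ≤ LL x (PC p) (lw wR wB) (fun d => H1 ![d 0, d 1, d 2] * (wtR (d 9) - 1 / 10) +
        H2 ![d 0, d 1, d 2] * (wtB (d 9) - 1 / 10))) : S_Model := by
  intro n x p wR wB hM
  by_contra hlt
  rw [not_le, max_lt_iff] at hlt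
  obtain ⟨hr, hb⟩ := hlt
  have hP := pre_of_model hM
  have hN := netC hP
  have h3 := hcert n x p wR wB hM
  rw [LL_add, LL_prod hN _ H1 (fun d => wtR d - 1 / 10), LL_prod hN _ H2 (fun d => wtB d - 1 / 10),
    LL2_const hP, LL2_const hP, LL2_wtR, LL2_wtB] at h3
  have h4 := LL3_pos hM (fun A => H1 A + H2 A) (fun A hA => add_nonneg (h1 A hA) (h2 A hA)) hpos
  rw [LL3_add] at h4
  have h5 := LL3_nonneg hM h1
  have h6 := LL3_nonneg hM h2
  rcases lt_or_eq_of_le h5 with h7 | h7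
  · have := mul_neg_of_pos_of_neg h7 (sub_neg.2 hr)
    have := mul_nonpos_of_nonneg_of_nonpos h6 (sub_nonpos.2 hb.le)
    linarith
  · rw [← h7] at h3 h4
    have h8 : 0 < LL3 x (PC p) (lw wR wB) H2 := by linarith
    have := mul_neg_of_pos_of_neg h8 (sub_neg.2 hb)
    linarith

end Fl

end HR
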