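import Pool.Agent.Lib.MP_a1b8b7_co.B.GMain

/-!
# The P part of the certificate (types of size one)
-/

set_option autoImplicit false

open Finset

namespace HR

namespace Fl

namespace GP

open Tr

/-! ### The polynomial of a tree with six levels -/

/-- six variables from two triples -/
def v6 {R : Type} (U V : Fin 3 → R) : Fin 6 → R := ![U 0, U 1, U 2, V 0, V 1, V 2]

/-- six levels -/
noncomputable def g6 (T : Tr) (b0 b1 b2 c0 c1 c2 : ℕ) : Tr :=
  get (get (get (get (get (get T b0) b1) b2) c0) c1) c2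

theorem pol6 (D : ℕ) (hD : D < 5) (T : Tr) (U V : Fin 3 → ℝ) :
    pol D 6 T (v6 U V) = ((Bl D).map fun g => ((Bl (D - dg g)).map fun g' =>
      ((look3 (look3 T g) g').z : ℝ) * (mv U g * mv V g')).sum).sum := by
  let e6 : (Fin 3 → Fin (D + 1)) × (Fin 3 → Fin (D + 1)) ≃ (Fin 6 → Fin (D + 1)) :=
    { toFun := fun z => v6 z.1 z.2
      invFun := fun g => (![g 0, g 1, g 2], ![g 3, g 4, g 5])
      left_inv := fun z => by
        refine Prod.ext ?_ ?_ <;>
        · funext i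
          fin_cases i <;> rfl
      right_inv := fun g => by
        funext i
        fin_cases i <;> rfl }
  unfold pol
  rw [← Equiv.sum_comp e6, Fintype.sum_prod_type]
  have h1 : ∀ β γ : Fin 3 → Fin (D + 1),
      (if ∑ i, ((e6 (β, γ) i : Fin (D + 1)) : ℕ) ≤ D then
        ((lookF 6 T fun i => ((e6 (β, γ) i : Fin (D + 1)) : ℕ)).z : ℝ) *
          ∏ i, v6 U V i ^ ((e6 (β, γ) i : Fin (D + 1)) : ℕ) else 0) =
      if (β 0 : ℕ) + β 1 + β 2 ≤ D then
        (if (γ 0 : ℕ) + γ 1 + γ 2 ≤ D - ((β 0 : ℕ) + β 1 + β 2) then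
            ((g6 T (β 0) (β 1) (β 2) (γ 0) (γ 1) (γ 2)).z : ℝ) *
            ((U 0 ^ (β 0 : ℕ) * U 1 ^ (β 1 : ℕ) * U 2 ^ (β 2 : ℕ)) *
            (V 0 ^ (γ 0 : ℕ) * V 1 ^ (γ 1 : ℕ) * V 2 ^ (γ 2 : ℕ))) else 0) else 0 := by
    intro β γ
    have s1 : ∑ i, ((e6 (β, γ) i : Fin (D + 1)) : ℕ) = (β 0 : ℕ) + β 1 +
        β 2 + γ 0 + γ 1 + γ 2 := by
      rw [Fin.sum_univ_six]
      rfl
    have s2 : ∏ i, v6 U V i ^ ((e6 (β, γ) i : Fin (D + 1)) : ℕ) =
        U 0 ^ (β 0 : ℕ) * U 1 ^ (β 1 : ℕ) * U 2 ^ (β 2 : ℕ) * V 0 ^ (γ 0 : ℕ) *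
        V 1 ^ (γ 1 : ℕ) * V 2 ^ (γ 2 : ℕ) := by
      rw [Fin.prod_univ_six]
      rfl
    have s3 : (lookF 6 T fun i => ((e6 (β, γ) i : Fin (D + 1)) : ℕ)) =
        g6 T (β 0) (β 1) (β 2) (γ 0) (γ 1) (γ 2) := rfl
    rw [s1, s2, s3]
    by_cases hc : (β 0 : ℕ) + β 1 + β 2 + γ 0 + γ 1 + γ 2 ≤ D
    · rw [if_pos hc, if_pos (by omega), if_pos (by omega)]
      ring
    · rw [if_neg hc]
      split_ifs with h2 h3
      · exact absurd h3 (by omega)
      · rfl
      · rfl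
  rw [Finset.sum_congr rfl fun β _ => Finset.sum_congr rfl fun γ _ => h1 β γ]
  have h2 : ∀ β : Fin 3 → Fin (D + 1), ∑ γ : Fin 3 → Fin (D + 1),
      (if (β 0 : ℕ) + β 1 + β 2 ≤ D then
        (if (γ 0 : ℕ) + γ 1 + γ 2 ≤ D - ((β 0 : ℕ) + β 1 + β 2) then
            ((g6 T (β 0) (β 1) (β 2) (γ 0) (γ 1) (γ 2)).z : ℝ) *
            ((U 0 ^ (β 0 : ℕ) * U 1 ^ (β 1 : ℕ) * U 2 ^ (β 2 : ℕ)) *
            (V 0 ^ (γ 0 : ℕ) * V 1 ^ (γ 1 : ℕ) * V 2 ^ (γ 2 : ℕ))) else 0) else 0) =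
      if (β 0 : ℕ) + β 1 + β 2 ≤ D then
        ((Bl (D - ((β 0 : ℕ) + β 1 + β 2))).map fun g' =>
            ((g6 T (β 0) (β 1) (β 2) (g' % 5) (g' / 5 % 5) (g' / 25)).z : ℝ) *
            ((U 0 ^ (β 0 : ℕ) * U 1 ^ (β 1 : ℕ) * U 2 ^ (β 2 : ℕ)) * mv V g')).sum
      else 0 := by
    intro β
    by_cases hb : (β 0 : ℕ) + β 1 + β 2 ≤ D
    · simp only [if_pos hb]
      exact sum_three' D (D - ((β 0 : ℕ) + β 1 + β 2)) (by omega) hD
        (fun c0 c1 c2 => ((g6 T (β 0) (β 1) (β 2) c0 c1 c2).z : ℝ) *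
          ((U 0 ^ (β 0 : ℕ) * U 1 ^ (β 1 : ℕ) * U 2 ^ (β 2 : ℕ)) *
            (V 0 ^ c0 * V 1 ^ c1 * V 2 ^ c2)))
    · simp only [if_neg hb, Finset.sum_const_zero]
  rw [Finset.sum_congr rfl fun β _ => h2 β]
  exact sum_three' D D le_rfl hD
    (fun b0 b1 b2 => ((Bl (D - (b0 + b1 + b2))).map fun g' =>
      ((g6 T b0 b1 b2 (g' % 5) (g' / 5 % 5) (g' / 25)).z : ℝ) *
        ((U 0 ^ b0 * U 1 ^ b1 * U 2 ^ b2) * mv V g')).sum)

/-! ### Blocks -/

/-- a block for types of size one: psd matrix; for every colour code of the flag the list of pairs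
(exponents, index of the basis element) -/
structure PB where
  P : Chk.Data
  tab : List (List (ℕ × ℕ))

/-- pairs (exponents, index) for a colour -/
def PB.tb (B : PB) (b : ℕ) : List (ℕ × ℕ) := B.tab.getD b []

/-- indices with given exponents -/
def ixp (g : ℕ) : List (ℕ × ℕ) → List ℕ
  | [] => []
  | (g', i) :: l => if g' = g then i :: ixp g l else ixp g l

/-- conditions -/
structure PB.OK (B : PB) (D : ℕ) : Prop where
  lt : ∀ b < 8, ∀ q ∈ B.tb b, q.2 < B.P.n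
  mem : ∀ b < 8, ∀ q ∈ B.tb b, q.1 ∈ Bl 4
  deg : ∀ b < 8, ∀ q ∈ B.tb b, 2 * dg q.1 ≤ D
  psd : B.P.check = true

/-- sum of digits -/
noncomputable def SDk (P : Chk.Data) (I J : List ℕ) : ℕ :=
  sumL (fun i => sumL (fun j => Nat.mod (Nat.shiftRight (hdL (dropL i P.Q)) (Nat.mul P.w j))
    (Nat.pow (nat_lit 2) P.w)) J) I

/-- number of entries times the offset -/
noncomputable def SOk (P : Chk.Data) (I J : List ℕ) : ℕ :=
  sumL (fun _ => sumL (fun _ => P.oq) J) I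

/-- **kernel check of one pair of flags** -/
noncomputable def chkP (D : ℕ) (T : Tr) (B : PB) (b c : ℕ) : Bool :=
  allL (fun g => allL (fun g' => Nat.beq
    (Nat.add (zp (look3 (look3 T g) g')) (SOk B.P (ixp g (B.tb b)) (ixp g' (B.tb c))))
    (Nat.add (zn (look3 (look3 T g) g')) (SDk B.P (ixp g (B.tb b)) (ixp g' (B.tb c)))))
    (Bl (D - dg g))) (Bl D)

theorem mem_ixp {g : ℕ} {l : List (ℕ × ℕ)} {i : ℕ} (h : i ∈ ixp g l) : (g, i) ∈ l := by
  induction l with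
  | nil => simp [ixp] at h
  | cons a l ih =>
    obtain ⟨g', b⟩ := a
    rw [ixp] at h
    split_ifs at h with h1
    · rcases List.mem_cons.1 h with h2 | h2
      · rw [h2, h1]
        simp
      · exact List.mem_cons_of_mem _ (ih h2)
    · exact List.mem_cons_of_mem _ (ih h)

theorem sum_ixp (F : ℕ → ℕ → ℝ) (l : List (ℕ × ℕ)) (hmem : ∀ q ∈ l, q.1 ∈ Bl 4) :
    ((Bl 4).map fun g => ((ixp g l).map fun i => F g i).sum).sum =
      (l.map fun q => F q.1 q.2).sum := by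
  induction l with
  | nil => exact ls_zero _ _ fun g _ => by simp [ixp]
  | cons a l ih =>
    obtain ⟨g', b⟩ := a
    have h1 : ∀ g, ((ixp g ((g', b) :: l)).map fun i => F g i).sum =
        (if g' = g then F g b else 0) + ((ixp g l).map fun i => F g i).sum := by
      intro g
      rw [ixp]
      split_ifs with h
      · rw [List.map_cons, List.sum_cons]
      · rw [zero_add]
    rw [ls_congr fun g _ => h1 g, ls_add, ih (fun q hq => hmem q (by simp [hq])),
      ls_ite Bl_nodup (hmem (g', b) (by simp)), List.map_cons, List.sum_cons]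

theorem SDk_eq (P : Chk.Data) (I J : List ℕ) : ((SDk P I J : ℕ) : ℝ) - (SOk P I J : ℕ) =
    (I.map fun i => (J.map fun j => (P.Qt i j : ℝ)).sum).sum := by
  have h1 : ∀ (L : List ℕ) (f : ℕ → ℕ), ((sumL f L : ℕ) : ℝ) = (L.map fun i => (f i : ℝ)).sum := by
    intro L f
    rw [sumL_eq]
    induction L with
    | nil => simp
    | cons a L ih =>
      rw [List.map_cons, List.sum_cons, List.map_cons, List.sum_cons, ← ih]
      push_cast
      rfl
  rw [SDk, SOk, h1, h1, ls_sub]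
  refine ls_congr fun i _ => ?_
  rw [h1, h1, ls_sub]
  refine ls_congr fun j _ => ?_
  have h2 : hdL (dropL i P.Q) = P.Q.getD i 0 := by
    have := hdL_dropL 0 i P.Q
    rw [zero_add] at this
    exact this
  rw [h2, Chk.Data.Qt]
  push_cast
  rfl

/-- **The polynomial of the tree is the sandwich.** -/
theorem pieceP {D : ℕ} (hD : D < 5) {T : Tr} {B : PB} {b c : ℕ} (hb : b < 8) (hc : c < 8)
    (hok : B.OK D) (h : chkP D T B b c = true) (U V : Fin 3 → ℝ) :
    pol D 6 T (v6 U V) = ((B.tb b).map fun q => ((B.tb c).map fun q' =>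
      (B.P.Qt q.2 q'.2 : ℝ) * (mv U q.1 * mv V q'.1)).sum).sum := by
  rw [pol6 D hD]
  have h1 : ∀ g ∈ Bl D, ∀ g' ∈ Bl (D - dg g), ((look3 (look3 T g) g').z : ℝ) * (mv U g * mv V g') =
      ((ixp g (B.tb b)).map fun i => ((ixp g' (B.tb c)).map fun j =>
        (B.P.Qt i j : ℝ) * (mv U g * mv V g')).sum).sum := by
    intro g hg g' hg'
    have h2 := Nat.eq_of_beq_eq_true (allL_spec (allL_spec h g hg) g' hg')
    have h3 : ((zp (look3 (look3 T g) g') + SOk B.P (ixp g (B.tb b)) (ixp g' (B.tb c)) : ℕ) : ℝ) =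
      ((zn (look3 (look3 T g) g') + SDk B.P (ixp g (B.tb b)) (ixp g' (B.tb c)) : ℕ) : ℝ) :=
      congrArg (Nat.cast : ℕ → ℝ) h2
    have h4 := SDk_eq B.P (ixp g (B.tb b)) (ixp g' (B.tb c))
    have h5 : ((look3 (look3 T g) g').z : ℝ) =
        ((ixp g (B.tb b)).map fun i => ((ixp g' (B.tb c)).map fun j => (B.P.Qt i j : ℝ)).sum).sum := by
      rw [← h4, z_eq]
      rw [Nat.cast_add, Nat.cast_add] at h3
      rw [Int.cast_sub, Int.cast_natCast, Int.cast_natCast]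
      linarith
    rw [h5, mul_comm, ls_mul]
    refine ls_congr fun i _ => ?_
    rw [ls_mul]
    refine ls_congr fun j _ => ?_
    ring
  rw [ls_congr fun g hg => ls_congr fun g' hg' => h1 g hg g' hg']
  have e3 : ∀ {b : ℕ}, b < 8 → ∀ g, D < 2 * dg g → ixp g (B.tb b) = [] := by
    intro b hb g hg
    rw [List.eq_nil_iff_forall_not_mem]
    intro q hq
    have := hok.deg b hb _ (mem_ixp hq)
    change 2 * dg g ≤ D at this
    omega
  have h4 : ∀ g, ((Bl (D - dg g)).map fun g' => ((ixp g (B.tb b)).map fun i =>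
      ((ixp g' (B.tb c)).map fun j => (B.P.Qt i j : ℝ) * (mv U g * mv V g')).sum).sum).sum =
      ((Bl 4).map fun g' => ((ixp g (B.tb b)).map fun i =>
      ((ixp g' (B.tb c)).map fun j => (B.P.Qt i j : ℝ) * (mv U g * mv V g')).sum).sum).sum := by
    intro g
    rw [sum_Bl (D - dg g) (by omega)]
    refine ls_congr fun g' _ => ?_
    split_ifs with h5
    · rfl
    · by_cases h6 : D < 2 * dg g
      · rw [e3 hb g h6]
        simp
      · rw [e3 hc g' (by omega)]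
        exact (ls_zero _ _ fun q _ => by simp).symm
  have h5 : ((Bl D).map fun g => ((Bl 4).map fun g' => ((ixp g (B.tb b)).map fun i =>
      ((ixp g' (B.tb c)).map fun j => (B.P.Qt i j : ℝ) * (mv U g * mv V g')).sum).sum).sum).sum =
      ((Bl 4).map fun g => ((Bl 4).map fun g' => ((ixp g (B.tb b)).map fun i =>
      ((ixp g' (B.tb c)).map fun j => (B.P.Qt i j : ℝ) * (mv U g * mv V g')).sum).sum).sum).sum := by
    rw [sum_Bl D (by omega)]
    refine ls_congr fun g _ => ?_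
    split_ifs with h6
    · rfl
    · rw [e3 hb g (by omega)]
      exact (ls_zero _ _ fun g' _ => by simp).symm
  rw [ls_congr fun g _ => h4 g, h5]
  have h6 : ∀ g, ((Bl 4).map fun g' => ((ixp g (B.tb b)).map fun i =>
      ((ixp g' (B.tb c)).map fun j => (B.P.Qt i j : ℝ) * (mv U g * mv V g')).sum).sum).sum =
      ((ixp g (B.tb b)).map fun i => ((B.tb c).map fun q' =>
        (B.P.Qt i q'.2 : ℝ) * (mv U g * mv V q'.1)).sum).sum := by
    intro g
    rw [ls_comm]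
    refine ls_congr fun i _ => ?_
    exact sum_ixp (fun g' j => (B.P.Qt i j : ℝ) * (mv U g * mv V g')) (B.tb c) (hok.mem c hc)
  rw [ls_congr fun g _ => h6 g]
  have h7 := sum_ixp (fun g i => ((B.tb c).map fun q' =>
        (B.P.Qt i q'.2 : ℝ) * (mv U g * mv V q'.1)).sum) (B.tb b) (hok.mem b hb)
  beta_reduce at h7
  rw [h7]

/-- sums over a finite set and a list commute -/
theorem fs_ls {ι α : Type} (s : Finset ι) (l : List α) (f : ι → α → ℝ) :
    ∑ i ∈ s, (l.map fun a => f i a).sum = (l.map fun a => ∑ i ∈ s, f i a).sum := by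
  induction l with
  | nil => simp
  | cons a l ih =>
    simp only [List.map_cons, List.sum_cons, Finset.sum_add_distrib, ih]

/-- flag functions -/
noncomputable def phiP (B : PB) (i : ℕ) (F : Fin 3 → Bool × ℝ) : ℝ :=
  ((B.tb (cd3 F)).map fun q => if q.2 = i then mv (w3 F) q.1 else 0).sum

theorem formP0 {N : ℕ} (L : List (ℕ × ℕ)) (hL : ∀ q ∈ L, q.2 < N) (g : ℕ → ℝ) (w : Fin 3 → ℝ) :
      ∑ j : Fin N, g j * (L.map fun q => if q.2 = (j : ℕ) then mv w q.1 else 0).sum =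
        (L.map fun q => g q.2 * mv w q.1).sum := by
    have e1 : ∀ j : Fin N, g j * (L.map fun q => if q.2 = (j : ℕ) then mv w q.1 else 0).sum =
        (L.map fun q => if q.2 = (j : ℕ) then g j * mv w q.1 else 0).sum := by
      intro j
      rw [ls_mul]
      refine ls_congr fun q _ => ?_
      rw [mul_ite, mul_zero]
    rw [Finset.sum_congr rfl fun j _ => e1 j, fs_ls]
    refine ls_congr fun q hq => ?_
    rw [Finset.sum_eq_single_of_mem (⟨q.2, hL q hq⟩ : Fin N) (Finset.mem_univ _)]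
    · rw [if_pos rfl]
    · intro j _ hj
      refine if_neg fun h => hj ?_
      exact Fin.ext h.symm

theorem formP {B : PB} {D : ℕ} (hok : B.OK D) (F F' : Fin 3 → Bool × ℝ) :
    ∑ i : Fin B.P.n, ∑ j : Fin B.P.n, (B.P.Qt i j : ℝ) * (phiP B i F * phiP B j F') =
      ((B.tb (cd3 F)).map fun q => ((B.tb (cd3 F')).map fun q' =>
      (B.P.Qt q.2 q'.2 : ℝ) * (mv (w3 F) q.1 * mv (w3 F') q'.1)).sum).sum := by
  have h2 : ∀ i : Fin B.P.n, ∑ j : Fin B.P.n, (B.P.Qt i j : ℝ) * (phiP B i F * phiP B j F') =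
      ((B.tb (cd3 F')).map fun q' => (B.P.Qt i q'.2 : ℝ) * mv (w3 F') q'.1).sum * phiP B i F := by
    intro i
    rw [← formP0 (B.tb (cd3 F')) (hok.lt _ (cd3_lt F')) (fun j => (B.P.Qt i j : ℝ)) (w3 F'),
      Finset.sum_mul]
    refine Finset.sum_congr rfl fun j _ => ?_
    rw [phiP, phiP]
    ring
  rw [Finset.sum_congr rfl fun i _ => h2 i]
  have h3 := formP0 (B.tb (cd3 F)) (hok.lt _ (cd3_lt F)) (fun i => ((B.tb (cd3 F')).map fun q' =>
    (B.P.Qt i q'.2 : ℝ) * mv (w3 F') q'.1).sum) (w3 F)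
  have h4 : ∀ i : Fin B.P.n, ((B.tb (cd3 F')).map fun q' => (B.P.Qt i q'.2 : ℝ) * mv (w3 F') q'.1).sum * phiP B i F = (fun i => ((B.tb (cd3 F')).map fun q' =>
    (B.P.Qt i q'.2 : ℝ) * mv (w3 F') q'.1).sum) (i : ℕ) * ((B.tb (cd3 F)).map fun q => if q.2 = (i : ℕ) then mv (w3 F) q.1 else 0).sum := by
    intro i
    rw [phiP]
  rw [Finset.sum_congr rfl fun i _ => h4 i, h3]
  refine ls_congr fun q _ => ?_
  rw [mul_comm, ls_mul]
  refine ls_congr fun q' _ => ?_
  ring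

/-- **The P part is nonnegative.** -/
theorem P_nonneg {D : ℕ} (hD : D < 5) {PD : Tr} {B : PB} (hok : B.OK D)
    (hc : ∀ b < 8, ∀ c < 8, chkP D (get (get PD b) c) B b c = true)
    {n : ℕ} {x : Fin n → ℝ} {p wR wB : Fin n → Fin n → ℝ} (hM : Model x p wR wB) :
    0 ≤ LL x (PC p) (lw wR wB) (Ppc D PD) := by
  have h1 : (Ppc D PD) = fun d => ∑ i : Fin B.P.n, ∑ j : Fin B.P.n, (B.P.Qt i j : ℝ) *
      (phiP B i ![d 0, d 1, d 2] * phiP B j ![d 3, d 6, d 9]) := by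
    funext d
    rw [formP hok]
    exact pieceP hD (cd3_lt ![d 0, d 1, d 2]) (cd3_lt ![d 3, d 6, d 9]) hok
      (hc _ (cd3_lt _) _ (cd3_lt _)) (w3 ![d 0, d 1, d 2]) (w3 ![d 3, d 6, d 9])
  rw [h1]
  refine LL_psd1 (ι := Fin B.P.n) (netC (pre_of_model hM)) (lw wR wB)
    (fun i j => (B.P.Qt i j : ℝ)) (fun i F => phiP B i F) ?_
  intro y
  refine le_of_le_of_eq (Chk.Data.sound_fin hok.psd y) ?_
  refine Finset.sum_congr rfl fun i _ => Finset.sum_congr rfl fun j _ => ?_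
  ring

end GP

end Fl

end HR
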