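import Pool.Agent.Lib.MP_a1b8b7_co.B.PFlag
import Pool.Agent.Lib.MP_a1b8b7_co.B.MinRep

/-!
# Coefficient tables of polynomials in the weights

A polynomial with integer coefficients is stored as a tree `Tr`: the children of a node are the
coefficients of the powers `0, 1, 2, ...` of the next variable.
`pol D n t w` is the value of the polynomial, restricted to total degree at most `D`.
-/

set_option autoImplicit false

open Finset

namespace HR

namespace Fl

/-- Trees: `e` empty, `p n` the number `n`, `m n` the number `-n`, `c h t` a list of children with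
first child `h` and further children `t`. -/
inductive Tr : Type
  | e : Tr
  | p : ℕ → Tr
  | m : ℕ → Tr
  | c : Tr → Tr → Tr

namespace Tr

/-- first child -/
noncomputable def hd (t : Tr) : Tr := Tr.rec e (fun _ => e) (fun _ => e) (fun h _ _ _ => h) t

/-- the other children -/
noncomputable def tl (t : Tr) : Tr := Tr.rec e (fun _ => e) (fun _ => e) (fun _ t _ _ => t) t

/-- child number `i` -/
noncomputable def get (t : Tr) (i : ℕ) : Tr :=
  Nat.rec (motive := fun _ => Tr → Tr) (fun t => hd t) (fun _ ih t => ih (tl t)) i t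

/-- value of a leaf -/
noncomputable def z (t : Tr) : ℤ := Tr.rec 0 (fun n => (n : ℤ)) (fun n => -(n : ℤ)) (fun _ _ _ _ => 0) t

/-- the offset -/
def OF : ℕ := nat_lit 0x10000000000000000000000000000000000000000

/-- value of a leaf plus the offset, for the kernel -/
noncomputable def v (t : Tr) : ℕ :=
  Tr.rec OF (fun n => Nat.add OF n) (fun n => Nat.sub OF n) (fun _ _ _ _ => OF) t

@[simp] theorem hd_e : hd e = e := rfl
@[simp] theorem hd_p (n : ℕ) : hd (p n) = e := rfl
@[simp] theorem hd_m (n : ℕ) : hd (m n) = e := rfl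
@[simp] theorem hd_c (h t : Tr) : hd (c h t) = h := rfl
@[simp] theorem tl_e : tl e = e := rfl
@[simp] theorem tl_p (n : ℕ) : tl (p n) = e := rfl
@[simp] theorem tl_m (n : ℕ) : tl (m n) = e := rfl
@[simp] theorem tl_c (h t : Tr) : tl (c h t) = t := rfl
@[simp] theorem get_zero (t : Tr) : get t 0 = hd t := rfl
@[simp] theorem get_succ (t : Tr) (i : ℕ) : get t (i + 1) = get (tl t) i := rfl
@[simp] theorem z_e : z e = 0 := rfl
@[simp] theorem z_p (n : ℕ) : z (p n) = n := rfl
@[simp] theorem z_m (n : ℕ) : z (m n) = -n := rfl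
@[simp] theorem z_c (h t : Tr) : z (c h t) = 0 := rfl

theorem z_le_v (t : Tr) : (OF : ℤ) + z t ≤ v t := by
  cases t with
  | e => simp [v]
  | p n => change (OF : ℤ) + n ≤ ((OF + n : ℕ) : ℤ); push_cast; exact le_refl _
  | m n =>
    change (OF : ℤ) + -n ≤ ((OF - n : ℕ) : ℤ)
    omega
  | c h t => simp [v]

/-- the entry of a tree with `n` levels -/
noncomputable def lookF : (n : ℕ) → Tr → (Fin n → ℕ) → Tr
  | 0, t, _ => t
  | n + 1, t, α => lookF n (get t (α 0)) (fun i => α i.succ)

end Tr

open Tr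

/-- The polynomial in `n` variables given by a tree, restricted to total degree at most `D`. -/
noncomputable def pol (D n : ℕ) (t : Tr) (w : Fin n → ℝ) : ℝ :=
  ∑ α : Fin n → Fin (D + 1), if ∑ i, (α i : ℕ) ≤ D then
    ((lookF n t (fun i => (α i : ℕ))).z : ℝ) * ∏ i, w i ^ (α i : ℕ) else 0

/-- colour as a number: red `0`, blue `1` -/
def cn (b : Bool) : ℕ := bif b then 1 else 0

/-- code of three colours -/
def cn3 (a b c : Bool) : ℕ := cn a * 4 + cn b * 2 + cn c

/-- **Pieces of the form (type of size three; two flags).**  `GD` has three selection levels: the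
number of blue pairs of the type, the code of the colours of the first flag, the code of the second
flag minus that of the first one.  Only sorted types (red before blue) and ordered flags are
stored. -/
noncomputable def Gpc (D : ℕ) (GD : Tr) (d : Fin 10 → Bool × ℝ) : ℝ :=
  if cn (d 0).1 ≤ cn (d 1).1 ∧ cn (d 1).1 ≤ cn (d 2).1 then
    (if cn3 (d 3).1 (d 4).1 (d 5).1 ≤ cn3 (d 6).1 (d 7).1 (d 8).1 then
      pol D 9 (get (get (get GD (cn (d 0).1 + cn (d 1).1 + cn (d 2).1))
        (cn3 (d 3).1 (d 4).1 (d 5).1))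
        (cn3 (d 6).1 (d 7).1 (d 8).1 - cn3 (d 3).1 (d 4).1 (d 5).1))
        ![(d 0).2, (d 1).2, (d 2).2, (d 3).2, (d 4).2, (d 5).2, (d 6).2, (d 7).2, (d 8).2]
    else
      pol D 9 (get (get (get GD (cn (d 0).1 + cn (d 1).1 + cn (d 2).1))
        (cn3 (d 6).1 (d 7).1 (d 8).1))
        (cn3 (d 3).1 (d 4).1 (d 5).1 - cn3 (d 6).1 (d 7).1 (d 8).1))
        ![(d 0).2, (d 1).2, (d 2).2, (d 6).2, (d 7).2, (d 8).2, (d 3).2, (d 4).2, (d 5).2])
  else 0

/-- **Pieces with a type of size one.** `PD` has two selection levels: the codes of the colours of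
the flags `(01, 02, 12)` and `(03, 04, 34)`. -/
noncomputable def Ppc (D : ℕ) (PD : Tr) (d : Fin 10 → Bool × ℝ) : ℝ :=
  pol D 6 (get (get PD (cn3 (d 0).1 (d 1).1 (d 2).1)) (cn3 (d 3).1 (d 6).1 (d 9).1))
    ![(d 0).2, (d 1).2, (d 2).2, (d 3).2, (d 6).2, (d 9).2]

/-- **Pieces depending on three vertices and the last pair.** `TD` has two selection levels: the
code of the colours of `01, 02, 12` and the colour of `34`. -/
noncomputable def Tpc (D : ℕ) (TD : Tr) (d : Fin 10 → Bool × ℝ) : ℝ :=
  pol D 4 (get (get TD (cn3 (d 0).1 (d 1).1 (d 2).1)) (cn (d 9).1))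
    ![(d 0).2, (d 1).2, (d 2).2, (d 9).2]

end Fl

end HR
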