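import Mathlib

/-!
# A kernel-fast check of positive semidefiniteness

A matrix is given by its rows, each row is one natural number: digits in base `2 ^ w`, every digit
is the entry plus an offset.  The certificate: integer columns `L` (packed in the same way) such
that `s (Q + mu V V^T) - L L^T` is diagonally dominant, where the columns `V` span (part of) the
kernel of `Q`.  All tests are done on the packed rows.
-/

set_option autoImplicit false

open Finset

namespace HR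

namespace Chk

/-- digit `j` of `c` in base `2 ^ w` -/
def dig (w c j : ℕ) : ℕ := (c >>> (w * j)) % 2 ^ w

/-- the number with all `n` digits equal to one -/
def ones (w n : ℕ) : ℕ := (2 ^ (w * n) - 1) / (2 ^ w - 1)

/-- sum over the columns of (digit `i` of the column) times the column -/
def comb (w i : ℕ) : List ℕ → ℕ
  | [] => 0
  | c :: cs => dig w c i * c + comb w i cs

/-- the same sum, in a form which the kernel evaluates fast (`sh = w * i`, `M = 2 ^ w`) -/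
noncomputable def combK (sh M : ℕ) (l : List ℕ) : ℕ :=
  @List.rec ℕ (fun _ => ℕ) (nat_lit 0)
    (fun c _ ih => Nat.add (Nat.mul (Nat.mod (Nat.shiftRight c sh) M) c) ih) l

theorem combK_eq (w i : ℕ) (l : List ℕ) : combK (w * i) (2 ^ w) l = comb w i l := by
  induction l with
  | nil => rfl
  | cons c cs ih =>
    rw [comb, ← ih]
    rfl

def lsum : List ℕ → ℕ
  | [] => 0
  | c :: cs => c + lsum cs

def llen : List ℕ → ℕ
  | [] => 0
  | _ :: cs => llen cs + 1

/-- sum over the rows of (digit of `v`) times the row -/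
def combD (w v : ℕ) : ℕ → List ℕ → ℕ
  | _, [] => 0
  | j, q :: qs => dig w v j * q + combD w v (j + 1) qs

def rsD (w v : ℕ) : ℕ → List ℕ → ℕ
  | _, [] => 0
  | j, _ :: qs => dig w v j + rsD w v (j + 1) qs

/-- all members are bounded digitwise by the mask -/
def maskAll (m : ℕ) : List ℕ → Bool
  | [] => true
  | c :: cs => Nat.beq (Nat.land c m) c && maskAll m cs

/-- test of one row: `pos - neg` has small digits -/
def tst (pos neg m : ℕ) : Bool :=
  Nat.ble neg pos && Nat.beq (Nat.land (pos - neg) m) (pos - neg)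

/-- certificate data -/
structure Data where
  /-- size -/
  n : ℕ
  /-- bits per digit -/
  w : ℕ
  /-- bits and offset of the entries of the matrix -/
  wq : ℕ
  oq : ℕ
  /-- bits and offset of the factor -/
  wl : ℕ
  t : ℕ
  /-- bits and offset of the kernel vectors -/
  wv : ℕ
  tv : ℕ
  s : ℕ
  mu : ℕ
  /-- the error bound is `2 ^ e` -/
  e : ℕ
  Q : List ℕ
  L : List ℕ
  V : List ℕ

namespace Data

variable (p : Data)

noncomputable def posR (o lS : ℕ) (i q : ℕ) : ℕ :=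
  p.s * q + p.t * (dig p.w lS i * o + lS) + 2 ^ p.e * o +
    (p.s * p.mu) * (combK (p.w * i) (2 ^ p.w) p.V + (llen p.V * (p.tv * p.tv)) * o)

noncomputable def negR (o vS : ℕ) (i : ℕ) : ℕ :=
  combK (p.w * i) (2 ^ p.w) p.L + (llen p.L * (p.t * p.t) + p.s * p.oq) * o +
    (p.n * 2 ^ p.e) * 2 ^ (p.w * i) + (p.s * p.mu) * (p.tv * (dig p.w vS i * o + vS))

def maskR (o : ℕ) (i : ℕ) : ℕ :=
  (2 ^ (p.e + 1) - 1) * o + (2 ^ (p.w - 1) - 2 ^ (p.e + 1)) * 2 ^ (p.w * i)

noncomputable def rowsOK (o lS vS : ℕ) : ℕ → List ℕ → Bool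
  | _, [] => true
  | i, q :: qs => tst (p.posR o lS i q) (p.negR o vS i) (p.maskR o i) && rowsOK o lS vS (i + 1) qs

/-- the vector `v` is in the left kernel -/
def kerOK1 (o qS v : ℕ) : Bool :=
  Nat.beq (combD p.w v 0 p.Q + (p.n * (p.tv * p.oq)) * o)
    (p.tv * qS + (p.oq * rsD p.w v 0 p.Q) * o)

def kerOK (o qS : ℕ) : List ℕ → Bool
  | [] => true
  | v :: vs => p.kerOK1 o qS v && kerOK o qS vs

def numOK : Bool :=
  Nat.ble 1 p.w && (Nat.beq (llen p.Q) p.n && (Nat.ble p.oq (2 ^ p.wq) &&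
  (Nat.ble p.t (2 ^ p.wl) && (Nat.ble p.tv (2 ^ p.wv) && (Nat.ble (2 ^ (p.e + 1)) p.s &&
  (Nat.ble (p.e + 2) p.w &&
  (Nat.ble (p.s * 2 ^ p.wq + p.s * p.mu * (llen p.V * (2 ^ p.wv * 2 ^ p.wv)) +
    llen p.L * (2 ^ p.wl * 2 ^ p.wl) + (p.n + 1) * 2 ^ p.e) (2 ^ (p.w - 1)) &&
  (Nat.ble (p.n * (2 ^ p.wv * 2 ^ p.wq) + 1) (2 ^ (p.w - 1)) &&
  (Nat.ble (llen p.L * 2 ^ p.wl + 1) (2 ^ p.w) && (Nat.ble (llen p.V * 2 ^ p.wv + 1) (2 ^ p.w) &&
  (Nat.ble p.wq p.w && (Nat.ble p.wl p.w && Nat.ble p.wv p.w))))))))))))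

noncomputable def check : Bool :=
  p.numOK && (maskAll ((2 ^ p.wq - 1) * ones p.w p.n) p.Q &&
  (maskAll ((2 ^ p.wl - 1) * ones p.w p.n) p.L &&
  (maskAll ((2 ^ p.wv - 1) * ones p.w p.n) p.V &&
  (p.kerOK (ones p.w p.n) (lsum p.Q) p.V &&
  p.rowsOK (ones p.w p.n) (lsum p.L) (lsum p.V) 0 p.Q))))

end Data

/-! ### digits -/

theorem dig_eq (w c j : ℕ) : dig w c j = c / (2 ^ w) ^ j % 2 ^ w := by
  unfold dig
  rw [Nat.shiftRight_eq_div_pow, pow_mul]

theorem dig_lt (w c j : ℕ) : dig w c j < 2 ^ w := Nat.mod_lt _ (by positivity)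

theorem dig_zero (w c : ℕ) : dig w c 0 = c % 2 ^ w := by simp [dig_eq]

theorem dig_succ (w c j : ℕ) : dig w c (j + 1) = dig w (c / 2 ^ w) j := by
  rw [dig_eq, dig_eq, pow_succ', Nat.div_div_eq_div_mul]

theorem sum_dig (w n : ℕ) : ∀ c : ℕ, c < (2 ^ w) ^ n →
    ∑ j ∈ range n, dig w c j * (2 ^ w) ^ j = c := by
  induction n with
  | zero => intro c hc; simp at hc; simp [hc]
  | succ n ih =>
    intro c hc
    rw [Finset.sum_range_succ']
    have h1 : c / 2 ^ w < (2 ^ w) ^ n := by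
      rw [pow_succ'] at hc
      exact Nat.div_lt_of_lt_mul hc
    have h2 := ih _ h1
    have h3 : ∑ k ∈ range n, dig w c (k + 1) * (2 ^ w) ^ (k + 1) =
        2 ^ w * ∑ k ∈ range n, dig w (c / 2 ^ w) k * (2 ^ w) ^ k := by
      rw [Finset.mul_sum]
      exact Finset.sum_congr rfl fun k _ => by rw [dig_succ, pow_succ']; ring
    rw [h3, h2, dig_zero, pow_zero, mul_one]
    exact Nat.div_add_mod c (2 ^ w)

theorem uniq (B : ℤ) (hB : 0 < B) (n : ℕ) : ∀ x : ℕ → ℤ, (∀ j < n, |x j| < B) →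
    ∑ j ∈ range n, x j * B ^ j = 0 → ∀ j < n, x j = 0 := by
  induction n with
  | zero => intro x _ _ j hj; omega
  | succ n ih =>
    intro x hx hs j hj
    rw [Finset.sum_range_succ'] at hs
    have h3 : ∑ k ∈ range n, x (k + 1) * B ^ (k + 1) =
        B * ∑ k ∈ range n, x (k + 1) * B ^ k := by
      rw [Finset.mul_sum]
      exact Finset.sum_congr rfl fun k _ => by ring
    rw [h3, pow_zero, mul_one] at hs
    have h0 : x 0 = 0 := by
      have hd : B ∣ x 0 := ⟨-∑ k ∈ range n, x (k + 1) * B ^ k, by linarith⟩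
      exact Int.eq_zero_of_abs_lt_dvd hd (hx 0 (by omega))
    rw [h0, add_zero] at hs
    have h4 : ∑ k ∈ range n, x (k + 1) * B ^ k = 0 := by
      rcases mul_eq_zero.1 hs with h | h
      · omega
      · exact h
    rcases j with _ | j
    · exact h0
    · exact ih (fun k => x (k + 1)) (fun k hk => hx (k + 1) (by omega)) h4 j (by omega)

theorem sum_lt (B n : ℕ) (hB : 0 < B) (f : ℕ → ℕ) (hf : ∀ j < n, f j < B) :
    ∑ j ∈ range n, f j * B ^ j < B ^ n := by
  induction n with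
  | zero => simp
  | succ n ih =>
    rw [Finset.sum_range_succ]
    have h1 := ih fun j hj => hf j (by omega)
    have h2 : f n + 1 ≤ B := hf n (by omega)
    have h3 : (f n + 1) * B ^ n ≤ B * B ^ n := Nat.mul_le_mul_right _ h2
    rw [pow_succ']
    linarith

theorem dig_sum (w n : ℕ) (f : ℕ → ℕ) (hf : ∀ j < n, f j < 2 ^ w) (j : ℕ) (hj : j < n) :
    dig w (∑ j ∈ range n, f j * (2 ^ w) ^ j) j = f j := by
  set c := ∑ j ∈ range n, f j * (2 ^ w) ^ j with hc
  have h1 : c < (2 ^ w) ^ n := sum_lt _ _ (by positivity) f hf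
  have h2 := sum_dig w n c h1
  have h3 : ∑ j ∈ range n, ((dig w c j : ℤ) - f j) * ((2 : ℤ) ^ w) ^ j = 0 := by
    have h4 : ((∑ j ∈ range n, dig w c j * (2 ^ w) ^ j : ℕ) : ℤ) = ((∑ j ∈ range n, f j * (2 ^ w) ^ j : ℕ) : ℤ) := by
      rw [h2]
    push_cast at h4
    rw [← sub_eq_zero, ← Finset.sum_sub_distrib] at h4
    rw [← h4]
    exact Finset.sum_congr rfl fun k _ => by ring
  have h5 := uniq ((2 : ℤ) ^ w) (by positivity) n (fun j => (dig w c j : ℤ) - f j)
    (fun k hk => by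
      have h6 := dig_lt w c k
      have h7 := hf k hk
      have h8 : ((2 ^ w : ℕ) : ℤ) = (2 : ℤ) ^ w := by push_cast; ring
      rw [← h8]
      rw [abs_lt]
      constructor <;> omega) h3 j hj
  have : (dig w c j : ℤ) = f j := by linarith
  exact_mod_cast this

theorem ones_eq (w n : ℕ) (hw : 1 ≤ w) : ones w n = ∑ j ∈ range n, (2 ^ w) ^ j := by
  have h2 : 2 ≤ 2 ^ w := by
    calc 2 = 2 ^ 1 := by norm_num
      _ ≤ 2 ^ w := Nat.pow_le_pow_right (by norm_num) hw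
  rw [Nat.geomSum_eq h2, ones, pow_mul]

theorem dig_land (w a b j : ℕ) : dig w (a &&& b) j = dig w a j &&& dig w b j := by
  unfold dig
  rw [Nat.shiftRight_and_distrib, Nat.and_mod_two_pow]

theorem dig_le_of_mask {c m : ℕ} (w j : ℕ) (h : c &&& m = c) : dig w c j ≤ dig w m j := by
  conv_lhs => rw [← h, dig_land]
  exact Nat.and_le_right

theorem le_of_mask {c m : ℕ} (h : c &&& m = c) : c ≤ m := by
  rw [← h]
  exact Nat.and_le_right

/-! ### lists -/

section lists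

/-- sums of digits -/
def RR (w : ℕ) (cols : List ℕ) (j : ℕ) : ℕ := (cols.map fun c => dig w c j).sum

/-- sums of products of digits -/
def GG (w : ℕ) (cols : List ℕ) (i j : ℕ) : ℕ := (cols.map fun c => dig w c i * dig w c j).sum

theorem comb_eq (w n i : ℕ) (cols : List ℕ) (h : ∀ c ∈ cols, c < (2 ^ w) ^ n) :
    comb w i cols = ∑ j ∈ range n, GG w cols i j * (2 ^ w) ^ j := by
  induction cols with
  | nil => simp [comb, GG]
  | cons c cs ih =>
    have h1 := ih fun c hc => h c (List.mem_cons_of_mem _ hc)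
    have h2 := sum_dig w n c (h c List.mem_cons_self)
    rw [comb, h1]
    conv_lhs => rw [← h2]
    rw [h2]
    conv_lhs =>
      congr
      rw [← h2, Finset.mul_sum]
    rw [h2, ← Finset.sum_add_distrib]
    refine Finset.sum_congr rfl fun j _ => ?_
    simp only [GG, List.map_cons, List.sum_cons]
    ring

theorem lsum_eq (w n : ℕ) (cols : List ℕ) (h : ∀ c ∈ cols, c < (2 ^ w) ^ n) :
    lsum cols = ∑ j ∈ range n, RR w cols j * (2 ^ w) ^ j := by
  induction cols with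
  | nil => simp [lsum, RR]
  | cons c cs ih =>
    have h1 := ih fun c hc => h c (List.mem_cons_of_mem _ hc)
    have h2 := sum_dig w n c (h c List.mem_cons_self)
    rw [lsum, h1]
    conv_lhs => rw [← h2]
    rw [← Finset.sum_add_distrib]
    refine Finset.sum_congr rfl fun j _ => ?_
    simp only [RR, List.map_cons, List.sum_cons]
    ring

theorem llen_eq (cols : List ℕ) : llen cols = cols.length := by
  induction cols with
  | nil => rfl
  | cons c cs ih => simp [llen, ih]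

theorem RR_le (w b : ℕ) (cols : List ℕ) (j : ℕ) (h : ∀ c ∈ cols, dig w c j ≤ b) :
    RR w cols j ≤ cols.length * b := by
  induction cols with
  | nil => simp [RR]
  | cons c cs ih =>
    have h1 := ih fun c hc => h c (List.mem_cons_of_mem _ hc)
    have h2 := h c List.mem_cons_self
    simp only [RR, List.map_cons, List.sum_cons, List.length_cons] at h1 ⊢
    linarith

/-- signed sums of products -/
def LT (w t : ℕ) (cols : List ℕ) (i j : ℕ) : ℤ :=
  (cols.map fun c => ((dig w c i : ℤ) - t) * ((dig w c j : ℤ) - t)).sum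

theorem LT_symm (w t : ℕ) (cols : List ℕ) (i j : ℕ) : LT w t cols i j = LT w t cols j i := by
  unfold LT
  congr 1
  refine List.map_congr_left fun c _ => ?_
  ring

theorem LT_eq (w t : ℕ) (cols : List ℕ) (i j : ℕ) :
    LT w t cols i j = (GG w cols i j : ℤ) - t * RR w cols i - t * RR w cols j +
      cols.length * (t * t) := by
  induction cols with
  | nil => simp [LT, GG, RR]
  | cons c cs ih =>
    simp only [LT, GG, RR, List.map_cons, List.sum_cons, List.length_cons] at ih ⊢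
    rw [ih]
    push_cast
    ring

theorem LT_abs (w t b : ℕ) (cols : List ℕ) (i j : ℕ) (ht : t ≤ b)
    (hi : ∀ c ∈ cols, dig w c i ≤ b) (hj : ∀ c ∈ cols, dig w c j ≤ b) :
    |LT w t cols i j| ≤ cols.length * ((b : ℤ) * b) := by
  induction cols with
  | nil => simp [LT]
  | cons c cs ih =>
    have h1 := ih (fun c hc => hi c (List.mem_cons_of_mem _ hc))
      (fun c hc => hj c (List.mem_cons_of_mem _ hc))
    have h2 := hi c List.mem_cons_self
    have h3 := hj c List.mem_cons_self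
    have e1 : |((dig w c i : ℤ) - t)| ≤ b := by rw [abs_le]; constructor <;> omega
    have e2 : |((dig w c j : ℤ) - t)| ≤ b := by rw [abs_le]; constructor <;> omega
    have e3 : |((dig w c i : ℤ) - t) * ((dig w c j : ℤ) - t)| ≤ (b : ℤ) * b := by
      rw [abs_mul]
      exact mul_le_mul e1 e2 (abs_nonneg _) (by positivity)
    simp only [LT, List.map_cons, List.sum_cons, List.length_cons] at h1 ⊢
    refine (abs_add_le _ _).trans ?_
    push_cast
    linarith

theorem combD_eq (w v : ℕ) (Q : List ℕ) : ∀ j0 : ℕ,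
    combD w v j0 Q = ∑ k ∈ range Q.length, dig w v (j0 + k) * Q.getD k 0 := by
  induction Q with
  | nil => intro j0; simp [combD]
  | cons q qs ih =>
    intro j0
    rw [combD, ih, List.length_cons, Finset.sum_range_succ']
    simp only [List.getD_cons_succ, List.getD_cons_zero, add_zero]
    rw [add_comm]
    congr 1
    exact Finset.sum_congr rfl fun k _ => by rw [show j0 + 1 + k = j0 + (k + 1) by ring]

theorem rsD_eq (w v : ℕ) (Q : List ℕ) : ∀ j0 : ℕ,
    rsD w v j0 Q = ∑ k ∈ range Q.length, dig w v (j0 + k) := by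
  induction Q with
  | nil => intro j0; simp [rsD]
  | cons q qs ih =>
    intro j0
    rw [rsD, ih, List.length_cons, Finset.sum_range_succ']
    simp only [add_zero]
    rw [add_comm]
    congr 1
    exact Finset.sum_congr rfl fun k _ => by rw [show j0 + 1 + k = j0 + (k + 1) by ring]

theorem lsum_getD (Q : List ℕ) : lsum Q = ∑ k ∈ range Q.length, Q.getD k 0 := by
  induction Q with
  | nil => simp [lsum]
  | cons q qs ih =>
    rw [lsum, ih, List.length_cons, Finset.sum_range_succ']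
    simp only [List.getD_cons_succ, List.getD_cons_zero]
    rw [add_comm]

theorem maskAll_spec {m : ℕ} {l : List ℕ} (h : maskAll m l = true) : ∀ c ∈ l, c &&& m = c := by
  induction l with
  | nil => intro c hc; simp at hc
  | cons a l ih =>
    simp only [maskAll, Bool.and_eq_true] at h
    intro c hc
    rcases List.mem_cons.1 hc with rfl | hc
    · exact Nat.eq_of_beq_eq_true h.1
    · exact ih h.2 c hc

theorem tst_spec {a b m : ℕ} (h : tst a b m = true) : b ≤ a ∧ (a - b) &&& m = a - b := by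
  simp only [tst, Bool.and_eq_true] at h
  exact ⟨Nat.le_of_ble_eq_true h.1, Nat.eq_of_beq_eq_true h.2⟩

/-- digits of a mask -/
theorem dig_mask (w n b j : ℕ) (hw : 1 ≤ w) (hb : b < 2 ^ w) (hj : j < n) :
    dig w (b * ones w n) j = b := by
  have h1 : b * ones w n = ∑ j ∈ range n, b * (2 ^ w) ^ j := by
    rw [ones_eq w n hw, Finset.mul_sum]
  rw [h1]
  exact dig_sum w n (fun _ => b) (fun _ _ => hb) j hj

theorem mask_lt (w n b : ℕ) (hw : 1 ≤ w) (hb : b < 2 ^ w) : b * ones w n < (2 ^ w) ^ n := by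
  have h1 : b * ones w n = ∑ j ∈ range n, b * (2 ^ w) ^ j := by
    rw [ones_eq w n hw, Finset.mul_sum]
  rw [h1]
  exact sum_lt _ _ (by positivity) _ fun _ _ => hb

end lists

/-! ### soundness -/

namespace Data

variable (p : Data)

/-- the matrix entries -/
def Qt (i j : ℕ) : ℤ := (dig p.w (p.Q.getD i 0) j : ℤ) - p.oq

/-- `s (Q + mu V V^T) - L L^T + 2^e - [i = j] n 2^e` -/
def z (i j : ℕ) : ℤ :=
  p.s * p.Qt i j + p.s * p.mu * LT p.w p.tv p.V i j - LT p.w p.t p.L i j + 2 ^ p.e -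
    (if j = i then (p.n : ℤ) * 2 ^ p.e else 0)

/-- consequences of the numerical and mask tests -/
structure Ok : Prop where
  w1 : 1 ≤ p.w
  len : p.Q.length = p.n
  oq : p.oq ≤ 2 ^ p.wq
  t : p.t ≤ 2 ^ p.wl
  tv : p.tv ≤ 2 ^ p.wv
  s : 2 ^ (p.e + 1) ≤ p.s
  e : p.e + 2 ≤ p.w
  big : p.s * 2 ^ p.wq + p.s * p.mu * (p.V.length * (2 ^ p.wv * 2 ^ p.wv)) +
    p.L.length * (2 ^ p.wl * 2 ^ p.wl) + (p.n + 1) * 2 ^ p.e ≤ 2 ^ (p.w - 1)
  big2 : p.n * (2 ^ p.wv * 2 ^ p.wq) < 2 ^ (p.w - 1)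
  lL : p.L.length * 2 ^ p.wl < 2 ^ p.w
  lV : p.V.length * 2 ^ p.wv < 2 ^ p.w
  q_lt : ∀ c ∈ p.Q, c < (2 ^ p.w) ^ p.n
  L_lt : ∀ c ∈ p.L, c < (2 ^ p.w) ^ p.n
  V_lt : ∀ c ∈ p.V, c < (2 ^ p.w) ^ p.n
  q_d : ∀ c ∈ p.Q, ∀ j < p.n, dig p.w c j ≤ 2 ^ p.wq
  L_d : ∀ c ∈ p.L, ∀ j < p.n, dig p.w c j ≤ 2 ^ p.wl
  V_d : ∀ c ∈ p.V, ∀ j < p.n, dig p.w c j ≤ 2 ^ p.wv

theorem mask_spec (w n k : ℕ) (hw : 1 ≤ w) (hk : k ≤ w) (l : List ℕ)
    (h : maskAll ((2 ^ k - 1) * ones w n) l = true) :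
    (∀ c ∈ l, c < (2 ^ w) ^ n) ∧ ∀ c ∈ l, ∀ j < n, dig w c j ≤ 2 ^ k := by
  have hp : 2 ^ k ≤ 2 ^ w := Nat.pow_le_pow_right (by norm_num) hk
  have hk0 : 0 < 2 ^ k := by positivity
  have hb : 2 ^ k - 1 < 2 ^ w := by omega
  have h1 := maskAll_spec h
  refine ⟨fun c hc => ?_, fun c hc j hj => ?_⟩
  · exact (le_of_mask (h1 c hc)).trans_lt (mask_lt w n _ hw hb)
  · have h2 := dig_le_of_mask w j (h1 c hc)
    rw [dig_mask w n _ j hw hb hj] at h2
    omega

variable {p}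

theorem ok_of_check (h : p.check = true) : p.Ok := by
  simp only [check, numOK, Bool.and_eq_true, and_assoc] at h
  obtain ⟨w1, h2, h3, h4, h5, h6, h7, h8, h9, h10, h11, h12, h13, h14, m1, m2, m3, -, -⟩ := h
  have w1 := Nat.le_of_ble_eq_true w1
  have h2 := Nat.eq_of_beq_eq_true h2
  have h3 := Nat.le_of_ble_eq_true h3
  have h4 := Nat.le_of_ble_eq_true h4
  have h5 := Nat.le_of_ble_eq_true h5
  have h6 := Nat.le_of_ble_eq_true h6
  have h7 := Nat.le_of_ble_eq_true h7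
  have h8 := Nat.le_of_ble_eq_true h8
  have h9 := Nat.le_of_ble_eq_true h9
  have h10 := Nat.le_of_ble_eq_true h10
  have h11 := Nat.le_of_ble_eq_true h11
  have h12 := Nat.le_of_ble_eq_true h12
  have h13 := Nat.le_of_ble_eq_true h13
  have h14 := Nat.le_of_ble_eq_true h14
  rw [llen_eq] at h2 h10 h11
  rw [llen_eq, llen_eq] at h8
  obtain ⟨a1, b1⟩ := mask_spec p.w p.n p.wq w1 h12 p.Q m1
  obtain ⟨a2, b2⟩ := mask_spec p.w p.n p.wl w1 h13 p.L m2
  obtain ⟨a3, b3⟩ := mask_spec p.w p.n p.wv w1 h14 p.V m3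
  exact
    { w1 := w1, len := h2, oq := h3, t := h4, tv := h5, s := h6, e := h7, big := h8,
      big2 := by omega, lL := by omega, lV := by omega, q_lt := a1, L_lt := a2, V_lt := a3,
      q_d := b1, L_d := b2, V_d := b3 }

theorem rows_spec {o lS vS : ℕ} : ∀ (l : List ℕ) (i : ℕ), p.rowsOK o lS vS i l = true →
    ∀ k < l.length, tst (p.posR o lS (i + k) (l.getD k 0)) (p.negR o vS (i + k))
      (p.maskR o (i + k)) = true := by
  intro l
  induction l with
  | nil => intro i _ k hk; simp at hk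
  | cons q qs ih =>
    intro i h k hk
    simp only [rowsOK, Bool.and_eq_true] at h
    rcases k with _ | k
    · simpa using h.1
    · have h1 := ih (i + 1) h.2 k (by simpa using hk)
      simp only [List.getD_cons_succ]
      rw [show i + (k + 1) = i + 1 + k by ring]
      exact h1

theorem ker_spec {o qS : ℕ} : ∀ (l : List ℕ), p.kerOK o qS l = true →
    ∀ v ∈ l, p.kerOK1 o qS v = true := by
  intro l
  induction l with
  | nil => intro _ v hv; simp at hv
  | cons a l ih =>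
    intro h v hv
    simp only [kerOK, Bool.and_eq_true] at h
    rcases List.mem_cons.1 hv with rfl | hv
    · exact h.1
    · exact ih h.2 v hv

/-- the value of a row as a packed sum -/
theorem row_value (h : p.Ok) (i : ℕ) (hi : i < p.n) :
    ((p.posR (ones p.w p.n) (lsum p.L) i (p.Q.getD i 0) : ℕ) : ℤ) -
      ((p.negR (ones p.w p.n) (lsum p.V) i : ℕ) : ℤ) =
      ∑ j ∈ range p.n, p.z i j * ((2 : ℤ) ^ p.w) ^ j := by
  have hq : p.Q.getD i 0 ∈ p.Q := by
    have hi' : i < p.Q.length := by rw [h.len]; exact hi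
    rw [List.getD_eq_getElem _ _ hi']
    exact List.getElem_mem hi'
  have e1 := sum_dig p.w p.n _ (h.q_lt _ hq)
  have e2 := ones_eq p.w p.n h.w1
  have e3 := lsum_eq p.w p.n p.L h.L_lt
  have e4 := lsum_eq p.w p.n p.V h.V_lt
  have e5 := comb_eq p.w p.n i p.L h.L_lt
  have e6 := comb_eq p.w p.n i p.V h.V_lt
  have d3 : dig p.w (lsum p.L) i = RR p.w p.L i := by
    rw [e3]
    exact dig_sum p.w p.n (RR p.w p.L) (fun j hj =>
      (RR_le p.w _ p.L j fun c hc => h.L_d c hc j hj).trans_lt h.lL) i hi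
  have d4 : dig p.w (lsum p.V) i = RR p.w p.V i := by
    rw [e4]
    exact dig_sum p.w p.n (RR p.w p.V) (fun j hj =>
      (RR_le p.w _ p.V j fun c hc => h.V_d c hc j hj).trans_lt h.lV) i hi
  have e7 : (2 : ℤ) ^ (p.w * i) = ∑ j ∈ range p.n, (if j = i then 1 else 0) * ((2 : ℤ) ^ p.w) ^ j := by
    simp only [ite_mul, one_mul, zero_mul]
    rw [Finset.sum_ite_eq' (range p.n) i]
    rw [if_pos (Finset.mem_range.2 hi), pow_mul]
  have key : ∀ j ∈ range p.n, p.z i j * ((2 : ℤ) ^ p.w) ^ j =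
      (p.s : ℤ) * ((dig p.w (p.Q.getD i 0) j : ℤ) * ((2 : ℤ) ^ p.w) ^ j) +
      (p.t : ℤ) * ((RR p.w p.L i : ℤ) * ((2 : ℤ) ^ p.w) ^ j + (RR p.w p.L j : ℤ) * ((2 : ℤ) ^ p.w) ^ j) +
      (2 : ℤ) ^ p.e * ((2 : ℤ) ^ p.w) ^ j +
      ((p.s : ℤ) * p.mu) * ((GG p.w p.V i j : ℤ) * ((2 : ℤ) ^ p.w) ^ j +
        ((p.V.length : ℤ) * ((p.tv : ℤ) * p.tv)) * ((2 : ℤ) ^ p.w) ^ j) -
      ((GG p.w p.L i j : ℤ) * ((2 : ℤ) ^ p.w) ^ j +
        ((p.L.length : ℤ) * ((p.t : ℤ) * p.t) + (p.s : ℤ) * p.oq) * ((2 : ℤ) ^ p.w) ^ j +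
        ((p.n : ℤ) * 2 ^ p.e) * ((if j = i then 1 else 0) * ((2 : ℤ) ^ p.w) ^ j) +
        ((p.s : ℤ) * p.mu) * ((p.tv : ℤ) * ((RR p.w p.V i : ℤ) * ((2 : ℤ) ^ p.w) ^ j +
          (RR p.w p.V j : ℤ) * ((2 : ℤ) ^ p.w) ^ j))) := by
    intro j _
    rw [z, Qt, LT_eq, LT_eq]
    split_ifs <;> ring
  rw [Finset.sum_congr rfl key]
  simp only [Finset.sum_sub_distrib, Finset.sum_add_distrib, ← Finset.mul_sum]
  rw [posR, negR, combK_eq, combK_eq, d3, d4]
  push_cast
  rw [e7, llen_eq, llen_eq]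
  have c1 : ((p.Q.getD i 0 : ℕ) : ℤ) = ∑ j ∈ range p.n, (dig p.w (p.Q.getD i 0) j : ℤ) * ((2 : ℤ) ^ p.w) ^ j := by
    conv_lhs => rw [← e1]
    push_cast
    rfl
  have c2 : ((ones p.w p.n : ℕ) : ℤ) = ∑ j ∈ range p.n, ((2 : ℤ) ^ p.w) ^ j := by
    rw [e2]; push_cast; rfl
  have c3 : ((lsum p.L : ℕ) : ℤ) = ∑ j ∈ range p.n, (RR p.w p.L j : ℤ) * ((2 : ℤ) ^ p.w) ^ j := by
    rw [e3]; push_cast; rfl
  have c4 : ((lsum p.V : ℕ) : ℤ) = ∑ j ∈ range p.n, (RR p.w p.V j : ℤ) * ((2 : ℤ) ^ p.w) ^ j := by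
    rw [e4]; push_cast; rfl
  have c5 : ((comb p.w i p.L : ℕ) : ℤ) = ∑ j ∈ range p.n, (GG p.w p.L i j : ℤ) * ((2 : ℤ) ^ p.w) ^ j := by
    rw [e5]; push_cast; rfl
  have c6 : ((comb p.w i p.V : ℕ) : ℤ) = ∑ j ∈ range p.n, (GG p.w p.V i j : ℤ) * ((2 : ℤ) ^ p.w) ^ j := by
    rw [e6]; push_cast; rfl
  rw [← c1, ← c2, ← c3, ← c4, ← c5, ← c6]

theorem z_abs (h : p.Ok) (i j : ℕ) (hi : i < p.n) (hj : j < p.n) :
    |p.z i j| ≤ 2 ^ (p.w - 1) := by
  have hq : p.Q.getD i 0 ∈ p.Q := by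
    have hi' : i < p.Q.length := by rw [h.len]; exact hi
    rw [List.getD_eq_getElem _ _ hi']
    exact List.getElem_mem hi'
  have a1 : |p.Qt i j| ≤ 2 ^ p.wq := by
    have h1 := h.q_d _ hq j hj
    have h2 := h.oq
    rw [Qt, abs_le]
    have h3 : ((2 ^ p.wq : ℕ) : ℤ) = (2 : ℤ) ^ p.wq := by push_cast; ring
    rw [← h3]
    constructor <;> omega
  have a2 := LT_abs p.w p.tv (2 ^ p.wv) p.V i j h.tv (fun c hc => h.V_d c hc i hi)
    (fun c hc => h.V_d c hc j hj)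
  have a3 := LT_abs p.w p.t (2 ^ p.wl) p.L i j h.t (fun c hc => h.L_d c hc i hi)
    (fun c hc => h.L_d c hc j hj)
  have b := h.big
  have b' : (p.s : ℤ) * 2 ^ p.wq + p.s * p.mu * (p.V.length * (2 ^ p.wv * 2 ^ p.wv)) +
    p.L.length * (2 ^ p.wl * 2 ^ p.wl) + (p.n + 1) * 2 ^ p.e ≤ 2 ^ (p.w - 1) := by exact_mod_cast b
  push_cast at a2 a3
  have c1 : |(p.s : ℤ) * p.Qt i j| ≤ p.s * 2 ^ p.wq := by
    rw [abs_mul, abs_of_nonneg (by positivity : (0 : ℤ) ≤ (p.s : ℤ))]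
    exact mul_le_mul_of_nonneg_left a1 (by positivity)
  have c2 : |(p.s : ℤ) * p.mu * LT p.w p.tv p.V i j| ≤
      p.s * p.mu * (p.V.length * (2 ^ p.wv * 2 ^ p.wv)) := by
    rw [abs_mul, abs_of_nonneg (by positivity : (0 : ℤ) ≤ (p.s : ℤ) * p.mu)]
    exact mul_le_mul_of_nonneg_left a2 (by positivity)
  have c4 : |(if j = i then (p.n : ℤ) * 2 ^ p.e else 0)| ≤ p.n * 2 ^ p.e := by
    split_ifs
    · rw [abs_of_nonneg (by positivity)]
    · rw [abs_zero]; positivity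
  have c5 : |(2 : ℤ) ^ p.e| = 2 ^ p.e := abs_of_nonneg (by positivity)
  rw [abs_le] at c1 c2 a3 c4 ⊢
  rw [z]
  constructor <;> nlinarith [c1.1, c1.2, c2.1, c2.2, a3.1, a3.2, c4.1, c4.2,
    (by positivity : (0 : ℤ) ≤ 2 ^ p.e)]

/-- off diagonal: small; diagonal: dominant -/
theorem z_spec (h : p.Ok) (hr : p.rowsOK (ones p.w p.n) (lsum p.L) (lsum p.V) 0 p.Q = true)
    (i j : ℕ) (hi : i < p.n) (hj : j < p.n) :
    0 ≤ p.z i j ∧ (j ≠ i → p.z i j ≤ 2 ^ (p.e + 1) - 1) := by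
  have h1 := rows_spec p.Q 0 hr i (by rw [h.len]; exact hi)
  rw [zero_add] at h1
  obtain ⟨h2, h3⟩ := tst_spec h1
  set pos := p.posR (ones p.w p.n) (lsum p.L) i (p.Q.getD i 0) with hpos
  set neg := p.negR (ones p.w p.n) (lsum p.V) i with hneg
  set N := pos - neg with hN
  have h4 := row_value h i hi
  rw [← hpos, ← hneg] at h4
  have h5 : (N : ℤ) = ∑ j ∈ range p.n, p.z i j * ((2 : ℤ) ^ p.w) ^ j := by
    rw [← h4, hN]
    push_cast [h2]
    ring
  -- the mask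
  have he1 : 2 ^ (p.e + 1) ≤ 2 ^ (p.w - 1) := Nat.pow_le_pow_right (by norm_num) (by have := h.e; omega)
  have hw2 : 2 ^ p.w = 2 * 2 ^ (p.w - 1) := by
    rw [← pow_succ']
    congr 1
    have := h.w1
    omega
  have hep : 0 < 2 ^ (p.e + 1) := by positivity
  have hm : p.maskR (ones p.w p.n) i = ∑ j ∈ range p.n,
      (if j = i then 2 ^ (p.w - 1) - 1 else 2 ^ (p.e + 1) - 1) * (2 ^ p.w) ^ j := by
    have e7 : (2 : ℕ) ^ (p.w * i) = ∑ j ∈ range p.n, (if j = i then 1 else 0) * ((2 : ℕ) ^ p.w) ^ j := by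
      simp only [ite_mul, one_mul, zero_mul]
      rw [Finset.sum_ite_eq' (range p.n) i]
      rw [if_pos (Finset.mem_range.2 hi), pow_mul]
    rw [maskR, ones_eq _ _ h.w1, e7, Finset.mul_sum, Finset.mul_sum, ← Finset.sum_add_distrib]
    refine Finset.sum_congr rfl fun k _ => ?_
    split_ifs
    · rw [one_mul, ← add_mul]
      congr 1
      omega
    · ring
  have hmd : ∀ k < p.n, dig p.w (p.maskR (ones p.w p.n) i) k =
      (if k = i then 2 ^ (p.w - 1) - 1 else 2 ^ (p.e + 1) - 1) := by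
    intro k hk
    rw [hm]
    exact dig_sum p.w p.n (fun j => if j = i then 2 ^ (p.w - 1) - 1 else 2 ^ (p.e + 1) - 1)
      (fun j _ => by (try dsimp only); split_ifs <;> omega) k hk
  have hNlt : N < (2 ^ p.w) ^ p.n := by
    refine (le_of_mask h3).trans_lt ?_
    rw [hm]
    exact sum_lt _ _ (by positivity) _ fun j _ => by split_ifs <;> omega
  have h6 := sum_dig p.w p.n N hNlt
  have h7 : ∑ k ∈ range p.n, ((dig p.w N k : ℤ) - p.z i k) * ((2 : ℤ) ^ p.w) ^ k = 0 := by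
    have h8 : ((∑ j ∈ range p.n, dig p.w N j * (2 ^ p.w) ^ j : ℕ) : ℤ) = (N : ℤ) := by rw [h6]
    rw [h5] at h8
    push_cast at h8
    rw [← sub_eq_zero, ← Finset.sum_sub_distrib] at h8
    rw [← h8]
    exact Finset.sum_congr rfl fun k _ => by ring
  have hy : ∀ k < p.n, dig p.w N k ≤ (if k = i then 2 ^ (p.w - 1) - 1 else 2 ^ (p.e + 1) - 1) := by
    intro k hk
    rw [← hmd k hk]
    exact dig_le_of_mask p.w k h3
  have h9 := uniq ((2 : ℤ) ^ p.w) (by positivity) p.n (fun k => (dig p.w N k : ℤ) - p.z i k)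
    (fun k hk => by
      have a1 := z_abs h i k hi hk
      have a2 := hy k hk
      have a3 : dig p.w N k ≤ 2 ^ (p.w - 1) - 1 := by
        refine a2.trans ?_
        split_ifs
        · exact le_rfl
        · omega
      have a4 : 0 < 2 ^ (p.w - 1) := by positivity
      have a5 : ((2 ^ p.w : ℕ) : ℤ) = (2 : ℤ) ^ p.w := by push_cast; ring
      have a6 : ((2 ^ (p.w - 1) : ℕ) : ℤ) = (2 : ℤ) ^ (p.w - 1) := by push_cast; ring
      rw [← a5, hw2]
      rw [← a6] at a1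
      rw [abs_le] at a1
      rw [abs_lt]
      push_cast at a1 ⊢
      have a7 : ((dig p.w N k : ℕ) : ℤ) ≤ 2 ^ (p.w - 1) - 1 := by
        have : dig p.w N k + 1 ≤ 2 ^ (p.w - 1) := by omega
        have : ((dig p.w N k + 1 : ℕ) : ℤ) ≤ ((2 ^ (p.w - 1) : ℕ) : ℤ) := by exact_mod_cast this
        push_cast at this
        linarith
      have a8 : (0 : ℤ) ≤ (dig p.w N k : ℤ) := by positivity
      constructor <;> linarith [a1.1, a1.2]) h7 j hj
  have h10 : p.z i j = dig p.w N j := by linarith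
  rw [h10]
  refine ⟨by positivity, fun hji => ?_⟩
  have h11 := hy j hj
  rw [if_neg hji] at h11
  have h12 : dig p.w N j + 1 ≤ 2 ^ (p.e + 1) := by omega
  have h13 : ((dig p.w N j + 1 : ℕ) : ℤ) ≤ ((2 ^ (p.e + 1) : ℕ) : ℤ) := by exact_mod_cast h12
  push_cast at h13
  linarith

theorem Qt_symm (h : p.Ok) (hr : p.rowsOK (ones p.w p.n) (lsum p.L) (lsum p.V) 0 p.Q = true)
    (i j : ℕ) (hi : i < p.n) (hj : j < p.n) : p.Qt i j = p.Qt j i := by
  by_cases hij : j = i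
  · rw [hij]
  obtain ⟨a1, a2⟩ := z_spec h hr i j hi hj
  obtain ⟨b1, b2⟩ := z_spec h hr j i hj hi
  have a2 := a2 hij
  have b2 := b2 (Ne.symm hij)
  rw [z, if_neg hij] at a1 a2
  rw [z, if_neg (Ne.symm hij)] at b1 b2
  rw [LT_symm p.w p.tv p.V j i, LT_symm p.w p.t p.L j i] at b1 b2
  have hs : (2 : ℤ) ^ (p.e + 1) ≤ p.s := by exact_mod_cast h.s
  have h1 : (p.s : ℤ) * (p.Qt i j - p.Qt j i) ≤ 2 ^ (p.e + 1) - 1 := by nlinarith
  have h2 : -(2 ^ (p.e + 1) - 1 : ℤ) ≤ (p.s : ℤ) * (p.Qt i j - p.Qt j i) := by nlinarith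
  have hs0 : (0 : ℤ) < p.s := lt_of_lt_of_le (by positivity) hs
  by_contra hne
  rcases lt_or_gt_of_ne hne with hlt | hgt
  · have : p.Qt i j - p.Qt j i ≤ -1 := by omega
    nlinarith
  · have : 1 ≤ p.Qt i j - p.Qt j i := by omega
    nlinarith

theorem ker_row (h : p.Ok) (v : ℕ) (hv : v ∈ p.V)
    (hk : p.kerOK1 (ones p.w p.n) (lsum p.Q) v = true) (i : ℕ) (hi : i < p.n) :
    ∑ j ∈ range p.n, ((dig p.w v j : ℤ) - p.tv) * p.Qt j i = 0 := by
  have h1 := Nat.eq_of_beq_eq_true hk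
  rw [combD_eq, rsD_eq, lsum_getD, h.len, ones_eq _ _ h.w1] at h1
  simp only [zero_add] at h1
  have hmem : ∀ k < p.n, p.Q.getD k 0 ∈ p.Q := by
    intro k hk
    have hk' : k < p.Q.length := by rw [h.len]; exact hk
    rw [List.getD_eq_getElem _ _ hk']
    exact List.getElem_mem hk'
  have hrow : ∀ k ∈ range p.n, p.Q.getD k 0 =
      ∑ i ∈ range p.n, dig p.w (p.Q.getD k 0) i * (2 ^ p.w) ^ i := fun k hk =>
    (sum_dig p.w p.n _ (h.q_lt _ (hmem k (Finset.mem_range.1 hk)))).symm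
  have h2 : ∑ i ∈ range p.n, (∑ j ∈ range p.n, ((dig p.w v j : ℤ) - p.tv) * p.Qt j i) *
      ((2 : ℤ) ^ p.w) ^ i = 0 := by
    have e1 : ∑ k ∈ range p.n, dig p.w v k * p.Q.getD k 0 =
        ∑ i ∈ range p.n, (∑ k ∈ range p.n, dig p.w v k * dig p.w (p.Q.getD k 0) i) *
          (2 ^ p.w) ^ i := by
      rw [Finset.sum_congr rfl fun k hk => by rw [hrow k hk]]
      simp only [Finset.mul_sum, Finset.sum_mul]
      rw [Finset.sum_comm]
      exact Finset.sum_congr rfl fun i _ => Finset.sum_congr rfl fun k hk => by ring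
    have e2 : ∑ k ∈ range p.n, p.Q.getD k 0 =
        ∑ i ∈ range p.n, (∑ k ∈ range p.n, dig p.w (p.Q.getD k 0) i) * (2 ^ p.w) ^ i := by
      rw [Finset.sum_congr rfl hrow]
      simp only [Finset.sum_mul]
      rw [Finset.sum_comm]
    rw [e1, e2] at h1
    have h3 : ((∑ i ∈ range p.n, (∑ k ∈ range p.n, dig p.w v k * dig p.w (p.Q.getD k 0) i) *
          (2 ^ p.w) ^ i + p.n * (p.tv * p.oq) * ∑ j ∈ range p.n, (2 ^ p.w) ^ j : ℕ) : ℤ) =
        ((p.tv * ∑ i ∈ range p.n, (∑ k ∈ range p.n, dig p.w (p.Q.getD k 0) i) * (2 ^ p.w) ^ i +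
          p.oq * (∑ k ∈ range p.n, dig p.w v k) * ∑ j ∈ range p.n, (2 ^ p.w) ^ j : ℕ) : ℤ) := by
      rw [h1]
    push_cast at h3
    have h4 : ∀ i ∈ range p.n, (∑ j ∈ range p.n, ((dig p.w v j : ℤ) - p.tv) * p.Qt j i) *
        ((2 : ℤ) ^ p.w) ^ i =
        (∑ k ∈ range p.n, (dig p.w v k : ℤ) * (dig p.w (p.Q.getD k 0) i : ℤ)) * ((2 : ℤ) ^ p.w) ^ i +
        (p.n : ℤ) * (p.tv * p.oq) * ((2 : ℤ) ^ p.w) ^ i -
        (p.tv * ((∑ k ∈ range p.n, (dig p.w (p.Q.getD k 0) i : ℤ)) * ((2 : ℤ) ^ p.w) ^ i) +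
        p.oq * (∑ k ∈ range p.n, (dig p.w v k : ℤ)) * ((2 : ℤ) ^ p.w) ^ i) := by
      intro i _
      have h5 : ∑ j ∈ range p.n, ((dig p.w v j : ℤ) - p.tv) * p.Qt j i =
          (∑ k ∈ range p.n, (dig p.w v k : ℤ) * (dig p.w (p.Q.getD k 0) i : ℤ)) +
          (p.n : ℤ) * (p.tv * p.oq) - p.tv * (∑ k ∈ range p.n, (dig p.w (p.Q.getD k 0) i : ℤ)) -
          p.oq * (∑ k ∈ range p.n, (dig p.w v k : ℤ)) := by
        have h6 : (p.n : ℤ) * (p.tv * p.oq) = ∑ _k ∈ range p.n, ((p.tv : ℤ) * p.oq) := by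
          rw [Finset.sum_const, Finset.card_range, nsmul_eq_mul]
        rw [h6, Finset.mul_sum, Finset.mul_sum, ← Finset.sum_add_distrib,
          ← Finset.sum_sub_distrib, ← Finset.sum_sub_distrib]
        refine Finset.sum_congr rfl fun k _ => ?_
        rw [Qt]
        ring
      rw [h5]
      ring
    rw [Finset.sum_congr rfl h4]
    simp only [Finset.sum_sub_distrib, Finset.sum_add_distrib, ← Finset.mul_sum]
    linarith
  refine uniq ((2 : ℤ) ^ p.w) (by positivity) p.n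
    (fun i => ∑ j ∈ range p.n, ((dig p.w v j : ℤ) - p.tv) * p.Qt j i) (fun i hi => ?_) h2 i hi
  have b1 : |∑ j ∈ range p.n, ((dig p.w v j : ℤ) - p.tv) * p.Qt j i| ≤
      ∑ j ∈ range p.n, (2 : ℤ) ^ p.wv * 2 ^ p.wq := by
    refine (Finset.abs_sum_le_sum_abs _ _).trans (Finset.sum_le_sum fun j hj => ?_)
    have hj' := Finset.mem_range.1 hj
    rw [abs_mul]
    have c1 := h.V_d v hv j hj'
    have c2 := h.tv
    have c3 := h.q_d _ (hmem j hj') i hi
    have c4 := h.oq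
    have a5 : ((2 ^ p.wv : ℕ) : ℤ) = (2 : ℤ) ^ p.wv := by push_cast; ring
    have a6 : ((2 ^ p.wq : ℕ) : ℤ) = (2 : ℤ) ^ p.wq := by push_cast; ring
    refine mul_le_mul ?_ ?_ (abs_nonneg _) (by positivity)
    · rw [← a5, abs_le]; constructor <;> omega
    · rw [← a6, Qt, abs_le]; constructor <;> omega
  refine b1.trans_lt ?_
  rw [Finset.sum_const, Finset.card_range, nsmul_eq_mul]
  have b2 := h.big2
  have b3 : 2 ^ (p.w - 1) ≤ 2 ^ p.w := Nat.pow_le_pow_right (by norm_num) (by omega)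
  exact_mod_cast b2.trans_le b3

end Data

/-! ### real quadratic forms -/

theorem dd_nonneg (n : ℕ) (R : ℕ → ℕ → ℝ) (δ : ℝ)
    (h1 : ∀ i < n, ∀ j < n, j ≠ i → |R i j| ≤ δ) (h2 : ∀ i < n, ((n : ℝ) - 1) * δ ≤ R i i)
    (v : ℕ → ℝ) : 0 ≤ ∑ i ∈ range n, ∑ j ∈ range n, R i j * v i * v j := by
  have key : ∀ i ∈ range n, ∀ j ∈ range n,
      -(δ * (v i ^ 2 + v j ^ 2) / 2) + (if j = i then n * δ * v i ^ 2 else 0) ≤
        R i j * v i * v j := by
    intro i hi j hj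
    have hi := Finset.mem_range.1 hi
    have hj := Finset.mem_range.1 hj
    split_ifs with hij
    · subst hij
      nlinarith [mul_le_mul_of_nonneg_right (h2 j hj) (sq_nonneg (v j))]
    · have h3 := h1 i hi j hj hij
      have h4 := abs_le.1 h3
      have h5 : |v i * v j| ≤ (v i ^ 2 + v j ^ 2) / 2 := by
        rw [abs_le]
        constructor
        · nlinarith [sq_nonneg (v i + v j)]
        · nlinarith [sq_nonneg (v i - v j)]
      have h6 : |R i j * (v i * v j)| ≤ δ * ((v i ^ 2 + v j ^ 2) / 2) := by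
        rw [abs_mul]
        exact mul_le_mul h3 h5 (abs_nonneg _) ((abs_nonneg _).trans h3)
      have h7 := (abs_le.1 h6).1
      linarith
  have h3 := Finset.sum_le_sum fun i hi => Finset.sum_le_sum (key i hi)
  refine le_trans (le_of_eq ?_) h3
  have e1 : ∀ i ∈ range n, ∑ j ∈ range n, (-(δ * (v i ^ 2 + v j ^ 2) / 2) +
      (if j = i then n * δ * v i ^ 2 else 0)) =
      (n * δ / 2) * v i ^ 2 - δ / 2 * ∑ j ∈ range n, v j ^ 2 := by
    intro i hi
    rw [Finset.sum_add_distrib, Finset.sum_ite_eq', if_pos hi]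
    have e2 : ∑ j ∈ range n, -(δ * (v i ^ 2 + v j ^ 2) / 2) =
        ∑ j ∈ range n, (-(δ / 2) * v i ^ 2 + -(δ / 2) * v j ^ 2) :=
      Finset.sum_congr rfl fun j _ => by ring
    rw [e2, Finset.sum_add_distrib, Finset.sum_const, Finset.card_range, nsmul_eq_mul,
      ← Finset.mul_sum]
    ring
  rw [Finset.sum_congr rfl e1, Finset.sum_sub_distrib, ← Finset.mul_sum, Finset.sum_const,
    Finset.card_range, nsmul_eq_mul]
  ring

theorem LT_form (w t n : ℕ) (cols : List ℕ) (v : ℕ → ℝ) :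
    ∑ i ∈ range n, ∑ j ∈ range n, (LT w t cols i j : ℝ) * v i * v j =
      (cols.map fun c => (∑ i ∈ range n, ((dig w c i : ℝ) - t) * v i) ^ 2).sum := by
  induction cols with
  | nil => simp [LT]
  | cons c cs ih =>
    rw [List.map_cons, List.sum_cons, ← ih]
    have e1 : (∑ i ∈ range n, ((dig w c i : ℝ) - t) * v i) ^ 2 =
        ∑ i ∈ range n, ∑ j ∈ range n, (((dig w c i : ℝ) - t) * v i) * (((dig w c j : ℝ) - t) * v j) := by
      rw [sq, Finset.sum_mul_sum]
    rw [e1, ← Finset.sum_add_distrib]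
    refine Finset.sum_congr rfl fun i _ => ?_
    rw [← Finset.sum_add_distrib]
    refine Finset.sum_congr rfl fun j _ => ?_
    simp only [LT, List.map_cons, List.sum_cons]
    push_cast
    ring

theorem list_sum_sq_nonneg (l : List ℕ) (f : ℕ → ℝ) : 0 ≤ (l.map fun c => f c ^ 2).sum := by
  induction l with
  | nil => simp
  | cons a l ih =>
    rw [List.map_cons, List.sum_cons]
    have := sq_nonneg (f a)
    linarith

/-- `Q` is positive semidefinite if it vanishes on `V` and is so orthogonally to `V` -/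
theorem psd_of_ker {n : ℕ} (Q : Fin n → Fin n → ℝ) (hs : ∀ i j, Q i j = Q j i)
    (S : Set (Fin n → ℝ)) (hk : ∀ v ∈ S, ∀ i, ∑ j, v j * Q j i = 0)
    (hp : ∀ y : Fin n → ℝ, (∀ v ∈ S, ∑ j, v j * y j = 0) → 0 ≤ ∑ i, ∑ j, Q i j * y i * y j)
    (x : Fin n → ℝ) : 0 ≤ ∑ i, ∑ j, Q i j * x i * x j := by
  let W : Submodule ℝ (EuclideanSpace ℝ (Fin n)) :=
    Submodule.span ℝ {u | ∃ v ∈ S, u = WithLp.toLp 2 v}
  obtain ⟨y, hy, z, hz, hyz⟩ := Submodule.exists_add_mem_mem_orthogonal (K := W) (WithLp.toLp 2 x)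
  have h0 : ∀ y ∈ W, ∀ i, ∑ j, y j * Q j i = 0 := by
    intro y hy i
    induction hy using Submodule.span_induction with
    | mem u hu =>
      obtain ⟨v, hv, rfl⟩ := hu
      exact hk v hv i
    | zero => simp
    | add a b _ _ ha hb =>
      simp only [PiLp.add_apply, add_mul, Finset.sum_add_distrib, ha, hb, add_zero]
    | smul c a _ ha =>
      simp only [PiLp.smul_apply, smul_eq_mul, mul_assoc, ← Finset.mul_sum, ha, mul_zero]
  have h1 := h0 y hy
  have h2 : ∀ v ∈ S, ∑ j, v j * z j = 0 := by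
    intro v hv
    have h3 := (Submodule.mem_orthogonal W z).1 hz (WithLp.toLp 2 v)
      (Submodule.subset_span ⟨v, hv, rfl⟩)
    rw [PiLp.inner_apply] at h3
    simpa [mul_comm] using h3
  have h3 : ∀ i, x i = y i + z i := by
    intro i
    have := congrArg (fun u : EuclideanSpace ℝ (Fin n) => u i) hyz
    simpa using this
  have h4 := hp (fun i => z i) h2
  refine le_of_le_of_eq h4 ?_
  have e1 : ∀ i j, Q i j * x i * x j = Q i j * z i * z j + (y i * Q i j) * x j +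
      (y j * Q j i) * z i := by
    intro i j
    rw [h3 i, h3 j, hs j i]
    ring
  simp only [e1, Finset.sum_add_distrib]
  have e2 : ∑ i, ∑ j, y i * Q i j * x j = 0 := by
    rw [Finset.sum_comm]
    refine Finset.sum_eq_zero fun j _ => ?_
    rw [← Finset.sum_mul, h1 j, zero_mul]
  have e3 : ∑ i, ∑ j, y j * Q j i * z i = 0 := by
    refine Finset.sum_eq_zero fun i _ => ?_
    rw [← Finset.sum_mul, h1 i, zero_mul]
  rw [e2, e3, add_zero, add_zero]

namespace Data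

variable {p : Data}

theorem tilde_nonneg (h : p.Ok)
    (hr : p.rowsOK (ones p.w p.n) (lsum p.L) (lsum p.V) 0 p.Q = true) (v : ℕ → ℝ) :
    0 ≤ ∑ i ∈ range p.n, ∑ j ∈ range p.n,
      ((p.Qt i j : ℝ) + p.mu * LT p.w p.tv p.V i j) * v i * v j := by
  have hs : (0 : ℝ) < p.s := by
    have h1 := h.s
    have h2 : 0 < 2 ^ (p.e + 1) := by positivity
    exact_mod_cast lt_of_lt_of_le h2 h1
  have h1 := dd_nonneg p.n (fun i j => (p.s : ℝ) * ((p.Qt i j : ℝ) + p.mu * LT p.w p.tv p.V i j) -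
    LT p.w p.t p.L i j) (2 ^ p.e) (by
      intro i hi j hj hij
      obtain ⟨a1, a2⟩ := z_spec h hr i j hi hj
      have a2 := a2 hij
      rw [z, if_neg hij] at a1 a2
      have b1 : (0 : ℝ) ≤ (p.s : ℝ) * (p.Qt i j : ℝ) + p.s * p.mu * LT p.w p.tv p.V i j -
        LT p.w p.t p.L i j + 2 ^ p.e - 0 := by exact_mod_cast a1
      have b2 : (p.s : ℝ) * (p.Qt i j : ℝ) + p.s * p.mu * LT p.w p.tv p.V i j -
        LT p.w p.t p.L i j + 2 ^ p.e - 0 ≤ 2 ^ (p.e + 1) - 1 := by exact_mod_cast a2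
      rw [abs_le]
      rw [pow_succ] at b2
      constructor <;> linarith) (by
      intro i hi
      obtain ⟨a1, -⟩ := z_spec h hr i i hi hi
      rw [z, if_pos rfl] at a1
      have b1 : (0 : ℝ) ≤ (p.s : ℝ) * (p.Qt i i : ℝ) + p.s * p.mu * LT p.w p.tv p.V i i -
        LT p.w p.t p.L i i + 2 ^ p.e - p.n * 2 ^ p.e := by exact_mod_cast a1
      linarith) v
  have h2 : 0 ≤ ∑ i ∈ range p.n, ∑ j ∈ range p.n, (LT p.w p.t p.L i j : ℝ) * v i * v j := by
    rw [LT_form]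
    exact list_sum_sq_nonneg _ _
  have h3 : (p.s : ℝ) * ∑ i ∈ range p.n, ∑ j ∈ range p.n,
      ((p.Qt i j : ℝ) + p.mu * LT p.w p.tv p.V i j) * v i * v j =
      ∑ i ∈ range p.n, ∑ j ∈ range p.n, ((p.s : ℝ) * ((p.Qt i j : ℝ) +
        p.mu * LT p.w p.tv p.V i j) - LT p.w p.t p.L i j) * v i * v j +
      ∑ i ∈ range p.n, ∑ j ∈ range p.n, (LT p.w p.t p.L i j : ℝ) * v i * v j := by
    rw [Finset.mul_sum, ← Finset.sum_add_distrib]
    refine Finset.sum_congr rfl fun i _ => ?_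
    rw [Finset.mul_sum, ← Finset.sum_add_distrib]
    refine Finset.sum_congr rfl fun j _ => ?_
    ring
  have h4 : 0 ≤ (p.s : ℝ) * ∑ i ∈ range p.n, ∑ j ∈ range p.n,
      ((p.Qt i j : ℝ) + p.mu * LT p.w p.tv p.V i j) * v i * v j := by
    rw [h3]; exact add_nonneg h1 h2
  exact nonneg_of_mul_nonneg_right h4 hs

/-- SOUNDNESS, version over `Fin n` -/
theorem sound_fin (h : p.check = true) (x : Fin p.n → ℝ) :
    0 ≤ ∑ i : Fin p.n, ∑ j : Fin p.n, (p.Qt i j : ℝ) * x i * x j := by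
  have ok := ok_of_check h
  simp only [check, Bool.and_eq_true] at h
  obtain ⟨-, -, -, -, hk, hr⟩ := h
  refine psd_of_ker (fun i j : Fin p.n => (p.Qt i j : ℝ)) (fun i j => by
      rw [Qt_symm ok hr i j i.2 j.2])
    {u | ∃ v ∈ p.V, u = fun i : Fin p.n => (dig p.w v i : ℝ) - p.tv} ?_ ?_ x
  · rintro u ⟨v, hv, rfl⟩ i
    have h1 := ker_row ok v hv (ker_spec p.V hk v hv) i i.2
    have h2 : ∑ j ∈ range p.n, ((dig p.w v j : ℝ) - p.tv) * (p.Qt j i : ℝ) = 0 := by
      exact_mod_cast h1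
    rw [Finset.sum_range] at h2
    exact h2
  · intro y hy
    have h1 := tilde_nonneg ok hr (fun i => if hi : i < p.n then y ⟨i, hi⟩ else 0)
    have e1 : ∑ i ∈ range p.n, ∑ j ∈ range p.n,
        ((p.Qt i j : ℝ) + p.mu * LT p.w p.tv p.V i j) *
        (if hi : i < p.n then y ⟨i, hi⟩ else 0) * (if hj : j < p.n then y ⟨j, hj⟩ else 0) =
        ∑ i ∈ range p.n, ∑ j ∈ range p.n, (p.Qt i j : ℝ) *
          (if hi : i < p.n then y ⟨i, hi⟩ else 0) * (if hj : j < p.n then y ⟨j, hj⟩ else 0) +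
        p.mu * ∑ i ∈ range p.n, ∑ j ∈ range p.n, (LT p.w p.tv p.V i j : ℝ) *
          (if hi : i < p.n then y ⟨i, hi⟩ else 0) * (if hj : j < p.n then y ⟨j, hj⟩ else 0) := by
      rw [Finset.mul_sum, ← Finset.sum_add_distrib]
      refine Finset.sum_congr rfl fun i _ => ?_
      rw [Finset.mul_sum, ← Finset.sum_add_distrib]
      refine Finset.sum_congr rfl fun j _ => ?_
      ring
    rw [e1, LT_form] at h1
    have e2 : (p.V.map fun c => (∑ i ∈ range p.n, ((dig p.w c i : ℝ) - p.tv) *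
        (if hi : i < p.n then y ⟨i, hi⟩ else 0)) ^ 2).sum = 0 := by
      rw [List.sum_eq_zero]
      intro a ha
      obtain ⟨c, hc, rfl⟩ := List.mem_map.1 ha
      have h2 := hy _ ⟨c, hc, rfl⟩
      have h3 : ∑ i ∈ range p.n, ((dig p.w c i : ℝ) - p.tv) *
          (if hi : i < p.n then y ⟨i, hi⟩ else 0) = 0 := by
        rw [Finset.sum_range]
        simpa using h2
      rw [h3]
      norm_num
    rw [e2, mul_zero, add_zero, Finset.sum_range] at h1
    refine le_of_le_of_eq h1 ?_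
    refine Finset.sum_congr rfl fun i _ => ?_
    rw [Finset.sum_range]
    refine Finset.sum_congr rfl fun j _ => ?_
    simp

/-- SOUNDNESS, version over `range n` -/
theorem sound (h : p.check = true) (v : ℕ → ℝ) :
    0 ≤ ∑ i ∈ range p.n, ∑ j ∈ range p.n, (p.Qt i j : ℝ) * v i * v j := by
  have h1 := sound_fin h fun i => v i
  rw [Finset.sum_range]
  refine le_of_le_of_eq h1 (Finset.sum_congr rfl fun i _ => ?_)
  rw [Finset.sum_range]

end Data

end Chk

end HR
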