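import Pool.Agent.Lib.MP_a1b8b7_co.B.Inst

/-!
# Final step for the tilt version (one mark per pair)

The certificate is linear in `s = 1/10 - c` and `θ'' = 10 θ c ≤ θ`.
-/

set_option autoImplicit false

open Finset

namespace HR

namespace Fl

theorem L2_one {V S : Type} [Fintype V] [Fintype S] {x : V → ℝ} {P : V → V → S → ℝ}
    (h : Net x P) : L2 x P (fun _ => 1) = 1 := by
  have h2 : ∑ u, ∑ v, x u * x v = 1 := by
    simp only [← Finset.mul_sum, h.x1, mul_one]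
  unfold L2
  simp only [mul_one, h.P1, h2]

theorem L_three {V S : Type} [Fintype V] [Fintype S] {x : V → ℝ} {P : V → V → S → ℝ}
    (h : Net x P) (H : (Fin 3 → S) → ℝ) : L x P (fun F => H ![F 0, F 1, F 2]) = L3 x P H := by
  have := L_prod h H (fun _ => 1)
  rw [L2_one h, mul_one] at this
  rw [← this]
  congr 1
  funext F
  rw [mul_one]

/-- A pair of functions `g0, g1` with `θ L g1 ≤ L g0` and `0 ≤ L g1` for all tilt data. -/
def VT (g0 g1 : (Fin 10 → Fin 4) → ℝ) : Prop :=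
  ∀ (n : ℕ) (x : Fin n → ℝ) (p w wB : Fin n → Fin n → ℝ) (θ c : ℝ), Tilt x p w wB θ c →
    θ * L x (P4 p w wB) g1 ≤ L x (P4 p w wB) g0 ∧ 0 ≤ L x (P4 p w wB) g1

theorem VT.add {g0 g1 h0 h1 : (Fin 10 → Fin 4) → ℝ} (hg : VT g0 g1) (hh : VT h0 h1) :
    VT (fun F => g0 F + h0 F) (fun F => g1 F + h1 F) := by
  intro n x p w wB θ c ht
  obtain ⟨a1, a2⟩ := hg n x p w wB θ c ht
  obtain ⟨b1, b2⟩ := hh n x p w wB θ c ht
  rw [L_add, L_add]
  exact ⟨by linarith, by linarith⟩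

theorem L_zero {V S : Type} [Fintype V] [Fintype S] (x : V → ℝ) (P : V → V → S → ℝ) :
    L x P (fun _ => 0) = 0 := by
  unfold L
  simp

theorem vt_of_nonneg {g : (Fin 10 → Fin 4) → ℝ}
    (hg : ∀ (n : ℕ) (x : Fin n → ℝ) (p w wB : Fin n → Fin n → ℝ) (θ c : ℝ), Tilt x p w wB θ c →
      0 ≤ L x (P4 p w wB) g) : VT g (fun _ => 0) := by
  intro n x p w wB θ c ht
  rw [L_zero, mul_zero]
  exact ⟨hg n x p w wB θ c ht, le_rfl⟩

/-- pointwise nonnegative functions -/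
theorem vt_pos {g : (Fin 10 → Fin 4) → ℝ} (hg : ∀ F, 0 ≤ g F) : VT g (fun _ => 0) :=
  vt_of_nonneg fun _ _ _ _ _ _ _ ht => L_nonneg (net4 (pre_of_tilt ht)) hg

/-- psd forms on types of size three -/
theorem vt_psd3 (Q : (Fin 3 → Fin 4) → (Fin 3 → Fin 4) → (Fin 3 → Fin 4) → ℝ)
    (hQ : ∀ (A : Fin 3 → Fin 4) (y : (Fin 3 → Fin 4) → ℝ),
      0 ≤ ∑ B, ∑ C, Q A B C * (y B * y C)) :
    VT (fun F => Q ![F 0, F 1, F 2] ![F 3, F 4, F 5] ![F 6, F 7, F 8]) (fun _ => 0) :=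
  vt_of_nonneg fun _ _ _ _ _ _ _ ht => L_psd3 (net4 (pre_of_tilt ht)) Q hQ

/-- psd forms on types of size one -/
theorem vt_psd1 (Q : (Fin 3 → Fin 4) → (Fin 3 → Fin 4) → ℝ)
    (hQ : ∀ y : (Fin 3 → Fin 4) → ℝ, 0 ≤ ∑ B, ∑ C, Q B C * (y B * y C)) :
    VT (fun F => Q ![F 0, F 1, F 2] ![F 3, F 6, F 9]) (fun _ => 0) :=
  vt_of_nonneg fun _ _ _ _ _ _ _ ht => L_psd1 (net4 (pre_of_tilt ht)) Q hQ

/-- psd forms on the empty type -/
theorem vt_psd0 (Q : Fin 4 → Fin 4 → ℝ)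
    (hQ : ∀ y : Fin 4 → ℝ, 0 ≤ ∑ s, ∑ t, Q s t * (y s * y t)) :
    VT (fun F => Q (F 0) (F 9)) (fun _ => 0) :=
  vt_of_nonneg fun _ _ _ _ _ _ _ ht => L_psd0 (net4 (pre_of_tilt ht)) Q hQ

theorem hR_of_tilt {n : ℕ} {x : Fin n → ℝ} {p w wB : Fin n → Fin n → ℝ} {θ c : ℝ}
    (ht : Tilt x p w wB θ c) (u v t : Fin n)
    (h : 0 < x u * x v * x t * (p u v * p v t * p u t)) : 1 + θ ≤ w u v + w v t + w u t := by
  have h1 := ht.Rt u v t
  by_contra hneg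
  rw [not_le] at hneg
  have := mul_neg_of_pos_of_neg h (sub_neg.2 hneg)
  linarith

/-- blue triangle rows -/
theorem vt_blue (T : Fin 2 → Fin 2 → Fin 2 → ℝ) (hT : Adm 1 T)
    (m : (Fin 3 → Fin 4) → (Fin 3 → Fin 4) → Fin 4 → ℝ) (hm : ∀ B C s, 0 ≤ m B C s) :
    VT (fun F => blue3 T ![F 0, F 1, F 2] * m ![F 3, F 4, F 5] ![F 6, F 7, F 8] (F 9))
      (fun _ => 0) :=
  vt_of_nonneg fun _ _ _ _ _ _ _ ht => L_tri (net4 (pre_of_tilt ht)) _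
    (ht_blue (pre_of_tilt ht) 1 ht.Bt T hT) m hm

/-- blue triangle rows, localised psd form -/
theorem vt_blue_loc (T : Fin 2 → Fin 2 → Fin 2 → ℝ) (hT : Adm 1 T)
    (Q : (Fin 3 → Fin 4) → (Fin 3 → Fin 4) → ℝ)
    (hQ : ∀ y : (Fin 3 → Fin 4) → ℝ, 0 ≤ ∑ B, ∑ C, Q B C * (y B * y C)) :
    VT (fun F => blue3 T ![F 0, F 1, F 2] * Q ![F 3, F 4, F 5] ![F 6, F 7, F 8])
      (fun _ => 0) :=
  vt_of_nonneg fun _ _ _ _ _ _ _ ht => L_loc3 (net4 (pre_of_tilt ht)) _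
    (ht_blue (pre_of_tilt ht) 1 ht.Bt T hT) Q hQ

theorem red3_sub (T T' : Fin 2 → Fin 2 → Fin 2 → ℝ) (θ : ℝ) (A : Fin 3 → Fin 4) :
    red3 (fun i j k => T i j k - θ * T' i j k) A = red3 T A - θ * red3 T' A := by
  unfold red3
  generalize A 0 = a
  generalize A 1 = b
  generalize A 2 = c
  fin_cases a <;> fin_cases b <;> fin_cases c <;> simp

theorem red3_nonneg {T : Fin 2 → Fin 2 → Fin 2 → ℝ} (hT : ∀ i j k, 0 ≤ T i j k)
    (A : Fin 3 → Fin 4) : 0 ≤ red3 T A := by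
  unfold red3
  generalize A 0 = a
  generalize A 1 = b
  generalize A 2 = c
  fin_cases a <;> fin_cases b <;> fin_cases c <;> simp [hT]

/-- red triangle rows: the table `T - θ T'` must be admissible for the bound `1 + θ` -/
theorem vt_red (T T' : Fin 2 → Fin 2 → Fin 2 → ℝ) (hT' : ∀ i j k, 0 ≤ T' i j k)
    (hT : ∀ θ : ℝ, 0 ≤ θ → Adm (1 + θ) (fun i j k => T i j k - θ * T' i j k))
    (m : (Fin 3 → Fin 4) → (Fin 3 → Fin 4) → Fin 4 → ℝ) (hm : ∀ B C s, 0 ≤ m B C s) :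
    VT (fun F => red3 T ![F 0, F 1, F 2] * m ![F 3, F 4, F 5] ![F 6, F 7, F 8] (F 9))
      (fun F => red3 T' ![F 0, F 1, F 2] * m ![F 3, F 4, F 5] ![F 6, F 7, F 8] (F 9)) := by
  intro n x p w wB θ c ht
  have hN := net4 (pre_of_tilt ht)
  have h1 := L_tri hN _ (ht_red (pre_of_tilt ht) (1 + θ) (hR_of_tilt ht) _ (hT θ ht.θ0)) m hm
  refine ⟨?_, L_nonneg hN fun F => mul_nonneg (red3_nonneg hT' _) (hm _ _ _)⟩
  have h2 : (fun F : Fin 10 → Fin 4 => red3 (fun i j k => T i j k - θ * T' i j k)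
      ![F 0, F 1, F 2] * m ![F 3, F 4, F 5] ![F 6, F 7, F 8] (F 9)) =
      fun F => red3 T ![F 0, F 1, F 2] * m ![F 3, F 4, F 5] ![F 6, F 7, F 8] (F 9) -
        θ * (red3 T' ![F 0, F 1, F 2] * m ![F 3, F 4, F 5] ![F 6, F 7, F 8] (F 9)) := by
    funext F
    rw [red3_sub]
    ring
  rw [h2, L_sub, L_smul] at h1
  linarith

/-- red triangle rows, localised psd form; here `L` of the `θ` part is nonnegative because of the
form -/
theorem vt_red_loc (T T' : Fin 2 → Fin 2 → Fin 2 → ℝ) (hT' : ∀ i j k, 0 ≤ T' i j k)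
    (hT : ∀ θ : ℝ, 0 ≤ θ → Adm (1 + θ) (fun i j k => T i j k - θ * T' i j k))
    (Q : (Fin 3 → Fin 4) → (Fin 3 → Fin 4) → ℝ)
    (hQ : ∀ y : (Fin 3 → Fin 4) → ℝ, 0 ≤ ∑ B, ∑ C, Q B C * (y B * y C)) :
    VT (fun F => red3 T ![F 0, F 1, F 2] * Q ![F 3, F 4, F 5] ![F 6, F 7, F 8])
      (fun F => red3 T' ![F 0, F 1, F 2] * Q ![F 3, F 4, F 5] ![F 6, F 7, F 8]) := by
  intro n x p w wB θ c ht
  have hN := net4 (pre_of_tilt ht)
  have h1 := L_loc3 hN _ (ht_red (pre_of_tilt ht) (1 + θ) (hR_of_tilt ht) _ (hT θ ht.θ0)) Q hQ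
  refine ⟨?_, L_loc3 hN _ (fun a => Finset.sum_nonneg fun A _ =>
    mul_nonneg (W3_nonneg hN a A) (red3_nonneg hT' A)) Q hQ⟩
  have h2 : (fun F : Fin 10 → Fin 4 => red3 (fun i j k => T i j k - θ * T' i j k)
      ![F 0, F 1, F 2] * Q ![F 3, F 4, F 5] ![F 6, F 7, F 8]) =
      fun F => red3 T ![F 0, F 1, F 2] * Q ![F 3, F 4, F 5] ![F 6, F 7, F 8] -
        θ * (red3 T' ![F 0, F 1, F 2] * Q ![F 3, F 4, F 5] ![F 6, F 7, F 8]) := by
    funext F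
    rw [red3_sub]
    ring
  rw [h2, L_sub, L_smul] at h1
  linarith

/-- **Final step of the tilt version.** -/
theorem tilt_final (yR yB : (Fin 3 → Fin 4) → ℝ) (κ : (Fin 6 → Fin 4) → ℝ)
    (N0 N1 : (Fin 10 → Fin 4) → ℝ) (hN : VT N0 N1)
    (hC : ∀ F : Fin 10 → Fin 4, ∑ π : Equiv.Perm (Fin 5),
      (fun F : Fin 10 → Fin 4 => yR ![F 0, F 1, F 2] * (ind 1 (F 9) - 1 / 10) +
        yB ![F 0, F 1, F 2] * (ind 3 (F 9) - 1 / 10) +
        κ ![F 0, F 1, F 2, F 3, F 4, F 5] * (ind 1 (F 6) + ind 3 (F 6) - 1 / 5) + N0 F)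
        (F ∘ pe π) ≤ 0)
    (hs : ∀ (n : ℕ) (x : Fin n → ℝ) (p w wB : Fin n → Fin n → ℝ) (θ c : ℝ), Tilt x p w wB θ c →
      c < 1 / 10 →
      0 < L x (P4 p w wB) (fun F => -yR ![F 0, F 1, F 2] - yB ![F 0, F 1, F 2] -
        2 * κ ![F 0, F 1, F 2, F 3, F 4, F 5]))
    (hθ : ∀ (n : ℕ) (x : Fin n → ℝ) (p w wB : Fin n → Fin n → ℝ) (θ c : ℝ), Tilt x p w wB θ c →
      c < 1 / 10 →
      0 ≤ L x (P4 p w wB) (fun F => (1 / 10) * (yR ![F 0, F 1, F 2] +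
        κ ![F 0, F 1, F 2, F 3, F 4, F 5]) + N1 F)) : S_Model := by
  refine model_of_tilt fun n x p w wB θ c ht => ?_
  by_contra hlt
  rw [not_le] at hlt
  have hP := pre_of_tilt ht
  have hNet := net4 hP
  obtain ⟨a1, a2⟩ := hN n x p w wB θ c ht
  have hθ0 := ht.θ0
  have hc0 := ht.c0
  -- the rows
  have r1 : L x (P4 p w wB) (fun F => yR ![F 0, F 1, F 2] * (ind 1 (F 9) - 1 / 10)) =
      L3 x (P4 p w wB) yR * ((1 + θ) * c - 1 / 10) := by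
    rw [L_prod hNet yR (fun s => ind 1 s - 1 / 10), L2_const hNet, L2_ind1, ht.r]
  have r2 : L x (P4 p w wB) (fun F => yB ![F 0, F 1, F 2] * (ind 3 (F 9) - 1 / 10)) =
      L3 x (P4 p w wB) yB * (c - 1 / 10) := by
    rw [L_prod hNet yB (fun s => ind 3 s - 1 / 10), L2_const hNet, L2_ind3, ht.b]
  have r3 : L x (P4 p w wB) (fun F => κ ![F 0, F 1, F 2, F 3, F 4, F 5] *
      (ind 1 (F 6) + ind 3 (F 6) - 1 / 5)) =
      ((2 + θ) * c - 1 / 5) * L x (P4 p w wB) (fun F => κ ![F 0, F 1, F 2, F 3, F 4, F 5]) := by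
    have e1 := L_root_zero hNet κ (fun s => (ind 1 s + ind 3 s) - (2 + θ) * c) (fun u => by
      rw [deg_const hNet, deg_add, deg_ind1, deg_ind3]
      exact ht.k1 u)
    rw [← L_smul]
    have e2 : (fun F : Fin 10 → Fin 4 => κ ![F 0, F 1, F 2, F 3, F 4, F 5] *
        (ind 1 (F 6) + ind 3 (F 6) - 1 / 5)) =
        fun F => κ ![F 0, F 1, F 2, F 3, F 4, F 5] *
          ((fun s => (ind 1 s + ind 3 s) - (2 + θ) * c) (F 6)) +
          ((2 + θ) * c - 1 / 5) * κ ![F 0, F 1, F 2, F 3, F 4, F 5] := by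
      funext F
      ring
    rw [e2, L_add, e1, zero_add]
  have h0 := L_nonneg_of_symm hNet (fun F : Fin 10 → Fin 4 =>
    -(yR ![F 0, F 1, F 2] * (ind 1 (F 9) - 1 / 10) +
        yB ![F 0, F 1, F 2] * (ind 3 (F 9) - 1 / 10) +
        κ ![F 0, F 1, F 2, F 3, F 4, F 5] * (ind 1 (F 6) + ind 3 (F 6) - 1 / 5) + N0 F))
    (fun F => by
      have := hC F
      rw [Finset.sum_neg_distrib]
      exact neg_nonneg.2 this)
  have h1 : L x (P4 p w wB) (fun F : Fin 10 → Fin 4 =>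
    -(yR ![F 0, F 1, F 2] * (ind 1 (F 9) - 1 / 10) +
        yB ![F 0, F 1, F 2] * (ind 3 (F 9) - 1 / 10) +
        κ ![F 0, F 1, F 2, F 3, F 4, F 5] * (ind 1 (F 6) + ind 3 (F 6) - 1 / 5) + N0 F)) =
      -(L3 x (P4 p w wB) yR * ((1 + θ) * c - 1 / 10) + L3 x (P4 p w wB) yB * (c - 1 / 10) +
        ((2 + θ) * c - 1 / 5) *
          L x (P4 p w wB) (fun F => κ ![F 0, F 1, F 2, F 3, F 4, F 5]) +
        L x (P4 p w wB) N0) := by
    have e := L_smul x (P4 p w wB) (-1) (fun F : Fin 10 → Fin 4 =>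
      yR ![F 0, F 1, F 2] * (ind 1 (F 9) - 1 / 10) +
        yB ![F 0, F 1, F 2] * (ind 3 (F 9) - 1 / 10) +
        κ ![F 0, F 1, F 2, F 3, F 4, F 5] * (ind 1 (F 6) + ind 3 (F 6) - 1 / 5) + N0 F)
    rw [L_add, L_add, L_add, r1, r2, r3] at e
    simp only [neg_one_mul] at e
    exact e
  rw [h1] at h0
  have h2 := hs n x p w wB θ c ht hlt
  have h3 := hθ n x p w wB θ c ht hlt
  have h2' : L x (P4 p w wB) (fun F => -yR ![F 0, F 1, F 2] - yB ![F 0, F 1, F 2] -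
        2 * κ ![F 0, F 1, F 2, F 3, F 4, F 5]) = -L3 x (P4 p w wB) yR - L3 x (P4 p w wB) yB -
        2 * L x (P4 p w wB) (fun F => κ ![F 0, F 1, F 2, F 3, F 4, F 5]) := by
    rw [L_sub, L_smul, L_sub, L_three hNet yB]
    have := L_smul x (P4 p w wB) (-1) (fun F : Fin 10 → Fin 4 => yR ![F 0, F 1, F 2])
    simp only [neg_one_mul] at this
    rw [this, L_three hNet yR]
  have h3' : L x (P4 p w wB) (fun F => (1 / 10) * (yR ![F 0, F 1, F 2] +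
        κ ![F 0, F 1, F 2, F 3, F 4, F 5]) + N1 F) = (1 / 10) * (L3 x (P4 p w wB) yR +
        L x (P4 p w wB) (fun F => κ ![F 0, F 1, F 2, F 3, F 4, F 5])) +
        L x (P4 p w wB) N1 := by
    rw [L_add, L_smul, L_add, L_three hNet yR]
  rw [h2'] at h2
  rw [h3'] at h3
  set A := L3 x (P4 p w wB) yR
  set B := L3 x (P4 p w wB) yB
  set K := L x (P4 p w wB) (fun F => κ ![F 0, F 1, F 2, F 3, F 4, F 5])
  set M0 := L x (P4 p w wB) N0
  set M1 := L x (P4 p w wB) N1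
  have h4 : 0 < (1 / 10 - c) * (-A - B - 2 * K) := mul_pos (by linarith) h2
  have h5 : 0 ≤ (10 * θ * c) * ((1 / 10) * (A + K) + M1) :=
    mul_nonneg (by positivity) h3
  have h6 : (10 * θ * c) * M1 ≤ θ * M1 := by
    refine mul_le_mul_of_nonneg_right ?_ a2
    nlinarith
  nlinarith [h4, h5, h6, h0, a1]

end Fl

end HR
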